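import Pool.Agent.Lib_helper21.AV.Defs

/-! # EXb: a product over primes as a sum over factorisations -/

set_option autoImplicit false

namespace Pool.Agent.AV

open Finset

/-- the set of primes with colour `l` -/
def EXb_T (d : ℕ) (φ : d.primeFactors → Fin 4) (l : Fin 4) : Finset ℕ :=
  (univ.filter (fun x : d.primeFactors => φ x = l)).map (Function.Embedding.subtype _)

theorem EXb_T_mem (d : ℕ) (φ : d.primeFactors → Fin 4) (l : Fin 4) (p : ℕ) :
    p ∈ EXb_T d φ l ↔ ∃ h : p ∈ d.primeFactors, φ ⟨p, h⟩ = l := by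
  simp only [EXb_T, mem_map, mem_filter, mem_univ, true_and, Function.Embedding.subtype_apply]
  constructor
  · rintro ⟨x, hx, rfl⟩
    exact ⟨x.2, hx⟩
  · rintro ⟨h, hx⟩
    exact ⟨⟨p, h⟩, hx, rfl⟩

theorem EXb_T_sub (d : ℕ) (φ : d.primeFactors → Fin 4) (l : Fin 4) :
    EXb_T d φ l ⊆ d.primeFactors := by
  intro p hp
  obtain ⟨h, _⟩ := (EXb_T_mem d φ l p).1 hp
  exact h

theorem EXb_T_pf (d : ℕ) (φ : d.primeFactors → Fin 4) (l : Fin 4) :
    (∏ p ∈ EXb_T d φ l, p).primeFactors = EXb_T d φ l :=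
  Nat.primeFactors_prod (fun _ hp => Nat.prime_of_mem_primeFactors (EXb_T_sub d φ l hp))

theorem EXb_T_prod (d : ℕ) (hd : Squarefree d) (φ : d.primeFactors → Fin 4) :
    ∏ l, ∏ p ∈ EXb_T d φ l, p = d := by
  simp only [EXb_T, prod_map, Function.Embedding.subtype_apply]
  rw [prod_fiberwise univ φ (fun x : d.primeFactors => (x : ℕ))]
  exact (Finset.prod_coe_sort d.primeFactors (fun x => x)).trans (Nat.prod_primeFactors_of_squarefree hd)

theorem EXb_uniq {d : ℕ} (hd : Squarefree d) {E : Fin 4 → ℕ} (hE : ∏ l, E l = d) {p : ℕ}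
    (hp : p.Prime) {l m : Fin 4} (hl : p ∣ E l) (hm : p ∣ E m) : l = m := by
  by_contra hne
  have h1 : E l * E m ∣ ∏ l, E l := by
    rw [← Finset.prod_pair hne]
    exact Finset.prod_dvd_prod_of_subset _ _ _ (subset_univ _)
  have h2 : p * p ∣ d := by
    rw [← hE]
    exact (mul_dvd_mul hl hm).trans h1
  have := hd p h2
  exact hp.one_lt.ne' (Nat.isUnit_iff.1 this)

theorem expand_one (d : ℕ) (hd : Squarefree d) (g : Fin 4 → ℕ → ℝ) :
    ∏ p ∈ d.primeFactors, ∑ l, g l p =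
      ∑ E ∈ (Fintype.piFinset fun _ : Fin 4 => d.divisors).filter (fun E => ∏ l, E l = d),
        ∏ l, ∏ p ∈ (E l).primeFactors, g l p := by
  have hd0 : d ≠ 0 := hd.ne_zero
  rw [← Finset.prod_coe_sort d.primeFactors (fun p => ∑ l, g l p),
    Finset.prod_univ_sum, Fintype.piFinset_univ]
  refine Finset.sum_bij (fun φ _ => fun l => ∏ p ∈ EXb_T d φ l, p) ?_ ?_ ?_ ?_
  · intro φ _
    rw [mem_filter, Fintype.mem_piFinset]
    refine ⟨fun l => ?_, EXb_T_prod d hd φ⟩
    rw [Nat.mem_divisors]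
    refine ⟨?_, hd0⟩
    have h := EXb_T_prod d hd φ
    conv_rhs => rw [← h]
    exact Finset.dvd_prod_of_mem (fun l => ∏ p ∈ EXb_T d φ l, p) (mem_univ l)
  · intro φ _ ψ _ h
    funext x
    have h1 : ∏ p ∈ EXb_T d φ (φ x), p = ∏ p ∈ EXb_T d ψ (φ x), p := congrFun h (φ x)
    have h2 : EXb_T d φ (φ x) = EXb_T d ψ (φ x) := by
      rw [← EXb_T_pf d φ (φ x), ← EXb_T_pf d ψ (φ x), h1]
    have h3 : (x : ℕ) ∈ EXb_T d φ (φ x) := (EXb_T_mem _ _ _ _).2 ⟨x.2, rfl⟩
    rw [h2] at h3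
    obtain ⟨_, h4⟩ := (EXb_T_mem _ _ _ _).1 h3
    exact h4.symm
  · intro E hE
    rw [mem_filter, Fintype.mem_piFinset] at hE
    obtain ⟨h1, h2⟩ := hE
    have hex : ∀ x : d.primeFactors, ∃ l, (x : ℕ) ∣ E l := by
      intro x
      have hp : (x : ℕ).Prime := Nat.prime_of_mem_primeFactors x.2
      have hdv : (x : ℕ) ∣ ∏ l, E l := by
        rw [h2]; exact Nat.dvd_of_mem_primeFactors x.2
      obtain ⟨l, _, hl⟩ := (Prime.dvd_finsetProd_iff hp.prime _).1 hdv
      exact ⟨l, hl⟩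
    choose φ hφ using hex
    refine ⟨φ, mem_univ _, ?_⟩
    funext l
    have hEl : E l ∣ d := Nat.dvd_of_mem_divisors (h1 l)
    have hsq : Squarefree (E l) := hd.squarefree_of_dvd hEl
    have hT : EXb_T d φ l = (E l).primeFactors := by
      ext p
      rw [EXb_T_mem]
      constructor
      · rintro ⟨h, hp⟩
        have := hφ ⟨p, h⟩
        rw [hp] at this
        exact Nat.mem_primeFactors.2 ⟨Nat.prime_of_mem_primeFactors h, this, hsq.ne_zero⟩
      · intro hp
        have hpd : p ∈ d.primeFactors := Nat.primeFactors_mono hEl hd0 hp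
        refine ⟨hpd, ?_⟩
        exact EXb_uniq hd h2 (Nat.prime_of_mem_primeFactors hpd) (hφ ⟨p, hpd⟩)
          (Nat.dvd_of_mem_primeFactors hp)
    simp only [hT]
    exact Nat.prod_primeFactors_of_squarefree hsq
  · intro φ _
    simp only [EXb_T_pf]
    simp only [EXb_T, prod_map, Function.Embedding.subtype_apply]
    have h := Finset.prod_fiberwise univ φ (fun x : d.primeFactors => g (φ x) x)
    rw [← h]
    refine Finset.prod_congr rfl fun l _ => Finset.prod_congr rfl fun x hx => ?_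
    rw [(mem_filter.1 hx).2]

end Pool.Agent.AV
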