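import Pool.Agent.Lib_helper21.AV.Defs2

/-! # EXa: the local conditions as a product over primes -/

set_option autoImplicit false

namespace Pool.Agent.AV

open Finset

theorem EXa_prod_js (s : Finset (Fin 4)) (a : Fin 4 → ℤ) (p : ℕ) :
    ∏ l ∈ s, js (a l) p = js (∏ l ∈ s, a l) p := by
  induction s using Finset.induction_on with
  | empty => simp [js]
  | insert x s hx ih =>
      rw [prod_insert hx, prod_insert hx, ih]
      simp only [js]
      rw [jacobiSym.mul_left]
      push_cast
      ring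

theorem EXa_sum (f : Fin 4 → ℝ) (i : Fin 4) (hi : f i = 1) (hf : ∀ l, f l = 1 ∨ f l = -1)
    (hp : ∏ l, f l = 1) (l : Fin 4) (hl : f l ≠ 1) : ∑ l, f l = 0 := by
  rw [Fin.prod_univ_four] at hp
  rw [Fin.sum_univ_four]
  have h0 := hf 0
  have h1 := hf 1
  have h2 := hf 2
  have h3 := hf 3
  have hl' : ¬ (f 0 = 1 ∧ f 1 = 1 ∧ f 2 = 1 ∧ f 3 = 1) := by
    rintro ⟨a0, a1, a2, a3⟩
    apply hl
    fin_cases l
    · exact a0
    · exact a1
    · exact a2
    · exact a3
  have hi' : ¬ (f 0 = -1 ∧ f 1 = -1 ∧ f 2 = -1 ∧ f 3 = -1) := by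
    rintro ⟨a0, a1, a2, a3⟩
    have hm : f i = -1 := by
      fin_cases i
      · exact a0
      · exact a1
      · exact a2
      · exact a3
    rw [hi] at hm
    norm_num at hm
  rcases h0 with h0 | h0 <;> rcases h1 with h1 | h1 <;> rcases h2 with h2 | h2 <;>
    rcases h3 with h3 | h3 <;>
    first
    | (exfalso; apply hl'; refine ⟨?_, ?_, ?_, ?_⟩ <;> assumption)
    | (exfalso; apply hi'; refine ⟨?_, ?_, ?_, ?_⟩ <;> assumption)
    | (exfalso; rw [h0, h1, h2, h3] at hp; norm_num at hp; done)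
    | (rw [h0, h1, h2, h3]; norm_num; done)

theorem EXa_sq (d : Fin 4 → ℤ) (i : Fin 4) :
    ∏ l ∈ univ.erase i, ∏ j ∈ univ.filter (fun j => j ≠ i ∧ j ≠ l), d j =
      (∏ j ∈ univ.erase i, d j) ^ 2 := by
  have key : ∀ (i l : Fin 4), (univ.filter (fun j => j ≠ i ∧ j ≠ l)) = (univ.erase i).erase l := by
    decide
  simp only [key]
  fin_cases i
  · have h1 : (univ.erase (0 : Fin 4)) = {1, 2, 3} := by decide
    have h2 : (({1, 2, 3} : Finset (Fin 4)).erase 1) = {2, 3} := by decide
    have h3 : (({1, 2, 3} : Finset (Fin 4)).erase 2) = {1, 3} := by decide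
    have h4 : (({1, 2, 3} : Finset (Fin 4)).erase 3) = {1, 2} := by decide
    simp only [Fin.zero_eta, h1]
    rw [prod_insert (by decide), prod_insert (by decide), prod_singleton, h2, h3, h4,
      prod_insert (by decide), prod_insert (by decide), prod_insert (by decide),
      prod_insert (by decide), prod_insert (by decide), prod_singleton, prod_singleton]
    ring
  · have h1 : (univ.erase (1 : Fin 4)) = {0, 2, 3} := by decide
    have h2 : (({0, 2, 3} : Finset (Fin 4)).erase 0) = {2, 3} := by decide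
    have h3 : (({0, 2, 3} : Finset (Fin 4)).erase 2) = {0, 3} := by decide
    have h4 : (({0, 2, 3} : Finset (Fin 4)).erase 3) = {0, 2} := by decide
    simp only [Fin.mk_one, h1]
    rw [prod_insert (by decide), prod_insert (by decide), prod_singleton, h2, h3, h4,
      prod_insert (by decide), prod_insert (by decide), prod_insert (by decide),
      prod_insert (by decide), prod_insert (by decide), prod_singleton, prod_singleton]
    ring
  · have h1 : (univ.erase (2 : Fin 4)) = {0, 1, 3} := by decide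
    have h2 : (({0, 1, 3} : Finset (Fin 4)).erase 0) = {1, 3} := by decide
    have h3 : (({0, 1, 3} : Finset (Fin 4)).erase 1) = {0, 3} := by decide
    have h4 : (({0, 1, 3} : Finset (Fin 4)).erase 3) = {0, 1} := by decide
    simp only [Fin.reduceFinMk, h1]
    rw [prod_insert (by decide), prod_insert (by decide), prod_singleton, h2, h3, h4,
      prod_insert (by decide), prod_insert (by decide), prod_insert (by decide),
      prod_insert (by decide), prod_insert (by decide), prod_singleton, prod_singleton]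
    ring
  · have h1 : (univ.erase (3 : Fin 4)) = {0, 1, 2} := by decide
    have h2 : (({0, 1, 2} : Finset (Fin 4)).erase 0) = {1, 2} := by decide
    have h3 : (({0, 1, 2} : Finset (Fin 4)).erase 1) = {0, 2} := by decide
    have h4 : (({0, 1, 2} : Finset (Fin 4)).erase 2) = {0, 1} := by decide
    simp only [Fin.reduceFinMk, h1]
    rw [prod_insert (by decide), prod_insert (by decide), prod_singleton, h2, h3, h4,
      prod_insert (by decide), prod_insert (by decide), prod_insert (by decide),
      prod_insert (by decide), prod_insert (by decide), prod_singleton, prod_singleton]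
    ring

theorem EXa_cop {d : Fin 4 → ℕ} (hs : Squarefree (∏ i, d i)) {i j : Fin 4} (hij : j ≠ i)
    {p : ℕ} (hp : p.Prime) (hpi : p ∣ d i) : ¬ p ∣ d j := by
  intro hj
  have h1 : d i * d j ∣ ∏ l, d l := by
    rw [← Finset.prod_pair hij.symm]
    exact Finset.prod_dvd_prod_of_subset _ _ _ (subset_univ _)
  have := hs p ((mul_dvd_mul hpi hj).trans h1)
  exact hp.one_lt.ne' (Nat.isUnit_iff.1 this)

theorem EXa_gcd {κ : V → ℤ} (hκ : ∀ u, K4 (κ u)) {d : Fin 4 → ℕ}
    (hs : Squarefree (∏ i, d i)) (ho : Odd (∏ i, d i)) {i : Fin 4} {p : ℕ}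
    (hp : p ∈ (d i).primeFactors) (l : Fin 4) :
    Int.gcd (κ (i, l) * ∏ j ∈ univ.filter (fun j => j ≠ i ∧ j ≠ l), (d j : ℤ)) p = 1 := by
  have hpp : p.Prime := Nat.prime_of_mem_primeFactors hp
  have hpd : p ∣ d i := Nat.dvd_of_mem_primeFactors hp
  have hodd : Odd p := by
    have h1 : p ∣ ∏ i, d i := hpd.trans (Finset.dvd_prod_of_mem d (mem_univ i))
    exact ho.of_dvd_nat h1
  have hk : ¬ ((p : ℤ) ∣ κ (i, l)) := by
    intro h
    have h2 : (p : ℤ) ∣ 2 := by
      rcases hκ (i, l) with h' | h' | h' | h' <;> rw [h'] at h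
      · exact h.trans (one_dvd _)
      · exact h.trans (by norm_num)
      · exact h
      · exact (dvd_neg.1 h)
    have h3 : p ∣ 2 := by exact_mod_cast h2
    have h4 : p = 2 := (Nat.prime_dvd_prime_iff_eq hpp Nat.prime_two).1 h3
    rw [h4] at hodd
    exact absurd hodd (by decide)
  have hpz : Prime (p : ℤ) := Nat.prime_iff_prime_int.1 hpp
  have hnd : ¬ ((p : ℤ) ∣ κ (i, l) * ∏ j ∈ univ.filter (fun j => j ≠ i ∧ j ≠ l), (d j : ℤ)) := by
    intro h
    rcases hpz.dvd_or_dvd h with h | h
    · exact hk h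
    · obtain ⟨j, hj, hj'⟩ := (Prime.dvd_finsetProd_iff hpz _).1 h
      have hji : j ≠ i := ((mem_filter.1 hj).2).1
      exact EXa_cop hs hji hpp hpd (by exact_mod_cast hj')
  rw [Int.gcd_comm]
  exact (Int.isCoprime_iff_gcd_eq_one.1 ((Int.prime_iff_natAbs_prime.2 (by simpa using hpp)).coprime_iff_not_dvd.2 hnd))

theorem cond_prod (κ : V → ℤ) (hκ : ∀ u, K4 (κ u)) (hp : PR κ) (d : Fin 4 → ℕ)
    (hs : Squarefree (∏ i, d i)) (ho : Odd (∏ i, d i)) :
    (cond κ d → ∏ i, ∏ p ∈ (d i).primeFactors, (1 / 4 : ℝ) * ∑ l, (if l = i then (1 : ℝ) else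
      js (κ (i, l) * ∏ j ∈ univ.filter (fun j => j ≠ i ∧ j ≠ l), (d j : ℤ)) p) = 1) ∧
    (¬ cond κ d → ∏ i, ∏ p ∈ (d i).primeFactors, (1 / 4 : ℝ) * ∑ l, (if l = i then (1 : ℝ) else
      js (κ (i, l) * ∏ j ∈ univ.filter (fun j => j ≠ i ∧ j ≠ l), (d j : ℤ)) p) = 0) := by
  constructor
  · intro hc
    refine Finset.prod_eq_one fun i _ => Finset.prod_eq_one fun p hpi => ?_
    have h : ∀ l ∈ (univ : Finset (Fin 4)), (if l = i then (1 : ℝ) else
        js (κ (i, l) * ∏ j ∈ univ.filter (fun j => j ≠ i ∧ j ≠ l), (d j : ℤ)) p) = 1 := by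
      intro l _
      by_cases hl : l = i
      · rw [if_pos hl]
      · rw [if_neg hl]
        exact hc i l hl p hpi
    rw [Finset.sum_congr rfl h]
    simp
  · intro hc
    unfold cond at hc
    push Not at hc
    obtain ⟨i, l, hli, p, hpi, hne⟩ := hc
    refine Finset.prod_eq_zero (mem_univ i) (Finset.prod_eq_zero hpi ?_)
    have hsum := EXa_sum (fun l => if l = i then (1 : ℝ) else
      js (κ (i, l) * ∏ j ∈ univ.filter (fun j => j ≠ i ∧ j ≠ l), (d j : ℤ)) p) i (by simp)
      (by
        intro m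
        by_cases hm : m = i
        · left; simp [hm]
        · simp only [if_neg hm, js]
          rcases jacobiSym.eq_one_or_neg_one (EXa_gcd hκ hs ho hpi m) with h | h
          · left; rw [h]; norm_num
          · right; rw [h]; norm_num)
      (by
        have hpp : p.Prime := Nat.prime_of_mem_primeFactors hpi
        rw [← Finset.mul_prod_erase univ _ (mem_univ i)]
        simp only [if_true, one_mul]
        have h1 : ∀ m ∈ univ.erase i, (if m = i then (1 : ℝ) else
            js (κ (i, m) * ∏ j ∈ univ.filter (fun j => j ≠ i ∧ j ≠ m), (d j : ℤ)) p) =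
            js (κ (i, m) * ∏ j ∈ univ.filter (fun j => j ≠ i ∧ j ≠ m), (d j : ℤ)) p := by
          intro m hm
          rw [if_neg (mem_erase.1 hm).1]
        rw [Finset.prod_congr rfl h1, EXa_prod_js, Finset.prod_mul_distrib,
          EXa_sq (fun j => (d j : ℤ)) i]
        obtain ⟨_, t, ht⟩ := hp i
        rw [ht, ← mul_pow]
        have hg : Int.gcd (t * ∏ j ∈ univ.erase i, (d j : ℤ)) p = 1 := by
          have hall : ∏ m ∈ univ.erase i, (κ (i, m) *
              ∏ j ∈ univ.filter (fun j => j ≠ i ∧ j ≠ m), (d j : ℤ)) =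
              (t * ∏ j ∈ univ.erase i, (d j : ℤ)) ^ 2 := by
            rw [Finset.prod_mul_distrib, EXa_sq (fun j => (d j : ℤ)) i, ht, ← mul_pow]
          have h2 : IsCoprime (∏ m ∈ univ.erase i, (κ (i, m) *
              ∏ j ∈ univ.filter (fun j => j ≠ i ∧ j ≠ m), (d j : ℤ))) (p : ℤ) := by
            refine IsCoprime.prod_left fun m _ => ?_
            exact Int.isCoprime_iff_gcd_eq_one.2 (EXa_gcd hκ hs ho hpi m)
          rw [hall] at h2
          exact Int.isCoprime_iff_gcd_eq_one.1 ((IsCoprime.pow_left_iff (by norm_num)).1 h2)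
        simp only [js]
        rw [jacobiSym.sq_one' hg]
        norm_num)
      l (by simpa [if_neg hli] using hne)
    rw [hsum]
    norm_num

end Pool.Agent.AV
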