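import Pool.Agent.Lib_helper21.AV.Defs2
import Pool.Agent.Lib_helper21.AV.W.EXa
import Pool.Agent.Lib_helper21.AV.W.EXb

/-! # EXc: the number of factorisations with the local conditions -/

set_option autoImplicit false

namespace Pool.Agent.AV

open Finset

theorem EXc_js_one (m : ℕ) : js 1 m = 1 := by
  unfold js
  rw [jacobiSym.one_left]
  norm_num

theorem EXc_js_mul (a b : ℤ) (m : ℕ) : js (a * b) m = js a m * js b m := by
  unfold js
  rw [jacobiSym.mul_left]
  push_cast
  rfl

theorem EXc_js_prod {ι : Type} (s : Finset ι) (f : ι → ℤ) (m : ℕ) :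
    js (∏ i ∈ s, f i) m = ∏ i ∈ s, js (f i) m := by
  classical
  induction s using Finset.induction_on with
  | empty => simp [EXc_js_one]
  | insert a s ha ih => rw [Finset.prod_insert ha, Finset.prod_insert ha, EXc_js_mul, ih]

theorem EXc_js_right (a : ℤ) (s : Finset ℕ) (hs : ∀ p ∈ s, p ≠ 0) :
    ∏ p ∈ s, js a p = js a (∏ p ∈ s, p) := by
  classical
  induction s using Finset.induction_on with
  | empty => simp [js, jacobiSym.one_right]
  | insert b s hb ih =>
    rw [Finset.prod_insert hb, Finset.prod_insert hb,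
      ih (fun p hp => hs p (Finset.mem_insert_of_mem hp))]
    have h1 : b ≠ 0 := hs b (Finset.mem_insert_self _ _)
    have h2 : ∏ p ∈ s, p ≠ 0 :=
      Finset.prod_ne_zero_iff.2 fun p hp => hs p (Finset.mem_insert_of_mem hp)
    unfold js
    rw [jacobiSym.mul_right' _ h1 h2]
    push_cast
    rfl

theorem EXc_quarter (a : ℤ) (m : ℕ) (hm : Squarefree m) :
    ∏ p ∈ m.primeFactors, (1 / 4 * js a p : ℝ) = (1 / 4 : ℝ) ^ om m * js a m := by
  rw [Finset.prod_mul_distrib, Finset.prod_const, EXc_js_right a m.primeFactors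
    (fun p hp => (Nat.prime_of_mem_primeFactors hp).ne_zero),
    Nat.prod_primeFactors_of_squarefree hm]
  rfl

theorem EXc_cop {n : ℕ} (hn : Squarefree n) {D : V → ℕ} (hD : ∏ u, D u = n) {u v : V}
    (huv : v ≠ u) : Nat.Coprime (D u) (D v) := by
  have h1 : D u * D v ∣ n := by
    rw [← hD, ← Finset.mul_prod_erase univ D (Finset.mem_univ u)]
    exact Nat.mul_dvd_mul_left _
      (Finset.dvd_prod_of_mem _ (Finset.mem_erase.2 ⟨huv, Finset.mem_univ v⟩))
  exact Nat.coprime_of_squarefree_mul (hn.squarefree_of_dvd h1)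

theorem EXc_wt (κ : V → ℤ) (hp : PR κ) (n : ℕ) (hn : Squarefree n) (ho : Odd n) (D : V → ℕ)
    (hD : ∏ u, D u = n) :
    wt κ D = ∏ i, ∏ l, ∏ p ∈ (D (i, l)).primeFactors, (1 / 4 : ℝ) * (if l = i then (1 : ℝ) else
      js (κ (i, l) * ∏ j ∈ univ.filter (fun j => j ≠ i ∧ j ≠ l), ((∏ l', D (j, l') : ℕ) : ℤ)) p) := by
  unfold wt
  rw [← Finset.prod_mul_distrib, ← Fintype.prod_prod_type']
  apply Finset.prod_congr rfl
  rintro ⟨i, l⟩ _
  have hdvd : D (i, l) ∣ n := by rw [← hD]; exact Finset.dvd_prod_of_mem _ (Finset.mem_univ _)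
  have hsq : Squarefree (D (i, l)) := hn.squarefree_of_dvd hdvd
  have hodd : Odd (D (i, l)) := ho.of_dvd_nat hdvd
  have hg : gw (D (i, l)) = (1 / 4 : ℝ) ^ om (D (i, l)) := by
    unfold gw
    rw [if_pos ⟨hsq, hodd⟩]
  have hph : ∏ v ∈ univ.erase (i, l), ph (i, l) v (D (i, l)) (D v) =
      ∏ v : V, (if occ (i, l) v then js (D v) (D (i, l)) else 1) := by
    rw [← Finset.mul_prod_erase univ (fun v : V => if occ (i, l) v then js (D v) (D (i, l)) else 1)
      (Finset.mem_univ (i, l))]
    have h0 : occ (i, l) (i, l) = false := by simp [occ]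
    rw [h0]
    simp only [Bool.false_eq_true, if_false, one_mul]
    apply Finset.prod_congr rfl
    intro v hv
    unfold ph
    rw [if_pos (EXc_cop hn hD (Finset.ne_of_mem_erase hv)), one_mul]
  rw [hg, hph, Fintype.prod_prod_type]
  by_cases hil : l = i
  · subst hil
    have e1 : κ (l, l) = 1 := (hp l).1
    have e2 : ∀ j l' : Fin 4, occ (l, l) (j, l') = false := by intro j l'; simp [occ]
    simp only [e1, e2, EXc_js_one, Bool.false_eq_true, if_false, if_true, Finset.prod_const_one,
      mul_one, Finset.prod_const]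
    rfl
  · simp only [if_neg hil]
    rw [EXc_quarter _ _ hsq, EXc_js_mul, EXc_js_prod, mul_assoc]
    congr 2
    rw [Finset.prod_filter]
    apply Finset.prod_congr rfl
    intro j _
    by_cases hj : j ≠ i ∧ j ≠ l
    · rw [if_pos hj]
      have : ∀ l' : Fin 4, occ (i, l) (j, l') = true := by
        intro l'
        simp only [occ, decide_eq_true_eq]
        exact ⟨fun h => hil h.symm, hj.1, hj.2⟩
      simp only [this, if_true]
      rw [Nat.cast_prod, EXc_js_prod]
    · rw [if_neg hj]
      have : ∀ l' : Fin 4, occ (i, l) (j, l') = false := by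
        intro l'
        simp only [occ, decide_eq_false_iff_not]
        exact fun h => hj ⟨h.2.1, h.2.2⟩
      simp only [this, Bool.false_eq_true, if_false, Finset.prod_const_one]

theorem expand (κ : V → ℤ) (hκ : ∀ u, K4 (κ u)) (hp : PR κ) (n : ℕ) (hn : Squarefree n)
    (ho : Odd n) : SS κ n = ((NN κ n).card : ℝ) := by
  classical
  have hn0 : n ≠ 0 := hn.ne_zero
  set fac : ℕ → Finset (Fin 4 → ℕ) := fun d =>
    (Fintype.piFinset fun _ : Fin 4 => d.divisors).filter (fun E => ∏ l, E l = d) with hfac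
  set gg : (Fin 4 → ℕ) → Fin 4 → Fin 4 → ℕ → ℝ := fun d i l p =>
    (1 / 4 : ℝ) * (if l = i then (1 : ℝ) else
      js (κ (i, l) * ∏ j ∈ univ.filter (fun j => j ≠ i ∧ j ≠ l), (d j : ℤ)) p) with hgg
  -- the right hand side
  have h1 : ((NN κ n).card : ℝ) = ∑ d ∈ fac n, if cond κ d then (1 : ℝ) else 0 := by
    have e0 : NN κ n = (fac n).filter (fun d => cond κ d) := by
      ext d
      unfold NN
      simp only [hfac, Finset.mem_filter]
      tauto
    rw [e0, Finset.card_filter]
    push_cast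
    rfl
  have h2 : ∀ d ∈ fac n, (if cond κ d then (1 : ℝ) else 0) =
      ∑ E ∈ Fintype.piFinset (fun i => fac (d i)), ∏ i, ∏ l, ∏ p ∈ (E i l).primeFactors,
        gg d i l p := by
    intro d hd
    rw [hfac, Finset.mem_filter] at hd
    have hs : Squarefree (∏ i, d i) := by rw [hd.2]; exact hn
    have hoo : Odd (∏ i, d i) := by rw [hd.2]; exact ho
    have hc := cond_prod κ hκ hp d hs hoo
    have e1 : (if cond κ d then (1 : ℝ) else 0) = ∏ i, ∏ p ∈ (d i).primeFactors,
        ∑ l, gg d i l p := by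
      by_cases h : cond κ d
      · rw [if_pos h, ← hc.1 h]
        refine Finset.prod_congr rfl fun i _ => Finset.prod_congr rfl fun p _ => ?_
        rw [Finset.mul_sum]
      · rw [if_neg h, ← hc.2 h]
        refine Finset.prod_congr rfl fun i _ => Finset.prod_congr rfl fun p _ => ?_
        rw [Finset.mul_sum]
    rw [e1]
    have e2 : ∀ i, ∏ p ∈ (d i).primeFactors, ∑ l, gg d i l p =
        ∑ E ∈ fac (d i), ∏ l, ∏ p ∈ (E l).primeFactors, gg d i l p := by
      intro i
      exact expand_one (d i) (hs.squarefree_of_dvd (Finset.dvd_prod_of_mem _ (Finset.mem_univ i)))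
        (gg d i)
    rw [Finset.prod_congr rfl (fun i _ => e2 i), Finset.prod_univ_sum]
  rw [h1, Finset.sum_congr rfl h2, Finset.sum_sigma']
  unfold SS
  symm
  refine Finset.sum_bij' (i := fun x _ => (fun u : V => x.2 u.1 u.2))
    (j := fun D _ => ⟨fun i => ∏ l, D (i, l), fun i l => D (i, l)⟩) ?_ ?_ ?_ ?_ ?_
  · rintro ⟨d, E⟩ hx
    rw [Finset.mem_sigma] at hx
    obtain ⟨hd, hE⟩ := hx
    simp only at hd hE
    rw [hfac, Finset.mem_filter] at hd
    rw [Fintype.mem_piFinset] at hE
    have hE' : ∀ i, (∀ l, E i l ∈ (d i).divisors) ∧ ∏ l, E i l = d i := by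
      intro i
      have := hE i
      rw [hfac, Finset.mem_filter, Fintype.mem_piFinset] at this
      exact this
    have hdi : ∀ i, d i ∣ n := by
      intro i
      have := Fintype.mem_piFinset.1 hd.1 i
      exact (Nat.mem_divisors.1 this).1
    rw [Finset.mem_filter, Fintype.mem_piFinset]
    constructor
    · rintro ⟨i, l⟩
      exact Nat.mem_divisors.2 ⟨((Nat.mem_divisors.1 ((hE' i).1 l)).1).trans (hdi i), hn0⟩
    · rw [Fintype.prod_prod_type]
      calc ∏ i, ∏ l, E i l = ∏ i, d i := Finset.prod_congr rfl fun i _ => (hE' i).2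
        _ = n := hd.2
  · intro D hD
    rw [Finset.mem_filter, Fintype.mem_piFinset] at hD
    obtain ⟨hD1, hD2⟩ := hD
    rw [Fintype.prod_prod_type] at hD2
    have hdi : ∀ i, (∏ l, D (i, l)) ∣ n := by
      intro i
      rw [← hD2]
      exact Finset.dvd_prod_of_mem (fun i => ∏ l, D (i, l)) (Finset.mem_univ i)
    rw [Finset.mem_sigma]
    constructor
    · show (fun i => ∏ l, D (i, l)) ∈ fac n
      rw [hfac, Finset.mem_filter, Fintype.mem_piFinset]
      exact ⟨fun i => Nat.mem_divisors.2 ⟨hdi i, hn0⟩, hD2⟩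
    · show (fun i l => D (i, l)) ∈ Fintype.piFinset (fun i => fac (∏ l, D (i, l)))
      rw [Fintype.mem_piFinset]
      intro i
      show (fun l => D (i, l)) ∈ fac (∏ l, D (i, l))
      rw [hfac, Finset.mem_filter, Fintype.mem_piFinset]
      refine ⟨fun l => Nat.mem_divisors.2 ⟨Finset.dvd_prod_of_mem (fun l => D (i, l))
        (Finset.mem_univ l), fun h => hn0 ?_⟩, rfl⟩
      exact Nat.eq_zero_of_zero_dvd (h ▸ hdi i)
  · rintro ⟨d, E⟩ hx
    rw [Finset.mem_sigma] at hx
    obtain ⟨hd, hE⟩ := hx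
    simp only at hd hE
    rw [Fintype.mem_piFinset] at hE
    have hE' : (fun i => ∏ l, E i l) = d := by
      funext i
      have := hE i
      rw [hfac, Finset.mem_filter] at this
      exact this.2
    simp only [Sigma.mk.injEq]
    exact ⟨hE', heq_of_eq rfl⟩
  · intro D _
    rfl
  · rintro ⟨d, E⟩ hx
    rw [Finset.mem_sigma] at hx
    obtain ⟨hd, hE⟩ := hx
    simp only at hd hE
    rw [hfac, Finset.mem_filter] at hd
    rw [Fintype.mem_piFinset] at hE
    have hE' : ∀ i, ∏ l, E i l = d i := by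
      intro i
      have := hE i
      rw [hfac, Finset.mem_filter] at this
      exact this.2
    have hD : ∏ u : V, (fun u : V => E u.1 u.2) u = n := by
      rw [Fintype.prod_prod_type]
      calc ∏ i, ∏ l, E i l = ∏ i, d i := Finset.prod_congr rfl fun i _ => hE' i
        _ = n := hd.2
    rw [EXc_wt κ hp n hn ho _ hD]
    simp only [hgg, hE']

end Pool.Agent.AV
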