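import Pool.Agent.Lib_helper21.AV.Defs

/-! # STa: simple bounds for the weights -/

set_option autoImplicit false

namespace Pool.Agent.AV

open Finset

theorem js_abs (a : ℤ) (m : ℕ) : |js a m| ≤ 1 := by
  unfold js
  rcases jacobiSym.trichotomy a m with h | h | h <;> rw [h] <;> norm_num

theorem gw_nonneg (m : ℕ) : 0 ≤ gw m := by
  unfold gw
  split_ifs
  · positivity
  · exact le_refl _

theorem gw_le (m : ℕ) : gw m ≤ 1 := by
  unfold gw
  split_ifs
  · exact pow_le_one₀ (by norm_num) (by norm_num)
  · norm_num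

theorem ph_abs (u v : V) (a b : ℕ) : |ph u v a b| ≤ 1 := by
  unfold ph
  rw [abs_mul]
  apply mul_le_one₀
  · split_ifs <;> norm_num
  · exact abs_nonneg _
  · split_ifs
    · exact js_abs _ _
    · norm_num

theorem wt_abs (κ : V → ℤ) (D : V → ℕ) : |wt κ D| ≤ ∏ u, gw (D u) := by
  unfold wt
  rw [abs_mul]
  have h1 : |∏ u, gw (D u) * js (κ u) (D u)| ≤ ∏ u, gw (D u) := by
    rw [Finset.abs_prod]
    apply Finset.prod_le_prod
    · intro i _
      exact abs_nonneg _
    · intro i _
      rw [abs_mul, abs_of_nonneg (gw_nonneg _)]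
      exact mul_le_of_le_one_right (gw_nonneg _) (js_abs _ _)
  have h2 : |∏ u, ∏ v ∈ univ.erase u, ph u v (D u) (D v)| ≤ 1 := by
    rw [Finset.abs_prod]
    apply Finset.prod_le_one
    · intro i _
      exact abs_nonneg _
    · intro i _
      rw [Finset.abs_prod]
      apply Finset.prod_le_one
      · intro j _
        exact abs_nonneg _
      · intro j _
        exact ph_abs _ _ _ _
  have h3 : 0 ≤ ∏ u, gw (D u) := Finset.prod_nonneg fun i _ => gw_nonneg _
  calc |∏ u, gw (D u) * js (κ u) (D u)| * |∏ u, ∏ v ∈ univ.erase u, ph u v (D u) (D v)|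
      ≤ (∏ u, gw (D u)) * 1 := mul_le_mul h1 h2 (abs_nonneg _) h3
    _ = ∏ u, gw (D u) := mul_one _

/-- the weight vanishes unless the product is odd and squarefree -/
theorem wt_zero (κ : V → ℤ) (D : V → ℕ) (h : ¬ (Squarefree (∏ u, D u) ∧ Odd (∏ u, D u))) :
    wt κ D = 0 := by
  by_contra hw
  apply h
  unfold wt at hw
  have hw1 := left_ne_zero_of_mul hw
  have hw2 := right_ne_zero_of_mul hw
  rw [Finset.prod_ne_zero_iff] at hw1 hw2
  have hg : ∀ u, Squarefree (D u) ∧ Odd (D u) := by
    intro u
    have h1 := left_ne_zero_of_mul (hw1 u (Finset.mem_univ u))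
    unfold gw at h1
    by_contra hc
    rw [if_neg hc] at h1
    exact h1 rfl
  have hc : ∀ u v : V, u ≠ v → Nat.Coprime (D u) (D v) := by
    intro u v huv
    have h1 := hw2 u (Finset.mem_univ u)
    rw [Finset.prod_ne_zero_iff] at h1
    have h2 := h1 v (Finset.mem_erase.mpr ⟨huv.symm, Finset.mem_univ v⟩)
    unfold ph at h2
    by_contra hc
    rw [if_neg hc] at h2
    simp at h2
  refine ⟨?_, ?_⟩
  · apply Finset.squarefree_prod_of_pairwise_isCoprime
    · intro u _ v _ huv
      exact Nat.coprime_iff_isRelPrime.mp (hc u v huv)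
    · intro u _
      exact (hg u).1
  · have : ∀ s : Finset V, Odd (∏ u ∈ s, D u) := by
      intro s
      induction s using Finset.induction_on with
      | empty => simp
      | insert a s ha ih =>
        rw [Finset.prod_insert ha]
        exact Nat.odd_mul.mpr ⟨(hg a).2, ih⟩
    exact this _

end Pool.Agent.AV
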