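import Pool.Agent.Lib_helper21.AV.Defs2
import Pool.Agent.Lib_helper21.AV.W.STa

/-! # EXd: complements to the expansion -/

set_option autoImplicit false

namespace Pool.Agent.AV

open Finset

/-- the sum vanishes for the other `n` -/
theorem expand_zero (κ : V → ℤ) (n : ℕ) (hn : ¬ (Squarefree n ∧ Odd n)) : SS κ n = 0 := by
  unfold SS
  refine Finset.sum_eq_zero fun D hD => ?_
  apply wt_zero
  rw [(Finset.mem_filter.1 hD).2]
  exact hn

theorem EXd_n4 {k : ℤ} (hk : k ≠ 0) : K4 (n4 k) := by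
  unfold K4 n4
  rcases lt_or_gt_of_ne hk with h | h
  · rw [Int.sign_eq_neg_one_of_neg h]
    split_ifs <;> simp
  · rw [Int.sign_eq_one_of_pos h]
    split_ifs <;> simp

theorem EXd_prod {a b c s : ℤ} (ha : a ≠ 0) (hb : b ≠ 0) (hc : c ≠ 0) (h : a * b * c = s ^ 2) :
    ∃ t : ℤ, n4 a * n4 b * n4 c = t ^ 2 := by
  have hs : s ≠ 0 := by
    rintro rfl
    have : a * b * c ≠ 0 := mul_ne_zero (mul_ne_zero ha hb) hc
    exact this (by rw [h]; norm_num)
  have hsign : a.sign * b.sign * c.sign = 1 := by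
    rw [← Int.sign_mul, ← Int.sign_mul, h, pow_two, Int.sign_mul]
    rcases lt_or_gt_of_ne hs with h | h
    · rw [Int.sign_eq_neg_one_of_neg h]; norm_num
    · rw [Int.sign_eq_one_of_pos h]; norm_num
  have hnat : a.natAbs * b.natAbs * c.natAbs = s.natAbs ^ 2 := by
    rw [← Int.natAbs_mul, ← Int.natAbs_mul, h, Int.natAbs_pow]
  have hfac : a.natAbs.factorization 2 + b.natAbs.factorization 2 + c.natAbs.factorization 2 =
      2 * s.natAbs.factorization 2 := by
    have h1 := congrArg (fun n : ℕ => n.factorization 2) hnat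
    have ha' : a.natAbs ≠ 0 := Int.natAbs_ne_zero.2 ha
    have hb' : b.natAbs ≠ 0 := Int.natAbs_ne_zero.2 hb
    have hc' : c.natAbs ≠ 0 := Int.natAbs_ne_zero.2 hc
    rw [Nat.factorization_mul (mul_ne_zero ha' hb') hc', Nat.factorization_mul ha' hb',
      Nat.factorization_pow] at h1
    simpa using h1
  have hpar : Even (a.natAbs.factorization 2 + b.natAbs.factorization 2 +
      c.natAbs.factorization 2) := by
    rw [hfac]
    exact even_two_mul _
  unfold n4
  have e : ∀ p q r : ℤ, a.sign * p * (b.sign * q) * (c.sign * r) = p * q * r := by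
    intro p q r
    calc a.sign * p * (b.sign * q) * (c.sign * r) = (a.sign * b.sign * c.sign) * (p * q * r) := by
          ring
      _ = _ := by rw [hsign, one_mul]
  rw [e]
  rw [Nat.even_add, Nat.even_add] at hpar
  by_cases h1 : Even (a.natAbs.factorization 2) <;>
    by_cases h2 : Even (b.natAbs.factorization 2) <;>
    by_cases h3 : Even (c.natAbs.factorization 2)
  · exact ⟨1, by rw [if_pos h1, if_pos h2, if_pos h3]; norm_num⟩
  · exact absurd (hpar.1 (iff_of_true h1 h2)) h3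
  · exact absurd (hpar.2 h3) (fun h => h2 (h.1 h1))
  · exact ⟨2, by rw [if_pos h1, if_neg h2, if_neg h3]; norm_num⟩
  · exact absurd (hpar.2 h3) (fun h => h1 (h.2 h2))
  · exact ⟨2, by rw [if_neg h1, if_pos h2, if_neg h3]; norm_num⟩
  · exact ⟨2, by rw [if_neg h1, if_neg h2, if_pos h3]; norm_num⟩
  · exact absurd (hpar.1 (iff_of_false h1 h2)) h3

theorem EXd_F4 {x : ℤ} (h : x ∈ F4) : x ≠ 0 := by
  rintro rfl
  revert h
  decide

theorem kap_K4 (e x y z : ℤ) (he : e = 1 ∨ e = 2) (hx : x ∈ F4) (hy : y ∈ F4) (hz : z ∈ F4) :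
    (∀ u, K4 (kap e x y z u)) ∧ PR (kap e x y z) := by
  have he0 : e ≠ 0 := by omega
  have hx0 := EXd_F4 hx
  have hy0 := EXd_F4 hy
  have hz0 := EXd_F4 hz
  have n1 : y * z ≠ 0 := mul_ne_zero hy0 hz0
  have n2 : x * z ≠ 0 := mul_ne_zero hx0 hz0
  have n3 : x * y ≠ 0 := mul_ne_zero hx0 hy0
  have n4' : -(y * z) ≠ 0 := neg_ne_zero.2 n1
  have n5 : e * z ≠ 0 := mul_ne_zero he0 hz0
  have n6 : -(e * y) ≠ 0 := neg_ne_zero.2 (mul_ne_zero he0 hy0)
  have n7 : 2 * x * z ≠ 0 := mul_ne_zero (mul_ne_zero two_ne_zero hx0) hz0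
  have n8 : 2 * e * z ≠ 0 := mul_ne_zero (mul_ne_zero two_ne_zero he0) hz0
  have n9 : e * x ≠ 0 := mul_ne_zero he0 hx0
  have n10 : 2 * x * y ≠ 0 := mul_ne_zero (mul_ne_zero two_ne_zero hx0) hy0
  have n11 : -(2 * e * y) ≠ 0 := neg_ne_zero.2 (mul_ne_zero (mul_ne_zero two_ne_zero he0) hy0)
  have n12 : -(e * x) ≠ 0 := neg_ne_zero.2 n9
  have k1 : K4 1 := Or.inl rfl
  refine ⟨?_, ?_⟩
  · rintro ⟨i, l⟩
    unfold kap
    fin_cases i <;> fin_cases l <;>
      first
        | exact k1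
        | exact EXd_n4 n1
        | exact EXd_n4 n2
        | exact EXd_n4 n3
        | exact EXd_n4 n4'
        | exact EXd_n4 n5
        | exact EXd_n4 n6
        | exact EXd_n4 n7
        | exact EXd_n4 n8
        | exact EXd_n4 n9
        | exact EXd_n4 n10
        | exact EXd_n4 n11
        | exact EXd_n4 n12
  · intro i
    have p0 : (univ : Finset (Fin 4)).erase 0 = {1, 2, 3} := by decide
    have p1 : (univ : Finset (Fin 4)).erase 1 = {0, 2, 3} := by decide
    have p2 : (univ : Finset (Fin 4)).erase 2 = {0, 1, 3} := by decide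
    have p3 : (univ : Finset (Fin 4)).erase 3 = {0, 1, 2} := by decide
    have prod3 : ∀ (f : Fin 4 → ℤ) (a b c : Fin 4), a ≠ b → a ≠ c → b ≠ c →
        ∏ l ∈ ({a, b, c} : Finset (Fin 4)), f l = f a * f b * f c := by
      intro f a b c hab hac hbc
      rw [Finset.prod_insert (by simp [hab, hac]), Finset.prod_insert (by simp [hbc]),
        Finset.prod_singleton, mul_assoc]
    fin_cases i
    · refine ⟨rfl, ?_⟩
      obtain ⟨t, ht⟩ := EXd_prod n1 n2 n3 (s := x * y * z) (by ring)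
      refine ⟨t, ?_⟩
      rw [← ht]
      exact (congrArg (fun s => ∏ l ∈ s, kap e x y z (0, l)) p0).trans
        (prod3 (fun l => kap e x y z (0, l)) 1 2 3 (by decide) (by decide) (by decide))
    · refine ⟨rfl, ?_⟩
      obtain ⟨t, ht⟩ := EXd_prod n4' n5 n6 (s := e * y * z) (by ring)
      refine ⟨t, ?_⟩
      rw [← ht]
      exact (congrArg (fun s => ∏ l ∈ s, kap e x y z (1, l)) p1).trans
        (prod3 (fun l => kap e x y z (1, l)) 0 2 3 (by decide) (by decide) (by decide))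
    · refine ⟨rfl, ?_⟩
      obtain ⟨t, ht⟩ := EXd_prod n7 n8 n9 (s := 2 * e * x * z) (by ring)
      refine ⟨t, ?_⟩
      rw [← ht]
      exact (congrArg (fun s => ∏ l ∈ s, kap e x y z (2, l)) p2).trans
        (prod3 (fun l => kap e x y z (2, l)) 0 1 3 (by decide) (by decide) (by decide))
    · refine ⟨rfl, ?_⟩
      obtain ⟨t, ht⟩ := EXd_prod n10 n11 n12 (s := 2 * e * x * y) (by ring)
      refine ⟨t, ?_⟩
      rw [← ht]
      exact (congrArg (fun s => ∏ l ∈ s, kap e x y z (3, l)) p3).trans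
        (prod3 (fun l => kap e x y z (3, l)) 0 1 2 (by decide) (by decide) (by decide))

end Pool.Agent.AV
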