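import Pool.Agent.Lib_helper21.AV.Defs
import Pool.Agent.Lib_helper61.FG.DivB

/-! # BCa: the number of factorisations into ten factors -/

set_option autoImplicit false

namespace Pool.Agent.AV

open Finset

/-- nine of the ten factors determine the remaining one -/
theorem BCa_card (n : ℕ) (hn : 1 ≤ n) :
    ((Fintype.piFinset fun _ : Fin 10 => n.divisors).filter (fun x => ∏ i, x i = n)).card ≤
      n.divisors.card ^ 9 := by
  have h1 : (Fintype.piFinset fun _ : Fin 9 => n.divisors).card = n.divisors.card ^ 9 := by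
    rw [Fintype.card_piFinset]
    simp
  rw [← h1]
  refine Finset.card_le_card_of_injOn (fun x i => x i.succ) ?_ ?_
  · intro x hx
    have hx' := Fintype.mem_piFinset.1 (mem_filter.1 (mem_coe.1 hx)).1
    exact mem_coe.2 (Fintype.mem_piFinset.2 fun i => hx' i.succ)
  · intro x hx y hy hxy
    obtain ⟨-, hx2⟩ := mem_filter.1 (mem_coe.1 hx)
    obtain ⟨-, hy2⟩ := mem_filter.1 (mem_coe.1 hy)
    have ht : ∀ i : Fin 9, x i.succ = y i.succ := fun i => congrFun hxy i
    rw [Fin.prod_univ_succ] at hx2 hy2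
    rw [← hy2, Finset.prod_congr rfl (fun i _ => ht i)] at hx2
    have hpos : 0 < ∏ i : Fin 9, y i.succ := by
      rcases Nat.eq_zero_or_pos (∏ i : Fin 9, y i.succ) with h0 | h0
      · rw [h0, mul_zero] at hy2
        omega
      · exact h0
    have h0 : x 0 = y 0 := Nat.eq_of_mul_eq_mul_right hpos hx2
    funext i
    refine Fin.cases h0 (fun j => ht j) i

/-- the number of ways to write `n` as an ordered product of ten positive integers -/
theorem ten_factors : ∃ C : ℝ, ∀ n : ℕ, 1 ≤ n →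
    (((Fintype.piFinset fun _ : Fin 10 => n.divisors).filter (fun x => ∏ i, x i = n)).card : ℝ) ≤
      C * (n : ℝ) ^ (1 / 40 : ℝ) := by
  obtain ⟨C, hC, h⟩ := Pool.Agent.FG61.divisor_bound (ε := 1 / 360) (by norm_num)
  refine ⟨C ^ 9, fun n hn => ?_⟩
  have h1 : (((Fintype.piFinset fun _ : Fin 10 => n.divisors).filter
      (fun x => ∏ i, x i = n)).card : ℝ) ≤ (n.divisors.card : ℝ) ^ 9 := by
    exact_mod_cast BCa_card n hn
  have h2 : (((n : ℝ) ^ (1 / 360 : ℝ)) ^ 9) = (n : ℝ) ^ (1 / 40 : ℝ) := by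
    rw [← Real.rpow_natCast, ← Real.rpow_mul (Nat.cast_nonneg n)]
    norm_num
  calc _ ≤ (n.divisors.card : ℝ) ^ 9 := h1
    _ ≤ (C * (n : ℝ) ^ (1 / 360 : ℝ)) ^ 9 :=
      pow_le_pow_left₀ (Nat.cast_nonneg _) (h n hn) 9
    _ = C ^ 9 * (n : ℝ) ^ (1 / 40 : ℝ) := by rw [mul_pow, h2]

end Pool.Agent.AV
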