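import Pool.Agent.Lib_helper21.AV.Defs

/-! # CS: complete sums of Jacobi symbols -/

set_option autoImplicit false

namespace Pool.Agent.AV

open Finset

theorem CS_shift (f : ℕ → ℝ) (P : ℕ) (hper : ∀ n, f (n + P) = f n) (k : ℕ) :
    ∑ n ∈ Ico k (k + P), f n = ∑ n ∈ range P, f n := by
  induction k with
  | zero => rw [zero_add, ← Finset.range_eq_Ico]
  | succ k ih =>
    rw [← ih]
    rcases Nat.eq_zero_or_pos P with rfl | hP
    · simp
    · have h1 : ∑ n ∈ Ico k (k + P), f n = f k + ∑ n ∈ Ico (k + 1) (k + P), f n :=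
        Finset.sum_eq_sum_Ico_succ_bot (by omega) f
      have h2 : ∑ n ∈ Ico (k + 1) (k + 1 + P), f n
          = ∑ n ∈ Ico (k + 1) (k + P), f n + f (k + P) := by
        rw [show k + 1 + P = (k + P) + 1 by ring, Finset.sum_Ico_succ_top (by omega)]
      rw [h1, h2, hper k, add_comm]

theorem CS_period (f : ℕ → ℝ) (P : ℕ) (hper : ∀ n, f (n + P) = f n) (hP : 0 < P)
    (h1 : ∀ n, |f n| ≤ 1) (h0 : ∑ n ∈ range P, f n = 0) (H : ℕ) :
    |∑ n ∈ Icc 1 H, f n| ≤ P := by
  induction H using Nat.strong_induction_on with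
  | _ H ih =>
    rcases Nat.lt_or_ge P H with h | h
    · have h2 := ih (H - P) (by omega)
      have h3 : ∑ n ∈ Icc 1 H, f n = ∑ n ∈ Icc 1 (H - P), f n
          + ∑ n ∈ Ico (H - P + 1) (H - P + 1 + P), f n := by
        rw [← Finset.sum_union]
        · congr 1
          ext x
          simp only [Finset.mem_union, Finset.mem_Icc, Finset.mem_Ico]
          omega
        · rw [Finset.disjoint_left]
          intro x hx hy
          simp only [Finset.mem_Icc, Finset.mem_Ico] at hx hy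
          omega
      rw [h3, CS_shift f P hper, h0, add_zero]
      exact h2
    · calc |∑ n ∈ Icc 1 H, f n| ≤ ∑ n ∈ Icc 1 H, |f n| := Finset.abs_sum_le_sum_abs _ _
        _ ≤ ∑ _n ∈ Icc 1 H, (1 : ℝ) := Finset.sum_le_sum fun n _ => h1 n
        _ = H := by simp
        _ ≤ P := by exact_mod_cast h

theorem CS_zero (f : ℕ → ℝ) (P : ℕ) (hper : ∀ n, f (n + P) = f n) (hP : 0 < P) (n0 : ℕ)
    (hc : n0.Coprime P) (hm : ∀ n, f (n0 * n) = - f n) : ∑ n ∈ range P, f n = 0 := by
  have hmod : ∀ n, f (n % P) = f n := by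
    intro n
    have h1 : ∀ k m, f (m + k * P) = f m := by
      intro k m
      induction k with
      | zero => simp
      | succ k ih => rw [Nat.succ_mul, ← add_assoc, hper, ih]
    conv_rhs => rw [← Nat.mod_add_div n P, mul_comm P]
    rw [h1]
  have hinj : Set.InjOn (fun n => (n0 * n) % P) (range P : Set ℕ) := by
    intro a ha b hb hab
    rw [Finset.coe_range, Set.mem_Iio] at ha hb
    have h1 : n0 * a ≡ n0 * b [MOD P] := hab
    have h2 : a ≡ b [MOD P] := Nat.ModEq.cancel_left_of_coprime (by rw [Nat.gcd_comm]; exact hc) h1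
    have h3 : a % P = b % P := h2
    rwa [Nat.mod_eq_of_lt ha, Nat.mod_eq_of_lt hb] at h3
  have him : (range P).image (fun n => (n0 * n) % P) = range P := by
    apply Finset.eq_of_subset_of_card_le
    · intro x hx
      obtain ⟨y, _, rfl⟩ := Finset.mem_image.1 hx
      exact Finset.mem_range.2 (Nat.mod_lt _ hP)
    · rw [Finset.card_image_of_injOn hinj]
  have h1 : ∑ n ∈ range P, f n = ∑ n ∈ range P, f ((n0 * n) % P) := by
    conv_lhs => rw [← him]
    rw [Finset.sum_image hinj]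
  have h2 : ∑ n ∈ range P, f ((n0 * n) % P) = - ∑ n ∈ range P, f n := by
    rw [← Finset.sum_neg_distrib]
    exact Finset.sum_congr rfl fun n _ => by rw [hmod, hm]
  linarith

theorem CS_factor (n : ℕ) (hns : ¬ IsSquare n) : ∃ p, p.Prime ∧ Odd (n.factorization p) := by
  have hn0 : n ≠ 0 := by rintro rfl; exact hns ⟨0, rfl⟩
  obtain ⟨a, b, hab, hsq⟩ := Nat.sq_mul_squarefree n
  have ha : a ≠ 1 := by
    rintro rfl
    exact hns ⟨b, by rw [← hab]; ring⟩
  obtain ⟨p, hp, hpa⟩ := Nat.exists_prime_and_dvd ha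
  refine ⟨p, hp, ?_⟩
  have ha0 : a ≠ 0 := hsq.ne_zero
  have hb0 : b ^ 2 ≠ 0 := by
    intro h
    apply hn0
    rw [← hab, h, zero_mul]
  have h1 : a.factorization p = 1 := by
    have h2 := (Nat.squarefree_iff_factorization_le_one ha0).1 hsq p
    have h3 := (hp.dvd_iff_one_le_factorization ha0).1 hpa
    omega
  rw [← hab, Nat.factorization_mul hb0 ha0, Nat.factorization_pow]
  rw [Finsupp.add_apply, h1, Finsupp.smul_apply, smul_eq_mul]
  exact ⟨b.factorization p, rfl⟩

theorem CS_exists (n : ℕ) (hn : Odd n) (hns : ¬ IsSquare n) :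
    ∃ m0 : ℕ, m0 % 4 = 1 ∧ jacobiSym (m0 : ℤ) n = -1 := by
  obtain ⟨p, hp, hk⟩ := CS_factor n hns
  have hn0 : n ≠ 0 := by rintro rfl; exact hns ⟨0, rfl⟩
  have : Fact p.Prime := ⟨hp⟩
  have hk0 : n.factorization p ≠ 0 := by
    intro h
    rw [h] at hk
    exact absurd hk (by decide)
  have hpn : p ∣ n := Nat.dvd_of_factorization_pos hk0
  have hp2 : p ≠ 2 := by
    rintro rfl
    exact (Nat.not_even_iff_odd.2 hn) (even_iff_two_dvd.2 hpn)
  obtain ⟨r, hr⟩ := FiniteField.exists_nonsquare (F := ZMod p) (by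
    rw [ZMod.ringChar_zmod_n]; exact hp2)
  set b := n / p ^ n.factorization p with hb
  have hnb : p ^ n.factorization p * b = n := Nat.ordProj_mul_ordCompl_eq_self n p
  have hcop : Nat.Coprime p b := Nat.coprime_ordCompl hp hn0
  have hb0 : b ≠ 0 := by
    intro h
    apply hn0
    rw [← hnb, h, mul_zero]
  have hcop4 : Nat.Coprime p (4 * b) := by
    refine Nat.Coprime.mul_right ?_ hcop
    have : Nat.Coprime p 2 := (Nat.coprime_primes hp Nat.prime_two).2 hp2
    exact (Nat.Coprime.pow_right 2 this)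
  obtain ⟨m, hm1, hm2⟩ := Nat.chineseRemainder hcop4 r.val 1
  refine ⟨m, ?_, ?_⟩
  · have h1 : m ≡ 1 [MOD 4] := Nat.ModEq.of_mul_right b hm2
    exact h1
  · have h1 : m ≡ 1 [MOD b] := Nat.ModEq.of_mul_left 4 hm2
    have hp0 : p ^ n.factorization p ≠ 0 := pow_ne_zero _ hp.ne_zero
    have : NeZero (p ^ n.factorization p) := ⟨hp0⟩
    have : NeZero b := ⟨hb0⟩
    have h2 : jacobiSym (m : ℤ) n = jacobiSym (m : ℤ) (p ^ n.factorization p) * jacobiSym (m : ℤ) b := by
      conv_lhs => rw [← hnb]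
      rw [jacobiSym.mul_right]
    have h3 : jacobiSym (m : ℤ) b = 1 := by
      have h4 : ((m : ℤ)) % b = (1 : ℤ) % b := by
        have := (Int.natCast_modEq_iff.2 h1)
        exact this
      rw [jacobiSym.mod_left' h4, jacobiSym.one_left]
    have h5 : jacobiSym (m : ℤ) p = -1 := by
      rw [← jacobiSym.legendreSym.to_jacobiSym, legendreSym.eq_neg_one_iff]
      have h6 : ((m : ℤ) : ZMod p) = r := by
        have h7 : (m : ZMod p) = (r.val : ZMod p) := (ZMod.natCast_eq_natCast_iff _ _ _).2 hm1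
        rw [Int.cast_natCast, h7, ZMod.natCast_val, ZMod.cast_id]
      rw [h6]
      exact hr
    rw [h2, h3, jacobiSym.pow_right, h5, mul_one, hk.neg_one_pow]

theorem CS_abs (a : ℤ) (m : ℕ) : |js a m| ≤ 1 := by
  unfold js
  rcases jacobiSym.trichotomy a m with h | h | h <;> rw [h] <;> norm_num

/-- upper entry fixed: period `4 a` -/
theorem cs_a (a : ℕ) (ha : Odd a) (hns : ¬ IsSquare a) (H : ℕ) :
    |∑ n ∈ (Icc 1 H).filter Odd, js (a : ℤ) n| ≤ 4 * a := by
  obtain ⟨m0, hm4, hm⟩ := CS_exists a ha hns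
  have ha0 : 0 < a := ha.pos
  have hm0 : Odd m0 := by rw [Nat.odd_iff]; omega
  rw [Finset.sum_filter]
  have hJ : jacobiSym (a : ℤ) m0 = -1 := by
    rw [← jacobiSym.quadratic_reciprocity_one_mod_four hm4 ha]
    exact hm
  have hc : m0.Coprime (4 * a) := by
    refine Nat.Coprime.mul_right ?_ ?_
    · have : Nat.Coprime m0 2 := (Nat.coprime_two_right).2 hm0
      exact Nat.Coprime.pow_right 2 this
    · have h1 : jacobiSym (a : ℤ) m0 ≠ 0 := by rw [hJ]; norm_num
      by_contra h2
      apply h1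
      rw [jacobiSym.eq_zero_iff]
      refine ⟨hm0.pos.ne', ?_⟩
      rw [Int.gcd_natCast_natCast, Nat.gcd_comm]
      exact h2
  have hper : ∀ n, (if Odd (n + 4 * a) then js (a : ℤ) (n + 4 * a) else 0)
      = (if Odd n then js (a : ℤ) n else 0) := by
    intro n
    have h1 : Odd (n + 4 * a) ↔ Odd n := by
      rw [Nat.odd_iff, Nat.odd_iff]; omega
    by_cases h : Odd n
    · rw [if_pos h, if_pos (h1.2 h)]
      unfold js
      rw [jacobiSym.mod_right (a : ℤ) h, jacobiSym.mod_right (a : ℤ) (h1.2 h), Int.natAbs_natCast,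
        Nat.add_mod_right]
    · rw [if_neg h, if_neg (fun h2 => h (h1.1 h2))]
  have h := CS_period (fun n => if Odd n then js (a : ℤ) n else 0) (4 * a) hper (by omega)
    (fun n => by
      by_cases h : Odd n
      · simp only [if_pos h]; exact CS_abs _ _
      · simp only [if_neg h, abs_zero]; norm_num)
    (CS_zero _ (4 * a) hper (by omega) m0 hc (fun n => by
      by_cases h : Odd n
      · have h2 : Odd (m0 * n) := hm0.mul h
        simp only [if_pos h, if_pos h2]
        unfold js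
        rw [jacobiSym.mul_right' _ hm0.pos.ne' h.pos.ne', hJ]
        push_cast; ring
      · have h2 : ¬ Odd (m0 * n) := fun h3 => h (Nat.odd_mul.1 h3).2
        simp only [if_neg h, if_neg h2]; simp)) H
  refine h.trans ?_
  push_cast
  exact le_refl _

/-- lower entry fixed: period `n` -/
theorem cs_b (n : ℕ) (hn : Odd n) (hns : ¬ IsSquare n) (M : ℕ) :
    |∑ m ∈ Icc 1 M, js (m : ℤ) n| ≤ n := by
  obtain ⟨m0, _, hm⟩ := CS_exists n hn hns
  have hc : m0.Coprime n := by
    have h1 : jacobiSym (m0 : ℤ) n ≠ 0 := by rw [hm]; norm_num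
    by_contra h2
    apply h1
    rw [jacobiSym.eq_zero_iff]
    refine ⟨hn.pos.ne', ?_⟩
    rw [Int.gcd_natCast_natCast]
    exact h2
  have hper : ∀ m : ℕ, js ((m + n : ℕ) : ℤ) n = js (m : ℤ) n := by
    intro m
    unfold js
    rw [jacobiSym.mod_left' (a₁ := ((m + n : ℕ) : ℤ)) (a₂ := (m : ℤ))]
    push_cast
    exact Int.add_emod_right _ _
  exact CS_period (fun m => js (m : ℤ) n) n hper hn.pos (fun m => CS_abs _ _)
    (CS_zero _ n hper hn.pos m0 hc fun m => by
      show js ((m0 * m : ℕ) : ℤ) n = - js (m : ℤ) n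
      unfold js
      push_cast
      rw [jacobiSym.mul_left, hm]
      push_cast; ring) M

end Pool.Agent.AV
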