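import Pool.Agent.Lib_helper21.AV.Defs
import Pool.Agent.Lib_helper21.AV.W.CS
import Pool.Agent.Lib_helper21.AV.W.BCa

/-! # BCb: bilinear sums, comparable variables (Hoelder, tenth power) -/

set_option autoImplicit false

namespace Pool.Agent.AV

open Finset

theorem BCb_js_abs (a : ℤ) (n : ℕ) : |js a n| ≤ 1 := by
  unfold js
  rcases jacobiSym.trichotomy a n with h | h | h <;> rw [h] <;> norm_num

theorem BCb_js_mul_left (a b : ℤ) (n : ℕ) : js (a * b) n = js a n * js b n := by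
  unfold js
  rw [jacobiSym.mul_left]
  push_cast
  ring

theorem BCb_js_prod (a : ℤ) (k : ℕ) (x : Fin k → ℕ) (hx : ∀ i, x i ≠ 0) :
    js a (∏ i, x i) = ∏ i, js a (x i) := by
  induction k with
  | zero =>
    unfold js
    simp
  | succ k ih =>
    rw [Fin.prod_univ_succ, Fin.prod_univ_succ, ← ih (fun i => x i.succ) fun i => hx i.succ]
    have h1 : NeZero (x 0) := ⟨hx 0⟩
    have h2 : NeZero (∏ i : Fin k, x i.succ) := ⟨Finset.prod_ne_zero_iff.2 fun i _ => hx i.succ⟩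
    unfold js
    rw [jacobiSym.mul_right]
    push_cast
    ring

theorem BCb_not_square {m k : ℕ} (hm : Squarefree m) (hk : Squarefree k) (hne : m ≠ k) :
    ¬ IsSquare (m * k) := by
  rintro ⟨t, ht⟩
  have h1 : m ∣ t ^ 2 := ⟨k, by rw [pow_two, ht]⟩
  have h2 : m ∣ t := (hm.dvd_pow_iff_dvd two_ne_zero).1 h1
  obtain ⟨u, rfl⟩ := h2
  have hm0 : m ≠ 0 := hm.ne_zero
  have h3 : k = m * (u * u) := by
    apply Nat.eq_of_mul_eq_mul_left (Nat.pos_of_ne_zero hm0)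
    rw [ht]
    ring
  have h4 : IsUnit u := hk u ⟨m, by rw [h3]; ring⟩
  rw [Nat.isUnit_iff] at h4
  apply hne
  rw [h3, h4]
  ring

theorem BCb_pow_sum (s : Finset ℕ) (f : ℕ → ℝ) (hf : ∀ i, 0 ≤ f i) :
    (∑ i ∈ s, f i) ^ 10 ≤ (s.card : ℝ) ^ 9 * ∑ i ∈ s, f i ^ 10 := by
  rcases s.eq_empty_or_nonempty with rfl | hs
  · simp
  · have h := pow_sum_div_card_le_sum_pow (s := s) (f := f) (fun i _ => hf i) 9
    have hc : (0 : ℝ) < (s.card : ℝ) ^ 9 := by
      have := hs.card_pos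
      positivity
    rw [div_le_iff₀ hc] at h
    rw [mul_comm]
    exact h

/-- the coefficients of the tenth power -/
noncomputable def BCb_beta (N : ℕ) (b : ℕ → ℝ) (ν : ℕ) : ℝ :=
  ∑ x ∈ (Fintype.piFinset fun _ : Fin 10 => Icc 1 N).filter (fun x => ∏ i, x i = ν), ∏ i, b (x i)

theorem BCb_expand (N : ℕ) (b : ℕ → ℝ) (a : ℤ) :
    (∑ n ∈ Icc 1 N, b n * js a n) ^ 10 =
      ∑ ν ∈ Icc 1 (N ^ 10), BCb_beta N b ν * js a ν := by
  have h1 : (∑ n ∈ Icc 1 N, b n * js a n) ^ 10 =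
      ∑ x ∈ Fintype.piFinset fun _ : Fin 10 => Icc 1 N, (∏ i, b (x i)) * js a (∏ i, x i) := by
    rw [Finset.sum_pow']
    refine Finset.sum_congr rfl fun x hx => ?_
    rw [Fintype.mem_piFinset] at hx
    rw [Finset.prod_mul_distrib, BCb_js_prod a 10 x fun i => by
      have := (mem_Icc.1 (hx i)).1
      omega]
  rw [h1]
  have h2 : ∀ x ∈ Fintype.piFinset fun _ : Fin 10 => Icc 1 N, ∏ i, x i ∈ Icc 1 (N ^ 10) := by
    intro x hx
    rw [Fintype.mem_piFinset] at hx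
    rw [mem_Icc]
    constructor
    · exact Nat.one_le_iff_ne_zero.2 (Finset.prod_ne_zero_iff.2 fun i _ => by
        have := (mem_Icc.1 (hx i)).1
        omega)
    · calc ∏ i, x i ≤ ∏ _i : Fin 10, N := Finset.prod_le_prod' fun i _ => (mem_Icc.1 (hx i)).2
        _ = N ^ 10 := by simp
  rw [← Finset.sum_fiberwise_of_maps_to h2]
  refine Finset.sum_congr rfl fun ν _ => ?_
  unfold BCb_beta
  rw [Finset.sum_mul]
  refine Finset.sum_congr rfl fun x hx => ?_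
  rw [(mem_filter.1 hx).2]

theorem BCb_prod_le (b : ℕ → ℝ) (hb : ∀ n, |b n| ≤ 1) (x : Fin 10 → ℕ) : |∏ i, b (x i)| ≤ 1 := by
  rw [Finset.abs_prod]
  exact Finset.prod_le_one (fun i _ => abs_nonneg _) fun i _ => hb _

theorem BCb_beta_card (N : ℕ) (b : ℕ → ℝ) (hb : ∀ n, |b n| ≤ 1) (ν : ℕ) :
    |BCb_beta N b ν| ≤
      (((Fintype.piFinset fun _ : Fin 10 => Icc 1 N).filter (fun x => ∏ i, x i = ν)).card : ℝ) := by
  unfold BCb_beta
  refine (Finset.abs_sum_le_sum_abs _ _).trans ?_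
  refine (Finset.sum_le_sum fun x _ => BCb_prod_le b hb x).trans ?_
  simp

theorem BCb_beta_even (N : ℕ) (b : ℕ → ℝ) (hb0 : ∀ n, ¬ (Squarefree n ∧ Odd n) → b n = 0) {ν : ℕ}
    (hν : ¬ Odd ν) : BCb_beta N b ν = 0 := by
  unfold BCb_beta
  refine Finset.sum_eq_zero fun x hx => ?_
  have h1 := (mem_filter.1 hx).2
  by_contra hne
  apply hν
  rw [← h1]
  refine Finset.prod_induction _ Odd (fun _ _ => Odd.mul) odd_one ?_
  intro i hi
  by_contra h2
  exact hne (Finset.prod_eq_zero hi (hb0 _ fun h3 => h2 h3.2))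

theorem BCb_sum_beta (N : ℕ) (b : ℕ → ℝ) (hb : ∀ n, |b n| ≤ 1) :
    ∑ ν ∈ Icc 1 (N ^ 10), |BCb_beta N b ν| ≤ (N : ℝ) ^ 10 := by
  refine le_trans (Finset.sum_le_sum fun ν _ => BCb_beta_card N b hb ν) ?_
  have h2 : ∀ x ∈ Fintype.piFinset fun _ : Fin 10 => Icc 1 N, ∏ i, x i ∈ Icc 1 (N ^ 10) := by
    intro x hx
    rw [Fintype.mem_piFinset] at hx
    rw [mem_Icc]
    constructor
    · exact Nat.one_le_iff_ne_zero.2 (Finset.prod_ne_zero_iff.2 fun i _ => by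
        have := (mem_Icc.1 (hx i)).1
        omega)
    · calc ∏ i, x i ≤ ∏ _i : Fin 10, N := Finset.prod_le_prod' fun i _ => (mem_Icc.1 (hx i)).2
        _ = N ^ 10 := by simp
  have h3 := Finset.card_eq_sum_card_fiberwise h2
  have h4 : (Fintype.piFinset fun _ : Fin 10 => Icc 1 N).card = N ^ 10 := by
    rw [Fintype.card_piFinset]
    simp
  rw [h4] at h3
  have h5 : ((N : ℝ)) ^ 10 = ((N ^ 10 : ℕ) : ℝ) := by push_cast; ring
  rw [h5]
  refine le_of_eq ?_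
  calc _ = ((∑ ν ∈ Icc 1 (N ^ 10), ((Fintype.piFinset fun _ : Fin 10 => Icc 1 N).filter
        (fun x => ∏ i, x i = ν)).card : ℕ) : ℝ) := (Nat.cast_sum _ _).symm
    _ = ((N ^ 10 : ℕ) : ℝ) := congrArg (Nat.cast (R := ℝ)) h3.symm

theorem BCb_fiber (N ν : ℕ) (hν : ν ≠ 0) :
    ((Fintype.piFinset fun _ : Fin 10 => Icc 1 N).filter (fun x => ∏ i, x i = ν)).card ≤
      ((Fintype.piFinset fun _ : Fin 10 => ν.divisors).filter (fun x => ∏ i, x i = ν)).card := by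
  refine Finset.card_le_card fun x hx => ?_
  obtain ⟨_, h2⟩ := mem_filter.1 hx
  refine mem_filter.2 ⟨?_, h2⟩
  rw [Fintype.mem_piFinset]
  intro i
  rw [Nat.mem_divisors]
  exact ⟨by rw [← h2]; exact Finset.dvd_prod_of_mem _ (mem_univ i), hν⟩

theorem BCb_W (M H : ℕ) (hH : M ^ 3 ≤ H) :
    ∑ ν ∈ (Icc 1 H).filter Odd,
      (∑ m ∈ (Icc 1 M).filter (fun m => Squarefree m ∧ Odd m), js (m : ℤ) ν) ^ 2 ≤
      5 * M * H := by
  set s := (Icc 1 M).filter (fun m => Squarefree m ∧ Odd m) with hs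
  have hcard : (s.card : ℝ) ≤ M := by
    have h1 : s.card ≤ (Icc 1 M).card := Finset.card_filter_le _ _
    rw [Nat.card_Icc] at h1
    have : s.card ≤ M := by omega
    exact_mod_cast this
  have hexp : ∑ ν ∈ (Icc 1 H).filter Odd, (∑ m ∈ s, js (m : ℤ) ν) ^ 2 =
      ∑ m ∈ s, ∑ k ∈ s, ∑ ν ∈ (Icc 1 H).filter Odd, js ((m * k : ℕ) : ℤ) ν := by
    have h1 : ∀ ν : ℕ, (∑ m ∈ s, js (m : ℤ) ν) ^ 2 =
        ∑ m ∈ s, ∑ k ∈ s, js ((m * k : ℕ) : ℤ) ν := by
      intro ν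
      rw [pow_two, Finset.sum_mul_sum]
      refine Finset.sum_congr rfl fun m _ => Finset.sum_congr rfl fun k _ => ?_
      rw [Nat.cast_mul, BCb_js_mul_left]
    rw [Finset.sum_congr rfl fun ν _ => h1 ν, Finset.sum_comm]
    refine Finset.sum_congr rfl fun m _ => ?_
    rw [Finset.sum_comm]
  rw [hexp]
  have hb : ∀ m ∈ s, ∀ k ∈ s, ∑ ν ∈ (Icc 1 H).filter Odd, js ((m * k : ℕ) : ℤ) ν ≤
      (if m = k then (H : ℝ) else 0) + 4 * (M : ℝ) ^ 2 := by
    intro m hm k hk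
    obtain ⟨hm1, hm2, hm3⟩ := mem_filter.1 hm
    obtain ⟨hk1, hk2, hk3⟩ := mem_filter.1 hk
    rw [mem_Icc] at hm1 hk1
    split_ifs with h
    · have h1 : ∑ ν ∈ (Icc 1 H).filter Odd, js ((m * k : ℕ) : ℤ) ν ≤ H := by
        refine (Finset.sum_le_sum fun ν _ => (le_abs_self _).trans (BCb_js_abs _ _)).trans ?_
        rw [Finset.sum_const, nsmul_eq_mul, mul_one]
        have h2 : ((Icc 1 H).filter Odd).card ≤ (Icc 1 H).card := Finset.card_filter_le _ _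
        rw [Nat.card_Icc] at h2
        have : ((Icc 1 H).filter Odd).card ≤ H := by omega
        exact_mod_cast this
      have : (0 : ℝ) ≤ 4 * (M : ℝ) ^ 2 := by positivity
      linarith
    · have h1 := cs_a (m * k) (hm3.mul hk3) (BCb_not_square hm2 hk2 h) H
      rw [zero_add]
      refine (le_abs_self _).trans (h1.trans ?_)
      have h2 : (m : ℝ) ≤ M := by exact_mod_cast hm1.2
      have h3 : (k : ℝ) ≤ M := by exact_mod_cast hk1.2
      have h4 : (0 : ℝ) ≤ m := by positivity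
      have h5 : (0 : ℝ) ≤ k := by positivity
      push_cast
      nlinarith
  calc ∑ m ∈ s, ∑ k ∈ s, ∑ ν ∈ (Icc 1 H).filter Odd, js ((m * k : ℕ) : ℤ) ν
      ≤ ∑ m ∈ s, ∑ k ∈ s, ((if m = k then (H : ℝ) else 0) + 4 * (M : ℝ) ^ 2) :=
        Finset.sum_le_sum fun m hm => Finset.sum_le_sum fun k hk => hb m hm k hk
    _ = s.card * H + s.card * (s.card * (4 * (M : ℝ) ^ 2)) := by
        rw [Finset.sum_congr rfl fun m hm => Finset.sum_add_distrib, Finset.sum_add_distrib]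
        congr 1
        · have : ∀ m ∈ s, ∑ k ∈ s, (if m = k then (H : ℝ) else 0) = H := by
            intro m hm
            rw [Finset.sum_ite_eq, if_pos hm]
          rw [Finset.sum_congr rfl this]
          simp
        · simp
    _ ≤ M * H + M * (M * (4 * (M : ℝ) ^ 2)) := by
        have h0 : (0 : ℝ) ≤ s.card := by positivity
        have h1 : (0 : ℝ) ≤ 4 * (M : ℝ) ^ 2 := by positivity
        have h2 : (0 : ℝ) ≤ H := by positivity
        have h3 : (s.card : ℝ) * (4 * (M : ℝ) ^ 2) ≤ M * (4 * (M : ℝ) ^ 2) :=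
          mul_le_mul_of_nonneg_right hcard h1
        have h4 : (s.card : ℝ) * (s.card * (4 * (M : ℝ) ^ 2)) ≤ M * (M * (4 * (M : ℝ) ^ 2)) :=
          mul_le_mul hcard h3 (by positivity) (by positivity)
        have h5 : (s.card : ℝ) * H ≤ M * H := mul_le_mul_of_nonneg_right hcard h2
        linarith
    _ ≤ 5 * M * H := by
        have h1 : (M : ℝ) ^ 3 ≤ H := by exact_mod_cast hH
        have h2 : (0 : ℝ) ≤ M := by positivity
        nlinarith

theorem box_comp : ∃ C : ℝ, ∀ (M N : ℕ), 1 ≤ N → N ≤ M → M ≤ N ^ 3 → ∀ (a b : ℕ → ℝ),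
    (∀ m, |a m| ≤ 1) → (∀ n, |b n| ≤ 1) → (∀ m, ¬ (Squarefree m ∧ Odd m) → a m = 0) →
    (∀ n, ¬ (Squarefree n ∧ Odd n) → b n = 0) →
    |∑ m ∈ Icc 1 M, ∑ n ∈ Icc 1 N, a m * b n * js (m : ℤ) n| ≤
      C * M * N * (M : ℝ) ^ (-(1 / 40 : ℝ)) := by
  obtain ⟨C0, hC0⟩ := ten_factors
  refine ⟨max 1 (5 * C0), ?_⟩
  intro M N hN hNM hMN a b ha hb ha0 hb0
  set s := (Icc 1 M).filter (fun m => Squarefree m ∧ Odd m) with hs
  set T : ℕ → ℝ := fun m => ∑ n ∈ Icc 1 N, b n * js (m : ℤ) n with hT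
  have hM1 : (1 : ℝ) ≤ M := by
    have : 1 ≤ M := hN.trans hNM
    exact_mod_cast this
  have hN1 : (1 : ℝ) ≤ N := by exact_mod_cast hN
  have hNM' : (N : ℝ) ≤ M := by exact_mod_cast hNM
  have hM0 : (0 : ℝ) < M := by linarith
  have hN0 : (0 : ℝ) < N := by linarith
  have hC1 : (1 : ℝ) ≤ C0 := by
    have h1 := hC0 1 le_rfl
    have h2 : (1 : ℝ) ≤ (((Fintype.piFinset fun _ : Fin 10 => (1 : ℕ).divisors).filter
        (fun x => ∏ i, x i = 1)).card : ℝ) := by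
      have : 0 < ((Fintype.piFinset fun _ : Fin 10 => (1 : ℕ).divisors).filter
        (fun x => ∏ i, x i = 1)).card := by
        rw [Finset.card_pos]
        refine ⟨fun _ => 1, ?_⟩
        rw [mem_filter, Fintype.mem_piFinset]
        exact ⟨fun _ => by simp, by simp⟩
      exact_mod_cast this
    simpa using h2.trans h1
  have hcard : (s.card : ℝ) ≤ M := by
    have h1 : s.card ≤ (Icc 1 M).card := Finset.card_filter_le _ _
    rw [Nat.card_Icc] at h1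
    have : s.card ≤ M := by omega
    exact_mod_cast this
  -- step 1
  have h1 : |∑ m ∈ Icc 1 M, ∑ n ∈ Icc 1 N, a m * b n * js (m : ℤ) n| ≤ ∑ m ∈ s, |T m| := by
    have e1 : ∑ m ∈ Icc 1 M, ∑ n ∈ Icc 1 N, a m * b n * js (m : ℤ) n =
        ∑ m ∈ s, a m * T m := by
      have e2 : ∀ m, ∑ n ∈ Icc 1 N, a m * b n * js (m : ℤ) n = a m * T m := by
        intro m
        rw [hT, Finset.mul_sum]
        refine Finset.sum_congr rfl fun n _ => by ring
      rw [Finset.sum_congr rfl fun m _ => e2 m, hs, Finset.sum_filter]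
      refine Finset.sum_congr rfl fun m _ => ?_
      split_ifs with h
      · rfl
      · rw [ha0 m h, zero_mul]
    rw [e1]
    refine (Finset.abs_sum_le_sum_abs _ _).trans (Finset.sum_le_sum fun m _ => ?_)
    rw [abs_mul]
    exact mul_le_of_le_one_left (abs_nonneg _) (ha m)
  -- step 2
  set Q := ∑ m ∈ s, T m ^ 10 with hQ
  have h2 : (∑ m ∈ s, |T m|) ^ 10 ≤ (M : ℝ) ^ 9 * Q := by
    have e1 := BCb_pow_sum s (fun m => |T m|) fun m => abs_nonneg _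
    have e2 : ∑ m ∈ s, |T m| ^ 10 = Q := by
      refine Finset.sum_congr rfl fun m _ => ?_
      exact Even.pow_abs (by decide) _
    rw [e2] at e1
    have hQ0 : 0 ≤ Q := by
      rw [← e2]
      exact Finset.sum_nonneg fun m _ => by positivity
    exact e1.trans (mul_le_mul_of_nonneg_right (pow_le_pow_left₀ (by positivity) hcard 9) hQ0)
  -- step 3
  set O := (Icc 1 (N ^ 10)).filter Odd with hO
  have h3 : Q = ∑ ν ∈ O, BCb_beta N b ν * ∑ m ∈ s, js (m : ℤ) ν := by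
    have e1 : Q = ∑ ν ∈ Icc 1 (N ^ 10), BCb_beta N b ν * ∑ m ∈ s, js (m : ℤ) ν := by
      have e0 : ∀ m ∈ s, T m ^ 10 =
          ∑ ν ∈ Icc 1 (N ^ 10), BCb_beta N b ν * js (m : ℤ) ν := fun m _ =>
        BCb_expand N b (m : ℤ)
      rw [hQ, Finset.sum_congr rfl e0, Finset.sum_comm]
      refine Finset.sum_congr rfl fun ν _ => ?_
      rw [Finset.mul_sum]
    rw [e1, hO, Finset.sum_filter]
    refine Finset.sum_congr rfl fun ν _ => ?_
    split_ifs with h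
    · rfl
    · rw [BCb_beta_even N b hb0 h, zero_mul]
  have hr : ((N ^ 10 : ℕ) : ℝ) ^ (1 / 40 : ℝ) = (N : ℝ) ^ (1 / 4 : ℝ) := by
    push_cast
    rw [← Real.rpow_natCast, ← Real.rpow_mul hN0.le]
    norm_num
  have h4 : ∑ ν ∈ O, BCb_beta N b ν ^ 2 ≤ C0 * (N : ℝ) ^ (1 / 4 : ℝ) * (N : ℝ) ^ 10 := by
    have e1 : ∀ ν ∈ O, BCb_beta N b ν ^ 2 ≤
        C0 * (N : ℝ) ^ (1 / 4 : ℝ) * |BCb_beta N b ν| := by
      intro ν hν
      have hν' := (mem_filter.1 hν).1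
      rw [mem_Icc] at hν'
      have e2 : |BCb_beta N b ν| ≤ C0 * (N : ℝ) ^ (1 / 4 : ℝ) := by
        refine (BCb_beta_card N b hb ν).trans ?_
        have e3 : (((Fintype.piFinset fun _ : Fin 10 => Icc 1 N).filter
            (fun x => ∏ i, x i = ν)).card : ℝ) ≤ (((Fintype.piFinset fun _ : Fin 10 =>
            ν.divisors).filter (fun x => ∏ i, x i = ν)).card : ℝ) := by
          exact_mod_cast BCb_fiber N ν (by omega)
        refine e3.trans ((hC0 ν hν'.1).trans ?_)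
        rw [← hr]
        refine mul_le_mul_of_nonneg_left ?_ (by linarith)
        refine Real.rpow_le_rpow (by positivity) ?_ (by norm_num)
        exact_mod_cast hν'.2
      rw [← sq_abs, pow_two]
      exact mul_le_mul_of_nonneg_right e2 (abs_nonneg _)
    refine (Finset.sum_le_sum e1).trans ?_
    rw [← Finset.mul_sum]
    refine mul_le_mul_of_nonneg_left ?_ (by positivity)
    refine le_trans ?_ (BCb_sum_beta N b hb)
    exact Finset.sum_le_sum_of_subset_of_nonneg (Finset.filter_subset _ _)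
      fun _ _ _ => abs_nonneg _
  have h5 : ∑ ν ∈ O, (∑ m ∈ s, js (m : ℤ) ν) ^ 2 ≤ 5 * M * (N : ℝ) ^ 10 := by
    have hH : M ^ 3 ≤ N ^ 10 := by
      calc M ^ 3 ≤ (N ^ 3) ^ 3 := Nat.pow_le_pow_left hMN 3
        _ = N ^ 9 := by ring
        _ ≤ N ^ 10 := Nat.pow_le_pow_right hN (by norm_num)
    have := BCb_W M (N ^ 10) hH
    push_cast at this
    exact this
  have h6 : Q ^ 2 ≤ (C0 * (N : ℝ) ^ (1 / 4 : ℝ) * (N : ℝ) ^ 10) * (5 * M * (N : ℝ) ^ 10) := by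
    rw [h3]
    refine (Finset.sum_mul_sq_le_sq_mul_sq _ _ _).trans ?_
    exact mul_le_mul h4 h5 (Finset.sum_nonneg fun _ _ => sq_nonneg _) (by positivity)
  -- conclusion
  have hC : 5 * C0 ≤ (max 1 (5 * C0)) ^ 20 := by
    have e1 : (1 : ℝ) ≤ max 1 (5 * C0) := le_max_left _ _
    calc 5 * C0 ≤ max 1 (5 * C0) := le_max_right _ _
      _ = (max 1 (5 * C0)) ^ 1 := (pow_one _).symm
      _ ≤ (max 1 (5 * C0)) ^ 20 := pow_le_pow_right₀ e1 (by norm_num)
  have hroot : (N : ℝ) ^ (1 / 4 : ℝ) ≤ (M : ℝ) ^ (1 / 2 : ℝ) := by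
    calc (N : ℝ) ^ (1 / 4 : ℝ) ≤ (M : ℝ) ^ (1 / 4 : ℝ) :=
          Real.rpow_le_rpow hN0.le hNM' (by norm_num)
      _ ≤ (M : ℝ) ^ (1 / 2 : ℝ) := Real.rpow_le_rpow_of_exponent_le hM1 (by norm_num)
  have hpow : ((M : ℝ) ^ (-(1 / 40 : ℝ))) ^ 20 * M = (M : ℝ) ^ (1 / 2 : ℝ) := by
    rw [← Real.rpow_natCast, ← Real.rpow_mul hM0.le]
    nth_rewrite 2 [← Real.rpow_one (M : ℝ)]
    rw [← Real.rpow_add hM0]
    norm_num
  set C := max 1 (5 * C0) with hCdef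
  have hCpos : 0 < C := lt_of_lt_of_le one_pos (le_max_left _ _)
  have hfin : (∑ m ∈ s, |T m|) ^ 20 ≤ (C * M * N * (M : ℝ) ^ (-(1 / 40 : ℝ))) ^ 20 := by
    calc (∑ m ∈ s, |T m|) ^ 20 = ((∑ m ∈ s, |T m|) ^ 10) ^ 2 := by ring
      _ ≤ ((M : ℝ) ^ 9 * Q) ^ 2 := by
          refine pow_le_pow_left₀ ?_ h2 2
          exact pow_nonneg (Finset.sum_nonneg fun _ _ => abs_nonneg _) _
      _ = (M : ℝ) ^ 18 * Q ^ 2 := by ring
      _ ≤ (M : ℝ) ^ 18 * ((C0 * (N : ℝ) ^ (1 / 4 : ℝ) * (N : ℝ) ^ 10) * (5 * M * (N : ℝ) ^ 10)) :=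
          mul_le_mul_of_nonneg_left h6 (by positivity)
      _ = (5 * C0) * ((M : ℝ) ^ 19 * (N : ℝ) ^ 20 * (N : ℝ) ^ (1 / 4 : ℝ)) := by ring
      _ ≤ C ^ 20 * ((M : ℝ) ^ 19 * (N : ℝ) ^ 20 * (M : ℝ) ^ (1 / 2 : ℝ)) := by
          refine mul_le_mul hC ?_ (by positivity) (by positivity)
          exact mul_le_mul_of_nonneg_left hroot (by positivity)
      _ = (C * M * N * (M : ℝ) ^ (-(1 / 40 : ℝ))) ^ 20 := by
          rw [← hpow]
          ring
  have hfin2 : ∑ m ∈ s, |T m| ≤ C * M * N * (M : ℝ) ^ (-(1 / 40 : ℝ)) := by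
    refine le_of_pow_le_pow_left₀ (n := 20) (by norm_num) ?_ hfin
    positivity
  exact h1.trans hfin2

end Pool.Agent.AV
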