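import Pool.Agent.Lib_helper21.AV.Defs
import Pool.Agent.Lib_helper21.AV.W.CS

/-! # BS: bilinear sums, one variable much shorter -/

set_option autoImplicit false

namespace Pool.Agent.AV

open Finset

theorem BS_js_le (a : ℤ) (n : ℕ) : |js a n| ≤ 1 := by
  unfold js
  rcases jacobiSym.trichotomy a n with h | h | h <;> rw [h] <;> norm_num

theorem BS_ns {a b : ℕ} (ha : Squarefree a) (hb : Squarefree b) (hab : a ≠ b) :
    ¬ IsSquare (a * b) := by
  rintro ⟨r, hr⟩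
  have ha0 : a ≠ 0 := ha.ne_zero
  have hb0 : b ≠ 0 := hb.ne_zero
  have hr0 : r ≠ 0 := by
    rintro rfl
    simp [ha0, hb0] at hr
  apply hab
  apply Nat.eq_of_factorization_eq ha0 hb0
  intro p
  have h1 := congrArg (fun n => n.factorization p) hr
  simp only [Nat.factorization_mul ha0 hb0, Nat.factorization_mul hr0 hr0, Finsupp.add_apply] at h1
  have h2 := ha.natFactorization_le_one p
  have h3 := hb.natFactorization_le_one p
  omega

theorem BS_pair (M N : ℕ) (hNM : N ^ 3 ≤ M) (b : ℕ → ℝ)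
    (hb : ∀ n, |b n| ≤ 1) (hb0 : ∀ n, ¬ (Squarefree n ∧ Odd n) → b n = 0) :
    ∑ m ∈ Icc 1 M, (∑ n ∈ Icc 1 N, b n * js (m : ℤ) n) ^ 2 ≤ 2 * M * N := by
  have e1 : ∑ m ∈ Icc 1 M, (∑ n ∈ Icc 1 N, b n * js (m : ℤ) n) ^ 2 =
      ∑ n ∈ Icc 1 N, ∑ l ∈ Icc 1 N, b n * b l * ∑ m ∈ Icc 1 M, js (m : ℤ) n * js (m : ℤ) l := by
    have : ∀ m : ℕ, (∑ n ∈ Icc 1 N, b n * js (m : ℤ) n) ^ 2 =
        ∑ n ∈ Icc 1 N, ∑ l ∈ Icc 1 N, b n * b l * (js (m : ℤ) n * js (m : ℤ) l) := by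
      intro m
      rw [sq, sum_mul_sum]
      refine sum_congr rfl fun n _ => sum_congr rfl fun l _ => by ring
    simp_rw [this]
    rw [sum_comm]
    refine sum_congr rfl fun n _ => ?_
    rw [sum_comm]
    refine sum_congr rfl fun l _ => ?_
    rw [mul_sum]
  rw [e1]
  have e2 : ∀ n ∈ Icc 1 N, ∑ l ∈ Icc 1 N, b n * b l *
      ∑ m ∈ Icc 1 M, js (m : ℤ) n * js (m : ℤ) l ≤ M + (N : ℝ) ^ 3 := by
    intro n hn
    have h1 : ∀ l ∈ Icc 1 N, b n * b l * ∑ m ∈ Icc 1 M, js (m : ℤ) n * js (m : ℤ) l ≤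
        (if l = n then (M : ℝ) else 0) + (N : ℝ) ^ 2 := by
      intro l hl
      by_cases hln : l = n
      · rw [if_pos hln, hln]
        have h2 : |∑ m ∈ Icc 1 M, js (m : ℤ) n * js (m : ℤ) n| ≤ M := by
          refine (abs_sum_le_sum_abs _ _).trans ?_
          calc ∑ m ∈ Icc 1 M, |js (m : ℤ) n * js (m : ℤ) n| ≤ ∑ _m ∈ Icc 1 M, (1 : ℝ) := by
                refine sum_le_sum fun m _ => ?_
                rw [abs_mul]
                have := BS_js_le m n
                nlinarith [abs_nonneg (js (m : ℤ) n)]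
            _ = M := by simp
        have h3 : |b n * b n * ∑ m ∈ Icc 1 M, js (m : ℤ) n * js (m : ℤ) n| ≤ 1 * 1 * M := by
          rw [abs_mul, abs_mul]
          gcongr
          · exact hb n
          · exact hb n
        have h4 := (abs_le.1 h3).2
        have h5 : (0 : ℝ) ≤ (N : ℝ) ^ 2 := by positivity
        linarith
      · rw [if_neg hln, zero_add]
        by_cases hn1 : Squarefree n ∧ Odd n
        · by_cases hl1 : Squarefree l ∧ Odd l
          · have h2 : ∑ m ∈ Icc 1 M, js (m : ℤ) n * js (m : ℤ) l =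
                ∑ m ∈ Icc 1 M, js (m : ℤ) (n * l) := by
              refine sum_congr rfl fun m _ => ?_
              unfold js
              rw [jacobiSym.mul_right' _ hn1.1.ne_zero hl1.1.ne_zero]
              push_cast
              rfl
            have h3 := cs_b (n * l) (hn1.2.mul hl1.2) (BS_ns hn1.1 hl1.1 (Ne.symm hln)) M
            rw [← h2] at h3
            have h4 : |b n * b l * ∑ m ∈ Icc 1 M, js (m : ℤ) n * js (m : ℤ) l| ≤
                1 * 1 * ((n * l : ℕ) : ℝ) := by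
              rw [abs_mul, abs_mul]
              gcongr
              · exact hb n
              · exact hb l
            have h5 : n * l ≤ N ^ 2 := by
              rw [sq]
              exact Nat.mul_le_mul (mem_Icc.1 hn).2 (mem_Icc.1 hl).2
            have h6 : ((n * l : ℕ) : ℝ) ≤ (N : ℝ) ^ 2 := by exact_mod_cast h5
            have h7 := (abs_le.1 h4).2
            linarith
          · rw [hb0 l hl1]
            simp only [mul_zero, zero_mul]
            positivity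
        · rw [hb0 n hn1]
          simp only [zero_mul]
          positivity
    refine (sum_le_sum h1).trans ?_
    rw [sum_add_distrib, sum_ite_eq' (Icc 1 N) n, if_pos hn, sum_const, Nat.card_Icc,
      Nat.add_sub_cancel, nsmul_eq_mul]
    apply le_of_eq
    ring
  refine (sum_le_sum e2).trans ?_
  rw [sum_const, Nat.card_Icc, Nat.add_sub_cancel, nsmul_eq_mul]
  have h1 : (N : ℝ) ^ 3 ≤ M := by exact_mod_cast hNM
  have h2 : (0 : ℝ) ≤ N := by positivity
  nlinarith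

theorem box_small (M N : ℕ) (hN : 1 ≤ N) (hNM : N ^ 3 ≤ M) (a b : ℕ → ℝ)
    (ha : ∀ m, |a m| ≤ 1) (hb : ∀ n, |b n| ≤ 1) (hb0 : ∀ n, ¬ (Squarefree n ∧ Odd n) → b n = 0) :
    |∑ m ∈ Icc 1 M, ∑ n ∈ Icc 1 N, a m * b n * js (m : ℤ) n| ≤
      2 * M * N * (N : ℝ) ^ (-(1 / 2 : ℝ)) := by
  set T : ℕ → ℝ := fun m => ∑ n ∈ Icc 1 N, b n * js (m : ℤ) n with hT
  have e1 : ∑ m ∈ Icc 1 M, ∑ n ∈ Icc 1 N, a m * b n * js (m : ℤ) n =
      ∑ m ∈ Icc 1 M, a m * T m := by
    refine sum_congr rfl fun m _ => ?_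
    rw [hT, mul_sum]
    exact sum_congr rfl fun n _ => by ring
  have e2 : (∑ m ∈ Icc 1 M, a m * T m) ^ 2 ≤ M * (2 * M * N) := by
    refine (sum_mul_sq_le_sq_mul_sq _ _ _).trans ?_
    have h1 : ∑ m ∈ Icc 1 M, a m ^ 2 ≤ (M : ℝ) := by
      calc ∑ m ∈ Icc 1 M, a m ^ 2 ≤ ∑ _m ∈ Icc 1 M, (1 : ℝ) := by
            refine sum_le_sum fun m _ => ?_
            rw [← sq_abs]
            have := ha m
            nlinarith [abs_nonneg (a m)]
        _ = M := by simp
    have h2 := BS_pair M N hNM b hb hb0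
    have h3 : (0 : ℝ) ≤ ∑ m ∈ Icc 1 M, T m ^ 2 := sum_nonneg fun _ _ => sq_nonneg _
    exact mul_le_mul h1 h2 h3 (by positivity)
  rw [e1]
  have hN0 : (0 : ℝ) < N := by exact_mod_cast hN
  have h4 : (2 * (M : ℝ) * N * (N : ℝ) ^ (-(1 / 2 : ℝ))) ^ 2 = 4 * M ^ 2 * N := by
    have h5 : ((N : ℝ) ^ (-(1 / 2 : ℝ))) ^ 2 = (N : ℝ)⁻¹ := by
      rw [← Real.rpow_natCast, ← Real.rpow_mul hN0.le]
      norm_num
      exact Real.rpow_neg_one _
    calc (2 * (M : ℝ) * N * (N : ℝ) ^ (-(1 / 2 : ℝ))) ^ 2 =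
        4 * M ^ 2 * N ^ 2 * ((N : ℝ) ^ (-(1 / 2 : ℝ))) ^ 2 := by ring
      _ = _ := by rw [h5]; field_simp
  apply abs_le_of_sq_le_sq _ (by positivity)
  rw [h4]
  refine e2.trans ?_
  nlinarith [sq_nonneg (M : ℝ), mul_nonneg (sq_nonneg (M : ℝ)) hN0.le]

end Pool.Agent.AV
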