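import Pool.Agent.Lib_helper21.AV.Defs
import Pool.Agent.Lib_helper21.AV.W.BS
import Pool.Agent.Lib_helper21.AV.W.BCb

/-! # BG: bilinear sums, general lengths -/

set_option autoImplicit false

namespace Pool.Agent.AV

open Finset

theorem BG_half : ∃ C : ℝ, 0 ≤ C ∧ ∀ (M N : ℕ), 1 ≤ N → N ≤ M → ∀ (a b : ℕ → ℝ),
    (∀ m, |a m| ≤ 1) → (∀ n, |b n| ≤ 1) → (∀ m, ¬ (Squarefree m ∧ Odd m) → a m = 0) →
    (∀ n, ¬ (Squarefree n ∧ Odd n) → b n = 0) →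
    |∑ m ∈ Icc 1 M, ∑ n ∈ Icc 1 N, a m * b n * js (m : ℤ) n| ≤
      C * M * N * (N : ℝ) ^ (-(1 / 40 : ℝ)) := by
  obtain ⟨C, hC⟩ := box_comp
  refine ⟨max C 2, le_trans (by norm_num) (le_max_right _ _), ?_⟩
  intro M N hN hNM a b ha hb ha0 hb0
  have hN1 : (1 : ℝ) ≤ N := by exact_mod_cast hN
  have hM1 : (N : ℝ) ≤ M := by exact_mod_cast hNM
  rcases le_or_gt (N ^ 3) M with h | h
  · refine (box_small M N hN h a b ha hb hb0).trans ?_
    have h1 : (N : ℝ) ^ (-(1 / 2 : ℝ)) ≤ (N : ℝ) ^ (-(1 / 40 : ℝ)) :=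
      Real.rpow_le_rpow_of_exponent_le hN1 (by norm_num)
    have h2 : (2 : ℝ) ≤ max C 2 := le_max_right _ _
    have h3 : 2 * (M : ℝ) * N ≤ max C 2 * M * N := by gcongr
    exact mul_le_mul h3 h1 (by positivity) (by positivity)
  · refine (hC M N hN hNM h.le a b ha hb ha0 hb0).trans ?_
    have h1 : (M : ℝ) ^ (-(1 / 40 : ℝ)) ≤ (N : ℝ) ^ (-(1 / 40 : ℝ)) :=
      Real.rpow_le_rpow_of_nonpos (by linarith) hM1 (by norm_num)
    have h3 : C * (M : ℝ) * N ≤ max C 2 * M * N := by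
      gcongr
      exact le_max_left _ _
    calc C * (M : ℝ) * N * (M : ℝ) ^ (-(1 / 40 : ℝ))
        ≤ max C 2 * M * N * (M : ℝ) ^ (-(1 / 40 : ℝ)) :=
          mul_le_mul_of_nonneg_right h3 (by positivity)
      _ ≤ _ := mul_le_mul_of_nonneg_left h1 (by positivity)

/-- `(-1) ^ (m / 2)` -/
noncomputable def BG_s (m : ℕ) : ℝ := (-1) ^ (m / 2)

theorem BG_s_abs (m : ℕ) : |BG_s m| = 1 := by
  unfold BG_s
  rw [abs_pow, abs_neg, abs_one, one_pow]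

theorem BG_recip {m n : ℕ} (hm : Odd m) (hn : Odd n) :
    js (m : ℤ) n = 1 / 2 * (1 + BG_s m + BG_s n - BG_s m * BG_s n) * js (n : ℤ) m := by
  unfold js BG_s
  rw [jacobiSym.quadratic_reciprocity hm hn]
  push_cast
  congr 1
  rcases Nat.even_or_odd (m / 2) with h1 | h1 <;> rcases Nat.even_or_odd (n / 2) with h2 | h2
  · rw [(h1.mul_right (n / 2)).neg_one_pow, h1.neg_one_pow, h2.neg_one_pow]; norm_num
  · rw [(h1.mul_right (n / 2)).neg_one_pow, h1.neg_one_pow, h2.neg_one_pow]; norm_num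
  · rw [(h2.mul_left (m / 2)).neg_one_pow, h1.neg_one_pow, h2.neg_one_pow]; norm_num
  · rw [(h1.mul h2).neg_one_pow, h1.neg_one_pow, h2.neg_one_pow]; norm_num

theorem box : ∃ C : ℝ, ∀ (M N : ℕ), 1 ≤ N → 1 ≤ M → ∀ (a b : ℕ → ℝ),
    (∀ m, |a m| ≤ 1) → (∀ n, |b n| ≤ 1) → (∀ m, ¬ (Squarefree m ∧ Odd m) → a m = 0) →
    (∀ n, ¬ (Squarefree n ∧ Odd n) → b n = 0) →
    |∑ m ∈ Icc 1 M, ∑ n ∈ Icc 1 N, a m * b n * js (m : ℤ) n| ≤
      C * M * N * ((min M N : ℕ) : ℝ) ^ (-(1 / 40 : ℝ)) := by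
  obtain ⟨C, hC0, hC⟩ := BG_half
  refine ⟨2 * C, ?_⟩
  intro M N hN hM a b ha hb ha0 hb0
  rcases le_total N M with h | h
  · rw [min_eq_right h]
    refine (hC M N hN h a b ha hb ha0 hb0).trans ?_
    have : 0 ≤ C * (M : ℝ) * N * (N : ℝ) ^ (-(1 / 40 : ℝ)) := by positivity
    linarith
  · rw [min_eq_left h]
    set B : ℝ := C * N * M * (M : ℝ) ^ (-(1 / 40 : ℝ)) with hB
    -- the four sums
    have key : ∀ (f g : ℕ → ℝ), (∀ m, |f m| ≤ 1) → (∀ n, |g n| ≤ 1) →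
        |∑ n ∈ Icc 1 N, ∑ m ∈ Icc 1 M, (g n * b n) * (f m * a m) * js (n : ℤ) m| ≤ B := by
      intro f g hf hg
      refine hC N M hM h (fun n => g n * b n) (fun m => f m * a m) ?_ ?_ ?_ ?_
      · intro n
        rw [abs_mul]
        exact mul_le_one₀ (hg n) (abs_nonneg _) (hb n)
      · intro m
        rw [abs_mul]
        exact mul_le_one₀ (hf m) (abs_nonneg _) (ha m)
      · intro n hn
        rw [hb0 n hn, mul_zero]
      · intro m hm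
        rw [ha0 m hm, mul_zero]
    have h1 : ∀ m, |(fun _ : ℕ => (1 : ℝ)) m| ≤ 1 := by intro m; simp
    have hs : ∀ m, |BG_s m| ≤ 1 := fun m => (BG_s_abs m).le
    have k1 := key (fun _ => 1) (fun _ => 1) h1 h1
    have k2 := key BG_s (fun _ => 1) hs h1
    have k3 := key (fun _ => 1) BG_s h1 hs
    have k4 := key BG_s BG_s hs hs
    have hexp : ∑ m ∈ Icc 1 M, ∑ n ∈ Icc 1 N, a m * b n * js (m : ℤ) n =
        1 / 2 * (∑ n ∈ Icc 1 N, ∑ m ∈ Icc 1 M, ((1 : ℝ) * b n) * (1 * a m) * js (n : ℤ) m) +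
        1 / 2 * (∑ n ∈ Icc 1 N, ∑ m ∈ Icc 1 M, ((1 : ℝ) * b n) * (BG_s m * a m) * js (n : ℤ) m) +
        1 / 2 * (∑ n ∈ Icc 1 N, ∑ m ∈ Icc 1 M, (BG_s n * b n) * (1 * a m) * js (n : ℤ) m) -
        1 / 2 * (∑ n ∈ Icc 1 N, ∑ m ∈ Icc 1 M, (BG_s n * b n) * (BG_s m * a m) * js (n : ℤ) m) := by
      rw [Finset.sum_comm]
      simp only [Finset.mul_sum]
      rw [← Finset.sum_add_distrib, ← Finset.sum_add_distrib, ← Finset.sum_sub_distrib]
      apply Finset.sum_congr rfl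
      intro n _
      rw [← Finset.sum_add_distrib, ← Finset.sum_add_distrib, ← Finset.sum_sub_distrib]
      apply Finset.sum_congr rfl
      intro m _
      by_cases hm : Squarefree m ∧ Odd m
      · by_cases hn : Squarefree n ∧ Odd n
        · rw [BG_recip hm.2 hn.2]
          ring
        · rw [hb0 n hn]; ring
      · rw [ha0 m hm]; ring
    rw [hexp]
    have e : 2 * C * (M : ℝ) * N * (M : ℝ) ^ (-(1 / 40 : ℝ)) = 2 * B := by rw [hB]; ring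
    rw [e]
    rw [abs_le] at k1 k2 k3 k4 ⊢
    constructor <;> linarith [k1.1, k1.2, k2.1, k2.2, k3.1, k3.2, k4.1, k4.2]

end Pool.Agent.AV
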