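import Pool.Agent.Lib_helper21.AV.Defs

/-! # LA: the tent as an integral of windows -/

set_option autoImplicit false

namespace Pool.Agent.AV

open Finset

theorem LA_ind (x y : ℝ) :
    (fun s : ℝ => (if |x + s| ≤ 1 / 2 then (1 : ℝ) else 0) *
      (if |y - s| ≤ 1 / 2 then (1 : ℝ) else 0)) =
    (Set.Icc (max (-x - 1 / 2) (y - 1 / 2)) (min (-x + 1 / 2) (y + 1 / 2))).indicator
      (fun _ => (1 : ℝ)) := by
  funext s
  by_cases hs : s ∈ Set.Icc (max (-x - 1 / 2) (y - 1 / 2)) (min (-x + 1 / 2) (y + 1 / 2))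
  · rw [Set.indicator_of_mem hs]
    obtain ⟨h1, h2⟩ := hs
    rw [max_le_iff] at h1
    rw [le_min_iff] at h2
    rw [if_pos, if_pos, mul_one]
    · rw [abs_le]; constructor <;> linarith [h1.1, h1.2, h2.1, h2.2]
    · rw [abs_le]; constructor <;> linarith [h1.1, h1.2, h2.1, h2.2]
  · rw [Set.indicator_of_notMem hs]
    by_cases h1 : |x + s| ≤ 1 / 2
    · by_cases h2 : |y - s| ≤ 1 / 2
      · exfalso
        apply hs
        rw [abs_le] at h1 h2
        refine ⟨max_le (by linarith [h1.1]) (by linarith [h2.2]),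
          le_min (by linarith [h1.2]) (by linarith [h2.1])⟩
      · rw [if_neg h2, mul_zero]
    · rw [if_neg h1, zero_mul]

theorem LA_integrable (x y : ℝ) :
    MeasureTheory.Integrable (fun s : ℝ => (if |x + s| ≤ 1 / 2 then (1 : ℝ) else 0) *
      (if |y - s| ≤ 1 / 2 then (1 : ℝ) else 0)) := by
  rw [LA_ind]
  rw [MeasureTheory.integrable_indicator_iff measurableSet_Icc]
  exact MeasureTheory.integrableOn_const (by simp) (by simp)

theorem lam_int (x y : ℝ) : Lam (x + y) =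
    ∫ s : ℝ, (if |x + s| ≤ 1 / 2 then (1 : ℝ) else 0) * (if |y - s| ≤ 1 / 2 then (1 : ℝ) else 0) := by
  rw [LA_ind]
  have h := MeasureTheory.integral_indicator_one (μ := MeasureTheory.volume)
    (s := Set.Icc (max (-x - 1 / 2) (y - 1 / 2)) (min (-x + 1 / 2) (y + 1 / 2))) measurableSet_Icc
  have h' : (∫ s : ℝ, (Set.Icc (max (-x - 1 / 2) (y - 1 / 2))
      (min (-x + 1 / 2) (y + 1 / 2))).indicator (fun _ => (1 : ℝ)) s) =
      MeasureTheory.volume.real (Set.Icc (max (-x - 1 / 2) (y - 1 / 2))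
        (min (-x + 1 / 2) (y + 1 / 2))) := h
  rw [h', Real.volume_real_Icc]
  unfold Lam
  rw [max_comm]
  congr 1
  rcases le_total (-x) y with hxy | hxy
  · rw [max_eq_right (by linarith), min_eq_left (by linarith), abs_of_nonneg (by linarith)]
    ring
  · rw [max_eq_left (by linarith), min_eq_right (by linarith), abs_of_nonpos (by linarith)]
    ring

theorem LA_diff (f : ℕ → ℝ) (a b : ℕ) (hab : a ≤ b) :
    ∑ m ∈ Ioc a b, f m = ∑ m ∈ Icc 1 b, f m - ∑ m ∈ Icc 1 a, f m := by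
  have h1 : Icc 1 b = Icc 1 a ∪ Ioc a b := by
    ext m; simp only [Finset.mem_Icc, Finset.mem_union, Finset.mem_Ioc]; omega
  have h2 : Disjoint (Icc 1 a) (Ioc a b) := by
    rw [Finset.disjoint_left]; intro m hm hm'
    simp only [Finset.mem_Icc, Finset.mem_Ioc] at hm hm'; omega
  rw [h1, Finset.sum_union h2]; ring

/-- window sum bound -/
theorem LA_win (f : ℕ → ℝ) (Z N : ℕ) (E Y : ℝ) (hE : 0 ≤ E) (hY : 0 < Y)
    (h : ∀ y : ℕ, Z ≤ y → |∑ m ∈ Icc 1 y, f m| ≤ E * y) (s : ℝ) (hs : |s| ≤ 1 / 2) :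
    |∑ m ∈ Ioc Z N, f m * (if |Real.log ((m : ℝ) / Y) + s| ≤ 1 / 2 then (1 : ℝ) else 0)|
      ≤ 6 * E * Y := by
  have hs' := abs_le.mp hs
  obtain ⟨L, hL⟩ : ∃ L, L = Y * Real.exp (-s - 1 / 2) := ⟨_, rfl⟩
  obtain ⟨U, hU⟩ : ∃ U, U = Y * Real.exp (-s + 1 / 2) := ⟨_, rfl⟩
  have hLpos : 0 < L := by rw [hL]; positivity
  have hUpos : 0 < U := by rw [hU]; positivity
  have hUle : U ≤ 3 * Y := by
    rw [hU]
    have h1 : Real.exp (-s + 1 / 2) ≤ Real.exp 1 := Real.exp_le_exp.mpr (by linarith [hs'.1])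
    have h2 : Real.exp 1 ≤ 3 := by have := Real.exp_one_lt_d9; linarith
    calc Y * Real.exp (-s + 1 / 2) ≤ Y * 3 := mul_le_mul_of_nonneg_left (h1.trans h2) hY.le
      _ = 3 * Y := by ring
  have hcond : ∀ m : ℕ, Z < m → (|Real.log ((m : ℝ) / Y) + s| ≤ 1 / 2 ↔ L ≤ m ∧ (m : ℝ) ≤ U) := by
    intro m hm
    have hm0 : (0 : ℝ) < m := by exact_mod_cast lt_of_le_of_lt (Nat.zero_le Z) hm
    rw [abs_le, hL, hU]
    have e1 : Real.log ((m : ℝ) / Y) = Real.log m - Real.log Y :=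
      Real.log_div hm0.ne' hY.ne'
    have e2 : Y * Real.exp (-s - 1 / 2) ≤ m ↔ Real.log Y + (-s - 1 / 2) ≤ Real.log m := by
      rw [← Real.log_le_log_iff (by positivity) hm0, Real.log_mul hY.ne' (Real.exp_pos _).ne',
        Real.log_exp]
    have e3 : (m : ℝ) ≤ Y * Real.exp (-s + 1 / 2) ↔ Real.log m ≤ Real.log Y + (-s + 1 / 2) := by
      rw [← Real.log_le_log_iff hm0 (by positivity), Real.log_mul hY.ne' (Real.exp_pos _).ne',
        Real.log_exp]
    rw [e1, e2, e3]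
    constructor
    · rintro ⟨h1, h2⟩; constructor <;> linarith
    · rintro ⟨h1, h2⟩; constructor <;> linarith
  -- the interval
  obtain ⟨a, ha⟩ : ∃ a : ℕ, a = max Z (⌈L⌉₊ - 1) := ⟨_, rfl⟩
  obtain ⟨b, hb⟩ : ∃ b : ℕ, b = min N ⌊U⌋₊ := ⟨_, rfl⟩
  have hceil : 1 ≤ ⌈L⌉₊ := Nat.one_le_iff_ne_zero.mpr (Nat.ceil_pos.mpr hLpos).ne'
  have hset : (Ioc Z N).filter (fun m : ℕ => |Real.log ((m : ℝ) / Y) + s| ≤ 1 / 2) = Ioc a b := by
    ext m
    simp only [Finset.mem_filter, Finset.mem_Ioc]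
    constructor
    · rintro ⟨⟨h1, h2⟩, h3⟩
      rw [hcond m h1] at h3
      have h4 : ⌈L⌉₊ ≤ m := Nat.ceil_le.mpr h3.1
      have h5 : m ≤ ⌊U⌋₊ := Nat.le_floor h3.2
      rw [ha, hb]
      constructor
      · rw [max_lt_iff]; omega
      · rw [le_min_iff]; omega
    · rintro ⟨h1, h2⟩
      rw [ha, max_lt_iff] at h1
      rw [hb, le_min_iff] at h2
      refine ⟨⟨h1.1, h2.1⟩, ?_⟩
      rw [hcond m h1.1]
      refine ⟨Nat.ceil_le.mp (by omega), ?_⟩
      exact (Nat.le_floor_iff hUpos.le).mp h2.2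
  have hsum : ∑ m ∈ Ioc Z N, f m *
      (if |Real.log ((m : ℝ) / Y) + s| ≤ 1 / 2 then (1 : ℝ) else 0) = ∑ m ∈ Ioc a b, f m := by
    rw [← hset, Finset.sum_filter]
    refine Finset.sum_congr rfl ?_
    intro m _
    by_cases hc : |Real.log ((m : ℝ) / Y) + s| ≤ 1 / 2
    · rw [if_pos hc, if_pos hc, mul_one]
    · rw [if_neg hc, if_neg hc, mul_zero]
  rw [hsum]
  have hEY : 0 ≤ E * Y := mul_nonneg hE hY.le
  rcases le_or_gt b a with hba | hab
  · rw [Finset.Ioc_eq_empty (by omega)]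
    rw [Finset.sum_empty, abs_zero]
    nlinarith [hEY]
  · rw [LA_diff f a b hab.le]
    have haZ : Z ≤ a := by rw [ha]; exact le_max_left _ _
    have hA := h a haZ
    have hB := h b (haZ.trans hab.le)
    have hbU : (b : ℝ) ≤ U := by
      have : b ≤ ⌊U⌋₊ := by rw [hb]; exact min_le_right _ _
      exact (Nat.le_floor_iff hUpos.le).mp this
    have hb3 : (b : ℝ) ≤ 3 * Y := hbU.trans hUle
    have ha3 : (a : ℝ) ≤ 3 * Y := by
      have : (a : ℝ) ≤ b := by exact_mod_cast hab.le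
      linarith
    have hA' : |∑ m ∈ Icc 1 a, f m| ≤ E * (3 * Y) :=
      hA.trans (mul_le_mul_of_nonneg_left ha3 hE)
    have hB' : |∑ m ∈ Icc 1 b, f m| ≤ E * (3 * Y) :=
      hB.trans (mul_le_mul_of_nonneg_left hb3 hE)
    calc |∑ m ∈ Icc 1 b, f m - ∑ m ∈ Icc 1 a, f m|
        ≤ |∑ m ∈ Icc 1 b, f m| + |∑ m ∈ Icc 1 a, f m| := abs_sub _ _
      _ ≤ E * (3 * Y) + E * (3 * Y) := add_le_add hB' hA'
      _ = 6 * E * Y := by ring

/-- a sum with the tent, bounded through the plain sums -/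
theorem lam_sum (f : ℕ → ℝ) (Z N : ℕ) (E Y : ℝ) (hE : 0 ≤ E) (hY : 0 < Y)
    (h : ∀ y : ℕ, Z ≤ y → |∑ m ∈ Icc 1 y, f m| ≤ E * y) :
    |∑ m ∈ Ioc Z N, f m * Lam (Real.log ((m : ℝ) / Y))| ≤ 6 * E * Y := by
  obtain ⟨G, hG⟩ : ∃ G : ℝ → ℝ, G = fun s => ∑ m ∈ Ioc Z N, f m *
      ((if |Real.log ((m : ℝ) / Y) + s| ≤ 1 / 2 then (1 : ℝ) else 0) *
        (if |0 - s| ≤ 1 / 2 then (1 : ℝ) else 0)) := ⟨_, rfl⟩
  have h1 : ∑ m ∈ Ioc Z N, f m * Lam (Real.log ((m : ℝ) / Y)) = ∫ s : ℝ, G s := by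
    rw [hG]
    rw [MeasureTheory.integral_finsetSum]
    · refine Finset.sum_congr rfl ?_
      intro m _
      rw [MeasureTheory.integral_const_mul]
      rw [← lam_int, add_zero]
    · intro m _
      exact (LA_integrable (Real.log ((m : ℝ) / Y)) 0).const_mul (f m)
  rw [h1]
  obtain ⟨B, hB⟩ : ∃ B : ℝ → ℝ, B = fun s => (6 * E * Y) *
      ((if |0 + s| ≤ 1 / 2 then (1 : ℝ) else 0) * (if |0 - s| ≤ 1 / 2 then (1 : ℝ) else 0)) :=
    ⟨_, rfl⟩
  have hBint : MeasureTheory.Integrable B := by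
    rw [hB]; exact (LA_integrable 0 0).const_mul _
  have hBval : ∫ s : ℝ, B s = 6 * E * Y := by
    rw [hB, MeasureTheory.integral_const_mul, ← lam_int]
    unfold Lam
    simp
  have hle : ∀ s, ‖G s‖ ≤ B s := by
    intro s
    rw [Real.norm_eq_abs, hG, hB]
    by_cases hs : |s| ≤ 1 / 2
    · have hs1 : |0 + s| ≤ 1 / 2 := by rwa [zero_add]
      have hs2 : |0 - s| ≤ 1 / 2 := by rwa [zero_sub, abs_neg]
      simp only [if_pos hs1, if_pos hs2, mul_one]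
      exact LA_win f Z N E Y hE hY h s hs
    · have hs2 : ¬ |0 - s| ≤ 1 / 2 := by rwa [zero_sub, abs_neg]
      simp only [if_neg hs2, mul_zero, Finset.sum_const_zero, abs_zero, le_refl]
  have := MeasureTheory.norm_integral_le_of_norm_le hBint (Filter.Eventually.of_forall hle)
  rw [Real.norm_eq_abs, hBval] at this
  exact this

end Pool.Agent.AV
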