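import Mathlib
import Pool.Agent.Lib_helper21.AV.Defs
import Pool.Agent.Lib_helper21.AV.W.BG
import Pool.Agent.Lib_helper21.AV.W.LA

/-! # BL: bilinear sums with the tent -/

set_option autoImplicit false

namespace Pool.Agent.AV

open Finset

theorem BL_int (x y : ℝ) : MeasureTheory.Integrable (fun s : ℝ =>
    (if |x + s| ≤ 1 / 2 then (1 : ℝ) else 0) * (if |y - s| ≤ 1 / 2 then (1 : ℝ) else 0)) := by
  have h : (fun s : ℝ =>
      (if |x + s| ≤ 1 / 2 then (1 : ℝ) else 0) * (if |y - s| ≤ 1 / 2 then (1 : ℝ) else 0)) =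
      Set.indicator (Set.Icc (-(1 / 2) - x) (1 / 2 - x) ∩ Set.Icc (y - 1 / 2) (y + 1 / 2))
        (fun _ => (1 : ℝ)) := by
    funext s
    by_cases h1 : |x + s| ≤ 1 / 2
    · by_cases h2 : |y - s| ≤ 1 / 2
      · rw [if_pos h1, if_pos h2, Set.indicator_of_mem]
        · norm_num
        · rw [abs_le] at h1 h2
          refine ⟨⟨by linarith [h1.1], by linarith [h1.2]⟩, by linarith [h2.2], by linarith [h2.1]⟩
      · rw [if_neg h2, Set.indicator_of_notMem]
        · ring
        · intro h3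
          apply h2
          rw [abs_le]
          have h4 := h3.2.1
          have h5 := h3.2.2
          constructor <;> linarith
    · rw [if_neg h1, Set.indicator_of_notMem]
      · ring
      · intro h3
        apply h1
        rw [abs_le]
        have h4 := h3.1.1
        have h5 := h3.1.2
        constructor <;> linarith
  rw [h]
  rw [MeasureTheory.integrable_indicator_iff (measurableSet_Icc.inter measurableSet_Icc)]
  have h1 : MeasureTheory.volume (Set.Icc (-(1 / 2) - x) (1 / 2 - x) ∩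
      Set.Icc (y - 1 / 2) (y + 1 / 2)) ≠ ⊤ := by
    apply ne_of_lt
    refine lt_of_le_of_lt (MeasureTheory.measure_mono Set.inter_subset_left) ?_
    exact measure_Icc_lt_top
  have h2 : ‖(1 : ℝ)‖ₑ ≠ ⊤ := by simp
  exact MeasureTheory.integrableOn_const h1 h2

/-- the sum for a fixed shift `s` -/
theorem BL_fix (C : ℝ) (hC : 0 ≤ C) (hbox : ∀ (M N : ℕ), 1 ≤ N → 1 ≤ M → ∀ (a b : ℕ → ℝ),
    (∀ m, |a m| ≤ 1) → (∀ n, |b n| ≤ 1) → (∀ m, ¬ (Squarefree m ∧ Odd m) → a m = 0) →
    (∀ n, ¬ (Squarefree n ∧ Odd n) → b n = 0) →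
    |∑ m ∈ Icc 1 M, ∑ n ∈ Icc 1 N, a m * b n * js (m : ℤ) n| ≤
      C * M * N * ((min M N : ℕ) : ℝ) ^ (-(1 / 40 : ℝ)))
    (T N : ℕ) (Y : ℝ) (hN : 1 ≤ N) (hY : 0 < Y) (a b : ℕ → ℝ)
    (ha : ∀ m, |a m| ≤ 1) (hb : ∀ n, |b n| ≤ 1) (ha' : ∀ m, ¬ (Squarefree m ∧ Odd m) → a m = 0)
    (hb' : ∀ n, ¬ (Squarefree n ∧ Odd n) → b n = 0) (s : ℝ) :
    |∑ m ∈ Ioc T N, ∑ n ∈ Ioc T N, a m * b n * js (m : ℤ) n *
      ((if |Real.log m + s| ≤ 1 / 2 then (1 : ℝ) else 0) *
        (if |(Real.log n - Real.log Y) - s| ≤ 1 / 2 then (1 : ℝ) else 0))| ≤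
      C * Real.exp 1 * Y * ((T : ℝ) + 1) ^ (-(1 / 40 : ℝ)) ∧
    (s ∉ Set.Icc (-(1 / 2) - Real.log N) (1 / 2) →
      ∑ m ∈ Ioc T N, ∑ n ∈ Ioc T N, a m * b n * js (m : ℤ) n *
      ((if |Real.log m + s| ≤ 1 / 2 then (1 : ℝ) else 0) *
        (if |(Real.log n - Real.log Y) - s| ≤ 1 / 2 then (1 : ℝ) else 0)) = 0) := by
  classical
  have hT0 : (0 : ℝ) < (T : ℝ) + 1 := by positivity
  have hrhs : 0 ≤ C * Real.exp 1 * Y * ((T : ℝ) + 1) ^ (-(1 / 40 : ℝ)) := by positivity
  constructor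
  · by_cases h1 : ∃ m ∈ Ioc T N, |Real.log m + s| ≤ 1 / 2
    swap
    · push Not at h1
      have : ∑ m ∈ Ioc T N, ∑ n ∈ Ioc T N, a m * b n * js (m : ℤ) n *
          ((if |Real.log m + s| ≤ 1 / 2 then (1 : ℝ) else 0) *
          (if |(Real.log n - Real.log Y) - s| ≤ 1 / 2 then (1 : ℝ) else 0)) = 0 := by
        apply Finset.sum_eq_zero
        intro m hm
        apply Finset.sum_eq_zero
        intro n _
        rw [if_neg (not_le.2 (h1 m hm))]
        ring
      rw [this, abs_zero]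
      exact hrhs
    by_cases h2 : ∃ n ∈ Ioc T N, |(Real.log n - Real.log Y) - s| ≤ 1 / 2
    swap
    · push Not at h2
      have : ∑ m ∈ Ioc T N, ∑ n ∈ Ioc T N, a m * b n * js (m : ℤ) n *
          ((if |Real.log m + s| ≤ 1 / 2 then (1 : ℝ) else 0) *
          (if |(Real.log n - Real.log Y) - s| ≤ 1 / 2 then (1 : ℝ) else 0)) = 0 := by
        apply Finset.sum_eq_zero
        intro m _
        apply Finset.sum_eq_zero
        intro n hn
        rw [if_neg (not_le.2 (h2 n hn))]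
        ring
      rw [this, abs_zero]
      exact hrhs
    obtain ⟨m0, hm0, hm1⟩ := h1
    obtain ⟨n0, hn0, hn1⟩ := h2
    have hwm : ∀ m : ℕ, 1 ≤ m → |Real.log m + s| ≤ 1 / 2 → m ≤ ⌊Real.exp (1 / 2 - s)⌋₊ := by
      intro m hm h
      apply Nat.le_floor
      have hm' : (0 : ℝ) < m := by exact_mod_cast hm
      rw [← Real.log_le_iff_le_exp hm']
      rw [abs_le] at h
      linarith [h.2]
    have hwn : ∀ n : ℕ, 1 ≤ n → |(Real.log n - Real.log Y) - s| ≤ 1 / 2 →
        n ≤ ⌊Y * Real.exp (1 / 2 + s)⌋₊ := by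
      intro n hn h
      apply Nat.le_floor
      have hn' : (0 : ℝ) < n := by exact_mod_cast hn
      have : (n : ℝ) / Y ≤ Real.exp (1 / 2 + s) := by
        rw [← Real.log_le_iff_le_exp (by positivity), Real.log_div (by positivity) (by positivity)]
        rw [abs_le] at h
        linarith [h.2]
      rw [div_le_iff₀ hY] at this
      linarith
    rw [Finset.mem_Ioc] at hm0 hn0
    have hm2 := hwm m0 (by omega) hm1
    have hn2 := hwn n0 (by omega) hn1
    set M' := ⌊Real.exp (1 / 2 - s)⌋₊ with hM'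
    set N' := ⌊Y * Real.exp (1 / 2 + s)⌋₊ with hN'
    have hb1 := hbox M' N' (by omega) (by omega)
      (fun m => if m ∈ Ioc T N ∧ |Real.log m + s| ≤ 1 / 2 then a m else 0)
      (fun n => if n ∈ Ioc T N ∧ |(Real.log n - Real.log Y) - s| ≤ 1 / 2 then b n else 0)
      (by intro m; split_ifs; exacts [ha m, by simp])
      (by intro m; split_ifs; exacts [hb m, by simp])
      (by intro m hm; rw [ha' m hm]; simp)
      (by intro m hm; rw [hb' m hm]; simp)
    have key : ∑ m ∈ Ioc T N, ∑ n ∈ Ioc T N, a m * b n * js (m : ℤ) n *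
      ((if |Real.log m + s| ≤ 1 / 2 then (1 : ℝ) else 0) *
        (if |(Real.log n - Real.log Y) - s| ≤ 1 / 2 then (1 : ℝ) else 0)) =
      ∑ m ∈ Icc 1 M', ∑ n ∈ Icc 1 N',
        (if m ∈ Ioc T N ∧ |Real.log m + s| ≤ 1 / 2 then a m else 0) *
        (if n ∈ Ioc T N ∧ |(Real.log n - Real.log Y) - s| ≤ 1 / 2 then b n else 0) *
        js (m : ℤ) n := by
      rw [← Finset.sum_product', ← Finset.sum_product']
      apply Finset.sum_congr_of_eq_on_inter
      · rintro ⟨m, n⟩ hp hq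
        rw [Finset.mem_product] at hp hq
        dsimp only at hp hq ⊢
        by_cases g1 : |Real.log m + s| ≤ 1 / 2
        · by_cases g2 : |(Real.log n - Real.log Y) - s| ≤ 1 / 2
          · exfalso
            apply hq
            have hp1 := Finset.mem_Ioc.1 hp.1
            have hp2 := Finset.mem_Ioc.1 hp.2
            exact ⟨Finset.mem_Icc.2 ⟨by omega, hwm m (by omega) g1⟩,
              Finset.mem_Icc.2 ⟨by omega, hwn n (by omega) g2⟩⟩
          · rw [if_neg g2]; ring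
        · rw [if_neg g1]; ring
      · rintro ⟨m, n⟩ hp hq
        rw [Finset.mem_product] at hp hq
        dsimp only at hp hq ⊢
        by_cases g1 : m ∈ Ioc T N
        · have g2 : n ∉ Ioc T N := fun h => hq ⟨g1, h⟩
          have e0 : (if n ∈ Ioc T N ∧ |(Real.log n - Real.log Y) - s| ≤ 1 / 2 then b n else 0) = 0 :=
            if_neg (fun h => g2 h.1)
          rw [e0]
          ring
        · rw [if_neg (fun h => g1 h.1)]
          ring
      · rintro ⟨m, n⟩ hp hq
        rw [Finset.mem_product] at hp hq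
        dsimp only at hp hq ⊢
        by_cases g1 : |Real.log m + s| ≤ 1 / 2
        · by_cases g2 : |(Real.log n - Real.log Y) - s| ≤ 1 / 2
          · rw [if_pos g1, if_pos g2, if_pos ⟨hp.1, g1⟩, if_pos ⟨hp.2, g2⟩]
            ring
          · have e0 : (if n ∈ Ioc T N ∧ |(Real.log n - Real.log Y) - s| ≤ 1 / 2 then b n else 0) =
                0 := if_neg (fun h => g2 h.2)
            rw [if_neg g2, e0]; ring
        · have e0 : (if m ∈ Ioc T N ∧ |Real.log m + s| ≤ 1 / 2 then a m else 0) = 0 :=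
            if_neg (fun h => g1 h.2)
          rw [if_neg g1, e0]; ring
    rw [key]
    refine hb1.trans ?_
    have e1 : (M' : ℝ) ≤ Real.exp (1 / 2 - s) := Nat.floor_le (Real.exp_pos _).le
    have e2 : (N' : ℝ) ≤ Y * Real.exp (1 / 2 + s) := Nat.floor_le (by positivity)
    have e3 : ((min M' N' : ℕ) : ℝ) ^ (-(1 / 40 : ℝ)) ≤ ((T : ℝ) + 1) ^ (-(1 / 40 : ℝ)) := by
      apply Real.rpow_le_rpow_of_nonpos hT0
      · have : T + 1 ≤ min M' N' := by
          rw [le_min_iff]
          omega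
        exact_mod_cast this
      · norm_num
    have e4 : (M' : ℝ) * N' ≤ Real.exp 1 * Y := by
      calc (M' : ℝ) * N' ≤ Real.exp (1 / 2 - s) * (Y * Real.exp (1 / 2 + s)) := by
            apply mul_le_mul e1 e2 (by positivity) (by positivity)
        _ = (Real.exp (1 / 2 - s) * Real.exp (1 / 2 + s)) * Y := by ring
        _ = Real.exp 1 * Y := by
            rw [← Real.exp_add]
            congr 2
            ring
    calc C * M' * N' * ((min M' N' : ℕ) : ℝ) ^ (-(1 / 40 : ℝ))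
        = C * (((M' : ℝ) * N') * ((min M' N' : ℕ) : ℝ) ^ (-(1 / 40 : ℝ))) := by ring
      _ ≤ C * ((Real.exp 1 * Y) * ((T : ℝ) + 1) ^ (-(1 / 40 : ℝ))) := by
          apply mul_le_mul_of_nonneg_left _ hC
          apply mul_le_mul e4 e3 (by positivity) (by positivity)
      _ = _ := by ring
  · intro hs
    apply Finset.sum_eq_zero
    intro m hm
    apply Finset.sum_eq_zero
    intro n _
    rw [Finset.mem_Ioc] at hm
    have hm1 : (1 : ℝ) ≤ m := by
      have : 1 ≤ m := by omega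
      exact_mod_cast this
    have hmN : (m : ℝ) ≤ N := by exact_mod_cast hm.2
    have l1 : 0 ≤ Real.log m := Real.log_nonneg hm1
    have l2 : Real.log m ≤ Real.log N := Real.log_le_log (by linarith) hmN
    rw [if_neg]
    · ring
    · intro h
      apply hs
      rw [abs_le] at h
      exact ⟨by linarith [h.1], by linarith [h.2]⟩

theorem bil : ∃ C : ℝ, 0 ≤ C ∧ ∀ (T N : ℕ) (Y : ℝ), 1 ≤ N → 0 < Y → ∀ (a b : ℕ → ℝ),
    (∀ m, |a m| ≤ 1) → (∀ n, |b n| ≤ 1) → (∀ m, ¬ (Squarefree m ∧ Odd m) → a m = 0) →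
    (∀ n, ¬ (Squarefree n ∧ Odd n) → b n = 0) →
    |∑ m ∈ Ioc T N, ∑ n ∈ Ioc T N, a m * b n * js (m : ℤ) n *
        Lam (Real.log ((m : ℝ) * n / Y))| ≤
      C * Y * (1 + Real.log N) * ((T : ℝ) + 1) ^ (-(1 / 40 : ℝ)) := by
  classical
  obtain ⟨C0, hC0⟩ := box
  set C := max C0 0 with hCdef
  have hC : 0 ≤ C := le_max_right _ _
  have hbox : ∀ (M N : ℕ), 1 ≤ N → 1 ≤ M → ∀ (a b : ℕ → ℝ),
      (∀ m, |a m| ≤ 1) → (∀ n, |b n| ≤ 1) → (∀ m, ¬ (Squarefree m ∧ Odd m) → a m = 0) →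
      (∀ n, ¬ (Squarefree n ∧ Odd n) → b n = 0) →
      |∑ m ∈ Icc 1 M, ∑ n ∈ Icc 1 N, a m * b n * js (m : ℤ) n| ≤
        C * M * N * ((min M N : ℕ) : ℝ) ^ (-(1 / 40 : ℝ)) := by
    intro M N h1 h2 a b h3 h4 h5 h6
    refine (hC0 M N h1 h2 a b h3 h4 h5 h6).trans ?_
    have : C0 ≤ C := le_max_left _ _
    gcongr
  refine ⟨C * Real.exp 1, by positivity, ?_⟩
  intro T N Y hN hY a b ha hb ha' hb'
  set F : ℝ → ℝ := fun s => ∑ m ∈ Ioc T N, ∑ n ∈ Ioc T N, a m * b n * js (m : ℤ) n *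
      ((if |Real.log m + s| ≤ 1 / 2 then (1 : ℝ) else 0) *
        (if |(Real.log n - Real.log Y) - s| ≤ 1 / 2 then (1 : ℝ) else 0)) with hF
  have hsum : ∑ m ∈ Ioc T N, ∑ n ∈ Ioc T N, a m * b n * js (m : ℤ) n *
        Lam (Real.log ((m : ℝ) * n / Y)) = ∫ s : ℝ, F s := by
    rw [hF]
    rw [MeasureTheory.integral_finsetSum]
    · apply Finset.sum_congr rfl
      intro m hm
      rw [MeasureTheory.integral_finsetSum]
      · apply Finset.sum_congr rfl
        intro n hn
        rw [MeasureTheory.integral_const_mul, ← lam_int]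
        congr 2
        rw [Finset.mem_Ioc] at hm hn
        have hm1 : (m : ℝ) ≠ 0 := by
          have : m ≠ 0 := by omega
          exact_mod_cast this
        have hn1 : (n : ℝ) ≠ 0 := by
          have : n ≠ 0 := by omega
          exact_mod_cast this
        rw [Real.log_div (by positivity) hY.ne', Real.log_mul hm1 hn1]
        ring
      · intro n _
        exact (BL_int _ _).const_mul _
    · intro m _
      apply MeasureTheory.integrable_finsetSum
      intro n _
      exact (BL_int _ _).const_mul _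
  rw [hsum]
  have hfix := fun s => BL_fix C hC hbox T N Y hN hY a b ha hb ha' hb' s
  have hNl : 0 ≤ Real.log N := Real.log_nonneg (by exact_mod_cast hN)
  rw [← MeasureTheory.setIntegral_eq_integral_of_forall_compl_eq_zero
    (s := Set.Icc (-(1 / 2) - Real.log N) (1 / 2)) (fun s hs => (hfix s).2 hs)]
  have h1 := MeasureTheory.norm_setIntegral_le_of_norm_le_const
    (μ := MeasureTheory.volume) (s := Set.Icc (-(1 / 2) - Real.log N) (1 / 2)) (f := F)
    (C := C * Real.exp 1 * Y * ((T : ℝ) + 1) ^ (-(1 / 40 : ℝ)))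
    measure_Icc_lt_top (fun s _ => by rw [Real.norm_eq_abs]; exact (hfix s).1)
  rw [Real.norm_eq_abs] at h1
  refine h1.trans (le_of_eq ?_)
  rw [MeasureTheory.measureReal_def, Real.volume_Icc, ENNReal.toReal_ofReal (by linarith)]
  ring

end Pool.Agent.AV
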