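import Pool.Agent.Lib_helper21.AV.Defs

/-! # IS: isolating variables in box sums -/

set_option autoImplicit false

namespace Pool.Agent.AV

open Finset

theorem pi_one (A : V → Finset ℕ) (u : V) (f : (V → ℕ) → ℝ) :
    ∑ D ∈ Fintype.piFinset A, f D =
      ∑ D ∈ Fintype.piFinset (Function.update A u {1}), ∑ m ∈ A u, f (Function.update D u m) := by
  rw [← Finset.sum_product']
  apply Finset.sum_nbij' (fun D => (Function.update D u 1, D u))
    (fun p => Function.update p.1 u p.2)
  · intro D hD
    rw [Fintype.mem_piFinset] at hD
    rw [Finset.mem_product, Fintype.mem_piFinset]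
    refine ⟨?_, hD u⟩
    intro v
    by_cases h : v = u
    · subst h; simp
    · simp only [Function.update_of_ne h]
      exact hD v
  · intro p hp
    rw [Finset.mem_product, Fintype.mem_piFinset] at hp
    rw [Fintype.mem_piFinset]
    intro v
    by_cases h : v = u
    · subst h
      simp only [Function.update_self]
      exact hp.2
    · have := hp.1 v
      simp only [Function.update_of_ne h] at this ⊢
      exact this
  · intro D _
    simp
  · intro p hp
    rw [Finset.mem_product, Fintype.mem_piFinset] at hp
    have h1 := hp.1 u
    simp only [Function.update_self, Finset.mem_singleton] at h1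
    ext v
    · simp only [Function.update_idem]
      by_cases h : v = u
      · subst h; simp [h1]
      · simp [Function.update_of_ne h]
    · simp
  · intro D _
    simp

theorem pi_two (A : V → Finset ℕ) (u v : V) (huv : u ≠ v) (f : (V → ℕ) → ℝ) :
    ∑ D ∈ Fintype.piFinset A, f D =
      ∑ D ∈ Fintype.piFinset (Function.update (Function.update A u {1}) v {1}),
        ∑ m ∈ A u, ∑ n ∈ A v, f (Function.update (Function.update D u m) v n) := by
  rw [pi_one A u f, pi_one (Function.update A u {1}) v]
  apply Finset.sum_congr rfl
  intro D _
  rw [Function.update_of_ne huv.symm, Finset.sum_comm]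
  apply Finset.sum_congr rfl
  intro m _
  apply Finset.sum_congr rfl
  intro n _
  rw [Function.update_comm huv]

/-- splitting one coordinate of the box -/
theorem MS_union (κ : V → ℤ) (X : ℝ) (A : V → Finset ℕ) (u : V) (B B' : Finset ℕ)
    (h : Disjoint B B') : MS κ X (Function.update A u (B ∪ B')) =
      MS κ X (Function.update A u B) + MS κ X (Function.update A u B') := by
  unfold MS
  rw [pi_one (Function.update A u (B ∪ B')) u, pi_one (Function.update A u B) u,
    pi_one (Function.update A u B') u]
  simp only [Function.update_idem, Function.update_self]
  rw [← Finset.sum_add_distrib]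
  apply Finset.sum_congr rfl
  intro D _
  rw [Finset.sum_union h]

/-- splitting all the coordinates -/
theorem MS_split (κ : V → ℤ) (X : ℝ) (B B' : Finset ℕ) (h : Disjoint B B') (S : Finset V)
    (A : V → Finset ℕ) (hA : ∀ u ∈ S, A u = B ∪ B') :
    MS κ X A = ∑ J ∈ S.powerset, MS κ X (fun u => if u ∈ S then (if u ∈ J then B' else B) else A u) := by
  induction S using Finset.induction_on generalizing A with
  | empty => simp
  | insert a S ha ih =>
    have hAa : A = Function.update A a (B ∪ B') := by
      ext1 v
      by_cases hv : v = a
      · subst hv
        rw [Function.update_self]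
        exact hA v (Finset.mem_insert_self _ _)
      · rw [Function.update_of_ne hv]
    have h1 : MS κ X A = MS κ X (Function.update A a B) + MS κ X (Function.update A a B') := by
      conv_lhs => rw [hAa]
      exact MS_union κ X A a B B' h
    have hne : ∀ u ∈ S, u ≠ a := fun u hu hc => ha (hc ▸ hu)
    have h2 := ih (Function.update A a B) (fun u hu => by
      rw [Function.update_of_ne (hne u hu)]; exact hA u (Finset.mem_insert_of_mem hu))
    have h3 := ih (Function.update A a B') (fun u hu => by
      rw [Function.update_of_ne (hne u hu)]; exact hA u (Finset.mem_insert_of_mem hu))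
    rw [h1, h2, h3, Finset.sum_powerset_insert ha]
    refine congrArg₂ (· + ·) (Finset.sum_congr rfl ?_) (Finset.sum_congr rfl ?_)
    · intro J hJ
      have haJ : a ∉ J := fun hc => ha (Finset.mem_powerset.mp hJ hc)
      refine congrArg (MS κ X) ?_
      ext1 v
      by_cases hv : v = a
      · subst hv
        simp [ha, haJ]
      · simp [hv, Function.update_of_ne hv]
    · intro J hJ
      refine congrArg (MS κ X) ?_
      ext1 v
      by_cases hv : v = a
      · subst hv
        simp [ha]
      · simp [hv, Function.update_of_ne hv]

end Pool.Agent.AV
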