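import Pool.Agent.Lib_helper21.AV.Defs

/-! # TU: sums over tuples with squarefree product -/

set_option autoImplicit false

namespace Pool.Agent.AV

open Finset

theorem TU_om_prod {ι : Type} [DecidableEq ι] (D : ι → ℕ) (s : Finset ι)
    (h : Squarefree (∏ i ∈ s, D i)) : om (∏ i ∈ s, D i) = ∑ i ∈ s, om (D i) := by
  induction s using Finset.induction_on with
  | empty => simp [om]
  | insert a s ha ih =>
    rw [Finset.prod_insert ha] at h ⊢
    rw [Finset.sum_insert ha]
    have hc : Nat.Coprime (D a) (∏ i ∈ s, D i) := Nat.coprime_of_squarefree_mul h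
    have hs : Squarefree (∏ i ∈ s, D i) := h.of_mul_right
    rw [← ih hs]
    unfold om
    rw [hc.primeFactors_mul, Finset.card_union_of_disjoint hc.disjoint_primeFactors]

theorem TU_om_omega (m : ℕ) : om m = ArithmeticFunction.cardDistinctFactors m := by
  rw [ArithmeticFunction.cardDistinctFactors_apply]
  unfold om
  rw [Nat.primeFactors, List.card_toFinset]

theorem TU_fiber {ι : Type} [Fintype ι] [DecidableEq ι] (S : Finset (ι → ℕ)) (m : ℕ)
    (hm : Squarefree m) : (S.filter (fun D => ∏ i, D i = m)).card ≤ (Fintype.card ι) ^ om m := by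
  classical
  rw [TU_om_omega, ← Nat.card_finMulAntidiag_of_squarefree hm]
  let e := Fintype.equivFin ι
  refine Finset.card_le_card_of_injOn (fun D => D ∘ e.symm) ?_ ?_
  · intro D hD
    simp only [Finset.coe_filter, Set.mem_ofPred_eq] at hD
    simp only [Finset.mem_coe, Nat.mem_finMulAntidiag]
    refine ⟨?_, hm.ne_zero⟩
    rw [← hD.2]
    exact Equiv.prod_comp e.symm D
  · intro D _ D' _ hDD
    have h : D ∘ e.symm = D' ∘ e.symm := hDD
    funext i
    have := congrFun h (e i)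
    simpa using this

theorem tup {ι : Type} [Fintype ι] [DecidableEq ι] (A : ι → Finset ℕ) (Y : ℕ) :
    ∑ D ∈ (Fintype.piFinset A).filter (fun D => ∏ i, D i ≤ Y ∧ Squarefree (∏ i, D i)),
        ∏ i, (1 / 4 : ℝ) ^ om (D i) ≤
      ∑ m ∈ (Icc 1 Y).filter Squarefree, ((Fintype.card ι : ℝ) / 4) ^ om m := by
  classical
  obtain ⟨S, hS⟩ : ∃ S, S = (Fintype.piFinset A).filter
    (fun D => ∏ i, D i ≤ Y ∧ Squarefree (∏ i, D i)) := ⟨_, rfl⟩
  rw [← hS]
  have hmap : ∀ D ∈ S, (∏ i, D i) ∈ (Icc 1 Y).filter Squarefree := by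
    intro D hD
    rw [hS, Finset.mem_filter] at hD
    rw [Finset.mem_filter, Finset.mem_Icc]
    exact ⟨⟨Nat.one_le_iff_ne_zero.mpr hD.2.2.ne_zero, hD.2.1⟩, hD.2.2⟩
  rw [← Finset.sum_fiberwise_of_maps_to hmap]
  refine Finset.sum_le_sum ?_
  intro m hm
  have hmsq : Squarefree m := (Finset.mem_filter.mp hm).2
  have h1 : ∀ D ∈ S.filter (fun D => ∏ i, D i = m),
      ∏ i, (1 / 4 : ℝ) ^ om (D i) = (1 / 4 : ℝ) ^ om m := by
    intro D hD
    have hD2 := (Finset.mem_filter.mp hD).2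
    rw [Finset.prod_pow_eq_pow_sum, ← TU_om_prod D Finset.univ (by rw [hD2]; exact hmsq), hD2]
  rw [Finset.sum_congr rfl h1, Finset.sum_const, nsmul_eq_mul]
  have h2 : ((S.filter (fun D => ∏ i, D i = m)).card : ℝ) ≤ (Fintype.card ι : ℝ) ^ om m := by
    exact_mod_cast TU_fiber S m hmsq
  calc ((S.filter (fun D => ∏ i, D i = m)).card : ℝ) * (1 / 4 : ℝ) ^ om m
      ≤ (Fintype.card ι : ℝ) ^ om m * (1 / 4 : ℝ) ^ om m :=
        mul_le_mul_of_nonneg_right h2 (by positivity)
    _ = ((Fintype.card ι : ℝ) / 4) ^ om m := by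
        rw [← mul_pow]; congr 1; ring

end Pool.Agent.AV
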