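import Pool.Agent.Lib_helper21.AV.Defs
import Pool.Agent.Lib_helper21.AV.W.TU
import Pool.Agent.Lib_helper21.AV.W.STa

/-! # C3: four variables, the others equal to one -/

set_option autoImplicit false

namespace Pool.Agent.AV

open Finset

theorem C3_lam_nonneg (x : ℝ) : 0 ≤ Lam x := le_max_left _ _

theorem C3_lam_le (x : ℝ) : Lam x ≤ 1 := by
  unfold Lam
  refine max_le zero_le_one ?_
  have := abs_nonneg x
  linarith

theorem C3_lam_zero {n : ℕ} {X : ℝ} (hX : 0 < X) (h : ⌊Real.exp 1 * X⌋₊ < n) :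
    Lam (Real.log ((n : ℝ) / X)) = 0 := by
  have h1 : Real.exp 1 * X < n := (Nat.floor_lt (by positivity)).1 h
  have h2 : Real.exp 1 ≤ (n : ℝ) / X := by
    rw [le_div_iff₀ hX]; exact h1.le
  have h3 : 1 ≤ Real.log ((n : ℝ) / X) := by
    rw [Real.le_log_iff_exp_le (lt_of_lt_of_le (Real.exp_pos 1) h2)]
    exact h2
  unfold Lam
  apply max_eq_left
  have := le_abs_self (Real.log ((n : ℝ) / X))
  linarith

theorem C3_gw_le (m : ℕ) : gw m ≤ (1 / 4 : ℝ) ^ om m := by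
  unfold gw
  split_ifs
  · exact le_rfl
  · positivity

theorem case3 (κ : V → ℤ) (X : ℝ) (hX : 1 ≤ X) (A : V → Finset ℕ) (J : Finset V)
    (hJ : J.card = 4) (hA : ∀ v ∉ J, A v ⊆ {1}) : |MS κ X A| ≤ 3 * X := by
  have hX0 : 0 < X := by linarith
  set Y : ℕ := ⌊Real.exp 1 * X⌋₊ with hY
  set S := (Fintype.piFinset A).filter (fun D => ∏ u, D u ≤ Y ∧ Squarefree (∏ u, D u)) with hS
  have hone : ∀ D ∈ Fintype.piFinset A, ∀ v ∉ J, D v = 1 := fun D hD v hv =>
    mem_singleton.1 (hA v hv (Fintype.mem_piFinset.1 hD v))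
  -- the product over all variables
  have hprod : ∀ D ∈ Fintype.piFinset A, ∏ u, D u = ∏ i : {x // x ∈ J}, D i := by
    intro D hD
    rw [prod_coe_sort J D]
    exact (prod_subset (subset_univ J) fun v _ hv => hone D hD v hv).symm
  have hterm : ∀ D ∈ Fintype.piFinset A, D ∉ S →
      wt κ D * Lam (Real.log ((∏ u, (D u : ℝ)) / X)) = 0 := by
    intro D hD hDS
    by_cases h1 : Squarefree (∏ u, D u) ∧ Odd (∏ u, D u)
    · have h2 : Y < ∏ u, D u := by
        by_contra h3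
        exact hDS (mem_filter.2 ⟨hD, by omega, h1.1⟩)
      have h3 := C3_lam_zero hX0 h2
      rw [Nat.cast_prod] at h3
      rw [h3, mul_zero]
    · rw [wt_zero κ D h1, zero_mul]
  have hbound : ∀ D ∈ S, |wt κ D * Lam (Real.log ((∏ u, (D u : ℝ)) / X))| ≤
      ∏ i : {x // x ∈ J}, (1 / 4 : ℝ) ^ om (D i) := by
    intro D hD
    have hD' := (mem_filter.1 hD).1
    rw [abs_mul, abs_of_nonneg (C3_lam_nonneg _)]
    have h1 : |wt κ D| ≤ ∏ i : {x // x ∈ J}, (1 / 4 : ℝ) ^ om (D i) := by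
      refine (wt_abs κ D).trans ?_
      have e : ∏ u ∈ J, (1 / 4 : ℝ) ^ om (D u) = ∏ u, (1 / 4 : ℝ) ^ om (D u) :=
        prod_subset (subset_univ J) fun v _ hv => by
          rw [hone D hD' v hv]; simp [om]
      rw [prod_coe_sort J (fun u => (1 / 4 : ℝ) ^ om (D u)), e]
      exact prod_le_prod (fun u _ => gw_nonneg _) (fun u _ => C3_gw_le _)
    have h2 : 0 ≤ ∏ i : {x // x ∈ J}, (1 / 4 : ℝ) ^ om (D i) := by positivity
    calc |wt κ D| * Lam _ ≤ (∏ i : {x // x ∈ J}, (1 / 4 : ℝ) ^ om (D i)) * 1 :=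
          mul_le_mul h1 (C3_lam_le _) (C3_lam_nonneg _) h2
      _ = _ := mul_one _
  have hmain : |MS κ X A| ≤ ∑ D ∈ S, ∏ i : {x // x ∈ J}, (1 / 4 : ℝ) ^ om (D i) := by
    unfold MS
    rw [← sum_subset (filter_subset _ _) hterm]
    exact (abs_sum_le_sum_abs _ _).trans (sum_le_sum hbound)
  let r : (V → ℕ) → ({x // x ∈ J} → ℕ) := fun D i => D i
  have hinj : Set.InjOn r (S : Set (V → ℕ)) := by
    intro D hD D' hD' h
    have h1 := (mem_filter.1 (mem_coe.1 hD)).1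
    have h2 := (mem_filter.1 (mem_coe.1 hD')).1
    funext v
    by_cases hv : v ∈ J
    · exact congrFun h ⟨v, hv⟩
    · rw [hone D h1 v hv, hone D' h2 v hv]
  have himg : S.image r ⊆ (Fintype.piFinset fun i : {x // x ∈ J} => A i).filter
      (fun D => ∏ i, D i ≤ Y ∧ Squarefree (∏ i, D i)) := by
    intro D' hD'
    obtain ⟨D, hD, rfl⟩ := mem_image.1 hD'
    obtain ⟨h1, h2, h3⟩ := mem_filter.1 hD
    rw [hprod D h1] at h2 h3
    exact mem_filter.2 ⟨Fintype.mem_piFinset.2 fun i => Fintype.mem_piFinset.1 h1 i, h2, h3⟩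
  have hsum : ∑ D ∈ S, ∏ i : {x // x ∈ J}, (1 / 4 : ℝ) ^ om (D i) ≤
      ∑ m ∈ (Icc 1 Y).filter Squarefree, ((Fintype.card {x // x ∈ J} : ℝ) / 4) ^ om m := by
    calc ∑ D ∈ S, ∏ i : {x // x ∈ J}, (1 / 4 : ℝ) ^ om (D i)
        = ∑ D' ∈ S.image r, ∏ i, (1 / 4 : ℝ) ^ om (D' i) :=
          (sum_image (f := fun D' : {x // x ∈ J} → ℕ => ∏ i, (1 / 4 : ℝ) ^ om (D' i)) hinj).symm
      _ ≤ ∑ D' ∈ (Fintype.piFinset fun i : {x // x ∈ J} => A i).filter
            (fun D => ∏ i, D i ≤ Y ∧ Squarefree (∏ i, D i)), ∏ i, (1 / 4 : ℝ) ^ om (D' i) :=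
          sum_le_sum_of_subset_of_nonneg himg fun _ _ _ => by positivity
      _ ≤ _ := tup _ _
  have hcard : Fintype.card {x // x ∈ J} = 4 := by rw [Fintype.card_coe, hJ]
  have hlast : ∑ m ∈ (Icc 1 Y).filter Squarefree,
      ((Fintype.card {x // x ∈ J} : ℝ) / 4) ^ om m ≤ Y := by
    rw [hcard]
    have h1 : ((4 : ℕ) : ℝ) / 4 = 1 := by norm_num
    simp only [h1, one_pow, sum_const, nsmul_eq_mul, mul_one]
    have h2 : ((Icc 1 Y).filter Squarefree).card ≤ Y := by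
      refine (card_filter_le _ _).trans ?_
      simp
    exact_mod_cast h2
  have hYX : (Y : ℝ) ≤ Real.exp 1 * X := Nat.floor_le (by positivity)
  have he : Real.exp 1 ≤ 3 := by
    have := Real.exp_one_lt_d9
    linarith
  calc |MS κ X A| ≤ (Y : ℝ) := hmain.trans (hsum.trans hlast)
    _ ≤ Real.exp 1 * X := hYX
    _ ≤ 3 * X := mul_le_mul_of_nonneg_right he hX0.le

end Pool.Agent.AV
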