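import Pool.Agent.Lib_helper21.AV.Defs
import Pool.Agent.Lib_helper21.AV.W.STb

/-! # SF: the factor of one variable is a character -/

set_option autoImplicit false

namespace Pool.Agent.AV

open Finset

/-- the sign in the reciprocity law -/
def SF_eps (a : ℕ) : ℤ := if a % 4 = 3 then -1 else 1

theorem SF_eps_cases (a : ℕ) : SF_eps a = 1 ∨ SF_eps a = -1 := by
  unfold SF_eps
  split_ifs
  · right; rfl
  · left; rfl

theorem SF_js_one (m : ℕ) : js 1 m = 1 := by
  unfold js
  rw [jacobiSym.one_left]
  norm_num

theorem SF_js_mul (a b : ℤ) (m : ℕ) : js (a * b) m = js a m * js b m := by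
  unfold js
  rw [jacobiSym.mul_left]
  push_cast
  ring

theorem SF_js_prod_left {ι : Type} (s : Finset ι) (f : ι → ℤ) (m : ℕ) :
    js (∏ i ∈ s, f i) m = ∏ i ∈ s, js (f i) m := by
  classical
  induction s using Finset.induction_on with
  | empty => simp [SF_js_one]
  | insert a s ha ih => rw [Finset.prod_insert ha, Finset.prod_insert ha, SF_js_mul, ih]

theorem SF_js_prod_right {ι : Type} (s : Finset ι) (a : ℤ) (f : ι → ℕ)
    (hf : ∀ i, f i ≠ 0) :
    js a (∏ i ∈ s, f i) = ∏ i ∈ s, js a (f i) := by
  classical
  induction s using Finset.induction_on with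
  | empty => simp [js, jacobiSym.one_right]
  | insert b s hb ih =>
    rw [Finset.prod_insert hb, Finset.prod_insert hb, ← ih]
    have : NeZero (f b) := ⟨hf b⟩
    have : NeZero (∏ i ∈ s, f i) := ⟨Finset.prod_ne_zero_iff.2 (fun i _ => hf i)⟩
    unfold js
    rw [jacobiSym.mul_right]
    push_cast
    ring

theorem SF_rec {a b : ℕ} (ha : Odd a) (hb : Odd b) :
    js (a : ℤ) b = js (b : ℤ) a * js (SF_eps a) b := by
  unfold js SF_eps
  have h1 : a % 4 = 1 ∨ a % 4 = 3 := by
    obtain ⟨k, hk⟩ := ha
    omega
  have h2 : b % 4 = 1 ∨ b % 4 = 3 := by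
    obtain ⟨k, hk⟩ := hb
    omega
  rcases h1 with h1 | h1
  · rw [if_neg (by omega), jacobiSym.one_left, jacobiSym.quadratic_reciprocity_one_mod_four h1 hb]
    norm_num
  · rw [if_pos h1, jacobiSym.at_neg_one hb]
    rcases h2 with h2 | h2
    · rw [ZMod.χ₄_nat_one_mod_four h2, jacobiSym.quadratic_reciprocity_one_mod_four' ha h2]
      norm_num
    · rw [ZMod.χ₄_nat_three_mod_four h2, jacobiSym.quadratic_reciprocity_three_mod_four h1 h2]
      push_cast
      ring

theorem SF_sq {a b : ℕ} (h : Nat.Coprime a b) : js (a : ℤ) b * js (a : ℤ) b = 1 := by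
  unfold js
  have := jacobiSym.sq_one (a := (a : ℤ)) (b := b) (by rw [Int.gcd_natCast_natCast]; exact h)
  rw [← Int.cast_mul, ← sq, this]
  norm_num

theorem SF_K4_prod {ι : Type} (s : Finset ι) (f : ι → ℤ) (hf : ∀ i, f i = 1 ∨ f i = -1) (k : ℤ)
    (hk : K4 k) : K4 (k * ∏ i ∈ s, f i) := by
  classical
  induction s using Finset.induction_on with
  | empty => simpa using hk
  | insert a s ha ih =>
    rw [Finset.prod_insert ha]
    have : k * (f a * ∏ i ∈ s, f i) = f a * (k * ∏ i ∈ s, f i) := by ring
    rw [this]
    rcases hf a with h | h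
    · rw [h, one_mul]; exact ih
    · rw [h]
      unfold K4 at ih ⊢
      omega

theorem SF_pair (u w : V) (m d : ℕ) (hm : Odd m) (hd : Odd d) (hc : Nat.Coprime m d) :
    ph u w m d * ph w u d m =
      (if lk u w = true then js (m : ℤ) d else 1) * js (if occ u w = true then SF_eps d else 1) m := by
  unfold ph lk
  rw [if_pos hc, if_pos hc.symm]
  cases h1 : occ u w <;> cases h2 : occ w u
  · simp [SF_js_one]
  · simp [SF_js_one]
  · simp only [if_true, Bool.false_eq_true, if_false, one_mul, mul_one,
      Bool.xor_false]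
    rw [SF_rec hd hm]
  · simp only [if_true, one_mul, Bool.xor_true, Bool.not_true, Bool.false_eq_true, if_false]
    rw [SF_rec hd hm]
    have := SF_sq hc
    calc js (m : ℤ) d * js (SF_eps d) m * js (m : ℤ) d
        = (js (m : ℤ) d * js (m : ℤ) d) * js (SF_eps d) m := by ring
      _ = _ := by rw [this, one_mul]

theorem fu_char (κ : V → ℤ) (hκ : ∀ u, K4 (κ u)) (D : V → ℕ) (hD : ∀ w, Odd (D w)) (u : V) :
    ∃ k : ℤ, K4 k ∧ ∀ m : ℕ, fu κ D u m =
      (if Nat.Coprime m (∏ w ∈ univ.erase u, D w) then gw m else 0) *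
        (js (m : ℤ) (∏ w ∈ univ.filter (fun w => lk u w = true), D w) * js k m) := by
  refine ⟨κ u * ∏ w ∈ univ.erase u, (if occ u w = true then SF_eps (D w) else 1), ?_, ?_⟩
  · apply SF_K4_prod _ _ _ _ (hκ u)
    intro w
    split_ifs
    · exact SF_eps_cases _
    · left; rfl
  intro m
  unfold fu
  by_cases hm : Squarefree m ∧ Odd m
  · by_cases hc : Nat.Coprime m (∏ w ∈ univ.erase u, D w)
    · rw [if_pos hc]
      rw [Nat.coprime_prod_right_iff] at hc
      have h1 : ∏ w ∈ univ.erase u, (ph u w m (D w) * ph w u (D w) m) =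
          ∏ w ∈ univ.erase u, ((if lk u w = true then js (m : ℤ) (D w) else 1) *
            js (if occ u w = true then SF_eps (D w) else 1) m) := by
        apply Finset.prod_congr rfl
        intro w hw
        exact SF_pair u w m (D w) hm.2 (hD w) (hc w hw)
      rw [h1, Finset.prod_mul_distrib, SF_js_mul, SF_js_prod_left]
      have h2 : ∏ w ∈ univ.erase u, (if lk u w = true then js (m : ℤ) (D w) else 1) =
          js (m : ℤ) (∏ w ∈ univ.filter (fun w => lk u w = true), D w) := by
        rw [SF_js_prod_right _ _ _ (fun i => by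
          have := hD i
          rintro h0
          rw [h0] at this
          exact absurd this (by decide))]
        rw [← Finset.prod_filter]
        apply Finset.prod_congr
        · ext w
          simp only [Finset.mem_filter, Finset.mem_erase, Finset.mem_univ, and_true, true_and,
            and_iff_right_iff_imp]
          intro h
          rintro rfl
          unfold lk at h
          simp at h
        · intro _ _
          rfl
      rw [h2]
      ring
    · rw [if_neg hc, zero_mul]
      rw [Nat.coprime_prod_right_iff] at hc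
      push Not at hc
      obtain ⟨w, hw, hnc⟩ := hc
      have : ∏ w ∈ univ.erase u, (ph u w m (D w) * ph w u (D w) m) = 0 := by
        apply Finset.prod_eq_zero hw
        unfold ph
        rw [if_neg hnc]
        ring
      rw [this]
      ring
  · have : gw m = 0 := by
      unfold gw
      rw [if_neg hm]
    rw [this]
    split_ifs <;> ring

end Pool.Agent.AV
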