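import Pool.Agent.Lib_helper21.AV.Defs
import Pool.Agent.Lib_helper62.SIE.C
import Pool.Agent.Lib_helper98.GAF.Z3

/-! # PSa: a lower bound for `L(1, χ)` without real zeros near `1` -/

set_option autoImplicit false

namespace Pool.Agent.AV

open Finset Complex

open Pool.Agent.GA Pool.Agent.SIE ArithmeticFunction in
theorem PSa_LSeries {m : ℕ} [NeZero m] (χ : DirichletCharacter ℂ m) {s : ℂ} (hs : 1 < s.re) :
    LSeries (χ.zetaMul ·) s = riemannZeta s * LF χ s := by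
  have h3 : LSeries (χ.zetaMul ·) s = LSeries (((zeta : ArithmeticFunction ℕ) :
      ArithmeticFunction ℂ) ·) s * LSeries (ch χ ·) s :=
    LSeries_mul' (LSeriesSummable_zeta_iff.mpr hs) (ch_summable χ hs)
  have h4 : LSeries (((zeta : ArithmeticFunction ℕ) : ArithmeticFunction ℂ) ·) s =
      riemannZeta s := by
    rw [← LSeries_zeta_eq_riemannZeta hs]
    exact LSeries_congr (fun _ => natCoe_apply) s
  rw [h3, h4, ch_LSeries, LF_eq, DirichletCharacter.LFunction_eq_LSeries χ hs]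

theorem PSa_abs {m : ℕ} [NeZero m] (χ : DirichletCharacter ℂ m) :
    LSeries.abscissaOfAbsConv (χ.zetaMul ·) < ((2 : ℝ) : EReal) := by
  have h := (DirichletCharacter.LSeriesSummable_zetaMul χ (s := ((3 / 2 : ℝ) : ℂ)) (by
    rw [Complex.ofReal_re]; norm_num)).abscissaOfAbsConv_le
  refine h.trans_lt ?_
  rw [Complex.ofReal_re]
  exact_mod_cast (by norm_num : (3 / 2 : ℝ) < 2)

theorem PSa_onex {m : ℕ} (χ : DirichletCharacter ℂ m) : χ.zetaMul 1 = 1 :=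
  χ.isMultiplicative_zetaMul.1

open Pool.Agent.GA in
theorem PSa_im {m : ℕ} [NeZero m] {χ : DirichletCharacter ℂ m} (hχ : χ ^ 2 = 1) (hχ1 : χ ≠ 1)
    (x : ℝ) : (LF χ (x : ℂ)).im = 0 := by
  have h := LF_conj hχ hχ1 (x : ℂ)
  rw [Complex.conj_ofReal] at h
  exact Complex.conj_eq_iff_im.1 h.symm

open Pool.Agent.GA in
open scoped ComplexOrder in
theorem PSa_two {m : ℕ} [NeZero m] {χ : DirichletCharacter ℂ m} (hχ : χ ^ 2 = 1) :
    0 < (LF χ ((2 : ℝ) : ℂ)).re := by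
  have h1 : 0 < LSeries (χ.zetaMul ·) ((2 : ℝ) : ℂ) := by
    refine LSeries.positive (fun n => DirichletCharacter.zetaMul_nonneg hχ n) ?_ ?_
    · show 0 < χ.zetaMul 1
      rw [PSa_onex]; exact zero_lt_one
    · exact PSa_abs χ
  rw [PSa_LSeries χ (by rw [Complex.ofReal_re]; norm_num)] at h1
  have h2 : riemannZeta ((2 : ℝ) : ℂ) = ((Real.pi ^ 2 / 6 : ℝ) : ℂ) := by
    push_cast
    exact riemannZeta_two
  rw [h2] at h1
  have h3 := (Complex.lt_def.1 h1).1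
  rw [Complex.zero_re, Complex.re_ofReal_mul] at h3
  have h4 : (0 : ℝ) < Real.pi ^ 2 / 6 := by positivity
  exact (mul_pos_iff_of_pos_left h4).1 h3

open Pool.Agent.GA in
theorem PSa_pos {m : ℕ} [NeZero m] {χ : DirichletCharacter ℂ m} (hχ : χ ^ 2 = 1) (hχ1 : χ ≠ 1)
    (β : ℝ) (hβ : β < 1) (hz : ∀ x : ℝ, β ≤ x → x < 1 → LF χ (x : ℂ) ≠ 0) :
    0 < (LF χ (β : ℂ)).re := by
  by_contra hcon
  push Not at hcon
  have hc : Continuous (fun x : ℝ => (LF χ (x : ℂ)).re) :=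
    Complex.continuous_re.comp ((LF_diff hχ1).continuous.comp Complex.continuous_ofReal)
  have h2 := PSa_two hχ
  have hmem : (0 : ℝ) ∈ Set.Icc ((fun x : ℝ => (LF χ (x : ℂ)).re) β)
      ((fun x : ℝ => (LF χ (x : ℂ)).re) 2) := ⟨hcon, h2.le⟩
  obtain ⟨x, hx, hx0⟩ := intermediate_value_Icc (by linarith : β ≤ 2) hc.continuousOn hmem
  have h3 : LF χ (x : ℂ) = 0 := by
    apply Complex.ext
    · exact hx0
    · exact PSa_im hχ hχ1 x
  rcases lt_or_ge x 1 with h | h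
  · exact hz x hx.1 h h3
  · exact LF_ne_zero hχ1 (by rw [Complex.ofReal_re]; exact h) h3

open Pool.Agent.SIE in
theorem PSa_Zf : ∃ β₀ : ℝ, 3 / 4 ≤ β₀ ∧ β₀ < 1 ∧ ∀ x : ℝ, β₀ ≤ x → x ≤ 1 → 0 < (Zf (x : ℂ)).re := by
  have hc : ContinuousAt (fun x : ℝ => (Zf (x : ℂ)).re) 1 :=
    (Complex.continuous_re.comp (Zf_diff.continuous.comp Complex.continuous_ofReal)).continuousAt
  have h1 : 0 < (fun x : ℝ => (Zf (x : ℂ)).re) 1 := by
    show 0 < (Zf ((1 : ℝ) : ℂ)).re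
    rw [Complex.ofReal_one, Zf_one, Complex.one_re]
    exact one_pos
  obtain ⟨ε, hε, h⟩ := Metric.eventually_nhds_iff.1 (hc.eventually_const_lt h1)
  refine ⟨max (3 / 4) (1 - ε / 2), le_max_left _ _, max_lt (by norm_num) (by linarith),
    fun x hx hx1 => h ?_⟩
  have := le_trans (le_max_right _ _) hx
  rw [Real.dist_eq, abs_sub_comm, abs_of_nonneg (by linarith)]
  linarith

open Pool.Agent.GA Pool.Agent.SIE Metric in
open scoped ComplexOrder in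
theorem PSa_main : ∃ C β₀ : ℝ, 1 ≤ C ∧ 3 / 4 ≤ β₀ ∧ β₀ < 1 ∧
    ∀ (m : ℕ) [NeZero m] (χ : DirichletCharacter ℂ m),
    χ ^ 2 = 1 → χ ≠ 1 → ∀ β : ℝ, β₀ ≤ β → β < 1 →
      (∀ x : ℝ, β ≤ x → x < 1 → LF χ (x : ℂ) ≠ 0) →
      1 - β ≤ C * ‖LF χ 1‖ * (m : ℝ) ^ (C * (1 - β)) := by
  obtain ⟨CZ, hCZ1, hCZ⟩ := Zf_bdd
  obtain ⟨CL, hCL1, hCL⟩ := LF_growth
  obtain ⟨β₀, hb1, hb2, hb3⟩ := PSa_Zf
  set M0 : ℝ := 6 * CZ * (CL * (10 / 3)) with hM0def
  have hM01 : 1 ≤ M0 := by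
    have h1 : 1 ≤ CL * (10 / 3) := by linarith
    have h2 : 1 ≤ 6 * CZ := by linarith
    exact one_le_mul_of_one_le_of_one_le h2 h1
  refine ⟨max (4 * (32 * M0) ^ 4) 16, β₀, (by norm_num : (1 : ℝ) ≤ 16).trans (le_max_right _ _),
    hb1, hb2, fun m _ χ hχ hχ1 β hβ0' hβ1 hz => ?_⟩
  have hβ0 : 3 / 4 ≤ β := hb1.trans hβ0'
  have hm1 : (1 : ℝ) ≤ m := by exact_mod_cast NeZero.one_le
  have hb : 0 < 1 - β := by linarith
  set P : ℂ → ℂ := fun s => Zf s * LF χ s with hP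
  have hPd : Differentiable ℂ P := Zf_diff.mul (LF_diff hχ1)
  set G : ℂ → ℂ := dslope P 1 with hG
  have hGd : Differentiable ℂ G := by
    rw [← differentiableOn_univ, hG, Complex.differentiableOn_dslope Filter.univ_mem]
    exact hPd.differentiableOn
  have hGs : ∀ s : ℂ, s ≠ 1 → G s = (s - 1)⁻¹ * (P s - P 1) := by
    intro s hs
    rw [hG, dslope_of_ne _ hs, slope_def_module, smul_eq_mul]
  have hP1 : P 1 = LF χ 1 := by
    show Zf 1 * LF χ 1 = LF χ 1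
    rw [Zf_one, one_mul]
  have hGF : ∀ s : ℂ, 1 < s.re → G s = LSeries (χ.zetaMul ·) s - LF χ 1 * (s - 1)⁻¹ := by
    intro s hs
    have hs1 : s ≠ 1 := by
      rintro rfl
      rw [one_re] at hs
      exact lt_irrefl _ hs
    have hs2 : s - 1 ≠ 0 := sub_ne_zero.2 hs1
    rw [hGs s hs1, hP1, PSa_LSeries χ hs]
    show (s - 1)⁻¹ * (Zf s * LF χ s - LF χ 1) = _
    rw [Zf_eq hs1]
    field_simp
  have hbd : ∀ s ∈ closedBall (2 : ℂ) (4 / 3), ‖P s‖ ≤ CZ * (CL * m * (10 / 3)) := by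
    intro s hs
    have h1 := hCZ s hs
    rw [mem_closedBall, dist_eq_norm] at hs
    have hre : |(s - 2).re| ≤ 4 / 3 := (Complex.abs_re_le_norm _).trans hs
    have him : |(s - 2).im| ≤ 4 / 3 := (Complex.abs_im_le_norm _).trans hs
    have e2 : (2 : ℂ).re = 2 := rfl
    have e3 : (2 : ℂ).im = 0 := rfl
    rw [sub_re, e2] at hre
    rw [sub_im, e3, sub_zero] at him
    have hre' := (abs_le.1 hre).1
    have key : ‖LF χ s‖ ≤ CL * m * (10 / 3) := by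
      refine (hCL m χ hχ1 s (by linarith)).trans ?_
      exact mul_le_mul_of_nonneg_left (by linarith) (by positivity)
    show ‖Zf s * LF χ s‖ ≤ _
    rw [norm_mul]
    exact mul_le_mul h1 key (norm_nonneg _) (by linarith)
  have h1b : (1 : ℂ) ∈ closedBall (2 : ℂ) (4 / 3) := by
    rw [mem_closedBall, dist_eq_norm]
    norm_num
  have hM : ∀ s ∈ sphere (2 : ℂ) (4 / 3), ‖G s‖ ≤ M0 * m := by
    intro s hs
    have hsb := sphere_subset_closedBall hs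
    rw [mem_sphere, dist_eq_norm] at hs
    have h1 : 1 / 3 ≤ ‖s - 1‖ := by
      have h2 : ‖s - 2‖ ≤ ‖s - 1‖ + ‖(-1 : ℂ)‖ := by
        calc ‖s - 2‖ = ‖(s - 1) + (-1)‖ := by ring_nf
          _ ≤ _ := norm_add_le _ _
      rw [hs, norm_neg, norm_one] at h2
      linarith
    have hs1 : s ≠ 1 := by
      rintro rfl
      rw [sub_self, norm_zero] at h1
      norm_num at h1
    rw [hGs s hs1, norm_mul, norm_inv]
    have h2 : ‖s - 1‖⁻¹ ≤ 3 := by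
      have := inv_anti₀ (by norm_num : (0 : ℝ) < 1 / 3) h1
      norm_num at this
      exact this
    have h3 : ‖P s - P 1‖ ≤ 2 * (CZ * (CL * m * (10 / 3))) := by
      have h4 := norm_sub_le (P s) (P 1)
      have h5 := hbd s hsb
      have h6 := hbd 1 h1b
      linarith
    calc ‖s - 1‖⁻¹ * ‖P s - P 1‖ ≤ 3 * (2 * (CZ * (CL * m * (10 / 3)))) :=
          mul_le_mul h2 h3 (norm_nonneg _) (by norm_num)
      _ = M0 * m := by rw [hM0def]; ring
  have hPpos : 0 < (P (β : ℂ)).re := by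
    show 0 < (Zf (β : ℂ) * LF χ (β : ℂ)).re
    rw [Complex.mul_re, PSa_im hχ hχ1 β, mul_zero, sub_zero]
    exact mul_pos (hb3 β hβ0' hβ1.le) (PSa_pos hχ hχ1 β hβ1 hz)
  have hGβ : (G β).re ≤ (LF χ 1).re / (1 - β) := by
    have hne : (β : ℂ) ≠ 1 := by
      intro h
      have : β = 1 := by exact_mod_cast h
      linarith
    have hcast : ((β : ℂ) - 1)⁻¹ = (((β - 1)⁻¹ : ℝ) : ℂ) := by push_cast; rfl
    rw [hGs _ hne, hP1, hcast, Complex.re_ofReal_mul, Complex.sub_re]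
    have h1 : (β - 1)⁻¹ = -(1 - β)⁻¹ := by
      rw [← inv_neg]; congr 1; ring
    rw [h1, div_eq_mul_inv]
    have h2 : 0 < (1 - β)⁻¹ := inv_pos.2 hb
    nlinarith
  have hmain : ∀ N : ℕ, 1 ≤ N → 1 - (LF χ 1).re * (((2 - β) ^ N - 1) / (1 - β)) -
      16 * (M0 * m) * (15 / 16) ^ N ≤ (LF χ 1).re / (1 - β) := by
    intro N hN
    refine le_trans ?_ hGβ
    exact sa_main (a := (χ.zetaMul ·)) (fun n => DirichletCharacter.zetaMul_nonneg hχ n)
      (PSa_onex χ).ge (PSa_abs χ) hGd hGF hM hβ0 hβ1 N hN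
  have hM1 : 1 ≤ M0 * (m : ℝ) := one_le_mul_of_one_le_of_one_le hM01 hm1
  have hfin := sc_N (M := M0 * m) (by linarith) hβ1 hβ0 hmain
  have hQn : |(LF χ 1).re| ≤ ‖LF χ 1‖ := Complex.abs_re_le_norm _
  have hpow : (32 * (M0 * (m : ℝ))) ^ (16 * (1 - β)) ≤
      (32 * M0) ^ 4 * (m : ℝ) ^ (max (4 * (32 * M0) ^ 4) 16 * (1 - β)) := by
    have e1 : 32 * (M0 * (m : ℝ)) = (32 * M0) * (m : ℝ) := by ring
    rw [e1, Real.mul_rpow (by positivity) (by positivity)]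
    refine mul_le_mul ?_ ?_ (by positivity) (by positivity)
    · have h1 : (1 : ℝ) ≤ 32 * M0 := by linarith
      calc (32 * M0) ^ (16 * (1 - β)) ≤ (32 * M0) ^ (4 : ℝ) :=
            Real.rpow_le_rpow_of_exponent_le h1 (by linarith)
        _ = (32 * M0) ^ 4 := by exact_mod_cast Real.rpow_natCast (32 * M0) 4
    · refine Real.rpow_le_rpow_of_exponent_le hm1 ?_
      have h1 : (16 : ℝ) ≤ max (4 * (32 * M0) ^ 4) 16 := le_max_right _ _
      nlinarith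
  set X : ℝ := ‖LF χ 1‖ with hX
  have hX0 : 0 ≤ X := norm_nonneg _
  set Y : ℝ := (m : ℝ) ^ (max (4 * (32 * M0) ^ 4) 16 * (1 - β)) with hY
  have hY0 : 0 ≤ Y := by positivity
  calc 1 - β ≤ 4 * |(LF χ 1).re| * (32 * (M0 * (m : ℝ))) ^ (16 * (1 - β)) := hfin
    _ ≤ 4 * X * ((32 * M0) ^ 4 * Y) := by
        refine mul_le_mul ?_ hpow (by positivity) (by positivity)
        linarith
    _ = (4 * (32 * M0) ^ 4) * X * Y := by ring
    _ ≤ max (4 * (32 * M0) ^ 4) 16 * X * Y := by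
        gcongr
        exact le_max_left _ _

theorem two_char : ∃ C β₀ : ℝ, 1 ≤ C ∧ 3 / 4 ≤ β₀ ∧ β₀ < 1 ∧
    ∀ (m : ℕ) [NeZero m] (χ : DirichletCharacter ℂ m),
    χ ^ 2 = 1 → χ ≠ 1 → ∀ β : ℝ, β₀ ≤ β → β < 1 →
      (∀ x : ℝ, β ≤ x → x < 1 → DirichletCharacter.LFunction χ (x : ℂ) ≠ 0) →
      1 - β ≤ C * ‖DirichletCharacter.LFunction χ 1‖ * (m : ℝ) ^ (C * (1 - β)) := by
  obtain ⟨C, β₀, h1, h2, h3, h⟩ := PSa_main
  refine ⟨C, β₀, h1, h2, h3, fun m _ χ hχ hχ1 β hb hb1 hz => ?_⟩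
  have := h m χ hχ hχ1 β hb hb1 (by rw [Pool.Agent.GA.LF_eq]; exact hz)
  rwa [Pool.Agent.GA.LF_eq] at this

end Pool.Agent.AV
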