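import Pool.Agent.Lib_helper21.AV.Defs
import Pool.Agent.Lib_helper21.AV.W.PSa
import Pool.Agent.Lib_helper62.SIE.C

/-! # PSb: the theorem of Siegel -/

set_option autoImplicit false

namespace Pool.Agent.AV

open Finset Complex

/-- a product over distinct integers `≥ 2` -/
lemma PSb_prod (S : Finset ℕ) : (∀ p ∈ S, 2 ≤ p) →
    1 / ((S.card : ℝ) + 1) ≤ ∏ p ∈ S, (1 - 1 / (p : ℝ)) := by
  induction S using Finset.induction_on_max with
  | empty => intro _; simp
  | insert a s hmax ih =>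
    intro h
    have hns : a ∉ s := fun hh => lt_irrefl _ (hmax a hh)
    rw [Finset.prod_insert hns, Finset.card_insert_of_notMem hns]
    have ih' := ih fun p hp => h p (Finset.mem_insert_of_mem hp)
    have ha2 : 2 ≤ a := h a (Finset.mem_insert_self _ _)
    have hsub : s ⊆ Finset.Ico 2 a := fun x hx =>
      Finset.mem_Ico.2 ⟨h x (Finset.mem_insert_of_mem hx), hmax x hx⟩
    have hc := Finset.card_le_card hsub
    rw [Nat.card_Ico] at hc
    have hc' : (s.card : ℝ) + 2 ≤ a := by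
      have : s.card + 2 ≤ a := by omega
      exact_mod_cast this
    have hs0 : (0 : ℝ) ≤ s.card := Nat.cast_nonneg _
    have h1 : ((s.card : ℝ) + 1) / (s.card + 2) ≤ 1 - 1 / (a : ℝ) := by
      have h2 : 1 / (a : ℝ) ≤ 1 / ((s.card : ℝ) + 2) :=
        one_div_le_one_div_of_le (by linarith) hc'
      have h3 : ((s.card : ℝ) + 1) / (s.card + 2) = 1 - 1 / ((s.card : ℝ) + 2) := by
        field_simp
        ring
      linarith
    calc 1 / (((s.card + 1 : ℕ) : ℝ) + 1)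
        = (((s.card : ℝ) + 1) / (s.card + 2)) * (1 / ((s.card : ℝ) + 1)) := by
          push_cast
          field_simp
          ring
      _ ≤ (1 - 1 / (a : ℝ)) * ∏ p ∈ s, (1 - 1 / (p : ℝ)) :=
          mul_le_mul h1 ih' (by positivity) (le_trans (by positivity) h1)

/-- the number of prime factors -/
lemma PSb_omega (ε : ℝ) (hε : 0 < ε) (m : ℕ) (hm : m ≠ 0) :
    (m.primeFactors.card : ℝ) + 1 ≤ (1 / (ε * Real.log 2) + 1) * (m : ℝ) ^ ε := by
  have hl2 : 0 < Real.log 2 := Real.log_pos (by norm_num)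
  have h1 : 2 ^ m.primeFactors.card ≤ m := by
    calc 2 ^ m.primeFactors.card ≤ ∏ p ∈ m.primeFactors, p :=
          Finset.pow_card_le_prod _ _ _ fun p hp => (Nat.prime_of_mem_primeFactors hp).two_le
      _ ≤ m := Nat.le_of_dvd (Nat.pos_of_ne_zero hm) (Nat.prod_primeFactors_dvd m)
  have hm1 : (1 : ℝ) ≤ m := by exact_mod_cast Nat.pos_of_ne_zero hm
  have h2 : (m.primeFactors.card : ℝ) * Real.log 2 ≤ Real.log m := by
    rw [← Real.log_pow]
    exact Real.log_le_log (by positivity) (by exact_mod_cast h1)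
  have h3 : Real.log m ≤ (m : ℝ) ^ ε / ε := Real.log_le_rpow_div (by linarith) hε
  have h4 : (1 : ℝ) ≤ (m : ℝ) ^ ε := Real.one_le_rpow hm1 hε.le
  have h5 : (m.primeFactors.card : ℝ) ≤ (m : ℝ) ^ ε / ε / Real.log 2 := by
    rw [le_div_iff₀ hl2]
    linarith
  calc (m.primeFactors.card : ℝ) + 1 ≤ (m : ℝ) ^ ε / ε / Real.log 2 + (m : ℝ) ^ ε :=
        add_le_add h5 h4
    _ = _ := by field_simp

/-- the Euler factors of a change of level are not small -/
lemma PSb_low {q : ℕ} [NeZero q] (χ : DirichletCharacter ℂ q) (m : ℕ) :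
    1 / ((m.primeFactors.card : ℝ) + 1) ≤
      ‖∏ p ∈ m.primeFactors, (1 - χ (p : ZMod q) * (p : ℂ) ^ (-(1 : ℂ)))‖ := by
  refine (PSb_prod m.primeFactors fun p hp => (Nat.prime_of_mem_primeFactors hp).two_le).trans ?_
  rw [norm_prod]
  refine Finset.prod_le_prod (fun p hp => ?_) fun p hp => ?_
  · have hp2 : (2 : ℝ) ≤ p := by exact_mod_cast (Nat.prime_of_mem_primeFactors hp).two_le
    have : 1 / (p : ℝ) ≤ 1 := by
      rw [div_le_one (by linarith)]
      linarith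
    linarith
  · have h1 : ‖χ (p : ZMod q) * (p : ℂ) ^ (-(1 : ℂ))‖ ≤ 1 / (p : ℝ) := by
      rw [norm_mul, Complex.cpow_neg_one, norm_inv, Complex.norm_natCast, one_div]
      exact mul_le_of_le_one_left (by positivity) (DirichletCharacter.norm_le_one _ _)
    have h2 := norm_sub_norm_le (1 : ℂ) (χ (p : ZMod q) * (p : ℂ) ^ (-(1 : ℂ)))
    rw [norm_one] at h2
    linarith

/-- the Euler factors of a change of level are not large -/
lemma PSb_up {r : ℕ} [NeZero r] (χ : DirichletCharacter ℂ r) (q1 : ℕ) (hq1 : q1 ≠ 0) :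
    ‖∏ p ∈ (q1 * r).primeFactors, (1 - χ (p : ZMod r) * (p : ℂ) ^ (-(1 : ℂ)))‖ ≤
      2 ^ q1.primeFactors.card := by
  have hr : r ≠ 0 := NeZero.ne r
  rw [norm_prod]
  have h1 : ∏ p ∈ (q1 * r).primeFactors, ‖1 - χ (p : ZMod r) * (p : ℂ) ^ (-(1 : ℂ))‖ ≤
      ∏ p ∈ (q1 * r).primeFactors, (if p ∈ q1.primeFactors then (2 : ℝ) else 1) := by
    refine Finset.prod_le_prod (fun p _ => norm_nonneg _) fun p hp => ?_
    have hpp := Nat.prime_of_mem_primeFactors hp
    split_ifs with h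
    · have hp2 : (2 : ℝ) ≤ p := by exact_mod_cast hpp.two_le
      have h2 : ‖χ (p : ZMod r) * (p : ℂ) ^ (-(1 : ℂ))‖ ≤ 1 := by
        rw [norm_mul, Complex.cpow_neg_one, norm_inv, Complex.norm_natCast]
        refine mul_le_one₀ (DirichletCharacter.norm_le_one _ _) (by positivity) ?_
        exact inv_le_one_of_one_le₀ (by linarith)
      have h3 := norm_sub_le (1 : ℂ) (χ (p : ZMod r) * (p : ℂ) ^ (-(1 : ℂ)))
      rw [norm_one] at h3
      linarith
    · have hpr : p ∣ r := by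
        rw [Nat.primeFactors_mul hq1 hr, Finset.mem_union] at hp
        rcases hp with hp | hp
        · exact absurd hp h
        · exact Nat.dvd_of_mem_primeFactors hp
      have h4 : χ (p : ZMod r) = 0 := by
        apply χ.map_nonunit
        rw [ZMod.isUnit_iff_coprime]
        intro hc
        have := Nat.Coprime.eq_one_of_dvd hc hpr
        exact hpp.one_lt.ne' this
      rw [h4, zero_mul, sub_zero, norm_one]
  refine h1.trans (le_of_eq ?_)
  rw [Finset.prod_ite, Finset.prod_const_one, mul_one, Finset.prod_const]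
  congr 2
  ext p
  simp only [Finset.mem_filter]
  constructor
  · exact fun h => h.2
  · intro h
    refine ⟨?_, h⟩
    rw [Nat.primeFactors_mul hq1 hr]
    exact Finset.mem_union_left _ h

open Pool.Agent.GA Pool.Agent.SIE in
theorem siegel_one (ε : ℝ) (hε : 0 < ε) : ∃ c : ℝ, 0 < c ∧ ∀ (r : ℕ) [NeZero r]
    (χ : DirichletCharacter ℂ r), χ ^ 2 = 1 → χ ≠ 1 →
      c / (r : ℝ) ^ ε ≤ ‖DirichletCharacter.LFunction χ 1‖ := by
  obtain ⟨C1, β₀, hC1, hβ₀, hβ₀1, htwo⟩ := two_char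
  obtain ⟨C2, hC2, hfour⟩ := sc_four
  set η : ℝ := min (1 - β₀) (min (ε / C1) (ε / (2 * C2))) with hη
  have hC10 : 0 < C1 := by linarith
  have hC20 : 0 < C2 := by linarith
  have hη0 : 0 < η := lt_min (by linarith) (lt_min (by positivity) (by positivity))
  have hη1 : η ≤ 1 - β₀ := min_le_left _ _
  have hη2 : C1 * η ≤ ε := by
    have h1 : η ≤ ε / C1 := (min_le_right _ _).trans (min_le_left _ _)
    rw [le_div_iff₀ hC10] at h1
    linarith
  have hη3 : C2 * η ≤ ε / 2 := by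
    have h1 : η ≤ ε / (2 * C2) := (min_le_right _ _).trans (min_le_right _ _)
    rw [le_div_iff₀ (by positivity)] at h1
    linarith
  by_cases hA : ∀ (q : ℕ) (_ : NeZero q) (χ : DirichletCharacter ℂ q), χ ^ 2 = 1 → χ ≠ 1 →
      ∀ x : ℝ, 1 - η ≤ x → x < 1 → DirichletCharacter.LFunction χ (x : ℂ) ≠ 0
  · refine ⟨η / C1, by positivity, fun r _ χ hχ hχ1 => ?_⟩
    have hr1 : (1 : ℝ) ≤ r := by exact_mod_cast NeZero.one_le
    have h1 := htwo r χ hχ hχ1 (1 - η) (by linarith) (by linarith)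
      (fun x hx hx1 => hA r inferInstance χ hχ hχ1 x hx hx1)
    have h2 : (r : ℝ) ^ (C1 * (1 - (1 - η))) ≤ (r : ℝ) ^ ε :=
      Real.rpow_le_rpow_of_exponent_le hr1 (by linarith)
    have h3 : 0 < (r : ℝ) ^ ε := Real.rpow_pos_of_pos (by linarith) _
    rw [div_div, div_le_iff₀ (by positivity)]
    calc η = 1 - (1 - η) := by ring
      _ ≤ C1 * ‖DirichletCharacter.LFunction χ 1‖ * (r : ℝ) ^ (C1 * (1 - (1 - η))) := h1
      _ ≤ C1 * ‖DirichletCharacter.LFunction χ 1‖ * (r : ℝ) ^ ε := by gcongr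
      _ = _ := by ring
  push Not at hA
  obtain ⟨q1, hq1, χ1, hχ1, hχ11, β1, hβ1η, hβ11, hβ1⟩ := hA
  have hq10 : q1 ≠ 0 := NeZero.ne q1
  have hq1R : (1 : ℝ) ≤ q1 := by exact_mod_cast NeZero.one_le
  set δ : ℝ := min (ε / 4) 1 with hδ
  have hδ0 : 0 < δ := lt_min (by positivity) one_pos
  have hδ1 : δ ≤ 1 := min_le_right _ _
  have hδε : 2 * δ ≤ ε / 2 := by
    have := min_le_left (ε / 4) 1
    linarith
  have hL1 : 0 < ‖LF χ1 1‖ := by
    rw [LF_eq]
    exact norm_pos_iff.2 (DirichletCharacter.LFunction_apply_one_ne_zero hχ11)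
  set P : ℝ := 2 ^ q1.primeFactors.card with hP
  have hP0 : 0 < P := by positivity
  set Q : ℝ := (q1 : ℝ) ^ ε with hQ
  have hQ0 : 0 < Q := by positivity
  set K : ℝ := 1 / (ε * Real.log 2) + 1 with hK
  have hK0 : 0 < K := by
    have : 0 < Real.log 2 := Real.log_pos (by norm_num)
    positivity
  set c1 : ℝ := (1 - β1) / (C2 * (2 / δ) ^ 2 * P * Q) with hc1
  set c2 : ℝ := ‖LF χ1 1‖ / (K * P * Q) with hc2
  have hc10 : 0 < c1 := div_pos (by linarith) (by positivity)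
  have hc20 : 0 < c2 := div_pos hL1 (by positivity)
  refine ⟨min c1 c2, lt_min hc10 hc20, fun r _ χ hχ hχn => ?_⟩
  have hrR : (1 : ℝ) ≤ r := by exact_mod_cast NeZero.one_le
  have hrε : 0 < (r : ℝ) ^ ε := by positivity
  have : NeZero (q1 * r) := ⟨Nat.mul_ne_zero (NeZero.ne q1) (NeZero.ne r)⟩
  set m : ℕ := q1 * r with hm
  have hmR : (1 : ℝ) ≤ m := by exact_mod_cast NeZero.one_le
  have hm0 : (0 : ℝ) < m := by linarith
  have hmε : (m : ℝ) ^ ε = Q * (r : ℝ) ^ ε := by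
    rw [hm, hQ]
    push_cast
    exact Real.mul_rpow (by positivity) (by positivity)
  set ψ1 := DirichletCharacter.changeLevel (q1.dvd_mul_right r) χ1 with hψ1
  set ψ2 := DirichletCharacter.changeLevel (r.dvd_mul_left q1) χ with hψ2
  have hψ12 : ψ1 ^ 2 = 1 := by rw [hψ1, ← map_pow, hχ1, map_one]
  have hψ22 : ψ2 ^ 2 = 1 := by rw [hψ2, ← map_pow, hχ, map_one]
  have hψ11 : ψ1 ≠ 1 := fun h => hχ11 ((DirichletCharacter.changeLevel_eq_one_iff _).1 h)
  have hψ21 : ψ2 ≠ 1 := fun h => hχn ((DirichletCharacter.changeLevel_eq_one_iff _).1 h)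
  have hz1 : LF ψ1 (β1 : ℂ) = 0 := by
    rw [LF_eq, hψ1, DirichletCharacter.LFunction_changeLevel _ χ1 (Or.inl hχ11), hβ1, zero_mul]
  have hE2 : ‖LF ψ2 1‖ ≤ ‖DirichletCharacter.LFunction χ 1‖ * P := by
    rw [LF_eq, hψ2, DirichletCharacter.LFunction_changeLevel _ χ (Or.inl hχn), norm_mul]
    exact mul_le_mul_of_nonneg_left (PSb_up χ q1 hq10) (norm_nonneg _)
  set L : ℝ := ‖DirichletCharacter.LFunction χ 1‖ with hL
  have hL0 : 0 ≤ L := norm_nonneg _
  rw [div_le_iff₀ hrε]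
  by_cases hψ : ψ1 * ψ2 = 1
  · refine (min_le_right _ _).trans ?_
    have h1 : ψ1 = ψ2 := by
      have h2 : ψ1 * ψ2 = ψ2 * ψ2 := by rw [hψ, ← sq, hψ22]
      exact mul_right_cancel h2
    have h3 : ‖LF χ1 1‖ * (1 / ((m.primeFactors.card : ℝ) + 1)) ≤ ‖LF ψ1 1‖ := by
      rw [LF_eq ψ1, hψ1, DirichletCharacter.LFunction_changeLevel _ χ1 (Or.inl hχ11), norm_mul,
        ← LF_eq]
      exact mul_le_mul_of_nonneg_left (PSb_low χ1 m) (norm_nonneg _)
    have h4 := PSb_omega ε hε m (NeZero.ne m)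
    rw [← hK, hmε] at h4
    have h5 : (0 : ℝ) < (m.primeFactors.card : ℝ) + 1 := by positivity
    have h6 : ‖LF χ1 1‖ ≤ L * P * ((m.primeFactors.card : ℝ) + 1) := by
      have h7 : ‖LF χ1 1‖ * (1 / ((m.primeFactors.card : ℝ) + 1)) ≤ L * P := by
        refine h3.trans ?_
        rw [h1]
        exact hE2
      rw [mul_one_div, div_le_iff₀ h5] at h7
      exact h7
    rw [hc2, div_le_iff₀ (by positivity)]
    calc ‖LF χ1 1‖ ≤ L * P * ((m.primeFactors.card : ℝ) + 1) := h6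
      _ ≤ L * P * (K * (Q * (r : ℝ) ^ ε)) := by gcongr
      _ = _ := by ring
  · refine (min_le_left _ _).trans ?_
    have hmain := hfour m ψ1 ψ2 hψ12 hψ22 hψ11 hψ21 hψ β1 (by linarith) hβ11 hz1
    have k1 := sc_one hψ11 hδ0 hδ1
    have k3 := sc_one hψ hδ0 hδ1
    set A : ℝ := (m : ℝ) ^ δ with hA
    have hA0 : 0 < A := Real.rpow_pos_of_pos hm0 _
    have hA3 : A * A * (m : ℝ) ^ (C2 * (1 - β1)) ≤ (m : ℝ) ^ ε := by
      rw [hA, ← Real.rpow_add hm0, ← Real.rpow_add hm0]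
      refine Real.rpow_le_rpow_of_exponent_le hmR ?_
      have h1 : C2 * (1 - β1) ≤ C2 * η := mul_le_mul_of_nonneg_left (by linarith) hC20.le
      linarith
    have hB0 : 0 < (m : ℝ) ^ (C2 * (1 - β1)) := Real.rpow_pos_of_pos hm0 _
    rw [hc1, div_le_iff₀ (by positivity)]
    calc 1 - β1 ≤ C2 * (‖LF ψ1 1‖ * ‖LF ψ2 1‖ * ‖LF (ψ1 * ψ2) 1‖) *
          (m : ℝ) ^ (C2 * (1 - β1)) := hmain
      _ ≤ C2 * ((2 / δ * A) * (L * P) * (2 / δ * A)) * (m : ℝ) ^ (C2 * (1 - β1)) := by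
          gcongr
      _ = C2 * (2 / δ) ^ 2 * (L * P) * (A * A * (m : ℝ) ^ (C2 * (1 - β1))) := by ring
      _ ≤ C2 * (2 / δ) ^ 2 * (L * P) * (m : ℝ) ^ ε := by gcongr
      _ = _ := by rw [hmε]; ring

end Pool.Agent.AV
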