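import Pool.Agent.Lib_helper21.AV.Defs

/-! # PSc: the character -/

set_option autoImplicit false

namespace Pool.Agent.AV

open Finset

/-- the function on the natural numbers -/
noncomputable def PSc_G (q : ℕ) (k : ℤ) (m : ℕ) : ℤ :=
  if Odd m then jacobiSym (m : ℤ) q * jacobiSym k m else 0

theorem PSc_odd_mod (q m : ℕ) : Odd (m % (8 * q)) ↔ Odd m := by
  rw [Nat.odd_iff, Nat.odd_iff, Nat.mod_mod_of_dvd _ (Dvd.intro (4 * q) (by ring))]

theorem PSc_k_mod {k : ℤ} (hk : K4 k) {a b : ℕ} (ha : Odd a) (hb : Odd b) (h : a % 8 = b % 8) :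
    jacobiSym k a = jacobiSym k b := by
  have key : ∀ c : ℕ, Odd c → jacobiSym k c = jacobiSym k (c % 8) := by
    intro c hc
    have hc8 : Odd (c % 8) := by
      rw [Nat.odd_iff, Nat.mod_mod_of_dvd _ (by norm_num : 2 ∣ 8)]
      exact Nat.odd_iff.1 hc
    rw [jacobiSym.mod_right k hc, jacobiSym.mod_right k hc8]
    rcases hk with h | h | h | h <;> subst h
    · norm_num
    · congr 1
      show c % (4 * 1) = c % 8 % (4 * 1)
      omega
    · congr 1
      show c % (4 * 2) = c % 8 % (4 * 2)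
      omega
    · congr 1
      show c % (4 * 2) = c % 8 % (4 * 2)
      omega
  rw [key a ha, key b hb, h]

theorem PSc_G_mod {q : ℕ} {k : ℤ} (hk : K4 k) (m : ℕ) :
    PSc_G q k (m % (8 * q)) = PSc_G q k m := by
  unfold PSc_G
  by_cases h : Odd m
  · have h' : Odd (m % (8 * q)) := (PSc_odd_mod q m).2 h
    rw [if_pos h, if_pos h']
    congr 1
    · rw [jacobiSym.mod_left ((m % (8 * q) : ℕ) : ℤ), jacobiSym.mod_left (m : ℤ)]
      congr 1
      push_cast
      exact Int.emod_emod_of_dvd _ (Dvd.intro_left 8 rfl)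
    · exact PSc_k_mod hk h' h (Nat.mod_mod_of_dvd _ (Dvd.intro q rfl))
  · have h' : ¬ Odd (m % (8 * q)) := fun h2 => h ((PSc_odd_mod q m).1 h2)
    rw [if_neg h, if_neg h']

theorem PSc_G_mul (q : ℕ) (k : ℤ) (a b : ℕ) :
    PSc_G q k (a * b) = PSc_G q k a * PSc_G q k b := by
  unfold PSc_G
  by_cases ha : Odd a <;> by_cases hb : Odd b
  · have hab : Odd (a * b) := ha.mul hb
    rw [if_pos ha, if_pos hb, if_pos hab]
    have : NeZero a := ⟨ha.pos.ne'⟩
    have : NeZero b := ⟨hb.pos.ne'⟩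
    rw [jacobiSym.mul_right, Nat.cast_mul, jacobiSym.mul_left]
    ring
  · have hab : ¬ Odd (a * b) := fun h => hb (Nat.odd_mul.1 h).2
    rw [if_neg hb, if_neg hab, mul_zero]
  · have hab : ¬ Odd (a * b) := fun h => ha (Nat.odd_mul.1 h).1
    rw [if_neg ha, if_neg hab, zero_mul]
  · have hab : ¬ Odd (a * b) := fun h => ha (Nat.odd_mul.1 h).1
    rw [if_neg ha, if_neg hab, zero_mul]

theorem PSc_G_sq {q : ℕ} {k : ℤ} (hk : K4 k) {m : ℕ} (h : Nat.Coprime m (8 * q)) :
    PSc_G q k m * PSc_G q k m = 1 := by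
  have h2 : Odd m := by
    rw [← Nat.coprime_two_right]
    exact h.coprime_dvd_right (Dvd.intro (4 * q) (by ring))
  have h3 : Nat.Coprime m q := h.coprime_dvd_right (Dvd.intro_left 8 rfl)
  unfold PSc_G
  rw [if_pos h2]
  have e1 : jacobiSym (m : ℤ) q ^ 2 = 1 := jacobiSym.sq_one (by
    rw [Int.gcd_natCast_natCast]; exact h3)
  have e2 : jacobiSym k m ^ 2 = 1 := by
    apply jacobiSym.sq_one
    have h4 : Nat.Coprime k.natAbs m := by
      have h5 : Nat.Coprime 2 m := Nat.coprime_two_left.2 h2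
      rcases hk with h | h | h | h <;> subst h
      · exact Nat.coprime_one_left m
      · exact Nat.coprime_one_left m
      · exact h5
      · exact h5
    exact h4
  calc _ = jacobiSym (m : ℤ) q ^ 2 * jacobiSym k m ^ 2 := by ring
    _ = 1 := by rw [e1, e2, one_mul]

theorem PSc_G_one (q : ℕ) (k : ℤ) : PSc_G q k 1 = 1 := by
  unfold PSc_G
  rw [if_pos odd_one, Nat.cast_one, jacobiSym.one_left, jacobiSym.one_right, one_mul]

theorem PSc_G_zero {q : ℕ} (hq : q ≠ 0) {k : ℤ} {m : ℕ} (h : ¬ Nat.Coprime m (8 * q)) :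
    PSc_G q k m = 0 := by
  unfold PSc_G
  by_cases h2 : Odd m
  · rw [if_pos h2]
    have h3 : ¬ Nat.Coprime m q := by
      intro h3
      apply h
      apply Nat.Coprime.mul_right _ h3
      have h4 : Nat.Coprime m (2 ^ 3) := (Nat.coprime_two_right.2 h2).pow_right 3
      exact h4
    have : NeZero q := ⟨hq⟩
    rw [jacobiSym.eq_zero_iff_not_coprime.2 (by
      rw [Int.gcd_natCast_natCast]; exact h3), zero_mul]
  · rw [if_neg h2]

/-- an element `≡ 1 mod 8` with symbol `-1` -/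
theorem PSc_exists {q : ℕ} (hq : Odd q) (hs : Squarefree q) (h1 : 1 < q) :
    ∃ m : ℕ, m % 8 = 1 ∧ jacobiSym (m : ℤ) q = -1 := by
  obtain ⟨p, hp, hpq⟩ := Nat.exists_prime_and_dvd h1.ne'
  obtain ⟨r, hr⟩ := hpq
  have : Fact p.Prime := ⟨hp⟩
  have hp2 : p ≠ 2 := by
    rintro rfl
    rw [hr] at hq
    exact (Nat.not_odd_iff_even.2 (even_two_mul r)) hq
  have hcop : Nat.Coprime p r := by
    rw [Nat.Prime.coprime_iff_not_dvd hp]
    rintro ⟨t, ht⟩
    have h2 : p * p ∣ q := ⟨t, by rw [hr, ht]; ring⟩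
    exact hp.one_lt.ne' (Nat.isUnit_iff.1 (hs p h2))
  have hr0 : r ≠ 0 := by
    rintro rfl
    omega
  have hcop8 : Nat.Coprime p (8 * r) := by
    apply Nat.Coprime.mul_right _ hcop
    have h4 : Nat.Coprime p (2 ^ 3) :=
      ((Nat.coprime_primes hp Nat.prime_two).2 hp2).pow_right 3
    exact h4
  obtain ⟨a, ha⟩ := quadraticChar_exists_neg_one (F := ZMod p) (by
    rw [ZMod.ringChar_zmod_n]; exact hp2)
  obtain ⟨m, hm1, hm2⟩ := Nat.chineseRemainder hcop8 a.val 1
  refine ⟨m, ?_, ?_⟩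
  · have h2 : m ≡ 1 [MOD 8] := Nat.ModEq.of_mul_right r hm2
    exact h2
  · rw [hr]
    have : NeZero p := ⟨hp.ne_zero⟩
    have : NeZero r := ⟨hr0⟩
    rw [jacobiSym.mul_right]
    have e1 : jacobiSym (m : ℤ) p = -1 := by
      rw [← jacobiSym.legendreSym.to_jacobiSym, legendreSym]
      have e2 : ((m : ℤ) : ZMod p) = a := by
        rw [Int.cast_natCast, (ZMod.natCast_eq_natCast_iff m a.val p).2 hm1, ZMod.natCast_zmod_val]
      rw [e2]
      exact ha
    have e2 : jacobiSym (m : ℤ) r = 1 := by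
      have h2 : m ≡ 1 [MOD r] := Nat.ModEq.of_mul_left 8 hm2
      have h3 : (m : ℤ) % r = (1 : ℤ) % r := by exact_mod_cast h2
      rw [jacobiSym.mod_left' h3, jacobiSym.one_left]
    rw [e1, e2, mul_one]

theorem exists_char (q : ℕ) (hq : Odd q) (hs : Squarefree q) (h1 : 1 < q) (k : ℤ) (hk : K4 k) :
    ∃ χ : DirichletCharacter ℂ (8 * q), χ ≠ 1 ∧ χ ^ 2 = 1 ∧
      ∀ m : ℕ, Odd m → χ (m : ZMod (8 * q)) = ((js (m : ℤ) q * js k m : ℝ) : ℂ) := by
  have : NeZero (8 * q) := ⟨by omega⟩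
  have hval : ∀ m : ℕ, PSc_G q k (m : ZMod (8 * q)).val = PSc_G q k m := by
    intro m
    rw [ZMod.val_natCast, PSc_G_mod hk]
  let χ : DirichletCharacter ℂ (8 * q) :=
    { toFun := fun x => ((PSc_G q k x.val : ℤ) : ℂ)
      map_one' := by
        have h2 := hval 1
        rw [Nat.cast_one] at h2
        show ((PSc_G q k (1 : ZMod (8 * q)).val : ℤ) : ℂ) = 1
        rw [h2, PSc_G_one, Int.cast_one]
      map_mul' := by
        intro x y
        show ((PSc_G q k (x * y).val : ℤ) : ℂ) = _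
        rw [ZMod.val_mul, PSc_G_mod hk, PSc_G_mul, Int.cast_mul]
      map_nonunit' := by
        intro x hx
        show ((PSc_G q k x.val : ℤ) : ℂ) = 0
        rw [PSc_G_zero (by omega), Int.cast_zero]
        intro h2
        apply hx
        have h3 := (ZMod.isUnit_iff_coprime x.val (8 * q)).2 h2
        rwa [ZMod.natCast_zmod_val] at h3 }
  have hχ : ∀ x, χ x = ((PSc_G q k x.val : ℤ) : ℂ) := fun x => rfl
  refine ⟨χ, ?_, ?_, ?_⟩
  · intro h2
    obtain ⟨m, hm1, hm2⟩ := PSc_exists hq hs h1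
    have hmo : Odd m := by rw [Nat.odd_iff]; omega
    have h3 : PSc_G q k m = -1 := by
      unfold PSc_G
      rw [if_pos hmo, hm2, PSc_k_mod hk hmo odd_one (by omega), jacobiSym.one_right, mul_one]
    have h4 := hχ (m : ZMod (8 * q))
    rw [hval, h3, h2] at h4
    have h5 : IsUnit (m : ZMod (8 * q)) := by
      rw [ZMod.isUnit_iff_coprime]
      by_contra h6
      rw [PSc_G_zero (by omega) h6] at h3
      norm_num at h3
    rw [MulChar.one_apply h5] at h4
    norm_num at h4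
  · ext x
    rw [MulChar.pow_apply_coe, hχ, MulChar.one_apply x.isUnit, ← Int.cast_pow, sq]
    have h2 : Nat.Coprime (x : ZMod (8 * q)).val (8 * q) := ZMod.val_coe_unit_coprime x
    rw [PSc_G_sq hk h2, Int.cast_one]
  · intro m hm
    rw [hχ, hval]
    unfold PSc_G js
    rw [if_pos hm]
    push_cast
    rfl

end Pool.Agent.AV
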