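import Pool.Agent.Lib_helper21.AV.Defs
import Pool.Agent.Lib_helper23.BG.Defs

/-! # PSd: from the Chebyshev function to the sum over primes -/

set_option autoImplicit false

namespace Pool.Agent.AV

open Finset

/-- partial summation -/
lemma PSd_abel (S : ℕ → ℂ) (w : ℕ → ℝ) (h1 : S 1 = 0) (N : ℕ) (hN : 2 ≤ N) :
    ∑ n ∈ Icc 2 N, (S n - S (n - 1)) * (w n : ℂ) =
      S N * (w N : ℂ) + ∑ n ∈ Ico 2 N, S n * ((w n - w (n + 1) : ℝ) : ℂ) := by
  induction N, hN using Nat.le_induction with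
  | base => simp [h1]
  | succ n hn ih =>
    rw [Finset.sum_Icc_succ_top (by omega), ih, Finset.sum_Ico_succ_top hn, Nat.add_sub_cancel]
    push_cast
    ring

/-- telescoping -/
lemma PSd_tel (w : ℕ → ℝ) (N : ℕ) (hN : 2 ≤ N) :
    w N + ∑ n ∈ Ico 2 N, (w n - w (n + 1)) = w 2 := by
  induction N, hN using Nat.le_induction with
  | base => simp
  | succ n hn ih =>
    rw [Finset.sum_Ico_succ_top hn]
    linarith

theorem psi_to_prime {r : ℕ} (χ : DirichletCharacter ℂ r) (t : ℕ) (ht : 9 ≤ t) (E : ℝ)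
    (hE : ∀ u : ℕ, u ≤ t → ‖Pool.Agent.BG.psiC χ u‖ ≤ E) :
    ‖∑ p ∈ (Icc 1 t).filter Nat.Prime, χ (p : ZMod r)‖ ≤ 2 * E + 10 * √t * Real.log t := by
  set S : ℕ → ℂ := fun u => Pool.Agent.BG.psiC χ u with hS
  set w : ℕ → ℝ := fun n => 1 / Real.log n with hw
  have hE0 : 0 ≤ E := (norm_nonneg _).trans (hE 0 (Nat.zero_le _))
  have hS1 : S 1 = 0 := by
    simp [hS, Pool.Agent.BG.psiC]
  have hSd : ∀ n, 1 ≤ n → S n - S (n - 1) =
      ((ArithmeticFunction.vonMangoldt n : ℝ) : ℂ) * χ (n : ZMod r) := by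
    intro n hn
    obtain ⟨k, rfl⟩ : ∃ k, n = k + 1 := ⟨n - 1, by omega⟩
    simp only [hS, Pool.Agent.BG.psiC, Nat.add_sub_cancel]
    rw [Finset.sum_Icc_succ_top (by omega)]
    ring
  have hlog : ∀ n : ℕ, 2 ≤ n → 0 < Real.log n := fun n hn =>
    Real.log_pos (by exact_mod_cast (by omega : 1 < n))
  have hwd : ∀ n, 2 ≤ n → 0 ≤ w n - w (n + 1) := by
    intro n hn
    have h1 : Real.log n ≤ Real.log ((n + 1 : ℕ) : ℝ) :=
      Real.log_le_log (by exact_mod_cast (by omega : 0 < n)) (by push_cast; linarith)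
    have h2 : w (n + 1) ≤ w n := one_div_le_one_div_of_le (hlog n hn) h1
    linarith
  -- the weighted sum
  have hA : ‖∑ n ∈ Icc 2 t, (S n - S (n - 1)) * (w n : ℂ)‖ ≤ 2 * E := by
    rw [PSd_abel S w hS1 t (by omega)]
    have hwt : 0 ≤ w t := by
      have := hlog t (by omega)
      simp only [hw]
      positivity
    have h1 : ‖S t * (w t : ℂ)‖ ≤ E * w t := by
      rw [norm_mul, Complex.norm_real, Real.norm_eq_abs, abs_of_nonneg hwt]
      exact mul_le_mul_of_nonneg_right (hE t le_rfl) hwt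
    have h2 : ‖∑ n ∈ Ico 2 t, S n * ((w n - w (n + 1) : ℝ) : ℂ)‖ ≤
        ∑ n ∈ Ico 2 t, E * (w n - w (n + 1)) := by
      refine (norm_sum_le _ _).trans (Finset.sum_le_sum fun n hn => ?_)
      rw [Finset.mem_Ico] at hn
      rw [norm_mul, Complex.norm_real, Real.norm_eq_abs, abs_of_nonneg (hwd n hn.1)]
      exact mul_le_mul_of_nonneg_right (hE n (by omega)) (hwd n hn.1)
    rw [← Finset.mul_sum] at h2
    have h3 := PSd_tel w t (by omega)
    have h4 : w 2 ≤ 2 := by
      simp only [hw]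
      have := Real.log_two_gt_d9
      rw [div_le_iff₀ (by push_cast; linarith)]
      push_cast
      linarith
    calc ‖S t * (w t : ℂ) + ∑ n ∈ Ico 2 t, S n * ((w n - w (n + 1) : ℝ) : ℂ)‖
        ≤ E * w t + E * ∑ n ∈ Ico 2 t, (w n - w (n + 1)) := (norm_add_le _ _).trans (add_le_add h1 h2)
      _ = E * w 2 := by rw [← h3]; ring
      _ ≤ 2 * E := by nlinarith
  -- splitting into primes and the other prime powers
  have hB : ∑ n ∈ Icc 2 t, (S n - S (n - 1)) * (w n : ℂ) =
      ∑ p ∈ (Icc 1 t).filter Nat.Prime, χ (p : ZMod r) +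
      ∑ n ∈ (Icc 2 t).filter (fun n => ¬ n.Prime),
        ((ArithmeticFunction.vonMangoldt n : ℝ) : ℂ) * χ (n : ZMod r) * (w n : ℂ) := by
    have h1 : ∑ n ∈ Icc 2 t, (S n - S (n - 1)) * (w n : ℂ) = ∑ n ∈ Icc 2 t,
        ((ArithmeticFunction.vonMangoldt n : ℝ) : ℂ) * χ (n : ZMod r) * (w n : ℂ) := by
      refine Finset.sum_congr rfl fun n hn => ?_
      rw [Finset.mem_Icc] at hn
      rw [hSd n (by omega)]
    rw [h1, ← Finset.sum_filter_add_sum_filter_not (Icc 2 t) Nat.Prime]
    congr 1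
    have h2 : (Icc 1 t).filter Nat.Prime = (Icc 2 t).filter Nat.Prime := by
      ext p
      simp only [Finset.mem_filter, Finset.mem_Icc]
      constructor
      · rintro ⟨⟨_, h⟩, hp⟩
        exact ⟨⟨hp.two_le, h⟩, hp⟩
      · rintro ⟨⟨h', h⟩, hp⟩
        exact ⟨⟨by omega, h⟩, hp⟩
    rw [h2]
    refine Finset.sum_congr rfl fun p hp => ?_
    rw [Finset.mem_filter] at hp
    have hlp := hlog p hp.2.two_le
    rw [ArithmeticFunction.vonMangoldt_apply_prime hp.2]
    have h3 : ((Real.log p : ℝ) : ℂ) * ((w p : ℝ) : ℂ) = 1 := by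
      rw [← Complex.ofReal_mul]
      simp only [hw]
      rw [mul_one_div, div_self hlp.ne', Complex.ofReal_one]
    calc ((Real.log p : ℝ) : ℂ) * χ (p : ZMod r) * (w p : ℂ)
        = χ (p : ZMod r) * (((Real.log p : ℝ) : ℂ) * ((w p : ℝ) : ℂ)) := by ring
      _ = χ (p : ZMod r) := by rw [h3, mul_one]
  have hC : ‖∑ n ∈ (Icc 2 t).filter (fun n => ¬ n.Prime),
        ((ArithmeticFunction.vonMangoldt n : ℝ) : ℂ) * χ (n : ZMod r) * (w n : ℂ)‖ ≤
      2 * √t * Real.log t := by
    have h1 : ‖∑ n ∈ (Icc 2 t).filter (fun n => ¬ n.Prime),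
        ((ArithmeticFunction.vonMangoldt n : ℝ) : ℂ) * χ (n : ZMod r) * (w n : ℂ)‖ ≤
        ∑ n ∈ (Icc 2 t).filter (fun n => ¬ n.Prime), ArithmeticFunction.vonMangoldt n := by
      refine (norm_sum_le _ _).trans (Finset.sum_le_sum fun n hn => ?_)
      rw [Finset.mem_filter, Finset.mem_Icc] at hn
      have hn4 : 4 ≤ n := by
        by_contra hlt
        have : n = 2 ∨ n = 3 := by omega
        rcases this with rfl | rfl
        · exact hn.2 Nat.prime_two
        · exact hn.2 Nat.prime_three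
      have hL : 0 ≤ ArithmeticFunction.vonMangoldt n := ArithmeticFunction.vonMangoldt_nonneg
      have hw1 : w n ≤ 1 := by
        simp only [hw]
        have hlt := Real.log_two_gt_d9
        have h4 : Real.log 4 ≤ Real.log n :=
          Real.log_le_log (by norm_num) (by exact_mod_cast hn4)
        have h5 : Real.log 4 = 2 * Real.log 2 := by
          rw [show (4 : ℝ) = 2 ^ 2 by norm_num, Real.log_pow]
          norm_num
        rw [div_le_one (by linarith)]
        linarith
      have hw0 : 0 ≤ w n := by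
        have := hlog n (by omega)
        simp only [hw]
        positivity
      rw [norm_mul, norm_mul, Complex.norm_real, Complex.norm_real, Real.norm_eq_abs,
        Real.norm_eq_abs, abs_of_nonneg hL, abs_of_nonneg hw0]
      have hχ := DirichletCharacter.norm_le_one χ (n : ZMod r)
      have h6 : ArithmeticFunction.vonMangoldt n * ‖χ (n : ZMod r)‖ ≤
          ArithmeticFunction.vonMangoldt n := mul_le_of_le_one_right hL hχ
      calc ArithmeticFunction.vonMangoldt n * ‖χ (n : ZMod r)‖ * w n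
          ≤ ArithmeticFunction.vonMangoldt n * 1 := by
            refine mul_le_mul h6 hw1 hw0 hL
        _ = _ := mul_one _
    refine h1.trans ?_
    have h2 := Chebyshev.psi_sub_theta_le (x := (t : ℝ)) (by exact_mod_cast (by omega : 1 ≤ t))
    refine le_trans (le_of_eq ?_) h2
    rw [Chebyshev.psi_sub_theta_eq_sum_not_prime]
    rw [Nat.floor_natCast]
    refine Finset.sum_subset ?_ ?_
    · intro n hn
      rw [Finset.mem_filter, Finset.mem_Icc] at hn
      rw [Finset.mem_filter, Finset.mem_Ioc]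
      exact ⟨⟨by omega, hn.1.2⟩, hn.2⟩
    · intro n hn hn2
      rw [Finset.mem_filter, Finset.mem_Ioc] at hn
      have : n = 1 := by
        by_contra hne
        apply hn2
        rw [Finset.mem_filter, Finset.mem_Icc]
        exact ⟨⟨by omega, hn.1.2⟩, hn.2⟩
      rw [this]
      simp
  have hfin : ∑ p ∈ (Icc 1 t).filter Nat.Prime, χ (p : ZMod r) =
      ∑ n ∈ Icc 2 t, (S n - S (n - 1)) * (w n : ℂ) -
      ∑ n ∈ (Icc 2 t).filter (fun n => ¬ n.Prime),
        ((ArithmeticFunction.vonMangoldt n : ℝ) : ℂ) * χ (n : ZMod r) * (w n : ℂ) := by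
    rw [hB]; ring
  rw [hfin]
  refine (norm_sub_le _ _).trans ?_
  have hpos : 0 ≤ √(t : ℝ) * Real.log t := by
    have := hlog t (by omega)
    positivity
  nlinarith [hA, hC, hpos]

end Pool.Agent.AV
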