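import Pool.Agent.Lib_helper21.AV.Defs
import Pool.Agent.Lib_helper21.AV.W.PSb
import Pool.Agent.Lib_helper21.AV.W.PSc
import Pool.Agent.Lib_helper21.AV.W.PSd
import Pool.Agent.Lib_helper23.BGF.ABL

/-! # PSe: sums of characters over primes -/

set_option autoImplicit false

namespace Pool.Agent.AV

open Finset

theorem PSe_log (m : ℕ) : ∃ K : ℝ, 0 < K ∧ ∀ t : ℝ, 1 ≤ t → Real.log t ^ m ≤ K * √t := by
  set δ : ℝ := 1 / (2 * (m + 1)) with hδ
  have hδ0 : 0 < δ := by rw [hδ]; positivity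
  refine ⟨(1 / δ) ^ m, by positivity, fun t ht => ?_⟩
  have ht0 : 0 < t := by linarith
  have h1 : Real.log t ≤ t ^ δ / δ := Real.log_le_rpow_div ht0.le hδ0
  have h0 : 0 ≤ Real.log t := Real.log_nonneg ht
  calc Real.log t ^ m ≤ (t ^ δ / δ) ^ m := pow_le_pow_left₀ h0 h1 m
    _ = (1 / δ) ^ m * (t ^ δ) ^ m := by rw [div_eq_mul_one_div, mul_pow, mul_comm]
    _ ≤ (1 / δ) ^ m * √t := by
        refine mul_le_mul_of_nonneg_left ?_ (by positivity)
        rw [← Real.rpow_natCast, ← Real.rpow_mul ht0.le, Real.sqrt_eq_rpow]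
        refine Real.rpow_le_rpow_of_exponent_le ht ?_
        rw [hδ, div_mul_eq_mul_div, one_mul, div_le_div_iff₀ (by positivity) (by norm_num)]
        nlinarith

theorem PSe_Q (i B : ℕ) : ∃ K : ℝ, 0 < K ∧ ∀ (r : ℕ) [NeZero r] (χ : DirichletCharacter ℂ r),
    χ ^ 2 = 1 → χ ≠ 1 → (Real.log r ^ 10 / Pool.Agent.BG.ell χ) ^ (2 * i + 1) ≤
      K * (r : ℝ) ^ (1 / ((B : ℝ) + 1)) := by
  set ε : ℝ := 1 / (11 * (2 * i + 1) * (B + 1)) with hε
  have hε0 : 0 < ε := by rw [hε]; positivity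
  obtain ⟨c, hc, hS⟩ := siegel_one ε hε0
  set c' : ℝ := min 1 c with hc'
  have hc'0 : 0 < c' := lt_min one_pos hc
  refine ⟨((1 / ε) ^ 10 / c') ^ (2 * i + 1), by positivity, fun r _ χ h2 hχ => ?_⟩
  have hr1 : (1 : ℝ) ≤ r := by exact_mod_cast Nat.one_le_iff_ne_zero.2 (NeZero.ne r)
  have hr0 : (0 : ℝ) < r := by linarith
  have hrε : 0 < (r : ℝ) ^ ε := Real.rpow_pos_of_pos hr0 _
  have hrε1 : 1 ≤ (r : ℝ) ^ ε := Real.one_le_rpow hr1 hε0.le
  have hell : c' / (r : ℝ) ^ ε ≤ Pool.Agent.BG.ell χ := by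
    unfold Pool.Agent.BG.ell
    rw [if_pos h2]
    refine le_min ?_ ?_
    · rw [div_le_one hrε]
      exact (min_le_left _ _).trans hrε1
    · refine le_trans ?_ (hS r χ h2 hχ)
      gcongr
      exact min_le_right _ _
  have hl0 : 0 ≤ Real.log r := Real.log_nonneg hr1
  have hlog : Real.log r ^ 10 ≤ ((r : ℝ) ^ ε / ε) ^ 10 :=
    pow_le_pow_left₀ hl0 (Real.log_le_rpow_div hr0.le hε0) 10
  have hQ : Real.log r ^ 10 / Pool.Agent.BG.ell χ ≤ (1 / ε) ^ 10 / c' * ((r : ℝ) ^ ε) ^ 11 := by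
    have hq0 : 0 < c' / (r : ℝ) ^ ε := by positivity
    calc Real.log r ^ 10 / Pool.Agent.BG.ell χ ≤ ((r : ℝ) ^ ε / ε) ^ 10 / (c' / (r : ℝ) ^ ε) := by
          gcongr
      _ = (1 / ε) ^ 10 / c' * ((r : ℝ) ^ ε) ^ 11 := by
          field_simp
  have hQ0 : 0 ≤ Real.log r ^ 10 / Pool.Agent.BG.ell χ := by
    refine div_nonneg (by positivity) (le_trans ?_ hell)
    positivity
  calc (Real.log r ^ 10 / Pool.Agent.BG.ell χ) ^ (2 * i + 1)
      ≤ ((1 / ε) ^ 10 / c' * ((r : ℝ) ^ ε) ^ 11) ^ (2 * i + 1) := pow_le_pow_left₀ hQ0 hQ _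
    _ = ((1 / ε) ^ 10 / c') ^ (2 * i + 1) * (((r : ℝ) ^ ε) ^ 11) ^ (2 * i + 1) := mul_pow _ _ _
    _ = ((1 / ε) ^ 10 / c') ^ (2 * i + 1) * (r : ℝ) ^ (1 / ((B : ℝ) + 1)) := by
        congr 1
        rw [← pow_mul, ← Real.rpow_natCast, ← Real.rpow_mul hr0.le]
        congr 1
        rw [hε]
        push_cast
        field_simp

theorem PSe_triv {r : ℕ} (χ : DirichletCharacter ℂ r) (u : ℕ) :
    ‖Pool.Agent.BG.psiC χ u‖ ≤ u * Real.log u := by
  unfold Pool.Agent.BG.psiC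
  refine (norm_sum_le _ _).trans ?_
  have h : ∀ n ∈ Icc 1 u, ‖((ArithmeticFunction.vonMangoldt n : ℝ) : ℂ) * χ (n : ZMod r)‖ ≤
      Real.log u := by
    intro n hn
    rw [mem_Icc] at hn
    rw [norm_mul, Complex.norm_real, Real.norm_of_nonneg ArithmeticFunction.vonMangoldt_nonneg]
    have h1 : ArithmeticFunction.vonMangoldt n ≤ Real.log n :=
      ArithmeticFunction.vonMangoldt_le_log
    have h2 : Real.log n ≤ Real.log u :=
      Real.log_le_log (by exact_mod_cast hn.1) (by exact_mod_cast hn.2)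
    have h3 := DirichletCharacter.norm_le_one χ (n : ZMod r)
    have h4 := ArithmeticFunction.vonMangoldt_nonneg (n := n)
    nlinarith [norm_nonneg (χ (n : ZMod r))]
  refine (sum_le_sum h).trans ?_
  rw [sum_const, Nat.card_Icc, nsmul_eq_mul]
  simp

theorem PSe_js (a : ℤ) (m : ℕ) : |js a m| ≤ 1 := by
  unfold js
  rcases jacobiSym.trichotomy a m with h | h | h <;> rw [h] <;> norm_num

theorem prime_sum (A B : ℕ) : ∃ C : ℝ, 0 ≤ C ∧ ∀ (t q : ℕ) (k : ℤ), 3 ≤ t → Odd q →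
    Squarefree q → 1 < q → K4 k → (q : ℝ) ≤ Real.log t ^ B →
    |∑ p ∈ (Icc 1 t).filter Nat.Prime, js (p : ℤ) q * js k p| ≤ C * t * Real.log t ^ (-(A : ℤ)) := by
  obtain ⟨C1, hC1, hpsi⟩ := Pool.Agent.BG.psiC_bound (A + 4)
  obtain ⟨K1, hK1, hQ⟩ := PSe_Q (A + 4) B
  obtain ⟨K2, hK2, hL⟩ := PSe_log (A + 3)
  -- the bound for psi
  set K3 : ℝ := C1 * (K1 * 8) * 2 ^ (A + 3) + 9 * K2 with hK3
  have hK3p : 0 < K3 := by positivity
  set C : ℝ := 2 * K3 + 10 * K2 + K2 + 9 ^ A with hC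
  refine ⟨C, by positivity, fun t q k ht hq hsq hq1 hk hqB => ?_⟩
  have htR : (3 : ℝ) ≤ t := by exact_mod_cast ht
  have ht0 : (0 : ℝ) < t := by linarith
  set L : ℝ := Real.log t with hLd
  have hL1 : 1 ≤ L := by
    rw [hLd, Real.le_log_iff_exp_le ht0]
    have := Real.exp_one_lt_d9
    linarith
  have hL0 : 0 < L := by linarith
  have hzp : L ^ (-(A : ℤ)) = 1 / L ^ A := by
    rw [zpow_neg, zpow_natCast, one_div]
  rw [hzp]
  have hterm : ∀ p : ℕ, |js (p : ℤ) q * js k p| ≤ 1 := fun p => by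
    rw [abs_mul]
    nlinarith [PSe_js p q, PSe_js k p, abs_nonneg (js (p : ℤ) q), abs_nonneg (js k p)]
  rcases Nat.lt_or_ge t 9 with ht9 | ht9
  · -- small t
    have h1 : |∑ p ∈ (Icc 1 t).filter Nat.Prime, js (p : ℤ) q * js k p| ≤ t := by
      refine (abs_sum_le_sum_abs _ _).trans ((sum_le_sum fun p _ => hterm p).trans ?_)
      rw [sum_const, nsmul_eq_mul, mul_one]
      have := card_filter_le (Icc 1 t) Nat.Prime
      rw [Nat.card_Icc] at this
      exact_mod_cast this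
    refine h1.trans ?_
    have h2 : L ≤ 9 := by
      have h3 : L ≤ t := (Real.log_le_sub_one_of_pos ht0).trans (by linarith)
      have h4 : (t : ℝ) ≤ 9 := by exact_mod_cast ht9.le
      linarith
    have h3 : L ^ A ≤ C := by
      have : L ^ A ≤ 9 ^ A := pow_le_pow_left₀ hL0.le h2 A
      rw [hC]
      have : 0 < 2 * K3 + 10 * K2 + K2 := by positivity
      linarith
    rw [mul_one_div, le_div_iff₀ (by positivity)]
    nlinarith
  -- the character
  obtain ⟨χ, hχ1, hχ2, hχ⟩ := exists_char q hq hsq hq1 k hk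
  have : NeZero (8 * q) := ⟨by omega⟩
  have hr : ((8 * q : ℕ) : ℝ) ^ (1 / ((B : ℝ) + 1)) ≤ 8 * L := by
    have h1 : ((8 * q : ℕ) : ℝ) ≤ (8 * L) ^ (B + 1) := by
      push_cast
      calc 8 * (q : ℝ) ≤ 8 * L ^ B := by linarith
        _ ≤ (8 * L) ^ (B + 1) := by
            rw [pow_succ]
            have h2 : L ^ B ≤ (8 * L) ^ B := pow_le_pow_left₀ hL0.le (by linarith) B
            have h3 : 0 ≤ (8 * L) ^ B := by positivity
            nlinarith
    calc ((8 * q : ℕ) : ℝ) ^ (1 / ((B : ℝ) + 1)) ≤ ((8 * L) ^ (B + 1)) ^ (1 / ((B : ℝ) + 1)) :=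
          Real.rpow_le_rpow (by positivity) h1 (by positivity)
      _ = 8 * L := by
          rw [← Real.rpow_natCast, ← Real.rpow_mul (by positivity)]
          push_cast
          rw [mul_one_div_cancel (by positivity), Real.rpow_one]
  have hQ' := (hQ (8 * q) χ hχ2 hχ1).trans (mul_le_mul_of_nonneg_left hr hK1.le)
  have hst : √(t : ℝ) * √(t : ℝ) = t := Real.mul_self_sqrt ht0.le
  have hs3 : 3 ≤ √(t : ℝ) := by
    rw [Real.le_sqrt (by norm_num) ht0.le]
    have : (9 : ℝ) ≤ t := by exact_mod_cast ht9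
    linarith
  have hLs := hL t (by linarith)
  rw [← hLd] at hLs
  -- L √t ≤ K2 t / L^(A+2)
  have hsm : √(t : ℝ) * L ≤ K2 * t / L ^ (A + 2) := by
    rw [le_div_iff₀ (by positivity)]
    calc √(t : ℝ) * L * L ^ (A + 2) = √(t : ℝ) * L ^ (A + 3) := by ring
      _ ≤ √(t : ℝ) * (K2 * √(t : ℝ)) := mul_le_mul_of_nonneg_left hLs (by positivity)
      _ = K2 * (√(t : ℝ) * √(t : ℝ)) := by ring
      _ = K2 * t := by rw [hst]
  have hE : ∀ u : ℕ, u ≤ t → ‖Pool.Agent.BG.psiC χ u‖ ≤ K3 * t / L ^ (A + 2) := by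
    intro u hu
    have huR : (u : ℝ) ≤ t := by exact_mod_cast hu
    rcases lt_or_ge (u : ℝ) (9 * √(t : ℝ)) with hu9 | hu9
    · have h1 := PSe_triv χ u
      have h2 : (u : ℝ) * Real.log u ≤ 9 * √(t : ℝ) * L := by
        rcases Nat.eq_zero_or_pos u with rfl | hu0
        · simp
          positivity
        · have h3 : Real.log u ≤ L := Real.log_le_log (by exact_mod_cast hu0) huR
          have h4 : 0 ≤ Real.log u := Real.log_nonneg (by exact_mod_cast hu0)
          have h5 : (0 : ℝ) ≤ u := Nat.cast_nonneg u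
          nlinarith
      calc ‖Pool.Agent.BG.psiC χ u‖ ≤ 9 * (√(t : ℝ) * L) := by linarith
        _ ≤ 9 * (K2 * t / L ^ (A + 2)) := by linarith
        _ = 9 * K2 * t / L ^ (A + 2) := by ring
        _ ≤ K3 * t / L ^ (A + 2) := by
            gcongr
            rw [hK3]
            have : 0 ≤ C1 * (K1 * 8) * 2 ^ (A + 3) := by positivity
            linarith
    · have hu1 : (9 : ℝ) ≤ u := by linarith
      have hu9' : 9 ≤ u := by exact_mod_cast hu1
      have hu0 : (0 : ℝ) < u := by linarith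
      have h1 := hpsi (8 * q) χ hχ1 u hu9'
      have hlu : L / 2 ≤ Real.log u := by
        have h2 : Real.log (√(t : ℝ)) = L / 2 := Real.log_sqrt ht0.le
        rw [← h2]
        exact Real.log_le_log (by positivity) (by linarith)
      have hlu0 : 0 < Real.log u := by linarith
      have h3 : ‖Pool.Agent.BG.psiC χ u‖ * Real.log u ^ (A + 3) ≤ C1 * u * (K1 * (8 * L)) := by
        have h4 : ‖Pool.Agent.BG.psiC χ u‖ * Real.log u ^ (A + 4) ≤
            C1 * u * Real.log u * (K1 * (8 * L)) := by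
          refine h1.trans (mul_le_mul_of_nonneg_left hQ' (by positivity))
        have h5 : ‖Pool.Agent.BG.psiC χ u‖ * Real.log u ^ (A + 3) * Real.log u ≤
            C1 * u * (K1 * (8 * L)) * Real.log u := by
          calc ‖Pool.Agent.BG.psiC χ u‖ * Real.log u ^ (A + 3) * Real.log u
              = ‖Pool.Agent.BG.psiC χ u‖ * Real.log u ^ (A + 4) := by ring
            _ ≤ C1 * u * Real.log u * (K1 * (8 * L)) := h4
            _ = _ := by ring
        exact le_of_mul_le_mul_right h5 hlu0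
      have h6 : ‖Pool.Agent.BG.psiC χ u‖ * (L / 2) ^ (A + 3) ≤ C1 * t * (K1 * (8 * L)) := by
        calc ‖Pool.Agent.BG.psiC χ u‖ * (L / 2) ^ (A + 3)
            ≤ ‖Pool.Agent.BG.psiC χ u‖ * Real.log u ^ (A + 3) := by gcongr
          _ ≤ C1 * u * (K1 * (8 * L)) := h3
          _ ≤ C1 * t * (K1 * (8 * L)) := by gcongr
      have h7 : ‖Pool.Agent.BG.psiC χ u‖ ≤ C1 * (K1 * 8) * 2 ^ (A + 3) * t / L ^ (A + 2) := by
        rw [le_div_iff₀ (by positivity)]
        rw [div_pow, mul_div_assoc', div_le_iff₀ (by positivity)] at h6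
        have h8 : ‖Pool.Agent.BG.psiC χ u‖ * L ^ (A + 2) * L ≤
            C1 * (K1 * 8) * 2 ^ (A + 3) * t * L := by
          calc ‖Pool.Agent.BG.psiC χ u‖ * L ^ (A + 2) * L
              = ‖Pool.Agent.BG.psiC χ u‖ * L ^ (A + 3) := by ring
            _ ≤ C1 * t * (K1 * (8 * L)) * 2 ^ (A + 3) := h6
            _ = _ := by ring
        exact le_of_mul_le_mul_right h8 hL0
      refine h7.trans ?_
      gcongr
      rw [hK3]
      linarith [hK2]
  have hmain := psi_to_prime χ t ht9 _ hE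
  -- comparison
  have hcmp : |∑ p ∈ (Icc 1 t).filter Nat.Prime, js (p : ℤ) q * js k p| ≤
      ‖∑ p ∈ (Icc 1 t).filter Nat.Prime, χ (p : ZMod (8 * q))‖ + 1 := by
    have h1 : ((∑ p ∈ (Icc 1 t).filter Nat.Prime, js (p : ℤ) q * js k p : ℝ) : ℂ) =
        ∑ p ∈ (Icc 1 t).filter Nat.Prime, χ (p : ZMod (8 * q)) +
        ∑ p ∈ (Icc 1 t).filter Nat.Prime, (((js (p : ℤ) q * js k p : ℝ) : ℂ) -
          χ (p : ZMod (8 * q))) := by
      rw [← sum_add_distrib]
      push_cast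
      exact sum_congr rfl fun p _ => by ring
    have h2 : ‖∑ p ∈ (Icc 1 t).filter Nat.Prime, (((js (p : ℤ) q * js k p : ℝ) : ℂ) -
          χ (p : ZMod (8 * q)))‖ ≤ 1 := by
      refine (norm_sum_le _ _).trans ?_
      have h3 : ∀ p ∈ (Icc 1 t).filter Nat.Prime, ‖(((js (p : ℤ) q * js k p : ℝ) : ℂ) -
          χ (p : ZMod (8 * q)))‖ ≤ if p = 2 then 1 else 0 := by
        intro p hp
        have hpp := (mem_filter.1 hp).2
        split_ifs with h2
        · subst h2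
          have h4 : χ ((2 : ℕ) : ZMod (8 * q)) = 0 := by
            apply MulChar.map_nonunit
            rw [ZMod.isUnit_iff_coprime]
            intro hcop
            have h5 : Nat.gcd 2 (8 * q) = 2 := Nat.gcd_eq_left ⟨4 * q, by ring⟩
            rw [Nat.Coprime, h5] at hcop
            omega
          rw [h4, sub_zero, Complex.norm_real, Real.norm_eq_abs]
          exact hterm 2
        · rw [hχ p (hpp.odd_of_ne_two h2), sub_self, norm_zero]
      refine (sum_le_sum h3).trans ?_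
      rw [sum_ite_eq' _ 2 (fun _ => (1 : ℝ))]
      split_ifs <;> norm_num
    have h3 : |∑ p ∈ (Icc 1 t).filter Nat.Prime, js (p : ℤ) q * js k p| =
        ‖((∑ p ∈ (Icc 1 t).filter Nat.Prime, js (p : ℤ) q * js k p : ℝ) : ℂ)‖ := by
      rw [Complex.norm_real, Real.norm_eq_abs]
    rw [h3, h1]
    exact (norm_add_le _ _).trans (by linarith)
  have hone : (1 : ℝ) ≤ K2 * t / L ^ (A + 2) := by
    have : 1 ≤ √(t : ℝ) * L := by nlinarith
    linarith
  have hfin : |∑ p ∈ (Icc 1 t).filter Nat.Prime, js (p : ℤ) q * js k p| ≤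
      (2 * K3 + 10 * K2 + K2) * t / L ^ (A + 2) := by
    calc |∑ p ∈ (Icc 1 t).filter Nat.Prime, js (p : ℤ) q * js k p|
        ≤ 2 * (K3 * t / L ^ (A + 2)) + 10 * √(t : ℝ) * L + 1 := by linarith
      _ ≤ 2 * (K3 * t / L ^ (A + 2)) + 10 * (K2 * t / L ^ (A + 2)) + K2 * t / L ^ (A + 2) := by
          linarith
      _ = (2 * K3 + 10 * K2 + K2) * t / L ^ (A + 2) := by ring
  refine hfin.trans ?_
  rw [mul_one_div]
  have hpw : L ^ A ≤ L ^ (A + 2) := pow_le_pow_right₀ hL1 (by omega)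
  have hCle : 2 * K3 + 10 * K2 + K2 ≤ C := by
    rw [hC]
    have : (0 : ℝ) ≤ 9 ^ A := by positivity
    linarith
  gcongr

end Pool.Agent.AV
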