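import Pool.Agent.Lib_helper21.AV.Defs

/-! # SM: smooth numbers -/

set_option autoImplicit false

namespace Pool.Agent.AV

open Finset

theorem SM_summable {σ : ℝ} (hσ : 1 < σ) : Summable (fun n : ℕ => (n : ℝ) ^ (-σ)) :=
  Real.summable_nat_rpow.2 (by linarith)

theorem SM_integral {σ : ℝ} (hσ : 1 < σ) {N : ℕ} (hN : 1 ≤ N) :
    ∫ x in ((1 : ℕ) : ℝ)..(N : ℝ), x ^ (-σ) = (1 - (N : ℝ) ^ (1 - σ)) / (σ - 1) := by
  rw [integral_rpow]
  · rw [Nat.cast_one, Real.one_rpow]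
    have h1 : -σ + 1 = 1 - σ := by ring
    rw [h1]
    have h2 : 1 - σ ≠ 0 := by linarith
    have h3 : σ - 1 ≠ 0 := by linarith
    rw [div_eq_div_iff h2 h3]
    ring
  · right
    refine ⟨by linarith, ?_⟩
    rw [Set.uIcc_of_le (by exact_mod_cast hN)]
    rintro ⟨h, _⟩
    norm_num at h

theorem SM_anti {σ : ℝ} (hσ : 1 < σ) (N : ℕ) :
    AntitoneOn (fun x : ℝ => x ^ (-σ)) (Set.Icc ((1 : ℕ) : ℝ) (N : ℝ)) := by
  intro x hx y hy hxy
  have h1 : (0 : ℝ) < x := by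
    have := hx.1
    simp only [Nat.cast_one] at this
    linarith
  exact Real.rpow_le_rpow_of_nonpos h1 hxy (by linarith)

theorem SM_zeta_le {σ : ℝ} (hσ : 1 < σ) : ∑' n : ℕ, (n : ℝ) ^ (-σ) ≤ σ / (σ - 1) := by
  have h0 : 0 < σ - 1 := by linarith
  refine Real.tsum_le_of_sum_range_le (fun n => by positivity) fun n => ?_
  have h1 : ∑ i ∈ range n, (i : ℝ) ^ (-σ) ≤ ∑ i ∈ range (n + 2), (i : ℝ) ^ (-σ) := by
    refine sum_le_sum_of_subset_of_nonneg (range_subset_range.2 (by omega)) fun _ _ _ => by positivity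
  refine h1.trans ?_
  have h2 : ∑ i ∈ range (n + 2), (i : ℝ) ^ (-σ) =
      1 + ∑ i ∈ Ico 1 (n + 1), ((i + 1 : ℕ) : ℝ) ^ (-σ) := by
    rw [Finset.range_eq_Ico, Finset.sum_eq_sum_Ico_succ_bot (by omega),
      Finset.sum_eq_sum_Ico_succ_bot (by omega)]
    have h3 : ((0 : ℕ) : ℝ) ^ (-σ) = 0 := by
      rw [Nat.cast_zero, Real.zero_rpow (by linarith)]
    rw [h3, zero_add]
    have h4 : ((0 + 1 : ℕ) : ℝ) ^ (-σ) = 1 := by simp
    rw [h4]
    congr 1
    rw [Finset.sum_Ico_add' (fun i : ℕ => (i : ℝ) ^ (-σ)) 1 (n + 1) 1]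
  rw [h2]
  have h5 := AntitoneOn.sum_le_integral_Ico (f := fun x : ℝ => x ^ (-σ)) (a := 1) (b := n + 1)
    (by omega) (SM_anti hσ (n + 1))
  have h6 := SM_integral hσ (N := n + 1) (by omega)
  have h7 : (0 : ℝ) ≤ ((n + 1 : ℕ) : ℝ) ^ (1 - σ) := by positivity
  have h8 : (1 - ((n + 1 : ℕ) : ℝ) ^ (1 - σ)) / (σ - 1) ≤ 1 / (σ - 1) := by
    gcongr
    linarith
  have h9 : σ / (σ - 1) = 1 + 1 / (σ - 1) := by field_simp; ring
  rw [h9]
  have h10 : ∑ i ∈ Ico 1 (n + 1), ((i + 1 : ℕ) : ℝ) ^ (-σ) ≤ 1 / (σ - 1) := by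
    calc _ ≤ _ := h5
      _ = _ := h6
      _ ≤ _ := h8
  linarith

/-- the Euler product over the primes below `N` -/
theorem SM_euler {s : ℝ} (hs : 1 < s) (N : ℕ) :
    ∏ p ∈ Nat.primesBelow N, (1 - (p : ℝ) ^ (-s))⁻¹ ≤ s / (s - 1) := by
  let f : ℕ →* ℝ :=
    { toFun := fun m => (m : ℝ) ^ (-s)
      map_one' := by simp
      map_mul' := by
        intro a b
        push_cast
        exact Real.mul_rpow (Nat.cast_nonneg a) (Nat.cast_nonneg b) }
  have hf : ∀ {p : ℕ}, p.Prime → ‖f p‖ < 1 := by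
    intro p hp
    have h2 : ‖f p‖ = (p : ℝ) ^ (-s) := by
      show ‖(p : ℝ) ^ (-s)‖ = _
      rw [Real.norm_of_nonneg (by positivity)]
    rw [h2]
    exact Real.rpow_lt_one_of_one_lt_of_neg (by exact_mod_cast hp.one_lt) (by linarith)
  obtain ⟨-, h⟩ := EulerProduct.summable_and_hasSum_smoothNumbers_prod_primesBelow_geometric
    (f := f) hf N
  have h1 := h.tsum_eq
  have h2 : ∑' m : Nat.smoothNumbers N, f m ≤ ∑' n : ℕ, (n : ℝ) ^ (-s) :=
    Summable.tsum_subtype_le (fun n : ℕ => (n : ℝ) ^ (-s)) (Nat.smoothNumbers N)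
      (fun n => by positivity) (SM_summable hs)
  rw [h1] at h2
  exact h2.trans (SM_zeta_le hs)

/-- sum over squarefree smooth numbers -/
theorem SM_prod (y z : ℕ) (g : ℕ → ℝ) (hg : ∀ n, 0 ≤ g n)
    (hm : ∀ m : ℕ, Squarefree m → g m = ∏ p ∈ m.primeFactors, g p) :
    ∑ m ∈ (Icc 1 y).filter (fun m => Squarefree m ∧ ∀ p ∈ m.primeFactors, p ≤ z), g m ≤
      ∏ p ∈ Nat.primesBelow (z + 1), (1 + g p) := by
  classical
  rw [prod_one_add]
  have h1 : ∑ m ∈ (Icc 1 y).filter (fun m => Squarefree m ∧ ∀ p ∈ m.primeFactors, p ≤ z), g m =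
      ∑ S ∈ ((Icc 1 y).filter (fun m => Squarefree m ∧ ∀ p ∈ m.primeFactors, p ≤ z)).image
        (fun m => m.primeFactors), ∏ p ∈ S, g p := by
    rw [sum_image]
    · refine sum_congr rfl fun m hm' => ?_
      exact hm m (mem_filter.1 hm').2.1
    · intro a ha b hb hab
      have ha' := (mem_filter.1 (Finset.mem_coe.1 ha)).2.1
      have hb' := (mem_filter.1 (Finset.mem_coe.1 hb)).2.1
      rw [← Nat.prod_primeFactors_of_squarefree ha', ← Nat.prod_primeFactors_of_squarefree hb']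
      simp only at hab
      rw [hab]
  rw [h1]
  refine sum_le_sum_of_subset_of_nonneg ?_ fun S _ _ => prod_nonneg fun p _ => hg p
  intro S hS
  obtain ⟨m, hm', rfl⟩ := mem_image.1 hS
  rw [mem_powerset]
  intro p hp
  have h2 := (mem_filter.1 hm').2.2 p hp
  rw [Nat.mem_primesBelow]
  exact ⟨by omega, Nat.prime_of_mem_primeFactors hp⟩

theorem smooth : ∃ C : ℝ, 0 ≤ C ∧ ∀ (y z : ℕ), 1 ≤ y → 3 ≤ z →
    (((Icc 1 y).filter (fun m => Squarefree m ∧ ∀ p ∈ m.primeFactors, p ≤ z)).card : ℝ) ≤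
      C * y * Real.exp (-(Real.log y / Real.log z)) * (Real.log z) ^ 8 := by
  refine ⟨256, by norm_num, ?_⟩
  intro y z hy hz
  have hy0 : (0 : ℝ) < y := by exact_mod_cast hy
  have hz3 : (3 : ℝ) ≤ z := by exact_mod_cast hz
  have hz0 : (0 : ℝ) < z := by linarith
  set L := Real.log z with hL
  have hL1 : 1 < L := by
    rw [hL, Real.lt_log_iff_exp_lt hz0]
    have := Real.exp_one_lt_d9
    linarith
  have hL0 : 0 < L := by linarith
  set σ : ℝ := 1 - 1 / L with hσ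
  have hL' : 1 / L < 1 := by rw [div_lt_one hL0]; exact hL1
  have hL'' : 0 < 1 / L := by positivity
  have hσ0 : 0 < σ := by rw [hσ]; linarith
  set s : ℝ := 1 + 1 / L with hs
  have hs1 : 1 < s := by rw [hs]; linarith
  set Fs := (Icc 1 y).filter (fun m => Squarefree m ∧ ∀ p ∈ m.primeFactors, p ≤ z) with hFs
  -- Rankin
  have h1 : (Fs.card : ℝ) ≤ (y : ℝ) ^ σ * ∑ m ∈ Fs, (m : ℝ) ^ (-σ) := by
    rw [mul_sum, card_eq_sum_ones, Nat.cast_sum]
    refine sum_le_sum fun m hm => ?_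
    obtain ⟨h2, h3⟩ := mem_Icc.1 (mem_filter.1 hm).1
    have hm0 : (0 : ℝ) < m := by exact_mod_cast h2
    have hmy : (m : ℝ) ≤ y := by exact_mod_cast h3
    rw [Real.rpow_neg hm0.le, ← div_eq_mul_inv, Nat.cast_one, le_div_iff₀ (by positivity), one_mul]
    exact Real.rpow_le_rpow hm0.le hmy hσ0.le
  have h2 : ∑ m ∈ Fs, (m : ℝ) ^ (-σ) ≤ ∏ p ∈ Nat.primesBelow (z + 1), (1 + (p : ℝ) ^ (-σ)) := by
    apply SM_prod y z (fun m => (m : ℝ) ^ (-σ)) (fun n => by positivity)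
    intro m hm
    conv_lhs => rw [← Nat.prod_primeFactors_of_squarefree hm]
    rw [Nat.cast_prod, Real.finsetProd_rpow]
    intro p _
    positivity
  have h3 : ∏ p ∈ Nat.primesBelow (z + 1), (1 + (p : ℝ) ^ (-σ)) ≤
      ∏ p ∈ Nat.primesBelow (z + 1), ((1 - (p : ℝ) ^ (-s))⁻¹) ^ 8 := by
    refine prod_le_prod (fun p _ => by positivity) fun p hp => ?_
    obtain ⟨hp1, hp2⟩ := Nat.mem_primesBelow.1 hp
    have hp0 : (0 : ℝ) < p := by exact_mod_cast hp2.pos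
    have hpz : (p : ℝ) ≤ z := by exact_mod_cast Nat.le_of_lt_succ hp1
    set x := (p : ℝ) ^ (-s) with hx
    have hx0 : 0 < x := by positivity
    have hx1 : x < 1 := Real.rpow_lt_one_of_one_lt_of_neg (by exact_mod_cast hp2.one_lt)
      (by linarith)
    have e1 : (p : ℝ) ^ (-σ) = x * (p : ℝ) ^ (2 / L) := by
      rw [hx, ← Real.rpow_add hp0]
      congr 1
      rw [hσ, hs]; ring
    have e2 : (p : ℝ) ^ (2 / L) ≤ 8 := by
      have e3 : (p : ℝ) ^ (2 / L) ≤ (z : ℝ) ^ (2 / L) :=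
        Real.rpow_le_rpow hp0.le hpz (by positivity)
      have e4 : (z : ℝ) ^ (2 / L) = Real.exp 2 := by
        rw [Real.rpow_def_of_pos hz0, ← hL]
        congr 1
        field_simp
      have e5 : Real.exp 2 ≤ 8 := by
        have e6 : Real.exp 2 = Real.exp 1 * Real.exp 1 := by rw [← Real.exp_add]; norm_num
        have e7 := Real.exp_one_lt_d9
        have e8 := Real.exp_pos 1
        rw [e6]
        nlinarith
      linarith
    have e9 : 1 + (p : ℝ) ^ (-σ) ≤ 1 + 8 * x := by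
      rw [e1]
      nlinarith
    refine e9.trans ?_
    have e10 : 1 + x ≤ (1 - x)⁻¹ := by
      rw [← one_div, le_div_iff₀ (by linarith)]
      nlinarith
    have e11 : 1 + 8 * x ≤ (1 + x) ^ 8 := by
      have := one_add_mul_le_pow (a := x) (by linarith) 8
      simpa using this
    exact e11.trans (pow_le_pow_left₀ (by linarith) e10 8)
  have h4 : ∏ p ∈ Nat.primesBelow (z + 1), ((1 - (p : ℝ) ^ (-s))⁻¹) ^ 8 ≤ (2 * L) ^ 8 := by
    rw [prod_pow]
    apply pow_le_pow_left₀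
    · apply prod_nonneg
      intro p hp
      obtain ⟨hp1, hp2⟩ := Nat.mem_primesBelow.1 hp
      have hx1 : (p : ℝ) ^ (-s) < 1 := Real.rpow_lt_one_of_one_lt_of_neg
        (by exact_mod_cast hp2.one_lt) (by linarith)
      exact inv_nonneg.2 (by linarith)
    · refine (SM_euler hs1 (z + 1)).trans ?_
      have e1 : s / (s - 1) = L + 1 := by
        rw [hs]
        field_simp
        ring
      rw [e1]
      linarith
  have h5 : (y : ℝ) ^ σ = y * Real.exp (-(Real.log y / L)) := by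
    rw [hσ, Real.rpow_sub hy0, Real.rpow_one, Real.exp_neg, div_eq_mul_inv]
    congr 2
    rw [Real.rpow_def_of_pos hy0]
    congr 1
    ring
  calc (Fs.card : ℝ) ≤ (y : ℝ) ^ σ * ∑ m ∈ Fs, (m : ℝ) ^ (-σ) := h1
    _ ≤ (y : ℝ) ^ σ * (2 * L) ^ 8 := by
        apply mul_le_mul_of_nonneg_left _ (by positivity)
        exact h2.trans (h3.trans h4)
    _ = 256 * y * Real.exp (-(Real.log y / L)) * L ^ 8 := by rw [h5]; ring

end Pool.Agent.AV
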