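import Pool.Agent.Lib_helper21.AV.Defs

/-! # SWa: splitting off the largest prime factor -/

set_option autoImplicit false

namespace Pool.Agent.AV

open Finset

theorem SWa_sqf {m p : ℕ} (hm : Squarefree m) (hp : p.Prime) (h : ∀ l ∈ m.primeFactors, l < p) :
    Squarefree (m * p) := by
  have h1 : ¬ p ∣ m := by
    intro h2
    exact lt_irrefl p (h p (Nat.mem_primeFactors.2 ⟨hp, h2, hm.ne_zero⟩))
  have h2 : Nat.Coprime m p := ((Nat.Prime.coprime_iff_not_dvd hp).2 h1).symm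
  exact (Nat.squarefree_mul h2).2 ⟨hm, hp.prime.squarefree⟩

theorem SWa_inj {m p m' p' : ℕ} (hm : m ≠ 0) (hm' : m' ≠ 0) (hp : p.Prime) (hp' : p'.Prime)
    (h : ∀ l ∈ m.primeFactors, l < p) (h' : ∀ l ∈ m'.primeFactors, l < p')
    (he : m * p = m' * p') : m = m' ∧ p = p' := by
  have h1 : p = p' := by
    apply le_antisymm
    · have h2 : p ∣ m' * p' := by rw [← he]; exact Dvd.intro_left m rfl
      rcases (hp.dvd_mul).1 h2 with h3 | h3
      · exact (h' p (Nat.mem_primeFactors.2 ⟨hp, h3, hm'⟩)).le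
      · exact ((Nat.prime_dvd_prime_iff_eq hp hp').1 h3).le
    · have h2 : p' ∣ m * p := by rw [he]; exact Dvd.intro_left m' rfl
      rcases (hp'.dvd_mul).1 h2 with h3 | h3
      · exact (h p' (Nat.mem_primeFactors.2 ⟨hp', h3, hm⟩)).le
      · exact ((Nat.prime_dvd_prime_iff_eq hp' hp).1 h3).le
  refine ⟨?_, h1⟩
  rw [← h1] at he
  exact Nat.eq_of_mul_eq_mul_right hp.pos he

theorem lpf_split (F : ℕ → ℝ) (y z : ℕ) (hF : ∀ m, ¬ Squarefree m → F m = 0) :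
    ∑ m ∈ Icc 1 y, F m =
      ∑ m ∈ (Icc 1 y).filter (fun m => Squarefree m ∧ ∀ p ∈ m.primeFactors, p ≤ z), F m +
      ∑ m ∈ Icc 1 y, ∑ p ∈ (Icc 1 (y / m)).filter
        (fun p => p.Prime ∧ z < p ∧ ∀ l ∈ m.primeFactors, l < p), F (m * p) := by
  classical
  have e1 := (sum_filter_add_sum_filter_not (Icc 1 y)
    (fun m => Squarefree m ∧ ∀ p ∈ m.primeFactors, p ≤ z) F).symm
  rw [e1]
  congr 1
  have e2 : ∑ m ∈ (Icc 1 y).filter (fun m => ¬ (Squarefree m ∧ ∀ p ∈ m.primeFactors, p ≤ z)), F m =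
      ∑ m ∈ (Icc 1 y).filter (fun m => Squarefree m ∧ ¬ ∀ p ∈ m.primeFactors, p ≤ z), F m := by
    symm
    apply sum_subset
    · intro m hm
      obtain ⟨h1, h2, h3⟩ := mem_filter.1 hm
      exact mem_filter.2 ⟨h1, fun h => h3 h.2⟩
    · intro m hm hm'
      obtain ⟨h1, h2⟩ := mem_filter.1 hm
      apply hF
      intro h3
      exact hm' (mem_filter.2 ⟨h1, h3, fun h4 => h2 ⟨h3, h4⟩⟩)
  rw [e2, ← sum_sigma (Icc 1 y) (fun m => (Icc 1 (y / m)).filter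
        (fun p => p.Prime ∧ z < p ∧ ∀ l ∈ m.primeFactors, l < p)) (fun x => F (x.1 * x.2))]
  have e3 : ∑ x ∈ (Icc 1 y).sigma (fun m => (Icc 1 (y / m)).filter
        (fun p => p.Prime ∧ z < p ∧ ∀ l ∈ m.primeFactors, l < p)), F (x.1 * x.2) =
      ∑ x ∈ ((Icc 1 y).sigma (fun m => (Icc 1 (y / m)).filter
        (fun p => p.Prime ∧ z < p ∧ ∀ l ∈ m.primeFactors, l < p))).filter
        (fun x => Squarefree x.1), F (x.1 * x.2) := by
    symm
    apply sum_subset (filter_subset _ _)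
    intro x hx hx'
    apply hF
    intro h
    exact hx' (mem_filter.2 ⟨hx, h.squarefree_of_dvd (Dvd.intro _ rfl)⟩)
  rw [e3]
  symm
  refine sum_bij (fun x _ => x.1 * x.2) ?_ ?_ ?_ ?_
  · intro x hx
    obtain ⟨h1, h2⟩ := mem_filter.1 hx
    obtain ⟨h3, h4⟩ := mem_sigma.1 h1
    obtain ⟨h5, h6, h7, h8⟩ := mem_filter.1 h4
    obtain ⟨h9, h10⟩ := mem_Icc.1 h3
    obtain ⟨h11, h12⟩ := mem_Icc.1 h5
    refine mem_filter.2 ⟨mem_Icc.2 ⟨Nat.mul_pos h9 h11, ?_⟩, SWa_sqf h2 h6 h8, ?_⟩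
    · calc x.1 * x.2 ≤ x.1 * (y / x.1) := Nat.mul_le_mul_left _ h12
        _ ≤ y := Nat.mul_div_le y x.1
    · intro h13
      have h14 := h13 x.2 (Nat.mem_primeFactors.2 ⟨h6, Dvd.intro_left _ rfl,
        (Nat.mul_pos h9 h11).ne'⟩)
      omega
  · intro x hx x' hx' he
    obtain ⟨h1, h2⟩ := mem_filter.1 hx
    obtain ⟨h3, h4⟩ := mem_sigma.1 h1
    obtain ⟨h5, h6, h7, h8⟩ := mem_filter.1 h4
    obtain ⟨h1', h2'⟩ := mem_filter.1 hx'
    obtain ⟨h3', h4'⟩ := mem_sigma.1 h1'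
    obtain ⟨h5', h6', h7', h8'⟩ := mem_filter.1 h4'
    obtain ⟨e1, e2⟩ := SWa_inj h2.ne_zero h2'.ne_zero h6 h6' h8 h8' he
    obtain ⟨m, p⟩ := x
    obtain ⟨m', p'⟩ := x'
    simp only at e1 e2
    rw [e1, e2]
  · intro n hn
    obtain ⟨h1, h2, h3⟩ := mem_filter.1 hn
    obtain ⟨h4, h5⟩ := mem_Icc.1 h1
    push Not at h3
    obtain ⟨p0, hp0, hp0z⟩ := h3
    set p := n.primeFactors.max' ⟨p0, hp0⟩ with hp
    have hpm : p ∈ n.primeFactors := max'_mem _ _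
    have hpp : p.Prime := Nat.prime_of_mem_primeFactors hpm
    have hpd : p ∣ n := Nat.dvd_of_mem_primeFactors hpm
    obtain ⟨m, hm⟩ := hpd
    have hmn : m * p = n := by rw [hm, mul_comm]
    have hpz : z < p := lt_of_lt_of_le hp0z (le_max' _ _ hp0)
    have hm0 : 0 < m := by
      rcases Nat.eq_zero_or_pos m with h | h
      · rw [h] at hmn; omega
      · exact h
    have hmsq : Squarefree m := h2.squarefree_of_dvd (Dvd.intro_left p hm.symm)
    have hl : ∀ l ∈ m.primeFactors, l < p := by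
      intro l hl
      have hl1 : l.Prime := Nat.prime_of_mem_primeFactors hl
      have hl2 : l ∣ m := Nat.dvd_of_mem_primeFactors hl
      have hl3 : l ∈ n.primeFactors :=
        Nat.mem_primeFactors.2 ⟨hl1, hl2.trans (Dvd.intro_left p hm.symm), by omega⟩
      have hl4 : l ≤ p := le_max' _ _ hl3
      rcases Nat.lt_or_eq_of_le hl4 with h | h
      · exact h
      · exfalso
        rw [h] at hl2
        obtain ⟨t, ht⟩ := hl2
        have h6 : p * p ∣ n := ⟨t, by rw [hm, ht]; ring⟩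
        have h7 := h2 p h6
        exact hpp.one_lt.ne' (Nat.isUnit_iff.1 h7)
    refine ⟨⟨m, p⟩, mem_filter.2 ⟨mem_sigma.2 ⟨mem_Icc.2 ⟨hm0, ?_⟩, mem_filter.2 ⟨mem_Icc.2
      ⟨hpp.one_lt.le, ?_⟩, hpp, hpz, hl⟩⟩, hmsq⟩, hmn⟩
    · calc m = m * 1 := (mul_one m).symm
        _ ≤ m * p := Nat.mul_le_mul_left _ hpp.one_lt.le
        _ ≤ y := by rw [hmn]; exact h5
    · show p ≤ y / m
      rw [Nat.le_div_iff_mul_le hm0, mul_comm, hmn]
      exact h5
  · intro x hx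
    rfl

end Pool.Agent.AV
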