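import Pool.Agent.Lib_helper21.AV.Defs
import Pool.Agent.Lib_helper21.AV.W.SWb
import Pool.Agent.Lib_helper21.AV.W.SF
import Pool.Agent.Lib_helper21.AV.W.IS
import Pool.Agent.Lib_helper21.AV.W.LA

/-! # C4: one large variable linked only to small ones -/

set_option autoImplicit false

namespace Pool.Agent.AV

open Finset

/-- numerical facts about `log X` for `X ≥ 3` -/
private theorem C4_log {X : ℝ} (hX : 3 ≤ X) : 1.026 ≤ Real.log X := by
  have h1 : Real.log 3 ≤ Real.log X := Real.log_le_log (by norm_num) hX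
  have h2 : Real.log 3 = Real.log 2 + Real.log (3 / 2) := by
    rw [← Real.log_mul (by norm_num) (by norm_num)]
    norm_num
  have h3 := Real.one_sub_inv_le_log_of_pos (show (0 : ℝ) < 3 / 2 by norm_num)
  have h4 := Real.log_two_gt_d9
  norm_num at h3
  linarith

/-- `log y` against `log X` -/
private theorem C4_y {X : ℝ} (hX : 3 ≤ X) {Z y : ℕ}
    (hZ : Real.exp (Real.log X ^ (1 / 8 : ℝ)) ≤ Z) (hy : Z ≤ y) :
    3 ≤ y ∧ 1 ≤ Real.log y ∧ Real.log X ≤ Real.log y ^ 8 := by
  have hL := C4_log hX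
  have h0 : (0 : ℝ) ≤ Real.log X := by linarith
  have h1 : (1 : ℝ) ≤ Real.log X ^ (1 / 8 : ℝ) := Real.one_le_rpow (by linarith) (by norm_num)
  have hyr : Real.exp (Real.log X ^ (1 / 8 : ℝ)) ≤ y := hZ.trans (by exact_mod_cast hy)
  have hy0 : (0 : ℝ) < y := (Real.exp_pos _).trans_le hyr
  have h2 : Real.log X ^ (1 / 8 : ℝ) ≤ Real.log y := (Real.le_log_iff_exp_le hy0).2 hyr
  refine ⟨?_, h1.trans h2, ?_⟩
  · have h3 : Real.exp 1 ≤ y := (Real.exp_le_exp.2 h1).trans hyr
    have h4 := Real.exp_one_gt_d9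
    have h5 : (2 : ℝ) < y := by linarith
    exact_mod_cast h5
  · have h3 : (Real.log X ^ (1 / 8 : ℝ)) ^ 8 = Real.log X := by
      rw [← Real.rpow_natCast, ← Real.rpow_mul h0]
      norm_num
    calc Real.log X = (Real.log X ^ (1 / 8 : ℝ)) ^ 8 := h3.symm
      _ ≤ Real.log y ^ 8 := pow_le_pow_left₀ (by linarith) h2 8

/-- the bound for the inner sum -/
private theorem C4_inner (B : ℕ) {C0 : ℝ} (hC0 : 0 ≤ C0)
    (hsw : ∀ (y q K : ℕ) (k : ℤ), 3 ≤ y → Odd q →
      Squarefree q → 1 < q → K4 k → 1 ≤ K → (q : ℝ) ≤ Real.log y ^ (128 * B + 1128) →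
      Real.log K ≤ Real.log y ^ (128 * B + 1128) →
      |∑ m ∈ Icc 1 y, (if Nat.Coprime m K then gw m else 0) * (js (m : ℤ) q * js k m)| ≤
        C0 * y * Real.log y ^ (-((128 : ℕ) : ℤ)))
    {X : ℝ} (hX : 3 ≤ X) {T Z N : ℕ} (hT : (T : ℝ) ≤ Real.log X ^ B)
    (hZ : Real.exp (Real.log X ^ (1 / 8 : ℝ)) ≤ Z) {q K : ℕ} {k : ℤ} (hq : Odd q)
    (hq' : Squarefree q) (hq1 : 1 < q) (hk : K4 k) (hK : 1 ≤ K) (hqT : q ≤ T ^ 16)
    (hKX : Real.log K ≤ 30 * Real.log X) :
    |∑ m ∈ Ioc Z N, ((if Nat.Coprime m K then gw m else 0) * (js (m : ℤ) q * js k m)) *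
      Lam (Real.log ((m : ℝ) / (X / K)))| ≤ 6 * (C0 * (Real.log X ^ 16)⁻¹) * (X / K) := by
  have hL := C4_log hX
  have hK0 : (0 : ℝ) < K := by exact_mod_cast hK
  refine lam_sum _ Z N _ (X / K) (by positivity) (by positivity) ?_
  intro y hy
  obtain ⟨hy3, hy1, hy8⟩ := C4_y hX hZ hy
  have hpow : ∀ n : ℕ, (1 : ℝ) ≤ Real.log y ^ n := fun n => one_le_pow₀ hy1
  have e1 : (T : ℝ) ^ 16 ≤ Real.log y ^ (128 * B) := by
    calc (T : ℝ) ^ 16 ≤ (Real.log X ^ B) ^ 16 := pow_le_pow_left₀ (Nat.cast_nonneg _) hT 16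
      _ = Real.log X ^ (16 * B) := by rw [← pow_mul]; congr 1; ring
      _ ≤ (Real.log y ^ 8) ^ (16 * B) := pow_le_pow_left₀ (by linarith) hy8 _
      _ = Real.log y ^ (128 * B) := by rw [← pow_mul]; congr 1; ring
  have e2 : (30 : ℝ) ≤ Real.log y ^ 1120 := by
    calc (30 : ℝ) ≤ 1.026 ^ 140 := by norm_num
      _ ≤ Real.log X ^ 140 := pow_le_pow_left₀ (by norm_num) hL 140
      _ ≤ (Real.log y ^ 8) ^ 140 := pow_le_pow_left₀ (by linarith) hy8 _
      _ = Real.log y ^ 1120 := by rw [← pow_mul]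
  have h1 : (q : ℝ) ≤ Real.log y ^ (128 * B + 1128) := by
    have h2 : (q : ℝ) ≤ (T : ℝ) ^ 16 := by exact_mod_cast hqT
    calc (q : ℝ) ≤ Real.log y ^ (128 * B) * 1 := by rw [mul_one]; exact h2.trans e1
      _ ≤ Real.log y ^ (128 * B) * Real.log y ^ 1128 :=
        mul_le_mul_of_nonneg_left (hpow _) (by linarith [hpow (128 * B)])
      _ = _ := by rw [← pow_add]
  have h2 : Real.log K ≤ Real.log y ^ (128 * B + 1128) := by
    calc Real.log K ≤ 30 * Real.log X := hKX
      _ ≤ Real.log y ^ 1120 * Real.log y ^ 8 :=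
        mul_le_mul e2 hy8 (by linarith) (by linarith [hpow 1120])
      _ = 1 * Real.log y ^ 1128 := by rw [← pow_add, one_mul]
      _ ≤ Real.log y ^ (128 * B) * Real.log y ^ 1128 :=
        mul_le_mul_of_nonneg_right (hpow _) (by linarith [hpow 1128])
      _ = _ := by rw [← pow_add]
  refine (hsw y q K k hy3 hq hq' hq1 hk hK h1 h2).trans ?_
  have h3 : Real.log y ^ (-((128 : ℕ) : ℤ)) ≤ (Real.log X ^ 16)⁻¹ := by
    rw [zpow_neg, zpow_natCast]
    apply inv_anti₀ (by positivity)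
    calc Real.log X ^ 16 ≤ (Real.log y ^ 8) ^ 16 := pow_le_pow_left₀ (by linarith) hy8 _
      _ = Real.log y ^ 128 := by rw [← pow_mul]
  calc C0 * y * Real.log y ^ (-((128 : ℕ) : ℤ)) ≤ C0 * y * (Real.log X ^ 16)⁻¹ :=
        mul_le_mul_of_nonneg_left h3 (by positivity)
    _ = C0 * (Real.log X ^ 16)⁻¹ * y := by ring

private theorem C4_lk_self (u : V) : lk u u = false := by
  unfold lk
  cases occ u u <;> rfl

/-- a harmonic sum -/
private theorem C4_harm {S : Finset ℕ} {N : ℕ} (hS : S ⊆ Icc 1 N) (_hN : 1 ≤ N) :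
    ∑ d ∈ S, (1 / (d : ℝ)) ≤ 1 + Real.log N := by
  have h1 : ∑ d ∈ S, (1 / (d : ℝ)) ≤ ∑ d ∈ Icc 1 N, (1 / (d : ℝ)) :=
    sum_le_sum_of_subset_of_nonneg hS (fun _ _ _ => by positivity)
  have h2 := harmonic_le_one_add_log N
  rw [harmonic_eq_sum_Icc] at h2
  push_cast at h2
  refine h1.trans ?_
  simpa only [one_div] using h2

theorem case4 (B : ℕ) : ∃ C : ℝ, 0 ≤ C ∧ ∀ (κ : V → ℤ) (X : ℝ) (T Z N : ℕ) (A : V → Finset ℕ)
    (u v : V), (∀ w, K4 (κ w)) → 3 ≤ X → 1 ≤ N → (N : ℝ) ≤ 3 * X → lk u v = true →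
    A u = Ioc Z N → A v ⊆ Icc 2 T → (∀ w, lk u w = true → A w ⊆ Icc 1 T) →
    (∀ w, A w ⊆ Icc 1 N) → (T : ℝ) ≤ Real.log X ^ B →
    Real.exp (Real.log X ^ (1 / 8 : ℝ)) ≤ Z → |MS κ X A| ≤ C * X := by
  obtain ⟨C0, hC0, hsw⟩ := sw 128 (128 * B + 1128)
  refine ⟨6 * C0 * 3 ^ 16, by positivity, ?_⟩
  intro κ X T Z N A u v hκ hX hN hNX huv hAu hAv hAw hAN hT hZ
  have hL := C4_log hX
  have hX0 : 0 < X := by linarith
  have hLN : Real.log N ≤ 2 * Real.log X := by
    have h1 : Real.log N ≤ Real.log (3 * X) :=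
      Real.log_le_log (by exact_mod_cast hN) hNX
    rw [Real.log_mul (by norm_num) (by linarith)] at h1
    have h2 : Real.log 3 ≤ Real.log X := Real.log_le_log (by norm_num) hX
    linarith
  have huv' : v ≠ u := by
    rintro rfl
    rw [C4_lk_self] at huv
    exact Bool.false_ne_true huv
  set A' : V → Finset ℕ := Function.update A u {1} with hA'
  have hA'u : A' u = {1} := Function.update_self _ _ _
  have hA'w : ∀ w, w ≠ u → A' w = A w := fun w hw => Function.update_of_ne hw _ _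
  have hA'N : ∀ w, A' w ⊆ Icc 1 N := by
    intro w
    by_cases hw : w = u
    · rw [hw, hA'u]
      intro d hd
      rw [mem_singleton] at hd
      rw [hd]
      exact mem_Icc.2 ⟨le_rfl, hN⟩
    · rw [hA'w w hw]
      exact hAN w
  -- the bound for one `D`
  have key : ∀ D ∈ Fintype.piFinset A', |∑ m ∈ A u, wt κ (Function.update D u m) *
      Lam (Real.log ((∏ w, ((Function.update D u m w : ℕ) : ℝ)) / X))| ≤
      6 * (C0 * (Real.log X ^ 16)⁻¹) * X * ∏ w, (1 / (D w : ℝ)) := by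
    intro D hD
    have hDm : ∀ w, D w ∈ A' w := fun w => (Fintype.mem_piFinset.1 hD) w
    have hD1 : ∀ w, 1 ≤ D w := fun w => (mem_Icc.1 (hA'N w (hDm w))).1
    have hDN : ∀ w, D w ≤ N := fun w => (mem_Icc.1 (hA'N w (hDm w))).2
    have hDu : D u = 1 := by
      have := hDm u
      rw [hA'u, mem_singleton] at this
      exact this
    set K : ℕ := ∏ w ∈ univ.erase u, D w with hK
    have hK1 : 1 ≤ K := Finset.one_le_prod' fun w _ => hD1 w
    have hK0 : (0 : ℝ) < K := by exact_mod_cast hK1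
    have hKall : ∏ w, (1 / (D w : ℝ)) = 1 / (K : ℝ) := by
      rw [← mul_prod_erase univ _ (mem_univ u), hDu, hK]
      push_cast
      rw [prod_div_distrib]
      simp
    have hprod : ∀ m : ℕ, (∏ w, ((Function.update D u m w : ℕ) : ℝ)) / X =
        (m : ℝ) / (X / K) := by
      intro m
      have h1 : (∏ w, ((Function.update D u m w : ℕ) : ℝ)) = m * K := by
        rw [← mul_prod_erase univ _ (mem_univ u), Function.update_self, hK]
        push_cast
        congr 1
        refine prod_congr rfl fun w hw => ?_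
        rw [Function.update_of_ne (ne_of_mem_erase hw)]
      rw [h1]
      field_simp
    obtain ⟨R, hR, hR0, hRw⟩ := wt_one κ D u
    have hR1 : |R| ≤ 1 := hR.trans (prod_le_one (fun w _ => gw_nonneg _) fun w _ => gw_le _)
    have hrew : ∑ m ∈ A u, wt κ (Function.update D u m) *
        Lam (Real.log ((∏ w, ((Function.update D u m w : ℕ) : ℝ)) / X)) =
        R * ∑ m ∈ A u, fu κ D u m * Lam (Real.log ((m : ℝ) / (X / K))) := by
      rw [mul_sum]
      refine sum_congr rfl fun m _ => ?_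
      rw [hRw m, hprod m, mul_assoc]
    rw [hrew, abs_mul, hKall]
    by_cases hsq : Squarefree K ∧ Odd K
    swap
    · rw [hR0 hsq, abs_zero, zero_mul]
      positivity
    have hodd : ∀ w, Odd (D w) := by
      intro w
      by_cases hw : w = u
      · rw [hw, hDu]
        exact odd_one
      · have h1 : D w ∣ K := dvd_prod_of_mem _ (mem_erase.2 ⟨hw, mem_univ w⟩)
        exact hsq.2.of_dvd_nat h1
    obtain ⟨k, hk, hfu⟩ := fu_char κ hκ D hodd u
    set q : ℕ := ∏ w ∈ univ.filter (fun w => lk u w = true), D w with hq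
    have hqK : q ∣ K := by
      refine prod_dvd_prod_of_subset _ _ _ ?_
      intro w hw
      refine mem_erase.2 ⟨?_, mem_univ w⟩
      rintro rfl
      have := (mem_filter.1 hw).2
      rw [C4_lk_self] at this
      exact Bool.false_ne_true this
    have hDv : D v ∈ Icc 2 T := hAv (by rw [← hA'w v huv']; exact hDm v)
    have hT1 : 1 ≤ T := by
      have := mem_Icc.1 hDv
      omega
    have hq1 : 1 < q := by
      have h1 : D v ≤ q := by
        have hdv : D v ∣ q := dvd_prod_of_mem _ (mem_filter.2 ⟨mem_univ v, huv⟩)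
        exact Nat.le_of_dvd (Finset.prod_pos fun w _ => hD1 w) hdv
      have := mem_Icc.1 hDv
      omega
    have hqT : q ≤ T ^ 16 := by
      have h1 : q ≤ T ^ (univ.filter (fun w => lk u w = true)).card := by
        refine prod_le_pow_card _ _ _ ?_
        intro w hw
        have hw' := (mem_filter.1 hw).2
        have hwu : w ≠ u := by
          rintro rfl
          rw [C4_lk_self] at hw'
          exact Bool.false_ne_true hw'
        have := hAw w hw' (by rw [← hA'w w hwu]; exact hDm w)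
        exact (mem_Icc.1 this).2
      refine h1.trans (Nat.pow_le_pow_right hT1 ?_)
      refine (card_le_univ _).trans ?_
      simp
    have hKX : Real.log K ≤ 30 * Real.log X := by
      have h1 : K ≤ N ^ 15 := by
        have h2 : K ≤ N ^ (univ.erase u : Finset V).card :=
          prod_le_pow_card _ _ _ fun w _ => hDN w
        rw [card_erase_of_mem (mem_univ u)] at h2
        simpa using h2
      have h2 : Real.log K ≤ Real.log ((N : ℝ) ^ 15) :=
        Real.log_le_log hK0 (by exact_mod_cast h1)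
      rw [Real.log_pow] at h2
      push_cast at h2
      linarith
    have h4 := C4_inner B hC0 hsw (N := N) hX hT hZ (hsq.2.of_dvd_nat hqK)
      (hsq.1.squarefree_of_dvd hqK) hq1 hk hK1 hqT hKX
    have h5 : ∑ m ∈ A u, fu κ D u m * Lam (Real.log ((m : ℝ) / (X / K))) =
        ∑ m ∈ Ioc Z N, ((if Nat.Coprime m K then gw m else 0) * (js (m : ℤ) q * js k m)) *
          Lam (Real.log ((m : ℝ) / (X / K))) := by
      rw [hAu]
      refine sum_congr rfl fun m _ => ?_
      rw [hfu m]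
    rw [h5]
    calc |R| * _ ≤ 1 * (6 * (C0 * (Real.log X ^ 16)⁻¹) * (X / K)) :=
          mul_le_mul hR1 h4 (abs_nonneg _) zero_le_one
      _ = _ := by ring
  have hMS : MS κ X A = ∑ D ∈ Fintype.piFinset A', ∑ m ∈ A u, wt κ (Function.update D u m) *
      Lam (Real.log ((∏ w, ((Function.update D u m w : ℕ) : ℝ)) / X)) := by
    unfold MS
    exact pi_one A u fun D => wt κ D * Lam (Real.log ((∏ w, (D w : ℝ)) / X))
  rw [hMS]
  have hsum : ∑ D ∈ Fintype.piFinset A', ∏ w, (1 / (D w : ℝ)) ≤ (3 * Real.log X) ^ 16 := by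
    rw [← prod_univ_sum A' (fun _ d => 1 / (d : ℝ))]
    calc ∏ w, ∑ d ∈ A' w, (1 / (d : ℝ)) ≤ ∏ _w : V, (3 * Real.log X) := by
          refine prod_le_prod (fun w _ => sum_nonneg fun _ _ => by positivity) fun w _ => ?_
          have := C4_harm (hA'N w) hN
          linarith
      _ = (3 * Real.log X) ^ 16 := by
          rw [prod_const]
          simp
  calc |∑ D ∈ Fintype.piFinset A', ∑ m ∈ A u, wt κ (Function.update D u m) *
        Lam (Real.log ((∏ w, ((Function.update D u m w : ℕ) : ℝ)) / X))|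
      ≤ ∑ D ∈ Fintype.piFinset A', 6 * (C0 * (Real.log X ^ 16)⁻¹) * X *
          ∏ w, (1 / (D w : ℝ)) := (abs_sum_le_sum_abs _ _).trans (sum_le_sum key)
    _ = 6 * (C0 * (Real.log X ^ 16)⁻¹) * X *
          ∑ D ∈ Fintype.piFinset A', ∏ w, (1 / (D w : ℝ)) := by rw [mul_sum]
    _ ≤ 6 * (C0 * (Real.log X ^ 16)⁻¹) * X * (3 * Real.log X) ^ 16 :=
        mul_le_mul_of_nonneg_left hsum (by positivity)
    _ = 6 * C0 * 3 ^ 16 * X := by
        have : Real.log X ^ 16 ≠ 0 := by positivity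
        field_simp

end Pool.Agent.AV
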