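import Pool.Agent.Lib_helper21.AV.Defs

/-! # SZ: choice of the parameters -/

set_option autoImplicit false

namespace Pool.Agent.AV

open Finset

theorem SZ_asym : ∃ L₀ : ℝ, 16 ≤ L₀ ∧ ∀ L : ℝ, L₀ ≤ L →
    L ^ 600 ≤ Real.exp (L ^ (1 / 8 : ℝ)) ∧ L ^ 7800 ≤ Real.exp (L / 2) ∧
      2 * L ^ 7200 ≤ Real.exp (L / 4) := by
  have e1 : ∀ᶠ M : ℝ in Filter.atTop, M ^ 4800 ≤ Real.exp M := by
    have := (Real.isLittleO_pow_exp_atTop (n := 4800)).bound (c := 1) one_pos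
    filter_upwards [this, Filter.eventually_ge_atTop 0] with M h h0
    rw [Real.norm_of_nonneg (by positivity), Real.norm_of_nonneg (Real.exp_pos _).le,
      one_mul] at h
    exact h
  have e1' : ∀ᶠ L : ℝ in Filter.atTop,
      (L ^ (1 / 8 : ℝ)) ^ 4800 ≤ Real.exp (L ^ (1 / 8 : ℝ)) :=
    (tendsto_rpow_atTop (by norm_num : (0 : ℝ) < 1 / 8)).eventually e1
  have e2 : ∀ᶠ L : ℝ in Filter.atTop, L ^ 7800 ≤ Real.exp (L / 2) := by
    have := (isLittleO_pow_exp_pos_mul_atTop (k := 7800) (b := 1 / 2) (by norm_num)).bound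
      (c := 1) one_pos
    filter_upwards [this, Filter.eventually_ge_atTop 0] with M h h0
    rw [Real.norm_of_nonneg (by positivity), Real.norm_of_nonneg (Real.exp_pos _).le,
      one_mul] at h
    calc M ^ 7800 ≤ Real.exp (1 / 2 * M) := h
      _ = Real.exp (M / 2) := by ring_nf
  have e3 : ∀ᶠ L : ℝ in Filter.atTop, 2 * L ^ 7200 ≤ Real.exp (L / 4) := by
    have := (isLittleO_pow_exp_pos_mul_atTop (k := 7200) (b := 1 / 4) (by norm_num)).bound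
      (c := 1 / 2) (by norm_num)
    filter_upwards [this, Filter.eventually_ge_atTop 0] with M h h0
    rw [Real.norm_of_nonneg (by positivity), Real.norm_of_nonneg (Real.exp_pos _).le] at h
    calc 2 * M ^ 7200 ≤ 2 * (1 / 2 * Real.exp (1 / 4 * M)) := by linarith
      _ = Real.exp (M / 4) := by ring_nf
  obtain ⟨L₀, h⟩ := Filter.eventually_atTop.mp (e1'.and (e2.and e3))
  refine ⟨max 16 L₀, le_max_left _ _, fun L hL => ?_⟩
  obtain ⟨h1, h2, h3⟩ := h L (le_trans (le_max_right _ _) hL)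
  have hL0 : (0 : ℝ) ≤ L := by
    have := le_trans (le_max_left (16 : ℝ) L₀) hL
    linarith
  refine ⟨?_, h2, h3⟩
  rw [← Real.rpow_natCast (L ^ (1 / 8 : ℝ)), ← Real.rpow_mul hL0] at h1
  have h4 : (1 / 8 : ℝ) * ((4800 : ℕ) : ℝ) = ((600 : ℕ) : ℝ) := by norm_num
  rw [h4, Real.rpow_natCast] at h1
  exact h1

theorem SZ_log (L T : ℝ) (hL : 1 ≤ L) (hT : 1 ≤ T) (hTL : T ≤ L ^ 600) (k : ℕ) (b : ℝ)
    (hk : 0 < k) (hb : 0 < b) :
    (1 + Real.log T) ^ k ≤ (1 + 600 * (k * b)) ^ k * L ^ (1 / b) := by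
  have hk' : (0 : ℝ) < k := by exact_mod_cast hk
  have hkb : 0 < (k : ℝ) * b := mul_pos hk' hb
  have hL0 : 0 < L := by linarith
  have h1 : Real.log T ≤ 600 * Real.log L := by
    calc Real.log T ≤ Real.log (L ^ 600) := Real.log_le_log (by linarith) hTL
      _ = 600 * Real.log L := by rw [Real.log_pow]; norm_num
  have h2 : Real.log L ≤ L ^ (1 / (k * b)) / (1 / (k * b)) :=
    Real.log_le_rpow_div hL0.le (by positivity)
  have h3 : (1 : ℝ) ≤ L ^ (1 / ((k : ℝ) * b)) := Real.one_le_rpow hL (by positivity)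
  have h4 : L ^ (1 / ((k : ℝ) * b)) / (1 / (k * b)) = (k * b) * L ^ (1 / ((k : ℝ) * b)) := by
    field_simp
  rw [h4] at h2
  have h5 : 1 + Real.log T ≤ (1 + 600 * (k * b)) * L ^ (1 / ((k : ℝ) * b)) := by
    nlinarith
  have h6 : 0 ≤ 1 + Real.log T := by
    have := Real.log_nonneg hT
    linarith
  calc (1 + Real.log T) ^ k ≤ ((1 + 600 * (k * b)) * L ^ (1 / ((k : ℝ) * b))) ^ k :=
        pow_le_pow_left₀ h6 h5 k
    _ = (1 + 600 * (k * b)) ^ k * L ^ (1 / b) := by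
        rw [mul_pow, ← Real.rpow_natCast (L ^ (1 / ((k : ℝ) * b))), ← Real.rpow_mul hL0.le]
        congr 2
        field_simp

theorem sizes : ∃ (C X₀ : ℝ), 0 ≤ C ∧ 3 ≤ X₀ ∧ ∀ X : ℝ, X₀ ≤ X → ∃ T Z : ℕ,
    1 ≤ T ∧ T ≤ Z ∧ Z ≤ ⌊3 * X⌋₊ ∧ (T : ℝ) ≤ Real.log X ^ 600 ∧
    Real.exp (Real.log X ^ (1 / 8 : ℝ)) ≤ Z ∧
    (T : ℝ) ^ 13 ≤ √X ∧ (T : ℝ) ^ 12 * Z ≤ √X ∧
    (1 + Real.log (⌊3 * X⌋₊ : ℝ)) ^ 15 * ((T : ℝ) + 1) ^ (-(1 / 40 : ℝ)) ≤ C ∧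
    (1 + Real.log X) ^ (-(1 / 4 : ℝ)) * (1 + Real.log T) ^ 13 ≤ C ∧
    (1 + Real.log X) ^ (-(1 / 4 : ℝ)) * ((1 + Real.log Z) * (1 + Real.log T) ^ 12) ≤ C := by
  obtain ⟨L₀, hL16, hL₀⟩ := SZ_asym
  refine ⟨3 ^ 15 + ((1 + 600 * ((13 : ℕ) * (4 : ℝ))) ^ 13 + 3 * (1 + 600 * ((12 : ℕ) * (8 : ℝ))) ^ 12),
    max 3 (Real.exp L₀), by positivity, le_max_left _ _, fun X hX => ?_⟩
  have hX3 : 3 ≤ X := le_trans (le_max_left _ _) hX
  have hX0 : 0 < X := by linarith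
  have hLX : L₀ ≤ Real.log X := by
    rw [← Real.log_exp L₀]
    exact Real.log_le_log (Real.exp_pos _) (le_trans (le_max_right _ _) hX)
  set L := Real.log X with hLdef
  have hL : 16 ≤ L := le_trans hL16 hLX
  have hL0 : 0 < L := by linarith
  have hL1 : 1 ≤ L := by linarith
  obtain ⟨a1, a2, a3⟩ := hL₀ L hLX
  have hXe : X = Real.exp L := by rw [hLdef, Real.exp_log hX0]
  have hsq : √X = Real.exp (L / 2) := by
    rw [hXe, ← Real.exp_half]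
  have hL600 : (1 : ℝ) ≤ L ^ 600 := one_le_pow₀ hL1
  have hT1 : 1 ≤ ⌊L ^ 600⌋₊ := by
    rw [Nat.one_le_floor_iff]
    exact hL600
  have hTle : ((⌊L ^ 600⌋₊ : ℕ) : ℝ) ≤ L ^ 600 := Nat.floor_le (by positivity)
  have hTge : L ^ 600 ≤ ((⌊L ^ 600⌋₊ : ℕ) : ℝ) + 1 := (Nat.lt_floor_add_one _).le
  have hZge : Real.exp (L ^ (1 / 8 : ℝ)) ≤ ((⌈Real.exp (L ^ (1 / 8 : ℝ))⌉₊ : ℕ) : ℝ) :=
    Nat.le_ceil _
  have hZle : ((⌈Real.exp (L ^ (1 / 8 : ℝ))⌉₊ : ℕ) : ℝ) ≤ Real.exp (L ^ (1 / 8 : ℝ)) + 1 :=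
    (Nat.ceil_lt_add_one (Real.exp_pos _).le).le
  set T : ℕ := ⌊L ^ 600⌋₊ with hT
  set Z : ℕ := ⌈Real.exp (L ^ (1 / 8 : ℝ))⌉₊ with hZ
  have hT1' : (1 : ℝ) ≤ T := by exact_mod_cast hT1
  have hTZ : T ≤ Z := by
    have : (T : ℝ) ≤ Z := by linarith
    exact_mod_cast this
  have hL8pos : (1 : ℝ) ≤ L ^ (1 / 8 : ℝ) := Real.one_le_rpow hL1 (by norm_num)
  have hL8 : L ^ (1 / 8 : ℝ) ≤ L := by
    calc L ^ (1 / 8 : ℝ) ≤ L ^ (1 : ℝ) := Real.rpow_le_rpow_of_exponent_le hL1 (by norm_num)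
      _ = L := Real.rpow_one L
  have hL8' : L ^ (1 / 8 : ℝ) ≤ L / 4 := by
    have h1 : L ^ (1 / 8 : ℝ) ≤ L ^ (1 / 2 : ℝ) :=
      Real.rpow_le_rpow_of_exponent_le hL1 (by norm_num)
    have h2 : L ^ (1 / 2 : ℝ) = √L := (Real.sqrt_eq_rpow L).symm
    have h3 : 4 ≤ √L := by
      rw [show (4 : ℝ) = √16 by
        rw [show (16 : ℝ) = 4 ^ 2 by norm_num, Real.sqrt_sq (by norm_num)]]
      exact Real.sqrt_le_sqrt hL
    have h4 : √L * √L = L := Real.mul_self_sqrt hL0.le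
    rw [h2] at h1
    nlinarith
  have hZX : (Z : ℝ) ≤ X + 1 := by
    have : Real.exp (L ^ (1 / 8 : ℝ)) ≤ X := by
      rw [hXe]; exact Real.exp_le_exp.mpr hL8
    linarith
  have hZ3 : Z ≤ ⌊3 * X⌋₊ := by
    apply Nat.le_floor
    linarith
  have hfl : ((⌊3 * X⌋₊ : ℕ) : ℝ) ≤ 3 * X := Nat.floor_le (by linarith)
  have hfl1 : (1 : ℝ) ≤ ((⌊3 * X⌋₊ : ℕ) : ℝ) := by
    have : (1 : ℝ) ≤ Z := by
      have h : (T : ℝ) ≤ Z := by exact_mod_cast hTZ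
      linarith
    have h2 : (Z : ℝ) ≤ ((⌊3 * X⌋₊ : ℕ) : ℝ) := by exact_mod_cast hZ3
    linarith
  have hlog3 : Real.log 3 ≤ 2 := by
    have := Real.log_le_sub_one_of_pos (show (0 : ℝ) < 3 by norm_num)
    linarith
  have hlogfl : 1 + Real.log ((⌊3 * X⌋₊ : ℕ) : ℝ) ≤ 3 * L := by
    have h1 : Real.log ((⌊3 * X⌋₊ : ℕ) : ℝ) ≤ Real.log (3 * X) :=
      Real.log_le_log (by linarith) hfl
    rw [Real.log_mul (by norm_num) hX0.ne'] at h1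
    linarith
  have hlogfl0 : 0 ≤ 1 + Real.log ((⌊3 * X⌋₊ : ℕ) : ℝ) := by
    have := Real.log_nonneg hfl1
    linarith
  have hTneg : ((T : ℝ) + 1) ^ (-(1 / 40 : ℝ)) ≤ L ^ (-(15 : ℝ)) := by
    calc ((T : ℝ) + 1) ^ (-(1 / 40 : ℝ)) ≤ (L ^ 600) ^ (-(1 / 40 : ℝ)) :=
          Real.rpow_le_rpow_of_nonpos (by positivity) hTge (by norm_num)
      _ = L ^ (-(15 : ℝ)) := by
          rw [← Real.rpow_natCast L 600, ← Real.rpow_mul hL0.le]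
          norm_num
  have hLneg : (1 + L) ^ (-(1 / 4 : ℝ)) ≤ L ^ (-(1 / 4 : ℝ)) :=
    Real.rpow_le_rpow_of_nonpos hL0 (by linarith) (by norm_num)
  have hLneg0 : 0 ≤ (1 + L) ^ (-(1 / 4 : ℝ)) := by positivity
  have hlogT := Real.log_nonneg hT1'
  have k1 : (1 + Real.log ((⌊3 * X⌋₊ : ℕ) : ℝ)) ^ 15 * ((T : ℝ) + 1) ^ (-(1 / 40 : ℝ)) ≤ 3 ^ 15 := by
    calc (1 + Real.log ((⌊3 * X⌋₊ : ℕ) : ℝ)) ^ 15 * ((T : ℝ) + 1) ^ (-(1 / 40 : ℝ))
        ≤ (3 * L) ^ 15 * L ^ (-(15 : ℝ)) := by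
          apply mul_le_mul (pow_le_pow_left₀ hlogfl0 hlogfl 15) hTneg (by positivity)
            (by positivity)
      _ = 3 ^ 15 * (L ^ (15 : ℝ) * L ^ (-(15 : ℝ))) := by
          rw [mul_pow, mul_assoc]
          congr 2
          rw [← Real.rpow_natCast L 15]
          norm_num
      _ = 3 ^ 15 := by
          rw [← Real.rpow_add hL0]
          norm_num
  have k2 : (1 + L) ^ (-(1 / 4 : ℝ)) * (1 + Real.log T) ^ 13 ≤
      (1 + 600 * ((13 : ℕ) * (4 : ℝ))) ^ 13 := by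
    have h1 := SZ_log L T hL1 hT1' hTle 13 4 (by norm_num) (by norm_num)
    calc (1 + L) ^ (-(1 / 4 : ℝ)) * (1 + Real.log T) ^ 13
        ≤ L ^ (-(1 / 4 : ℝ)) * ((1 + 600 * ((13 : ℕ) * (4 : ℝ))) ^ 13 * L ^ (1 / (4 : ℝ))) :=
          mul_le_mul hLneg h1 (by positivity) (by positivity)
      _ = (1 + 600 * ((13 : ℕ) * (4 : ℝ))) ^ 13 * (L ^ (-(1 / 4 : ℝ)) * L ^ (1 / (4 : ℝ))) := by
          ring
      _ = (1 + 600 * ((13 : ℕ) * (4 : ℝ))) ^ 13 := by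
          rw [← Real.rpow_add hL0]
          norm_num
  have hlogZ : 1 + Real.log Z ≤ 3 * L ^ (1 / 8 : ℝ) := by
    have hZpos : (0 : ℝ) < Z := lt_of_lt_of_le (Real.exp_pos _) hZge
    have h1 : (Z : ℝ) ≤ Real.exp (L ^ (1 / 8 : ℝ) + 1) := by
      rw [Real.exp_add]
      have h2 : (2 : ℝ) ≤ Real.exp 1 := by
        have := Real.add_one_le_exp (1 : ℝ)
        linarith
      have h3 : (1 : ℝ) ≤ Real.exp (L ^ (1 / 8 : ℝ)) := Real.one_le_exp (by linarith)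
      nlinarith
    have h2 : Real.log Z ≤ L ^ (1 / 8 : ℝ) + 1 := by
      calc Real.log Z ≤ Real.log (Real.exp (L ^ (1 / 8 : ℝ) + 1)) := Real.log_le_log hZpos h1
        _ = _ := Real.log_exp _
    linarith
  have hlogZ0 : 0 ≤ 1 + Real.log Z := by
    have hZ1 : (1 : ℝ) ≤ Z := by
      have h : (T : ℝ) ≤ Z := by exact_mod_cast hTZ
      linarith
    have := Real.log_nonneg hZ1
    linarith
  have k3 : (1 + L) ^ (-(1 / 4 : ℝ)) * ((1 + Real.log Z) * (1 + Real.log T) ^ 12) ≤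
      3 * (1 + 600 * ((12 : ℕ) * (8 : ℝ))) ^ 12 := by
    have h1 := SZ_log L T hL1 hT1' hTle 12 8 (by norm_num) (by norm_num)
    calc (1 + L) ^ (-(1 / 4 : ℝ)) * ((1 + Real.log Z) * (1 + Real.log T) ^ 12)
        ≤ L ^ (-(1 / 4 : ℝ)) * ((3 * L ^ (1 / 8 : ℝ)) *
            ((1 + 600 * ((12 : ℕ) * (8 : ℝ))) ^ 12 * L ^ (1 / (8 : ℝ)))) := by
          apply mul_le_mul hLneg _ (by positivity) (by positivity)
          exact mul_le_mul hlogZ h1 (by positivity) (by positivity)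
      _ = 3 * (1 + 600 * ((12 : ℕ) * (8 : ℝ))) ^ 12 *
            (L ^ (-(1 / 4 : ℝ)) * (L ^ (1 / 8 : ℝ) * L ^ (1 / (8 : ℝ)))) := by
          ring
      _ = 3 * (1 + 600 * ((12 : ℕ) * (8 : ℝ))) ^ 12 := by
          rw [← Real.rpow_add hL0, ← Real.rpow_add hL0]
          norm_num
  have p1 : (0 : ℝ) ≤ (1 + 600 * ((13 : ℕ) * (4 : ℝ))) ^ 13 := by positivity
  have p2 : (0 : ℝ) ≤ 3 * (1 + 600 * ((12 : ℕ) * (8 : ℝ))) ^ 12 := by positivity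
  have p3 : (0 : ℝ) ≤ 3 ^ 15 := by positivity
  refine ⟨T, Z, hT1, hTZ, hZ3, hTle, hZge, ?_, ?_, ?_, ?_, ?_⟩
  · rw [hsq]
    calc (T : ℝ) ^ 13 ≤ (L ^ 600) ^ 13 := pow_le_pow_left₀ (by positivity) hTle 13
      _ = L ^ 7800 := by rw [← pow_mul]
      _ ≤ Real.exp (L / 2) := a2
  · rw [hsq]
    have h3 : (1 : ℝ) ≤ Real.exp (L ^ (1 / 8 : ℝ)) := Real.one_le_exp (by linarith)
    calc (T : ℝ) ^ 12 * Z ≤ (L ^ 600) ^ 12 * (2 * Real.exp (L ^ (1 / 8 : ℝ))) := by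
          apply mul_le_mul (pow_le_pow_left₀ (by positivity) hTle 12) (by linarith)
            (by positivity) (by positivity)
      _ = (2 * L ^ 7200) * Real.exp (L ^ (1 / 8 : ℝ)) := by
          rw [← pow_mul]
          ring
      _ ≤ Real.exp (L / 4) * Real.exp (L / 4) := by
          apply mul_le_mul a3 (Real.exp_le_exp.mpr hL8') (by positivity) (by positivity)
      _ = Real.exp (L / 2) := by
          rw [← Real.exp_add]
          ring_nf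
  · exact le_trans k1 (by linarith)
  · exact le_trans k2 (by linarith)
  · exact le_trans k3 (by linarith)

end Pool.Agent.AV
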