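import Pool.Agent.Lib_helper21.AV.Defs

/-! # UC: unlinked sets -/

set_option autoImplicit false

namespace Pool.Agent.AV

open Finset

/-- the class of an index; different indices of the same class are linked -/
def UC_cls (u : V) : Fin 4 :=
  ![![0, 1, 2, 3], ![2, 3, 0, 1], ![3, 2, 1, 0], ![1, 0, 3, 2]] u.1 u.2

theorem UC_lk : ∀ u v : V, UC_cls u = UC_cls v → lk u v = false → u = v := by
  decide

/-- unlinked sets have at most four elements -/
theorem unlinked_card (J : Finset V) (h : ∀ u ∈ J, ∀ v ∈ J, lk u v = false) : J.card ≤ 4 := by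
  have h1 : J.card ≤ (univ : Finset (Fin 4)).card :=
    Finset.card_le_card_of_injOn UC_cls (fun _ _ => Finset.mem_coe.2 (Finset.mem_univ _))
      (fun u hu v hv huv => UC_lk u v huv (h u hu v hv))
  simpa using h1

end Pool.Agent.AV
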