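import Pool.Agent.Lib_helper21.AV.Defs
import Pool.Agent.Lib_helper21.AV.W.C1
import Pool.Agent.Lib_helper21.AV.W.C2
import Pool.Agent.Lib_helper21.AV.W.C3
import Pool.Agent.Lib_helper21.AV.W.C4
import Pool.Agent.Lib_helper21.AV.W.UC
import Pool.Agent.Lib_helper21.AV.W.SZ

/-! # MNa: the bound for the smoothed sum -/

set_option autoImplicit false

namespace Pool.Agent.AV

open Finset

private theorem MNa_lk_self (u : V) : lk u u = false := by
  unfold lk
  cases occ u u <;> rfl

private theorem MNa_lk_symm (u v : V) : lk u v = lk v u := by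
  unfold lk
  exact Bool.xor_comm _ _

private theorem MNa_lam (x : ℝ) : |Lam x| ≤ 1 := by
  unfold Lam
  rw [abs_of_nonneg (le_max_left _ _)]
  refine max_le zero_le_one ?_
  have := abs_nonneg x
  linarith

/-- the trivial bound -/
private theorem MNa_triv (κ : V → ℤ) (X : ℝ) (N : ℕ) :
    |MS κ X (fun _ => Icc 1 N)| ≤ (N : ℝ) ^ 16 := by
  unfold MS
  refine (abs_sum_le_sum_abs _ _).trans ?_
  have h1 : ∀ D ∈ Fintype.piFinset (fun _ : V => Icc 1 N),
      |wt κ D * Lam (Real.log ((∏ u, (D u : ℝ)) / X))| ≤ 1 := by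
    intro D _
    rw [abs_mul]
    have h2 : |wt κ D| ≤ 1 :=
      (wt_abs κ D).trans (prod_le_one (fun w _ => gw_nonneg _) fun w _ => gw_le _)
    calc |wt κ D| * |Lam _| ≤ 1 * 1 := mul_le_mul h2 (MNa_lam _) (abs_nonneg _) zero_le_one
      _ = 1 := one_mul _
  refine (sum_le_sum h1).trans ?_
  rw [sum_const, Fintype.card_piFinset]
  simp

private theorem MNa_prod {J : Finset V} (hJ : J.card = 3) (x : ℝ) :
    ∏ _v ∈ univ \ J, x = x ^ 13 := by
  rw [prod_const, card_sdiff_of_subset (subset_univ J), hJ]
  rfl

private theorem MNa_prod' {J : Finset V} {u : V} (hu : u ∈ J) (hJ : J.card = 4) (g : ℕ → ℝ)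
    (Z T : ℕ) : ∏ v ∈ univ \ J.erase u, g (if v = u then Z else T) = g T ^ 12 * g Z := by
  have h1 : u ∈ univ \ J.erase u := by simp
  rw [← mul_prod_erase _ _ h1, if_pos rfl, mul_comm]
  congr 1
  have h2 : ∏ v ∈ (univ \ J.erase u).erase u, g (if v = u then Z else T) =
      ∏ _v ∈ (univ \ J.erase u).erase u, g T :=
    prod_congr rfl fun v hv => by rw [if_neg (ne_of_mem_erase hv)]
  rw [h2, prod_const, card_erase_of_mem h1, card_sdiff_of_subset (subset_univ _),
    card_erase_of_mem hu, hJ]
  rfl

/-- a set of four unlinked variables and one more variable -/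
private theorem MNa_linked {J : Finset V} (hJ : J.card = 4)
    (hunl : ∀ u ∈ J, ∀ v ∈ J, lk u v = false) {v : V} (hv : v ∉ J) :
    ∃ u ∈ J, lk u v = true := by
  by_contra hcon
  push Not at hcon
  have h1 : ∀ u ∈ J, lk u v = false := fun u hu => by
    have := hcon u hu
    simpa using this
  have h2 := unlinked_card (insert v J) (by
    intro a ha b hb
    rcases mem_insert.1 ha with ha' | ha' <;> rcases mem_insert.1 hb with hb' | hb'
    · rw [ha', hb']; exact MNa_lk_self _
    · rw [ha', MNa_lk_symm]; exact h1 b hb'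
    · rw [hb']; exact h1 a ha'
    · exact hunl a ha' b hb')
  rw [card_insert_of_notMem hv, hJ] at h2
  omega

theorem ms_bound : ∃ C : ℝ, 0 ≤ C ∧ ∀ (κ : V → ℤ) (X : ℝ), (∀ w, K4 (κ w)) → 1 ≤ X →
    |MS κ X (fun _ => Icc 1 ⌊3 * X⌋₊)| ≤ C * X := by
  obtain ⟨C1, hC1, h1⟩ := case1
  obtain ⟨C2, hC2, h2⟩ := case2
  obtain ⟨C4, hC4, h4⟩ := case4 600
  obtain ⟨Cs, X₀, hCs, hX₀, hs⟩ := sizes
  set M : ℝ := C1 * Cs + C2 * Cs + 3 + C4 with hM
  have hM0 : 0 ≤ M := by positivity
  have hX00 : 0 ≤ X₀ := by linarith
  refine ⟨(3 * X₀) ^ 16 + 2 ^ 16 * (2 ^ 16 * M), by positivity, ?_⟩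
  intro κ X hκ hX1
  by_cases hX : X < X₀
  · refine (MNa_triv κ X _).trans ?_
    have e1 : (⌊3 * X⌋₊ : ℝ) ≤ 3 * X₀ := (Nat.floor_le (by linarith)).trans (by linarith)
    have e2 : (⌊3 * X⌋₊ : ℝ) ^ 16 ≤ (3 * X₀) ^ 16 := pow_le_pow_left₀ (Nat.cast_nonneg _) e1 16
    have e3 : (3 * X₀) ^ 16 ≤ (3 * X₀) ^ 16 * X := le_mul_of_one_le_right (by positivity) hX1
    have e4 : 0 ≤ 2 ^ 16 * (2 ^ 16 * M) * X := by positivity
    linarith
  push Not at hX
  obtain ⟨T, Z, hT1, hTZ, hZN, hT600, hZe, hT13, hT12Z, ha, hb, hc⟩ := hs X hX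
  set N : ℕ := ⌊3 * X⌋₊ with hN
  have hNX : (N : ℝ) ≤ 3 * X := Nat.floor_le (by linarith)
  have hN1 : 1 ≤ N := hT1.trans (hTZ.trans hZN)
  have hX3 : 3 ≤ X := hX₀.trans hX
  have hTN : T ≤ N := hTZ.trans hZN
  have hX0 : 0 < X := by linarith
  -- the two kinds of bounds
  have hMX1 : C1 * Cs * X ≤ M * X := mul_le_mul_of_nonneg_right (by rw [hM]; nlinarith [mul_nonneg hC2 hCs]) hX0.le
  have hMX2 : C2 * Cs * X ≤ M * X := mul_le_mul_of_nonneg_right (by rw [hM]; nlinarith [mul_nonneg hC1 hCs]) hX0.le
  have hMX3 : 3 * X ≤ M * X := mul_le_mul_of_nonneg_right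
    (by rw [hM]; nlinarith [mul_nonneg hC1 hCs, mul_nonneg hC2 hCs]) hX0.le
  have hMX4 : C2 * Cs * X + C4 * X ≤ M * X := by
    rw [← add_mul]
    exact mul_le_mul_of_nonneg_right (by rw [hM]; nlinarith [mul_nonneg hC1 hCs]) hX0.le
  have hMM : M * X ≤ 2 ^ 16 * M * X := by nlinarith [mul_nonneg hM0 hX0.le]
  have hlT : 0 ≤ Real.log T := Real.log_natCast_nonneg _
  have hlZ : 0 ≤ Real.log Z := Real.log_natCast_nonneg _
  -- one `J`
  have key : ∀ J ∈ (univ : Finset V).powerset,
      |MS κ X (fun u => if u ∈ (univ : Finset V) then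
        (if u ∈ J then Ioc T N else Icc 1 T) else Icc 1 N)| ≤ 2 ^ 16 * M * X := by
    intro J _
    have hfun : (fun u : V => if u ∈ (univ : Finset V) then
        (if u ∈ J then Ioc T N else Icc 1 T) else Icc 1 N) =
        fun u => if u ∈ J then Ioc T N else Icc 1 T := by
      funext u
      rw [if_pos (mem_univ u)]
    rw [hfun]
    have hAN : ∀ w : V, (if w ∈ J then Ioc T N else Icc 1 T) ⊆ Icc 1 N := by
      intro w
      split_ifs
      · intro d hd
        rw [mem_Ioc] at hd
        exact mem_Icc.2 ⟨by omega, hd.2⟩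
      · exact Icc_subset_Icc_right hTN
    by_cases hlink : ∃ u ∈ J, ∃ v ∈ J, lk u v = true
    · obtain ⟨u, hu, v, hv, huv⟩ := hlink
      have e1 := h1 κ X T N (fun u => if u ∈ J then Ioc T N else Icc 1 T) u v hX1 hN1 huv
        (if_pos hu) (if_pos hv) hAN
      have e2 : C1 * X * (1 + Real.log N) ^ 15 * ((T : ℝ) + 1) ^ (-(1 / 40 : ℝ)) ≤
          C1 * Cs * X := by
        calc C1 * X * (1 + Real.log N) ^ 15 * ((T : ℝ) + 1) ^ (-(1 / 40 : ℝ)) =
            C1 * X * ((1 + Real.log N) ^ 15 * ((T : ℝ) + 1) ^ (-(1 / 40 : ℝ))) := by ring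
          _ ≤ C1 * X * Cs := mul_le_mul_of_nonneg_left ha (by positivity)
          _ = C1 * Cs * X := by ring
      linarith
    have hunl : ∀ u ∈ J, ∀ v ∈ J, lk u v = false := by
      intro u hu v hv
      push Not at hlink
      have := hlink u hu v hv
      simpa using this
    have hJ4 := unlinked_card J hunl
    by_cases hJ3 : J.card ≤ 3
    · obtain ⟨J', hJJ', -, hJ'⟩ := exists_subsuperset_card_eq (subset_univ J) hJ3
        (by simp : 3 ≤ (univ : Finset V).card)
      have e1 := h2 κ X (fun u => if u ∈ J then Ioc T N else Icc 1 T) J' (fun _ => T) hX1 hJ'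
        (fun _ => hT1) (fun v hv => by
          have : v ∉ J := fun h => hv (hJJ' h)
          simp only [this, if_false]
          exact Subset.refl _)
        (by rw [MNa_prod hJ']; exact hT13)
      rw [MNa_prod hJ'] at e1
      have e2 : C2 * X * (1 + Real.log X) ^ (-(1 / 4 : ℝ)) * (1 + Real.log T) ^ 13 ≤
          C2 * Cs * X := by
        calc C2 * X * (1 + Real.log X) ^ (-(1 / 4 : ℝ)) * (1 + Real.log T) ^ 13 =
            C2 * X * ((1 + Real.log X) ^ (-(1 / 4 : ℝ)) * (1 + Real.log T) ^ 13) := by ring
          _ ≤ C2 * X * Cs := mul_le_mul_of_nonneg_left hb (by positivity)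
          _ = C2 * Cs * X := by ring
      linarith
    have hJ : J.card = 4 := by omega
    -- split the small variables
    have hsplit := MS_split κ X {1} (Ioc 1 T)
      (by
        rw [disjoint_left]
        intro a h5 h6
        rw [mem_singleton] at h5
        rw [mem_Ioc] at h6
        omega) (univ \ J) (fun u => if u ∈ J then Ioc T N else Icc 1 T)
      (by
        intro u hu
        have hu' : u ∉ J := (mem_sdiff.1 hu).2
        simp only [hu', if_false]
        ext a
        rw [mem_union, mem_singleton, mem_Ioc, mem_Icc]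
        omega)
    rw [hsplit]
    refine (abs_sum_le_sum_abs _ _).trans ?_
    have inner : ∀ L ∈ (univ \ J).powerset, |MS κ X (fun u => if u ∈ univ \ J then
        (if u ∈ L then Ioc 1 T else {1}) else if u ∈ J then Ioc T N else Icc 1 T)| ≤ M * X := by
      intro L hL
      have hLJ : ∀ v ∈ L, v ∉ J := fun v hv => (mem_sdiff.1 ((mem_powerset.1 hL) hv)).2
      set A : V → Finset ℕ := fun u => if u ∈ univ \ J then
        (if u ∈ L then Ioc 1 T else {1}) else if u ∈ J then Ioc T N else Icc 1 T with hA
      have hAJ : ∀ u ∈ J, A u = Ioc T N := by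
        intro u hu
        simp [hA, hu]
      have hAL : ∀ u ∈ L, A u = Ioc 1 T := by
        intro u hu
        simp [hA, hu, hLJ u hu]
      have hA1 : ∀ u, u ∉ J → u ∉ L → A u = {1} := by
        intro u hu hu'
        simp [hA, hu, hu']
      have hAsmall : ∀ w, w ∉ J → A w ⊆ Icc 1 T := by
        intro w hw
        by_cases hwL : w ∈ L
        · rw [hAL w hwL]
          intro d hd
          rw [mem_Ioc] at hd
          exact mem_Icc.2 ⟨by omega, hd.2⟩
        · rw [hA1 w hw hwL]
          intro d hd
          rw [mem_singleton] at hd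
          exact mem_Icc.2 ⟨by omega, by omega⟩
      rcases L.eq_empty_or_nonempty with hLe | ⟨v, hv⟩
      · have e1 := case3 κ X hX1 A J hJ (fun w hw => by
          rw [hA1 w hw (by rw [hLe]; exact notMem_empty w)])
        linarith
      · obtain ⟨u, hu, huv⟩ := MNa_linked hJ hunl (hLJ v hv)
        have hvu : v ≠ u := fun e => hLJ v hv (e ▸ hu)
        have hd : Disjoint (Ioc T Z) (Ioc Z N) := by
          rw [disjoint_left]
          intro a h5 h6
          rw [mem_Ioc] at h5 h6
          omega
        have hun : Function.update A u (Ioc T Z ∪ Ioc Z N) = A := by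
          rw [Ioc_union_Ioc_eq_Ioc hTZ hZN, ← hAJ u hu, Function.update_eq_self]
        have hU := MS_union κ X A u (Ioc T Z) (Ioc Z N) hd
        rw [hun] at hU
        rw [hU]
        -- first part
        have hfirst : |MS κ X (Function.update A u (Ioc T Z))| ≤ C2 * Cs * X := by
          have e0 : (J.erase u).card = 3 := by rw [card_erase_of_mem hu, hJ]
          have e1 := h2 κ X (Function.update A u (Ioc T Z)) (J.erase u)
            (fun w => if w = u then Z else T) hX1 e0
            (fun w => by
              show 1 ≤ if w = u then Z else T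
              split_ifs
              · exact hT1.trans hTZ
              · exact hT1)
            (fun w hw => by
              by_cases hwu : w = u
              · rw [hwu, Function.update_self, if_pos rfl]
                intro d hd
                rw [mem_Ioc] at hd
                exact mem_Icc.2 ⟨by omega, hd.2⟩
              · rw [Function.update_of_ne hwu, if_neg hwu]
                exact hAsmall w fun h => hw (mem_erase.2 ⟨hwu, h⟩))
            (by
              rw [MNa_prod' hu hJ (fun n => (n : ℝ))]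
              exact hT12Z)
          rw [MNa_prod' hu hJ (fun n => 1 + Real.log n)] at e1
          have e2 : C2 * X * (1 + Real.log X) ^ (-(1 / 4 : ℝ)) *
              ((1 + Real.log T) ^ 12 * (1 + Real.log Z)) ≤ C2 * Cs * X := by
            calc C2 * X * (1 + Real.log X) ^ (-(1 / 4 : ℝ)) *
                  ((1 + Real.log T) ^ 12 * (1 + Real.log Z)) =
                C2 * X * ((1 + Real.log X) ^ (-(1 / 4 : ℝ)) *
                  ((1 + Real.log Z) * (1 + Real.log T) ^ 12)) := by ring
              _ ≤ C2 * X * Cs := mul_le_mul_of_nonneg_left hc (by positivity)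
              _ = C2 * Cs * X := by ring
          exact e1.trans e2
        -- second part
        have hsecond : |MS κ X (Function.update A u (Ioc Z N))| ≤ C4 * X := by
          refine h4 κ X T Z N (Function.update A u (Ioc Z N)) u v hκ hX3 hN1 hNX huv
            (Function.update_self _ _ _) ?_ ?_ ?_ hT600 hZe
          · rw [Function.update_of_ne hvu, hAL v hv]
            intro d hd
            rw [mem_Ioc] at hd
            exact mem_Icc.2 ⟨by omega, hd.2⟩
          · intro w hw
            have hwJ : w ∉ J := fun h => by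
              have := hunl u hu w h
              rw [hw] at this
              exact Bool.false_ne_true this.symm
            have hwu : w ≠ u := fun e => hwJ (e ▸ hu)
            rw [Function.update_of_ne hwu]
            exact hAsmall w hwJ
          · intro w
            by_cases hwu : w = u
            · rw [hwu, Function.update_self]
              intro d hd
              rw [mem_Ioc] at hd
              exact mem_Icc.2 ⟨by omega, hd.2⟩
            · rw [Function.update_of_ne hwu]
              by_cases hwJ : w ∈ J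
              · rw [hAJ w hwJ]
                intro d hd
                rw [mem_Ioc] at hd
                exact mem_Icc.2 ⟨by omega, hd.2⟩
              · exact (hAsmall w hwJ).trans (Icc_subset_Icc_right hTN)
        refine (abs_add_le _ _).trans ?_
        linarith
    refine (sum_le_sum inner).trans ?_
    rw [sum_const, nsmul_eq_mul]
    have hcard : (((univ \ J).powerset.card : ℕ) : ℝ) ≤ 2 ^ 16 := by
      have e1 : (univ \ J).card ≤ 16 := (card_le_univ _).trans (by simp)
      rw [card_powerset]
      have e2 : 2 ^ (univ \ J).card ≤ 2 ^ 16 := Nat.pow_le_pow_right (by norm_num) e1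
      exact_mod_cast e2
    calc (((univ \ J).powerset.card : ℕ) : ℝ) * (M * X) ≤ 2 ^ 16 * (M * X) :=
          mul_le_mul_of_nonneg_right hcard (by positivity)
      _ = 2 ^ 16 * M * X := by ring
  have hS := MS_split κ X (Icc 1 T) (Ioc T N)
    (by
      rw [disjoint_left]
      intro a h5 h6
      rw [mem_Icc] at h5
      rw [mem_Ioc] at h6
      omega) univ (fun _ => Icc 1 N)
    (by
      intro u _
      ext a
      rw [mem_union, mem_Icc, mem_Ioc, mem_Icc]
      omega)
  rw [hS]
  refine (abs_sum_le_sum_abs _ _).trans ((sum_le_sum key).trans ?_)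
  rw [sum_const, nsmul_eq_mul, card_powerset]
  have e1 : ((2 ^ (univ : Finset V).card : ℕ) : ℝ) = 2 ^ 16 := by
    have e0 : (univ : Finset V).card = 16 := by simp
    rw [e0]
    norm_num
  rw [e1]
  have e2 : 0 ≤ (3 * X₀) ^ 16 * X := by positivity
  nlinarith

end Pool.Agent.AV
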