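import Pool.Agent.Lib_helper21.AV.Defs2
import Pool.Agent.Lib_helper21.AV.W.MNb
import Pool.Agent.Lib_helper21.AV.W.EXc
import Pool.Agent.Lib_helper21.AV.W.EXd

/-! # AG: the mean value -/

set_option autoImplicit false

namespace Pool.Agent.AV

open Finset

theorem AG_nonneg (e x y z : ℤ) (he : e = 1 ∨ e = 2) (hx : x ∈ F4) (hy : y ∈ F4) (hz : z ∈ F4)
    (n : ℕ) : 0 ≤ SS (kap e x y z) n := by
  obtain ⟨h1, h2⟩ := kap_K4 e x y z he hx hy hz
  by_cases hn : Squarefree n ∧ Odd n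
  · rw [expand _ h1 h2 n hn.1 hn.2]
    exact Nat.cast_nonneg _
  · rw [expand_zero _ n hn]

theorem AG_ep (D : ℕ) : ep D = 1 ∨ ep D = 2 := by
  unfold ep
  split_ifs
  · exact Or.inr rfl
  · exact Or.inl rfl

theorem AG_op (D : ℕ) (hD : Squarefree D) : Squarefree (op D) ∧ Odd (op D) := by
  unfold op
  split_ifs with h
  · obtain ⟨k, hk⟩ := h.two_dvd
    have h2 : D / 2 = k := by omega
    rw [h2]
    refine ⟨hD.squarefree_of_dvd ⟨2, by rw [hk]; ring⟩, ?_⟩
    rw [← Nat.not_even_iff_odd]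
    intro h3
    obtain ⟨j, hj⟩ := h3.two_dvd
    have h4 : 2 * 2 ∣ D := ⟨j, by rw [hk, hj]; ring⟩
    have h5 := hD 2 h4
    rw [Nat.isUnit_iff] at h5
    omega
  · exact ⟨hD, Nat.not_even_iff_odd.1 h⟩

theorem AG_eq (D : ℕ) (hD : Squarefree D) (x y z : ℤ) (hx : x ∈ F4) (hy : y ∈ F4) (hz : z ∈ F4) :
    ((NN (kap (ep D) x y z) (op D)).card : ℝ) = SS (kap (ep D) x y z) (op D) := by
  obtain ⟨h1, h2⟩ := kap_K4 (ep D) x y z (AG_ep D) hx hy hz
  obtain ⟨h3, h4⟩ := AG_op D hD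
  rw [expand _ h1 h2 _ h3 h4]

theorem AG_split (f : ℤ → ℕ → ℝ) (hf1 : ∀ n, 0 ≤ f 1 n) (hf2 : ∀ n, 0 ≤ f 2 n) (X : ℕ) :
    ∑ D ∈ (Icc 1 X).filter Squarefree, f (ep D) (op D) ≤
      ∑ n ∈ Icc 1 X, f 1 n + ∑ n ∈ Icc 1 X, f 2 n := by
  classical
  rw [← sum_filter_not_add_sum_filter ((Icc 1 X).filter Squarefree) (fun D => Even D)
    (fun D => f (ep D) (op D))]
  refine add_le_add ?_ ?_
  · have h1 : ∑ D ∈ ((Icc 1 X).filter Squarefree).filter (fun D => ¬ Even D), f (ep D) (op D) =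
        ∑ D ∈ ((Icc 1 X).filter Squarefree).filter (fun D => ¬ Even D), f 1 D := by
      refine sum_congr rfl fun D hD => ?_
      have h2 := (mem_filter.1 hD).2
      simp only [ep, op, h2, if_false]
    rw [h1]
    refine sum_le_sum_of_subset_of_nonneg ?_ fun n _ _ => hf1 n
    exact (filter_subset _ _).trans (filter_subset _ _)
  · have h1 : ∑ D ∈ ((Icc 1 X).filter Squarefree).filter (fun D => Even D), f (ep D) (op D) =
        ∑ D ∈ ((Icc 1 X).filter Squarefree).filter (fun D => Even D), f 2 (D / 2) := by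
      refine sum_congr rfl fun D hD => ?_
      have h2 := (mem_filter.1 hD).2
      simp only [ep, op, h2, if_true]
    have h3 : ∑ D ∈ ((Icc 1 X).filter Squarefree).filter (fun D => Even D), f 2 (D / 2) =
        ∑ n ∈ (((Icc 1 X).filter Squarefree).filter (fun D => Even D)).image (fun D => D / 2),
          f 2 n := by
      rw [sum_image]
      intro a ha b hb hab
      have h4 := (mem_filter.1 (mem_coe.1 ha)).2.two_dvd
      have h5 := (mem_filter.1 (mem_coe.1 hb)).2.two_dvd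
      simp only at hab
      omega
    rw [h1, h3]
    refine sum_le_sum_of_subset_of_nonneg ?_ fun n _ _ => hf2 n
    intro n hn
    obtain ⟨D, hD, rfl⟩ := mem_image.1 hn
    obtain ⟨h4, h5⟩ := mem_filter.1 hD
    obtain ⟨h6, h7⟩ := mem_Icc.1 (mem_filter.1 h4).1
    have h8 := h5.two_dvd
    rw [mem_Icc]
    omega

theorem avg : ∃ C : ℝ, 0 ≤ C ∧ ∀ X : ℕ, 1 ≤ X →
    ∑ D ∈ (Icc 1 X).filter Squarefree, GG D ≤ C * X := by
  obtain ⟨C, hC, hb⟩ := ss_bound
  refine ⟨4 + 128 * C, by positivity, ?_⟩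
  intro X hX
  have hX1 : (1 : ℝ) ≤ X := by exact_mod_cast hX
  have hX0 : (0 : ℝ) ≤ X := by linarith
  -- one triple
  have h1 : ∀ x ∈ F4, ∀ y ∈ F4, ∀ z ∈ F4,
      ∑ D ∈ (Icc 1 X).filter Squarefree, SS (kap (ep D) x y z) (op D) ≤ 2 * (C * X) := by
    intro x hx y hy z hz
    have h2 : ∀ e : ℤ, (e = 1 ∨ e = 2) → ∑ n ∈ Icc 1 X, SS (kap e x y z) n ≤ C * X := by
      intro e he
      have h3 := hb (kap e x y z) (kap_K4 e x y z he hx hy hz).1
        (AG_nonneg e x y z he hx hy hz) X hX1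
      rwa [Nat.floor_natCast] at h3
    have h4 := AG_split (fun e n => SS (kap e x y z) n)
      (AG_nonneg 1 x y z (Or.inl rfl) hx hy hz) (AG_nonneg 2 x y z (Or.inr rfl) hx hy hz) X
    have h5 := h2 1 (Or.inl rfl)
    have h6 := h2 2 (Or.inr rfl)
    linarith
  have hF : (F4.card : ℝ) = 4 := by
    have : F4.card = 4 := by decide
    rw [this]; norm_num
  -- the sum over the triples
  have h2 : ∑ D ∈ (Icc 1 X).filter Squarefree,
      (∑ x ∈ F4, ∑ y ∈ F4, ∑ z ∈ F4, ((NN (kap (ep D) x y z) (op D)).card : ℝ)) ≤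
      128 * (C * X) := by
    have h3 : ∑ D ∈ (Icc 1 X).filter Squarefree,
        (∑ x ∈ F4, ∑ y ∈ F4, ∑ z ∈ F4, ((NN (kap (ep D) x y z) (op D)).card : ℝ)) =
        ∑ x ∈ F4, ∑ y ∈ F4, ∑ z ∈ F4, ∑ D ∈ (Icc 1 X).filter Squarefree,
          SS (kap (ep D) x y z) (op D) := by
      rw [sum_comm]
      refine sum_congr rfl fun x hx => ?_
      rw [sum_comm]
      refine sum_congr rfl fun y hy => ?_
      rw [sum_comm]
      refine sum_congr rfl fun z hz => ?_
      exact sum_congr rfl fun D hD => AG_eq D (mem_filter.1 hD).2 x y z hx hy hz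
    rw [h3]
    calc ∑ x ∈ F4, ∑ y ∈ F4, ∑ z ∈ F4, ∑ D ∈ (Icc 1 X).filter Squarefree,
          SS (kap (ep D) x y z) (op D)
        ≤ ∑ _x ∈ F4, ∑ _y ∈ F4, ∑ _z ∈ F4, 2 * (C * X) :=
          sum_le_sum fun x hx => sum_le_sum fun y hy => sum_le_sum fun z hz => h1 x hx y hy z hz
      _ = 128 * (C * X) := by
          simp only [sum_const, nsmul_eq_mul, hF]
          ring
  have h3 : ∑ D ∈ (Icc 1 X).filter Squarefree, (4 : ℝ) ≤ 4 * X := by
    rw [sum_const, nsmul_eq_mul]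
    have h4 : (((Icc 1 X).filter Squarefree).card : ℝ) ≤ X := by
      have h5 := card_filter_le (Icc 1 X) Squarefree
      rw [Nat.card_Icc] at h5
      have h6 : ((Icc 1 X).filter Squarefree).card ≤ X := by omega
      exact_mod_cast h6
    linarith
  unfold GG
  rw [sum_add_distrib]
  have h4 : (4 + 128 * C) * (X : ℝ) = 4 * X + 128 * (C * X) := by ring
  rw [h4]
  exact add_le_add h3 h2

end Pool.Agent.AV
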