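import Pool.Agent.Lib_helper21.AV.Defs2

/-! # CO: integral coordinates -/

set_option autoImplicit false

namespace Pool.Agent.AV

open Finset WeierstrassCurve.Affine
open Pool.Agent.RB (W Pt)

/-- the coordinates of the descent -/
structure Crd (D : ℕ) (x : ℚ) (m e a b c u v w : ℤ) : Prop where
  he : e ≠ 0
  hx : x = (m : ℚ) / (e : ℚ) ^ 2
  cop : IsCoprime m e
  ha : m = a * u ^ 2
  hb : m - D * e ^ 2 = b * v ^ 2
  hc : m + D * e ^ 2 = c * w ^ 2
  sa : Squarefree a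
  sb : Squarefree b
  sc : Squarefree c
  hu : u ≠ 0
  hv : v ≠ 0
  hw : w ≠ 0
  sq : IsSquare (a * b * c)

theorem CO_part {z : ℤ} (hz : z ≠ 0) : ∃ a u : ℤ, z = a * u ^ 2 ∧ Squarefree a ∧ u ≠ 0 := by
  obtain ⟨a, b, hab, hsq⟩ := Nat.sq_mul_squarefree z.natAbs
  have hz0 : z.natAbs ≠ 0 := Int.natAbs_ne_zero.2 hz
  have hb : b ≠ 0 := by
    rintro rfl
    apply hz0
    rw [← hab]; simp
  have h1 : ((b ^ 2 * a : ℕ) : ℤ) = |z| := by rw [hab, Int.natCast_natAbs]
  refine ⟨z.sign * a, b, ?_, ?_, by exact_mod_cast hb⟩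
  · have h2 : z.sign * |z| = z := Int.sign_mul_abs z
    push_cast at h1
    linear_combination (-1 : ℤ) * h2 - z.sign * h1
  · rw [← Int.squarefree_natAbs, Int.natAbs_mul, Int.natAbs_sign_of_ne_zero hz, one_mul,
      Int.natAbs_natCast]
    exact hsq

theorem exists_crd {D : ℕ} (hD : 0 < D) (x y : ℚ)
    (h : (W (D : ℚ)).toAffine.Nonsingular x y) (hy : y ≠ 0) :
    ∃ m e a b c u v w : ℤ, Crd D x m e a b c u v w := by
  have hDq : (D : ℚ) ≠ 0 := by exact_mod_cast hD.ne'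
  have heq : y ^ 2 = x ^ 3 - (D : ℚ) ^ 2 * x := (Pool.Agent.RB.nonsingular_iff' hDq x y).1 h
  set m : ℤ := x.num with hm
  set n : ℤ := (x.den : ℤ) with hn
  have hn0 : 0 < n := by rw [hn]; exact_mod_cast x.den_pos
  have hnq : (n : ℚ) ≠ 0 := by exact_mod_cast hn0.ne'
  have hx : x = (m : ℚ) / n := by
    rw [hm, hn]; push_cast; exact (Rat.num_div_den x).symm
  have hcop : IsCoprime m n := by
    rw [hm, hn]
    exact (Rat.isCoprime_num_den x)
  -- the square
  have hsq1 : (y * n ^ 2) ^ 2 = ((n * (m * (m - D * n) * (m + D * n)) : ℤ) : ℚ) := by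
    push_cast
    have : (y * n ^ 2) ^ 2 = y ^ 2 * n ^ 4 := by ring
    rw [this, heq, hx]
    field_simp
    ring
  obtain ⟨s, hs⟩ : ∃ s : ℤ, s ^ 2 = n * (m * (m - D * n) * (m + D * n)) := by
    have h1 : IsSquare (((n * (m * (m - D * n) * (m + D * n)) : ℤ)) : ℚ) :=
      ⟨y * n ^ 2, by rw [← hsq1]; ring⟩
    rw [Rat.isSquare_intCast_iff] at h1
    obtain ⟨s, hs⟩ := h1
    exact ⟨s, by rw [hs]; ring⟩
  have hcop2 : IsCoprime n (m * (m - D * n) * (m + D * n)) := by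
    refine IsCoprime.mul_right (IsCoprime.mul_right hcop.symm ?_) ?_
    · have h1 := (hcop.symm).add_mul_left_right (-(D : ℤ))
      have h2 : m - D * n = m + n * (-(D : ℤ)) := by ring
      rw [h2]; exact h1
    · have h1 := (hcop.symm).add_mul_left_right (D : ℤ)
      have h2 : m + D * n = m + n * (D : ℤ) := by ring
      rw [h2]; exact h1
  have hpos : 0 < n * (m * (m - D * n) * (m + D * n)) := by
    have h1 : (0 : ℚ) < (y * n ^ 2) ^ 2 := by positivity
    rw [hsq1] at h1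
    exact_mod_cast h1
  have hpos2 : 0 < m * (m - D * n) * (m + D * n) := (mul_pos_iff_of_pos_left hn0).1 hpos
  obtain ⟨e, he⟩ := Int.sq_of_isCoprime hcop2 hs.symm
  obtain ⟨t, ht⟩ := Int.sq_of_isCoprime hcop2.symm (by rw [mul_comm]; exact hs.symm)
  have he2 : n = e ^ 2 := by
    rcases he with he | he
    · exact he
    · nlinarith [sq_nonneg e]
  have ht2 : m * (m - D * n) * (m + D * n) = t ^ 2 := by
    rcases ht with ht | ht
    · exact ht
    · nlinarith [sq_nonneg t]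
  have he0 : e ≠ 0 := by
    rintro rfl
    rw [he2] at hn0; norm_num at hn0
  have hne1 : m ≠ 0 := by
    intro h0
    rw [h0] at hpos2; norm_num at hpos2
  have hne2 : m - D * n ≠ 0 := by
    intro h0
    rw [h0] at hpos2; norm_num at hpos2
  have hne3 : m + D * n ≠ 0 := by
    intro h0
    rw [h0] at hpos2; norm_num at hpos2
  obtain ⟨a, u, ha, sa, hu⟩ := CO_part hne1
  obtain ⟨b, v, hb, sb, hv⟩ := CO_part hne2
  obtain ⟨c, w, hc, sc, hw⟩ := CO_part hne3
  refine ⟨m, e, a, b, c, u, v, w, ⟨he0, ?_, ?_, ha, ?_, ?_, sa, sb, sc, hu, hv, hw, ?_⟩⟩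
  · rw [hx, he2]; push_cast; rfl
  · rw [he2] at hcop
    exact (IsCoprime.pow_right_iff (by norm_num)).1 hcop
  · rw [← he2]; exact hb
  · rw [← he2]; exact hc
  · have h1 : a * b * c * (u * v * w) ^ 2 = t ^ 2 := by
      rw [← ht2]
      calc a * b * c * (u * v * w) ^ 2 = (a * u ^ 2) * (b * v ^ 2) * (c * w ^ 2) := by ring
        _ = _ := by rw [← ha, ← hb, ← hc]
    have h2 : (u * v * w) ∣ t := by
      rw [← Int.pow_dvd_pow_iff (two_ne_zero)]
      exact ⟨a * b * c, by rw [← h1]; ring⟩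
    obtain ⟨r, hr⟩ := h2
    refine ⟨r, ?_⟩
    have h3 : (u * v * w) ^ 2 ≠ 0 := pow_ne_zero _ (mul_ne_zero (mul_ne_zero hu hv) hw)
    have h4 : a * b * c * (u * v * w) ^ 2 = r * r * (u * v * w) ^ 2 := by
      rw [h1, hr]; ring
    exact mul_right_cancel₀ h3 h4

end Pool.Agent.AV
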