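import Pool.Agent.Lib_helper21.AV.Defs2

/-! # GR: independent elements and the index of the doubles -/

set_option autoImplicit false

namespace Pool.Agent.AV

open Finset

/-- In a finitely generated group with `n` independent elements there are `2 ^ n` elements which
are pairwise incongruent modulo the doubles. -/
theorem doubles {G : Type*} [AddCommGroup G] [AddGroup.FG G] (n : ℕ) (P : Fin n → G)
    (hP : LinearIndependent ℤ P) : ∃ Q : Fin (2 ^ n) → G,
      ∀ i j, i ≠ j → ¬ ∃ R : G, Q i - Q j = R + R := by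
  -- the structure theorem
  have hfin : Module.Finite ℤ G := Module.Finite.iff_addGroup_fg.2 inferInstance
  set T := Submodule.torsion ℤ G with hT
  have hfree : Module.Free ℤ (G ⧸ T) := inferInstance
  have hfin' : Module.Finite ℤ (G ⧸ T) := inferInstance
  have hfr : Module.finrank ℤ (G ⧸ T) = Module.finrank ℤ G :=
    finrank_quotient_eq_of_le_torsion (le_refl _)
  have hn : n ≤ Module.finrank ℤ (G ⧸ T) := by
    rw [hfr]
    simpa using hP.fintype_card_le_finrank
  let b := Module.finBasis ℤ (G ⧸ T)
  let e : Fin (2 ^ n) ≃ (Fin n → Fin 2) := finFunctionFinEquiv.symm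
  let c : Fin (2 ^ n) → Fin (Module.finrank ℤ (G ⧸ T)) → ℤ := fun i m =>
    if h : (m : ℕ) < n then ((e i ⟨m, h⟩ : ℕ) : ℤ) else 0
  let s : Fin (2 ^ n) → G ⧸ T := fun i => ∑ m, c i m • b m
  have hs : ∀ i, ∃ g : G, (Submodule.Quotient.mk g : G ⧸ T) = s i :=
    fun i => Submodule.Quotient.mk_surjective T (s i)
  choose Q hQ using hs
  refine ⟨Q, fun i j hij hR => hij ?_⟩
  obtain ⟨R, hR⟩ := hR
  apply e.injective
  funext k
  have h1 : s i - s j = Submodule.Quotient.mk R + Submodule.Quotient.mk R := by
    rw [← hQ i, ← hQ j, ← Submodule.Quotient.mk_sub, hR, Submodule.Quotient.mk_add]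
  set m : Fin (Module.finrank ℤ (G ⧸ T)) := ⟨k, k.2.trans_le hn⟩ with hm
  have h2 := congrArg (fun v => b.repr v m) h1
  simp only [map_sub, map_add, Finsupp.sub_apply, Finsupp.add_apply] at h2
  have h3 : ∀ i, b.repr (s i) m = ((e i k : ℕ) : ℤ) := by
    intro i
    have h4 : b.repr (s i) m = c i m := by
      have := congrArg (fun f => f m) (b.repr_sum_self (c i))
      exact this
    rw [h4]
    simp only [c, hm, k.2, dif_pos, Fin.eta]
  rw [h3, h3] at h2
  have h4 := (e i k).2
  have h5 := (e j k).2
  apply Fin.ext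
  omega

end Pool.Agent.AV
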