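import Pool.Agent.Lib_helper21.AV.Defs2

/-! # HA: halving a point -/

set_option autoImplicit false

namespace Pool.Agent.AV

open Finset WeierstrassCurve.Affine
open Pool.Agent.RB (W Pt)

theorem HA_core {D : ℚ} (hD : D ≠ 0) (a b c x y : ℚ)
    (h : (W D).toAffine.Nonsingular x y) (hx : x = a ^ 2) (hb : x - D = b ^ 2)
    (hc : x + D = c ^ 2) (hy : y = a * b * c) : ∃ R : Pt D, (Point.some x y h : Pt D) = R + R := by
  set x0 : ℚ := x + a * b + b * c + c * a with hx0
  set y0 : ℚ := (a + b) * (b + c) * (c + a) with hy0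
  have hA : x0 = (a + b) * (c + a) := by rw [hx0]; linear_combination hx
  have hB : x0 - D = (a + b) * (b + c) := by rw [hx0]; linear_combination hb
  have hC : x0 + D = (b + c) * (c + a) := by rw [hx0]; linear_combination hc
  have hu : a + b ≠ 0 := by
    intro h0
    apply hD
    have : D = (a + b) * (a - b) := by linear_combination hx - hb
    rw [this, h0, zero_mul]
  have hv : b + c ≠ 0 := by
    intro h0
    apply hD
    have : D = (b + c) * (c - b) / 2 := by linear_combination (hc - hb) / 2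
    rw [this, h0, zero_mul, zero_div]
  have hw : c + a ≠ 0 := by
    intro h0
    apply hD
    have : D = (c + a) * (c - a) := by linear_combination hc - hx
    rw [this, h0, zero_mul]
  have hy00 : y0 ≠ 0 := mul_ne_zero (mul_ne_zero hu hv) hw
  have hns : (W D).toAffine.Nonsingular x0 y0 := by
    rw [Pool.Agent.RB.nonsingular_iff' hD]
    have e : x0 ^ 3 - D ^ 2 * x0 = x0 * (x0 - D) * (x0 + D) := by ring
    rw [e, hB, hC, hA, hy0]
    ring
  have hne : y0 ≠ (W D).toAffine.negY x0 y0 := by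
    have e : (W D).toAffine.negY x0 y0 = -y0 := by
      simp [WeierstrassCurve.Affine.negY]
    rw [e]
    intro h1
    apply hy00
    linarith
  have hsl : (W D).toAffine.slope x0 x0 y0 y0 = a + b + c := by
    rw [WeierstrassCurve.Affine.slope_of_Y_ne rfl hne]
    have e : (W D).toAffine.negY x0 y0 = -y0 := by
      simp [WeierstrassCurve.Affine.negY]
    rw [e]
    have e2 : y0 - -y0 ≠ 0 := by
      intro h1
      apply hy00
      linarith
    rw [div_eq_iff e2]
    simp only [Pool.Agent.RB.W_a1, Pool.Agent.RB.W_a2, Pool.Agent.RB.W_a4]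
    have e3 : 3 * x0 ^ 2 + 2 * 0 * x0 + -D ^ 2 - 0 * y0 =
        (x0 - D) * (x0 + D) + x0 * (x0 + D) + x0 * (x0 - D) := by ring
    rw [e3, hB, hC, hA, hy0]
    ring
  refine ⟨Point.some x0 y0 hns, ?_⟩
  rw [Point.add_self_of_Y_ne hne]
  simp only [Point.some.injEq]
  rw [hsl]
  have hX : (W D).toAffine.addX x0 x0 (a + b + c) = x := by
    simp only [WeierstrassCurve.Affine.addX, Pool.Agent.RB.W_a1, Pool.Agent.RB.W_a2]
    rw [hx0]
    linear_combination -hx - hb - hc
  refine ⟨hX.symm, ?_⟩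
  simp only [WeierstrassCurve.Affine.addY, WeierstrassCurve.Affine.negAddY, hX,
    WeierstrassCurve.Affine.negY, Pool.Agent.RB.W_a1, Pool.Agent.RB.W_a3]
  rw [hy, hx0, hy0]
  ring

theorem halving {D : ℚ} (hD : D ≠ 0) (a b c x y : ℚ)
    (h : (W D).toAffine.Nonsingular x y) (hx : x = a ^ 2) (hb : x - D = b ^ 2)
    (hc : x + D = c ^ 2) : ∃ R : Pt D, (Point.some x y h : Pt D) = R + R := by
  have h1 := (Pool.Agent.RB.nonsingular_iff' hD x y).1 h
  have h2 : y ^ 2 = (a * b * c) ^ 2 := by
    have e : x ^ 3 - D ^ 2 * x = x * (x - D) * (x + D) := by ring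
    rw [h1, e, hb, hc, hx]
    ring
  rcases sq_eq_sq_iff_eq_or_eq_neg.1 h2 with h3 | h3
  · exact HA_core hD a b c x y h hx hb hc h3
  · exact HA_core hD a b (-c) x y h hx hb (by rw [hc]; ring) (by rw [h3]; ring)

end Pool.Agent.AV
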