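import Pool.Agent.Lib_helper21.AV.Defs2
import Pool.Agent.Lib_helper21.AV.W.CO

/-! # LCa: conditions at one prime -/

set_option autoImplicit false

namespace Pool.Agent.AV

open Finset

theorem LCa_js {p : ℕ} (hp : p.Prime) {k s t : ℤ} (h : (p : ℤ) ∣ k * s ^ 2 - t ^ 2)
    (ht : ¬ (p : ℤ) ∣ t) : js k p = 1 := by
  have hP : Prime (p : ℤ) := Nat.prime_iff_prime_int.mp hp
  have hs : ¬ (p : ℤ) ∣ s := by
    intro hs
    apply ht
    have h2 : (p : ℤ) ∣ k * s ^ 2 := Dvd.dvd.mul_left (dvd_pow hs two_ne_zero) _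
    have h3 : (p : ℤ) ∣ t ^ 2 := by
      have := dvd_sub h2 h
      simpa using this
    exact hP.dvd_of_dvd_pow h3
  have hcop : ∀ z : ℤ, ¬ (p : ℤ) ∣ z → Int.gcd z p = 1 := by
    intro z hz
    have := (Prime.coprime_iff_not_dvd hP).mpr hz
    exact (Int.isCoprime_iff_gcd_eq_one.mp this.symm)
  have key : jacobiSym (k * s ^ 2) p = jacobiSym (t ^ 2) p := by
    rw [jacobiSym.mod_left (k * s ^ 2), jacobiSym.mod_left (t ^ 2)]
    congr 1
    exact Int.emod_eq_emod_iff_emod_sub_eq_zero.mpr (Int.emod_eq_zero_of_dvd h)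
  have e1 : jacobiSym (s ^ 2) p = 1 := jacobiSym.sq_one' (hcop s hs)
  have e2 : jacobiSym (t ^ 2) p = 1 := jacobiSym.sq_one' (hcop t ht)
  rw [jacobiSym.mul_left, e1, e2, mul_one] at key
  unfold js
  rw [key]
  norm_num

/-- squarefree: split off a prime -/
theorem LCa_sf {P a a' : ℤ} (hP : Prime P) (ha : Squarefree a) (h : a = P * a') : ¬ P ∣ a' := by
  rintro ⟨z, rfl⟩
  have h1 : P * P ∣ a := ⟨z, by rw [h]; ring⟩
  exact hP.not_isUnit (ha P h1)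

theorem LCa_one {P a b c : ℤ} (hP : Prime P) (ha : Squarefree a) (hs : IsSquare (a * b * c))
    (h : P ∣ a) : P ∣ b ∨ P ∣ c := by
  by_contra hcon
  push Not at hcon
  obtain ⟨s, hs⟩ := hs
  obtain ⟨a', rfl⟩ := h
  have ha' := LCa_sf hP ha rfl
  have h1 : P ∣ s * s := ⟨a' * b * c, by rw [← hs]; ring⟩
  have h2 : P ∣ s := by
    rcases hP.dvd_or_dvd h1 with h | h <;> exact h
  obtain ⟨t, rfl⟩ := h2
  have h3 : P * (a' * b * c) = P * (P * (t * t)) := by linear_combination hs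
  have h4 := mul_left_cancel₀ hP.ne_zero h3
  have h5 : P ∣ a' * b * c := ⟨t * t, h4⟩
  rcases hP.dvd_or_dvd h5 with h6 | h6
  · rcases hP.dvd_or_dvd h6 with h7 | h7
    · exact ha' h7
    · exact hcon.1 h7
  · exact hcon.2 h6

theorem LCa_three {P a b c : ℤ} (hP : Prime P) (ha : Squarefree a) (hb : Squarefree b)
    (hc : Squarefree c) (hs : IsSquare (a * b * c)) : ¬ (P ∣ a ∧ P ∣ b ∧ P ∣ c) := by
  rintro ⟨⟨a', rfl⟩, ⟨b', rfl⟩, ⟨c', rfl⟩⟩
  have ha' := LCa_sf hP ha rfl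
  have hb' := LCa_sf hP hb rfl
  have hc' := LCa_sf hP hc rfl
  obtain ⟨s, hs⟩ := hs
  have h1 : P ∣ s * s := ⟨a' * (P * b') * (P * c'), by rw [← hs]; ring⟩
  have h2 : P ∣ s := by
    rcases hP.dvd_or_dvd h1 with h | h <;> exact h
  obtain ⟨t, rfl⟩ := h2
  have h3 : P * (P * (P * (a' * b' * c'))) = P * (P * (t * t)) := by linear_combination hs
  have h4 := mul_left_cancel₀ hP.ne_zero (mul_left_cancel₀ hP.ne_zero h3)
  have h5 : P ∣ t * t := ⟨_, h4.symm⟩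
  have h6 : P ∣ t := by
    rcases hP.dvd_or_dvd h5 with h | h <;> exact h
  obtain ⟨r, rfl⟩ := h6
  have h7 : P * (a' * b' * c') = P * (P * (r * r)) := by linear_combination h4
  have h8 := mul_left_cancel₀ hP.ne_zero h7
  have h9 : P ∣ a' * b' * c' := ⟨r * r, h8⟩
  rcases hP.dvd_or_dvd h9 with h6 | h6
  · rcases hP.dvd_or_dvd h6 with h7 | h7
    · exact ha' h7
    · exact hb' h7
  · exact hc' h6

theorem lc_primes {D : ℕ} (hD : Squarefree D) {x : ℚ} {m e a b c u v w : ℤ}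
    (h : Crd D x m e a b c u v w) (p : ℕ) (hp : p.Prime) (hp2 : p ≠ 2) :
    ((p : ℤ) ∣ a ∨ (p : ℤ) ∣ b ∨ (p : ℤ) ∣ c → p ∣ D) ∧
    ((p : ℤ) ∣ a → (p : ℤ) ∣ b ∨ (p : ℤ) ∣ c) ∧
    ((p : ℤ) ∣ b → (p : ℤ) ∣ a ∨ (p : ℤ) ∣ c) ∧
    ((p : ℤ) ∣ c → (p : ℤ) ∣ a ∨ (p : ℤ) ∣ b) ∧
    ¬ ((p : ℤ) ∣ a ∧ (p : ℤ) ∣ b ∧ (p : ℤ) ∣ c) ∧
    (p ∣ D → ¬ (p : ℤ) ∣ a → ¬ (p : ℤ) ∣ b → ¬ (p : ℤ) ∣ c →
      js (b * c) p = 1 ∧ js (a * c) p = 1 ∧ js (a * b) p = 1) ∧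
    (∀ D' b' c' : ℤ, (D : ℤ) = p * D' → b = p * b' → c = p * c' →
      js (-(D' * b')) p = 1 ∧ js (D' * c') p = 1) ∧
    (∀ D' a' c' : ℤ, (D : ℤ) = p * D' → a = p * a' → c = p * c' →
      js (D' * a') p = 1 ∧ js (2 * D' * c') p = 1) ∧
    (∀ D' a' b' : ℤ, (D : ℤ) = p * D' → a = p * a' → b = p * b' →
      js (-(D' * a')) p = 1 ∧ js (-(2 * D' * b')) p = 1) := by
  have hP : Prime (p : ℤ) := Nat.prime_iff_prime_int.mp hp
  have hP0 : (p : ℤ) ≠ 0 := hP.ne_zero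
  have h2 : ¬ (p : ℤ) ∣ 2 := by
    intro h2
    have : p ∣ 2 := by exact_mod_cast h2
    exact hp2 ((Nat.prime_dvd_prime_iff_eq hp Nat.prime_two).mp this)
  have hDZ : Squarefree (D : ℤ) := Int.squarefree_natCast.mpr hD
  have hA := h.ha
  have hB := h.hb
  have hC := h.hc
  have hcopme : ¬ ((p : ℤ) ∣ m ∧ (p : ℤ) ∣ e) := by
    rintro ⟨h1, h3⟩
    exact hP.not_isUnit (h.cop.isUnit_of_dvd' h1 h3)
  have sq_dvd : ∀ z : ℤ, (p : ℤ) ∣ z ^ 2 → (p : ℤ) ∣ z := fun z hz => hP.dvd_of_dvd_pow hz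
  have f1 : (p : ℤ) ∣ a → (p : ℤ) ∣ b ∨ (p : ℤ) ∣ c := LCa_one hP h.sa h.sq
  have f2 : (p : ℤ) ∣ b → (p : ℤ) ∣ a ∨ (p : ℤ) ∣ c :=
    LCa_one hP h.sb (by have := h.sq; rwa [show b * a * c = a * b * c by ring])
  have f3 : (p : ℤ) ∣ c → (p : ℤ) ∣ a ∨ (p : ℤ) ∣ b :=
    LCa_one hP h.sc (by have := h.sq; rwa [show c * a * b = a * b * c by ring])
  have f4 : ¬ ((p : ℤ) ∣ a ∧ (p : ℤ) ∣ b ∧ (p : ℤ) ∣ c) := LCa_three hP h.sa h.sb h.sc h.sq
  have hma : (p : ℤ) ∣ a → (p : ℤ) ∣ m := fun ha => hA ▸ Dvd.dvd.mul_right ha _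
  have hDe : (p : ℤ) ∣ m → (p : ℤ) ∣ D * e ^ 2 → (p : ℤ) ∣ D := by
    intro hm hh
    rcases hP.dvd_or_dvd hh with h5 | h5
    · exact h5
    · exact absurd ⟨hm, sq_dvd e h5⟩ hcopme
  have f0 : (p : ℤ) ∣ a ∨ (p : ℤ) ∣ b ∨ (p : ℤ) ∣ c → (p : ℤ) ∣ D := by
    have key1 : (p : ℤ) ∣ a → (p : ℤ) ∣ b → (p : ℤ) ∣ D := by
      intro ha hb
      apply hDe (hma ha)
      have h5 : (p : ℤ) ∣ b * v ^ 2 := Dvd.dvd.mul_right hb _
      have := dvd_sub (hma ha) h5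
      rwa [← hB, sub_sub_cancel] at this
    have key2 : (p : ℤ) ∣ a → (p : ℤ) ∣ c → (p : ℤ) ∣ D := by
      intro ha hc
      apply hDe (hma ha)
      have h5 : (p : ℤ) ∣ c * w ^ 2 := Dvd.dvd.mul_right hc _
      have := dvd_sub h5 (hma ha)
      rwa [← hC, add_sub_cancel_left] at this
    have key3 : (p : ℤ) ∣ b → (p : ℤ) ∣ c → (p : ℤ) ∣ D := by
      intro hb hc
      have h5 : (p : ℤ) ∣ b * v ^ 2 := Dvd.dvd.mul_right hb _
      have h6 : (p : ℤ) ∣ c * w ^ 2 := Dvd.dvd.mul_right hc _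
      have h7 := dvd_sub h6 h5
      rw [← hB, ← hC] at h7
      have h8 : (p : ℤ) ∣ 2 * (D * e ^ 2) := by
        have e1 : m + (D : ℤ) * e ^ 2 - (m - (D : ℤ) * e ^ 2) = 2 * (D * e ^ 2) := by ring
        rwa [e1] at h7
      have h9 : (p : ℤ) ∣ D * e ^ 2 := (hP.dvd_or_dvd h8).resolve_left h2
      rcases hP.dvd_or_dvd h9 with h10 | h10
      · exact h10
      · exfalso
        apply hcopme
        refine ⟨?_, sq_dvd e h10⟩
        have h11 : m = b * v ^ 2 + D * e ^ 2 := by linear_combination hB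
        rw [h11]
        exact dvd_add h5 h9
    rintro (ha | hb | hc)
    · rcases f1 ha with hb | hc
      · exact key1 ha hb
      · exact key2 ha hc
    · rcases f2 hb with ha | hc
      · exact key1 ha hb
      · exact key3 hb hc
    · rcases f3 hc with ha | hb
      · exact key2 ha hc
      · exact key3 hb hc
  refine ⟨fun hh => by exact_mod_cast f0 hh, f1, f2, f3, f4, ?_, ?_, ?_, ?_⟩
  · intro hpD ha hb hc
    have hpD' : (p : ℤ) ∣ D := by exact_mod_cast hpD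
    obtain ⟨D1, hD1⟩ := hpD'
    have hD1' : ¬ (p : ℤ) ∣ D1 := LCa_sf hP hDZ hD1
    have hm : ¬ (p : ℤ) ∣ m := by
      intro hm
      have hu : (p : ℤ) ∣ u := by
        rw [hA] at hm
        exact sq_dvd u ((hP.dvd_or_dvd hm).resolve_left ha)
      have hv : (p : ℤ) ∣ v := by
        have h5 : (p : ℤ) ∣ b * v ^ 2 := by
          rw [← hB]
          refine dvd_sub hm (Dvd.dvd.mul_right ?_ _)
          exact ⟨D1, hD1⟩
        exact sq_dvd v ((hP.dvd_or_dvd h5).resolve_left hb)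
      obtain ⟨u', rfl⟩ := hu
      obtain ⟨v', rfl⟩ := hv
      have h6 : (p : ℤ) * (D1 * e ^ 2) = p * (p * (a * u' ^ 2 - b * v' ^ 2)) := by
        have e1 : (D : ℤ) * e ^ 2 = a * (p * u') ^ 2 - b * (p * v') ^ 2 := by
          linear_combination (-1 : ℤ) * hB + hA
        rw [hD1] at e1
        linear_combination e1
      have h7 := mul_left_cancel₀ hP0 h6
      have h8 : (p : ℤ) ∣ D1 * e ^ 2 := ⟨_, h7⟩
      exact hcopme ⟨hm, sq_dvd e ((hP.dvd_or_dvd h8).resolve_left hD1')⟩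
    refine ⟨?_, ?_, ?_⟩
    · refine LCa_js hp (s := v * w) (t := m) ⟨-(p * D1 ^ 2 * e ^ 4), ?_⟩ hm
      have e1 : b * c * (v * w) ^ 2 = (b * v ^ 2) * (c * w ^ 2) := by ring
      rw [e1, ← hB, ← hC, hD1]
      ring
    · refine LCa_js hp (s := u * w) (t := m) ⟨m * D1 * e ^ 2, ?_⟩ hm
      have e1 : a * c * (u * w) ^ 2 = (a * u ^ 2) * (c * w ^ 2) := by ring
      rw [e1, ← hA, ← hC, hD1]
      ring
    · refine LCa_js hp (s := u * v) (t := m) ⟨-(m * D1 * e ^ 2), ?_⟩ hm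
      have e1 : a * b * (u * v) ^ 2 = (a * u ^ 2) * (b * v ^ 2) := by ring
      rw [e1, ← hA, ← hB, hD1]
      ring
  · intro D' b' c' hD' hb' hc'
    have hD1' : ¬ (p : ℤ) ∣ D' := LCa_sf hP hDZ hD'
    have pb : (p : ℤ) ∣ b := ⟨b', hb'⟩
    have pc : (p : ℤ) ∣ c := ⟨c', hc'⟩
    have pD : (p : ℤ) ∣ D := ⟨D', hD'⟩
    have pa : ¬ (p : ℤ) ∣ a := fun pa => f4 ⟨pa, pb, pc⟩
    have hm : (p : ℤ) ∣ m := by
      have h11 : m = b * v ^ 2 + D * e ^ 2 := by linear_combination hB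
      rw [h11]
      exact dvd_add (Dvd.dvd.mul_right pb _) (Dvd.dvd.mul_right pD _)
    have he : ¬ (p : ℤ) ∣ e := fun he => hcopme ⟨hm, he⟩
    have hu : (p : ℤ) ∣ u := by
      rw [hA] at hm
      exact sq_dvd u ((hP.dvd_or_dvd hm).resolve_left pa)
    obtain ⟨u', rfl⟩ := hu
    have hDe : ¬ (p : ℤ) ∣ D' * e := fun hh => by
      rcases hP.dvd_or_dvd hh with h5 | h5
      · exact hD1' h5
      · exact he h5
    have k1 : b' * v ^ 2 = p * (a * u' ^ 2) - D' * e ^ 2 := by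
      apply mul_left_cancel₀ hP0
      have e1 := hB
      rw [hA, hD', hb'] at e1
      linear_combination (-1 : ℤ) * e1
    have k2 : c' * w ^ 2 = p * (a * u' ^ 2) + D' * e ^ 2 := by
      apply mul_left_cancel₀ hP0
      have e1 := hC
      rw [hA, hD', hc'] at e1
      linear_combination (-1 : ℤ) * e1
    refine ⟨LCa_js hp (s := v) (t := D' * e) ⟨-(D' * (a * u' ^ 2)), ?_⟩ hDe,
      LCa_js hp (s := w) (t := D' * e) ⟨D' * (a * u' ^ 2), ?_⟩ hDe⟩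
    · linear_combination (-D') * k1
    · linear_combination D' * k2
  · intro D' a' c' hD' ha' hc'
    have hD1' : ¬ (p : ℤ) ∣ D' := LCa_sf hP hDZ hD'
    have pa : (p : ℤ) ∣ a := ⟨a', ha'⟩
    have pc : (p : ℤ) ∣ c := ⟨c', hc'⟩
    have pD : (p : ℤ) ∣ D := ⟨D', hD'⟩
    have pb : ¬ (p : ℤ) ∣ b := fun pb => f4 ⟨pa, pb, pc⟩
    have hm : (p : ℤ) ∣ m := hma pa
    have he : ¬ (p : ℤ) ∣ e := fun he => hcopme ⟨hm, he⟩
    have hv : (p : ℤ) ∣ v := by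
      have h5 : (p : ℤ) ∣ b * v ^ 2 := by
        rw [← hB]
        exact dvd_sub hm (Dvd.dvd.mul_right pD _)
      exact sq_dvd v ((hP.dvd_or_dvd h5).resolve_left pb)
    obtain ⟨v', rfl⟩ := hv
    have hDe : ¬ (p : ℤ) ∣ D' * e := fun hh => by
      rcases hP.dvd_or_dvd hh with h5 | h5
      · exact hD1' h5
      · exact he h5
    have h2De : ¬ (p : ℤ) ∣ 2 * D' * e := fun hh => by
      rw [mul_assoc] at hh
      rcases hP.dvd_or_dvd hh with h5 | h5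
      · exact h2 h5
      · exact hDe h5
    have k1 : a' * u ^ 2 = p * (b * v' ^ 2) + D' * e ^ 2 := by
      apply mul_left_cancel₀ hP0
      have e1 := hB
      rw [hA, hD', ha'] at e1
      linear_combination e1
    have k2 : c' * w ^ 2 = p * (b * v' ^ 2) + 2 * D' * e ^ 2 := by
      apply mul_left_cancel₀ hP0
      have e1 := hC
      have e2 := hB
      rw [hD', hc'] at e1
      rw [hD'] at e2
      linear_combination e2 - e1
    refine ⟨LCa_js hp (s := u) (t := D' * e) ⟨D' * (b * v' ^ 2), ?_⟩ hDe,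
      LCa_js hp (s := w) (t := 2 * D' * e) ⟨2 * D' * (b * v' ^ 2), ?_⟩ h2De⟩
    · linear_combination D' * k1
    · linear_combination (2 * D') * k2
  · intro D' a' b' hD' ha' hb'
    have hD1' : ¬ (p : ℤ) ∣ D' := LCa_sf hP hDZ hD'
    have pa : (p : ℤ) ∣ a := ⟨a', ha'⟩
    have pb : (p : ℤ) ∣ b := ⟨b', hb'⟩
    have pD : (p : ℤ) ∣ D := ⟨D', hD'⟩
    have pc : ¬ (p : ℤ) ∣ c := fun pc => f4 ⟨pa, pb, pc⟩
    have hm : (p : ℤ) ∣ m := hma pa
    have he : ¬ (p : ℤ) ∣ e := fun he => hcopme ⟨hm, he⟩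
    have hw : (p : ℤ) ∣ w := by
      have h5 : (p : ℤ) ∣ c * w ^ 2 := by
        rw [← hC]
        exact dvd_add hm (Dvd.dvd.mul_right pD _)
      exact sq_dvd w ((hP.dvd_or_dvd h5).resolve_left pc)
    obtain ⟨w', rfl⟩ := hw
    have hDe : ¬ (p : ℤ) ∣ D' * e := fun hh => by
      rcases hP.dvd_or_dvd hh with h5 | h5
      · exact hD1' h5
      · exact he h5
    have h2De : ¬ (p : ℤ) ∣ 2 * D' * e := fun hh => by
      rw [mul_assoc] at hh
      rcases hP.dvd_or_dvd hh with h5 | h5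
      · exact h2 h5
      · exact hDe h5
    have k1 : a' * u ^ 2 = p * (c * w' ^ 2) - D' * e ^ 2 := by
      apply mul_left_cancel₀ hP0
      have e1 := hC
      rw [hA, hD', ha'] at e1
      linear_combination e1
    have k2 : b' * v ^ 2 = p * (c * w' ^ 2) - 2 * D' * e ^ 2 := by
      apply mul_left_cancel₀ hP0
      have e1 := hB
      have e2 := hC
      rw [hD', hb'] at e1
      rw [hD'] at e2
      linear_combination e2 - e1
    refine ⟨LCa_js hp (s := u) (t := D' * e) ⟨-(D' * (c * w' ^ 2)), ?_⟩ hDe,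
      LCa_js hp (s := v) (t := 2 * D' * e) ⟨-(2 * D' * (c * w' ^ 2)), ?_⟩ h2De⟩
    · linear_combination (-D') * k1
    · linear_combination (-(2 * D')) * k2

end Pool.Agent.AV
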