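import Pool.Agent.Lib_helper21.AV.Defs2
import Pool.Agent.Lib_helper21.AV.W.LCa

/-! # LCb: the factorisation attached to a point -/

set_option autoImplicit false

namespace Pool.Agent.AV

open Finset

theorem LCb_tr {p : ℕ} (hp : p.Prime) {X Y s t : ℤ} (h : js X p = 1)
    (hXY : X * s ^ 2 = Y * t ^ 2) (hs : ¬ (p : ℤ) ∣ s) (ht : ¬ (p : ℤ) ∣ t) : js Y p = 1 := by
  have hP : Prime (p : ℤ) := Nat.prime_iff_prime_int.mp hp
  have hcop : ∀ z : ℤ, ¬ (p : ℤ) ∣ z → Int.gcd z p = 1 := by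
    intro z hz
    have := (Prime.coprime_iff_not_dvd hP).mpr hz
    exact (Int.isCoprime_iff_gcd_eq_one.mp this.symm)
  have e1 : jacobiSym (s ^ 2) p = 1 := jacobiSym.sq_one' (hcop s hs)
  have e2 : jacobiSym (t ^ 2) p = 1 := jacobiSym.sq_one' (hcop t ht)
  have e3 : jacobiSym (X * s ^ 2) p = jacobiSym (Y * t ^ 2) p := by rw [hXY]
  rw [jacobiSym.mul_left, jacobiSym.mul_left, e1, e2, mul_one, mul_one] at e3
  unfold js at h ⊢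
  rw [← e3]
  exact h

theorem LCb_F4 {k : ℤ} (hk : Squarefree k) (h : ∀ p : ℕ, p.Prime → p ≠ 2 → ¬ (p : ℤ) ∣ k) :
    k ∈ F4 := by
  have hn : Squarefree k.natAbs := Int.squarefree_natAbs.mpr hk
  have h1 : k.natAbs.primeFactors ⊆ {2} := by
    intro p hp
    rw [Finset.mem_singleton]
    by_contra hne
    have hp' := Nat.mem_primeFactors.mp hp
    exact h p hp'.1 hne (Int.natCast_dvd.mpr hp'.2.1)
  have h2 := Nat.prod_primeFactors_of_squarefree hn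
  rcases Finset.subset_singleton_iff.mp h1 with h3 | h3
  · rw [h3] at h2
    simp only [Finset.prod_empty] at h2
    rcases Int.natAbs_eq k with h4 | h4
    · rw [← h2] at h4
      rw [h4]
      decide
    · rw [← h2] at h4
      rw [h4]
      decide
  · rw [h3] at h2
    simp only [Finset.prod_singleton] at h2
    rcases Int.natAbs_eq k with h4 | h4
    · rw [← h2] at h4
      rw [h4]
      decide
    · rw [← h2] at h4
      rw [h4]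
      decide

/-- plus or minus a power of two -/
def LCb_Q (k : ℤ) : Prop := ∃ (σ : ℤ) (j : ℕ), (σ = 1 ∨ σ = -1) ∧ k = σ * 2 ^ j

theorem LCb_Q_mul {k l : ℤ} (hk : LCb_Q k) (hl : LCb_Q l) : LCb_Q (k * l) := by
  obtain ⟨σ, j, hσ, rfl⟩ := hk
  obtain ⟨τ, i, hτ, rfl⟩ := hl
  refine ⟨σ * τ, j + i, ?_, by ring⟩
  rcases hσ with rfl | rfl <;> rcases hτ with rfl | rfl <;> norm_num

theorem LCb_Q_neg {k : ℤ} (hk : LCb_Q k) : LCb_Q (-k) := by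
  obtain ⟨σ, j, hσ, rfl⟩ := hk
  refine ⟨-σ, j, ?_, by ring⟩
  rcases hσ with rfl | rfl <;> norm_num

theorem LCb_Q_two : LCb_Q 2 := ⟨1, 1, Or.inl rfl, by norm_num⟩

theorem LCb_Q_F4 {k : ℤ} (hk : k ∈ F4) : LCb_Q k := by
  unfold F4 at hk
  simp only [Finset.mem_insert, Finset.mem_singleton] at hk
  rcases hk with rfl | rfl | rfl | rfl
  · exact ⟨1, 0, Or.inl rfl, by norm_num⟩
  · exact ⟨-1, 0, Or.inr rfl, by norm_num⟩
  · exact ⟨1, 1, Or.inl rfl, by norm_num⟩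
  · exact ⟨-1, 1, Or.inr rfl, by norm_num⟩

theorem LCb_Q_ep (D : ℕ) : LCb_Q (ep D) := by
  unfold ep
  split_ifs
  · exact LCb_Q_two
  · exact ⟨1, 0, Or.inl rfl, by norm_num⟩

theorem LCb_n4 {k : ℤ} (hk : LCb_Q k) : ∃ t : ℕ, k = n4 k * (2 ^ t) ^ 2 := by
  obtain ⟨σ, j, hσ, hk⟩ := hk
  have h2 : (0 : ℤ) < 2 ^ j := by positivity
  have hs : k.sign = σ := by
    rw [hk, Int.sign_mul, Int.sign_eq_one_of_pos h2, mul_one]
    rcases hσ with rfl | rfl <;> rfl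
  have hn : k.natAbs = 2 ^ j := by
    rw [hk, Int.natAbs_mul, Int.natAbs_pow]
    rcases hσ with rfl | rfl <;> simp
  have hf : k.natAbs.factorization 2 = j := by
    rw [hn, Nat.Prime.factorization_pow Nat.prime_two]
    simp
  unfold n4
  rw [hs, hf]
  rcases Nat.even_or_odd j with hj | hj
  · rw [if_pos hj]
    obtain ⟨t, rfl⟩ := hj
    exact ⟨t, by rw [hk]; ring⟩
  · rw [if_neg (Nat.not_even_iff_odd.mpr hj)]
    obtain ⟨t, rfl⟩ := hj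
    exact ⟨t, by rw [hk]; ring⟩

theorem LCb_cond (κ : V → ℤ) (d : Fin 4 → ℕ)
    (h0 : ∀ p ∈ (d 0).primeFactors, js (κ (0, 1) * (d 2 * d 3)) p = 1 ∧
      js (κ (0, 2) * (d 1 * d 3)) p = 1 ∧ js (κ (0, 3) * (d 1 * d 2)) p = 1)
    (h1 : ∀ p ∈ (d 1).primeFactors, js (κ (1, 0) * (d 2 * d 3)) p = 1 ∧
      js (κ (1, 2) * (d 0 * d 3)) p = 1 ∧ js (κ (1, 3) * (d 0 * d 2)) p = 1)
    (h2 : ∀ p ∈ (d 2).primeFactors, js (κ (2, 0) * (d 1 * d 3)) p = 1 ∧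
      js (κ (2, 1) * (d 0 * d 3)) p = 1 ∧ js (κ (2, 3) * (d 0 * d 1)) p = 1)
    (h3 : ∀ p ∈ (d 3).primeFactors, js (κ (3, 0) * (d 1 * d 2)) p = 1 ∧
      js (κ (3, 1) * (d 0 * d 2)) p = 1 ∧ js (κ (3, 2) * (d 0 * d 1)) p = 1) :
    cond κ d := by
  have key : ∀ i l : Fin 4, ∏ j ∈ univ.filter (fun j : Fin 4 => j ≠ i ∧ j ≠ l), (d j : ℤ) =
      (if (0 : Fin 4) ≠ i ∧ (0 : Fin 4) ≠ l then (d 0 : ℤ) else 1) *
      (if (1 : Fin 4) ≠ i ∧ (1 : Fin 4) ≠ l then (d 1 : ℤ) else 1) *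
      (if (2 : Fin 4) ≠ i ∧ (2 : Fin 4) ≠ l then (d 2 : ℤ) else 1) *
      (if (3 : Fin 4) ≠ i ∧ (3 : Fin 4) ≠ l then (d 3 : ℤ) else 1) := by
    intro i l
    rw [Finset.prod_filter, Fin.prod_univ_four]
  intro i l hl p hp
  rw [key i l]
  fin_cases i <;> fin_cases l <;> first | exact absurd rfl hl | skip
  · have := (h0 p hp).1
    simpa [mul_assoc] using this
  · have := (h0 p hp).2.1
    simpa [mul_assoc] using this
  · have := (h0 p hp).2.2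
    simpa [mul_assoc] using this
  · have := (h1 p hp).1
    simpa [mul_assoc] using this
  · have := (h1 p hp).2.1
    simpa [mul_assoc] using this
  · have := (h1 p hp).2.2
    simpa [mul_assoc] using this
  · have := (h2 p hp).1
    simpa [mul_assoc] using this
  · have := (h2 p hp).2.1
    simpa [mul_assoc] using this
  · have := (h2 p hp).2.2
    simpa [mul_assoc] using this
  · have := (h3 p hp).1
    simpa [mul_assoc] using this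
  · have := (h3 p hp).2.1
    simpa [mul_assoc] using this
  · have := (h3 p hp).2.2
    simpa [mul_assoc] using this

theorem LCb_op {D : ℕ} (hD : Squarefree D) : (D : ℤ) = ep D * (op D : ℤ) ∧ Odd (op D) ∧
    Squarefree (op D) := by
  unfold ep op
  split_ifs with hE
  · obtain ⟨n, hn⟩ := hE
    have e1 : D / 2 = n := by omega
    rw [e1]
    have h2 : D = 2 * n := by omega
    refine ⟨by rw [h2]; push_cast; ring, ?_, ?_⟩
    · rw [← Nat.not_even_iff_odd]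
      rintro ⟨r, hr⟩
      have h3 : 2 * 2 ∣ D := ⟨r, by omega⟩
      have := hD 2 h3
      exact absurd (Nat.isUnit_iff.mp this) (by norm_num)
    · exact hD.squarefree_of_dvd ⟨2, by omega⟩
  · exact ⟨by ring, Nat.not_even_iff_odd.mp hE, hD⟩

theorem local_cond {D : ℕ} (hD : Squarefree D) {x : ℚ} {m e a b c u v w : ℤ}
    (h : Crd D x m e a b c u v w) : ∃ (k1 k2 k3 : ℤ) (d : Fin 4 → ℕ), k1 ∈ F4 ∧ k2 ∈ F4 ∧ k3 ∈ F4 ∧
      a = k1 * (d 2 * d 3) ∧ b = k2 * (d 1 * d 3) ∧ c = k3 * (d 1 * d 2) ∧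
      d ∈ NN (kap (ep D) k1 k2 k3) (op D) := by
  obtain ⟨hDo, hodd, hsqf⟩ := LCb_op hD
  have ho0 : op D ≠ 0 := hsqf.ne_zero
  generalize hee : ep D = E at hDo ⊢
  generalize hoo : op D = o at hDo hodd hsqf ho0 ⊢
  have hE : LCb_Q E := hee ▸ LCb_Q_ep D
  have hE2 : E = 1 ∨ E = 2 := by
    rw [← hee]; unfold ep; split_ifs <;> simp
  have hDZ : Squarefree (D : ℤ) := Int.squarefree_natCast.mpr hD
  have lc := fun (p : ℕ) (hp : p.Prime) (hp2 : p ≠ 2) => lc_primes hD h p hp hp2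
  -- an odd prime dividing `D` divides `o`
  have hDodd : ∀ p : ℕ, p.Prime → p ≠ 2 → p ∣ D → p ∣ o := by
    intro p hp hp2 hpD
    have hP : Prime (p : ℤ) := Nat.prime_iff_prime_int.mp hp
    have h1 : (p : ℤ) ∣ E * (o : ℤ) := hDo ▸ (by exact_mod_cast hpD)
    rcases hP.dvd_or_dvd h1 with h2 | h2
    · exfalso
      rcases hE2 with h3 | h3
      · rw [h3] at h2
        exact hP.not_isUnit (isUnit_of_dvd_one h2)
      · rw [h3] at h2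
        have h4 : p ∣ 2 := by exact_mod_cast h2
        exact hp2 ((Nat.prime_dvd_prime_iff_eq hp Nat.prime_two).mp h4)
    · exact_mod_cast h2
  have hoD : ∀ p : ℕ, p ∣ o → p ∣ D := by
    intro p hpo
    have h1 : (p : ℤ) ∣ (D : ℤ) := by
      rw [hDo]
      exact Dvd.dvd.mul_left (by exact_mod_cast hpo) _
    exact_mod_cast h1
  have hne2 : ∀ p : ℕ, p ∣ o → p ≠ 2 := by
    rintro p hpo rfl
    exact (Nat.not_even_iff_odd.mpr hodd) (even_iff_two_dvd.mpr hpo)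
  obtain ⟨d3, hd3⟩ : ∃ d3, d3 = Nat.gcd (Nat.gcd a.natAbs b.natAbs) o := ⟨_, rfl⟩
  obtain ⟨d2, hd2⟩ : ∃ d2, d2 = Nat.gcd (Nat.gcd a.natAbs c.natAbs) o := ⟨_, rfl⟩
  obtain ⟨d1, hd1⟩ : ∃ d1, d1 = Nat.gcd (Nat.gcd b.natAbs c.natAbs) o := ⟨_, rfl⟩
  have d3a : (d3 : ℤ) ∣ a := Int.natCast_dvd.mpr
    (hd3 ▸ (Nat.gcd_dvd_left _ _).trans (Nat.gcd_dvd_left _ _))
  have d3b : (d3 : ℤ) ∣ b := Int.natCast_dvd.mpr
    (hd3 ▸ (Nat.gcd_dvd_left _ _).trans (Nat.gcd_dvd_right _ _))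
  have d3o : d3 ∣ o := hd3 ▸ Nat.gcd_dvd_right _ _
  have d2a : (d2 : ℤ) ∣ a := Int.natCast_dvd.mpr
    (hd2 ▸ (Nat.gcd_dvd_left _ _).trans (Nat.gcd_dvd_left _ _))
  have d2c : (d2 : ℤ) ∣ c := Int.natCast_dvd.mpr
    (hd2 ▸ (Nat.gcd_dvd_left _ _).trans (Nat.gcd_dvd_right _ _))
  have d2o : d2 ∣ o := hd2 ▸ Nat.gcd_dvd_right _ _
  have d1b : (d1 : ℤ) ∣ b := Int.natCast_dvd.mpr
    (hd1 ▸ (Nat.gcd_dvd_left _ _).trans (Nat.gcd_dvd_left _ _))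
  have d1c : (d1 : ℤ) ∣ c := Int.natCast_dvd.mpr
    (hd1 ▸ (Nat.gcd_dvd_left _ _).trans (Nat.gcd_dvd_right _ _))
  have d1o : d1 ∣ o := hd1 ▸ Nat.gcd_dvd_right _ _
  have in3 : ∀ p : ℕ, (p : ℤ) ∣ a → (p : ℤ) ∣ b → p ∣ o → p ∣ d3 := by
    intro p h1 h2 h3
    rw [hd3]
    exact Nat.dvd_gcd (Nat.dvd_gcd (Int.natCast_dvd.mp h1) (Int.natCast_dvd.mp h2)) h3
  have in2 : ∀ p : ℕ, (p : ℤ) ∣ a → (p : ℤ) ∣ c → p ∣ o → p ∣ d2 := by
    intro p h1 h2 h3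
    rw [hd2]
    exact Nat.dvd_gcd (Nat.dvd_gcd (Int.natCast_dvd.mp h1) (Int.natCast_dvd.mp h2)) h3
  have in1 : ∀ p : ℕ, (p : ℤ) ∣ b → (p : ℤ) ∣ c → p ∣ o → p ∣ d1 := by
    intro p h1 h2 h3
    rw [hd1]
    exact Nat.dvd_gcd (Nat.dvd_gcd (Int.natCast_dvd.mp h1) (Int.natCast_dvd.mp h2)) h3
  have castdvd : ∀ {p n : ℕ} {z : ℤ}, p ∣ n → (n : ℤ) ∣ z → (p : ℤ) ∣ z := by
    intro p n z h1 h2
    exact (Int.natCast_dvd_natCast.mpr h1).trans h2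
  have c23 : Nat.Coprime d2 d3 := by
    refine Nat.Coprime.symm (Nat.coprime_of_dvd ?_)
    intro p hp h1 h2
    exact (lc p hp (hne2 p (h1.trans d3o))).2.2.2.2.1
      ⟨castdvd h1 d3a, castdvd h1 d3b, castdvd h2 d2c⟩
  have c13 : Nat.Coprime d1 d3 := by
    refine Nat.Coprime.symm (Nat.coprime_of_dvd ?_)
    intro p hp h1 h2
    exact (lc p hp (hne2 p (h1.trans d3o))).2.2.2.2.1
      ⟨castdvd h1 d3a, castdvd h1 d3b, castdvd h2 d1c⟩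
  have c12 : Nat.Coprime d1 d2 := by
    refine Nat.Coprime.symm (Nat.coprime_of_dvd ?_)
    intro p hp h1 h2
    exact (lc p hp (hne2 p (h1.trans d2o))).2.2.2.2.1
      ⟨castdvd h1 d2a, castdvd h2 d1b, castdvd h1 d2c⟩
  have prodcast : ∀ {x y : ℕ} {z : ℤ}, Nat.Coprime x y → (x : ℤ) ∣ z → (y : ℤ) ∣ z →
      ((x : ℤ) * y) ∣ z := by
    intro x y z h1 h2 h3
    have := Nat.Coprime.mul_dvd_of_dvd_of_dvd h1 (Int.natCast_dvd.mp h2) (Int.natCast_dvd.mp h3)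
    have h4 := Int.natCast_dvd.mpr this
    push_cast at h4
    exact h4
  obtain ⟨k1, hk1⟩ := prodcast c23 d2a d3a
  obtain ⟨k2, hk2⟩ := prodcast c13 d1b d3b
  obtain ⟨k3, hk3⟩ := prodcast c12 d1c d2c
  have hod : d1 * d2 * d3 ∣ o :=
    Nat.Coprime.mul_dvd_of_dvd_of_dvd (Nat.Coprime.mul_left c13 c23)
      (Nat.Coprime.mul_dvd_of_dvd_of_dvd c12 d1o d2o) d3o
  obtain ⟨d0, hd0⟩ := hod
  have d0o : d0 ∣ o := ⟨d1 * d2 * d3, by rw [hd0]; ring⟩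
  have sqmul : ∀ {z : ℤ}, Squarefree z → ∀ p : ℕ, p.Prime → ¬ ((p : ℤ) * p ∣ z) := by
    intro z hz p hp hh
    exact (Nat.prime_iff_prime_int.mp hp).not_isUnit (hz _ hh)
  have hF1 : k1 ∈ F4 := by
    refine LCb_F4 (h.sa.squarefree_of_dvd ⟨_, (hk1.trans (mul_comm _ _))⟩) ?_
    intro p hp hp2 hpk
    have pa : (p : ℤ) ∣ a := hk1 ▸ Dvd.dvd.mul_left hpk _
    have l := lc p hp hp2
    have po := hDodd p hp hp2 (l.1 (Or.inl pa))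
    apply sqmul h.sa p hp
    rw [hk1]
    refine mul_dvd_mul ?_ hpk
    rcases l.2.1 pa with pb | pc
    · exact Dvd.dvd.mul_left (by exact_mod_cast in3 p pa pb po) _
    · exact Dvd.dvd.mul_right (by exact_mod_cast in2 p pa pc po) _
  have hF2 : k2 ∈ F4 := by
    refine LCb_F4 (h.sb.squarefree_of_dvd ⟨_, (hk2.trans (mul_comm _ _))⟩) ?_
    intro p hp hp2 hpk
    have pb : (p : ℤ) ∣ b := hk2 ▸ Dvd.dvd.mul_left hpk _
    have l := lc p hp hp2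
    have po := hDodd p hp hp2 (l.1 (Or.inr (Or.inl pb)))
    apply sqmul h.sb p hp
    rw [hk2]
    refine mul_dvd_mul ?_ hpk
    rcases l.2.2.1 pb with pa | pc
    · exact Dvd.dvd.mul_left (by exact_mod_cast in3 p pa pb po) _
    · exact Dvd.dvd.mul_right (by exact_mod_cast in1 p pb pc po) _
  have hF3 : k3 ∈ F4 := by
    refine LCb_F4 (h.sc.squarefree_of_dvd ⟨_, (hk3.trans (mul_comm _ _))⟩) ?_
    intro p hp hp2 hpk
    have pc : (p : ℤ) ∣ c := hk3 ▸ Dvd.dvd.mul_left hpk _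
    have l := lc p hp hp2
    have po := hDodd p hp hp2 (l.1 (Or.inr (Or.inr pc)))
    apply sqmul h.sc p hp
    rw [hk3]
    refine mul_dvd_mul ?_ hpk
    rcases l.2.2.2.1 pc with pa | pb
    · exact Dvd.dvd.mul_left (by exact_mod_cast in2 p pa pc po) _
    · exact Dvd.dvd.mul_right (by exact_mod_cast in1 p pb pc po) _
  have hQ1 := LCb_Q_F4 hF1
  have hQ2 := LCb_Q_F4 hF2
  have hQ3 := LCb_Q_F4 hF3
  have hQ2' := LCb_Q_two
  -- `D` as a product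
  have hDp : (D : ℤ) = E * (d1 * d2 * d3 * d0) := by
    rw [hDo, hd0]; push_cast; ring
  -- coprimality with `d0`
  have sqo : ∀ {p x y : ℕ}, p.Prime → x * y ∣ o → p ∣ x → p ∣ y → False := by
    intro p x y hp hxy hx hy
    have h1 : p * p ∣ o := (mul_dvd_mul hx hy).trans hxy
    exact hp.one_lt.ne' (Nat.isUnit_iff.mp (hsqf p h1))
  have nF4 : ∀ {p : ℕ} {k : ℤ}, p.Prime → p ≠ 2 → k ∈ F4 → ¬ (p : ℤ) ∣ k := by
    intro p k hp hp2 hk hpk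
    have h2 : (p : ℤ) ∣ 2 := by
      unfold F4 at hk
      simp only [Finset.mem_insert, Finset.mem_singleton] at hk
      rcases hk with rfl | rfl | rfl | rfl
      · exact hpk.trans (one_dvd _)
      · exact (Int.dvd_neg.mp hpk).trans (one_dvd _)
      · exact hpk
      · exact Int.dvd_neg.mp hpk
    have h4 : p ∣ 2 := by exact_mod_cast h2
    exact hp2 ((Nat.prime_dvd_prime_iff_eq hp Nat.prime_two).mp h4)
  have nmul : ∀ {p : ℕ} {x y : ℤ}, p.Prime → ¬ (p : ℤ) ∣ x → ¬ (p : ℤ) ∣ y →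
      ¬ (p : ℤ) ∣ x * y := by
    intro p x y hp hx hy hh
    rcases (Nat.prime_iff_prime_int.mp hp).dvd_or_dvd hh with h | h
    · exact hx h
    · exact hy h
  have n2 : ∀ {p : ℕ}, p.Prime → p ≠ 2 → ¬ (p : ℤ) ∣ 2 := by
    intro p hp hp2 h2
    have h4 : p ∣ 2 := by exact_mod_cast h2
    exact hp2 ((Nat.prime_dvd_prime_iff_eq hp Nat.prime_two).mp h4)
  have n2p : ∀ {p : ℕ} (t : ℕ), p.Prime → p ≠ 2 → ¬ (p : ℤ) ∣ 2 ^ t := by
    intro p t hp hp2 hh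
    exact n2 hp hp2 ((Nat.prime_iff_prime_int.mp hp).dvd_of_dvd_pow hh)
  have n1 : ∀ {p : ℕ}, p.Prime → ¬ (p : ℤ) ∣ 1 := by
    intro p hp hh
    exact (Nat.prime_iff_prime_int.mp hp).not_isUnit (isUnit_of_dvd_one hh)
  have nE : ∀ {p : ℕ}, p.Prime → p ≠ 2 → ¬ (p : ℤ) ∣ E := by
    intro p hp hp2
    rcases hE2 with h3 | h3
    · rw [h3]; exact n1 hp
    · rw [h3]; exact n2 hp hp2
  have jmul : ∀ {p : ℕ} {X Y : ℤ}, js X p = 1 → js Y p = 1 → js (X * Y) p = 1 := by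
    intro p X Y hX hY
    unfold js at *
    rw [jacobiSym.mul_left]
    push_cast
    rw [hX, hY, one_mul]
  refine ⟨k1, k2, k3, ![d0, d1, d2, d3], hF1, hF2, hF3, ?_, ?_, ?_, ?_⟩
  · show a = k1 * (d2 * d3)
    rw [hk1]; ring
  · show b = k2 * (d1 * d3)
    rw [hk2]; ring
  · show c = k3 * (d1 * d2)
    rw [hk3]; ring
  classical
  unfold NN
  rw [@Finset.mem_filter]
  refine ⟨Fintype.mem_piFinset.mpr ?_, ?_, ?_⟩
  · intro i
    rw [Nat.mem_divisors]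
    refine ⟨?_, ho0⟩
    fin_cases i
    · exact d0o
    · exact d1o
    · exact d2o
    · exact d3o
  · rw [Fin.prod_univ_four]
    show d0 * d1 * d2 * d3 = o
    rw [hd0]; ring
  apply LCb_cond
  · -- i = 0
    intro p hp
    have hp0 : p.Prime := (Nat.mem_primeFactors.mp hp).1
    have hpd : p ∣ d0 := (Nat.mem_primeFactors.mp hp).2.1
    have po := hpd.trans d0o
    have hp2 := hne2 p po
    have nd1 : ¬ (p : ℤ) ∣ d1 := fun hh =>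
      sqo (x := d1) (y := d0) hp0 ⟨d2 * d3, by rw [hd0]; ring⟩ (by exact_mod_cast hh) hpd
    have nd2 : ¬ (p : ℤ) ∣ d2 := fun hh =>
      sqo (x := d2) (y := d0) hp0 ⟨d1 * d3, by rw [hd0]; ring⟩ (by exact_mod_cast hh) hpd
    have nd3 : ¬ (p : ℤ) ∣ d3 := fun hh =>
      sqo (x := d3) (y := d0) hp0 ⟨d1 * d2, by rw [hd0]; ring⟩ (by exact_mod_cast hh) hpd
    have na : ¬ (p : ℤ) ∣ a := hk1 ▸ nmul hp0 (nmul hp0 nd2 nd3) (nF4 hp0 hp2 hF1)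
    have nb : ¬ (p : ℤ) ∣ b := hk2 ▸ nmul hp0 (nmul hp0 nd1 nd3) (nF4 hp0 hp2 hF2)
    have nc : ¬ (p : ℤ) ∣ c := hk3 ▸ nmul hp0 (nmul hp0 nd1 nd2) (nF4 hp0 hp2 hF3)
    obtain ⟨j1, j2, j3⟩ := (lc p hp0 hp2).2.2.2.2.2.1 (hoD p po) na nb nc
    refine ⟨?_, ?_, ?_⟩
    · obtain ⟨t, ht⟩ := LCb_n4 (LCb_Q_mul hQ2 hQ3)
      refine LCb_tr hp0 (s := 1) (t := 2 ^ t * d1) j1 ?_ (n1 hp0) (nmul hp0 (n2p t hp0 hp2) nd1)
      show b * c * 1 ^ 2 = n4 (k2 * k3) * ((d2 : ℤ) * d3) * (2 ^ t * d1) ^ 2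
      rw [hk2, hk3]
      linear_combination ((d1 : ℤ) ^ 2 * d2 * d3) * ht
    · obtain ⟨t, ht⟩ := LCb_n4 (LCb_Q_mul hQ1 hQ3)
      refine LCb_tr hp0 (s := 1) (t := 2 ^ t * d2) j2 ?_ (n1 hp0) (nmul hp0 (n2p t hp0 hp2) nd2)
      show a * c * 1 ^ 2 = n4 (k1 * k3) * ((d1 : ℤ) * d3) * (2 ^ t * d2) ^ 2
      rw [hk1, hk3]
      linear_combination ((d2 : ℤ) ^ 2 * d1 * d3) * ht
    · obtain ⟨t, ht⟩ := LCb_n4 (LCb_Q_mul hQ1 hQ2)
      refine LCb_tr hp0 (s := 1) (t := 2 ^ t * d3) j3 ?_ (n1 hp0) (nmul hp0 (n2p t hp0 hp2) nd3)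
      show a * b * 1 ^ 2 = n4 (k1 * k2) * ((d1 : ℤ) * d2) * (2 ^ t * d3) ^ 2
      rw [hk1, hk2]
      linear_combination ((d3 : ℤ) ^ 2 * d1 * d2) * ht
  · -- i = 1
    intro p hp
    have hp0 : p.Prime := (Nat.mem_primeFactors.mp hp).1
    obtain ⟨d1', hd1'⟩ : p ∣ d1 := (Nat.mem_primeFactors.mp hp).2.1
    have hd1z : (d1 : ℤ) = p * d1' := by exact_mod_cast hd1'
    have hpd : p ∣ d1 := ⟨_, hd1'⟩
    have po := hpd.trans d1o
    have hp2 := hne2 p po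
    have nd0 : ¬ (p : ℤ) ∣ d0 := fun hh =>
      sqo (x := d1) (y := d0) hp0 ⟨d2 * d3, by rw [hd0]; ring⟩ hpd (by exact_mod_cast hh)
    have nd2 : ¬ (p : ℤ) ∣ d2 := fun hh =>
      sqo (x := d1) (y := d2) hp0 ⟨d0 * d3, by rw [hd0]; ring⟩ hpd (by exact_mod_cast hh)
    have nd3 : ¬ (p : ℤ) ∣ d3 := fun hh =>
      sqo (x := d1) (y := d3) hp0 ⟨d0 * d2, by rw [hd0]; ring⟩ hpd (by exact_mod_cast hh)
    have nd1' : ¬ (p : ℤ) ∣ d1' := fun hh =>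
      sqo (x := p) (y := d1') hp0 (hd1' ▸ d1o) dvd_rfl (by exact_mod_cast hh)
    obtain ⟨j1, j2⟩ := (lc p hp0 hp2).2.2.2.2.2.2.1 (E * (d1' * d2 * d3 * d0))
      (d1' * d3 * k2) (d1' * d2 * k3) (by rw [hDp, hd1z]; ring) (by rw [hk2, hd1z]; ring)
      (by rw [hk3, hd1z]; ring)
    refine ⟨?_, ?_, ?_⟩
    · obtain ⟨t, ht⟩ := LCb_n4 (LCb_Q_neg (LCb_Q_mul hQ2 hQ3))
      refine LCb_tr hp0 (s := 1) (t := 2 ^ t * (E * (d1' * d2 * d3 * d0) * d1')) (jmul j1 j2) ?_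
        (n1 hp0) (nmul hp0 (n2p t hp0 hp2) (nmul hp0 (nmul hp0 (nE hp0 hp2)
          (nmul hp0 (nmul hp0 (nmul hp0 nd1' nd2) nd3) nd0)) nd1'))
      show _ = n4 (-(k2 * k3)) * ((d2 : ℤ) * d3) * (2 ^ t * (E * (d1' * d2 * d3 * d0) * d1')) ^ 2
      linear_combination (((d2 : ℤ) * d3) * (E * (d1' * d2 * d3 * d0) * d1') ^ 2) * ht
    · obtain ⟨t, ht⟩ := LCb_n4 (LCb_Q_mul hE hQ3)
      refine LCb_tr hp0 (s := 1) (t := 2 ^ t * (d1' * d2)) j2 ?_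
        (n1 hp0) (nmul hp0 (n2p t hp0 hp2) (nmul hp0 nd1' nd2))
      show _ = n4 (E * k3) * ((d0 : ℤ) * d3) * (2 ^ t * (d1' * d2)) ^ 2
      linear_combination (((d0 : ℤ) * d3) * (d1' * d2) ^ 2) * ht
    · obtain ⟨t, ht⟩ := LCb_n4 (LCb_Q_neg (LCb_Q_mul hE hQ2))
      refine LCb_tr hp0 (s := 1) (t := 2 ^ t * (d1' * d3)) j1 ?_
        (n1 hp0) (nmul hp0 (n2p t hp0 hp2) (nmul hp0 nd1' nd3))
      show _ = n4 (-(E * k2)) * ((d0 : ℤ) * d2) * (2 ^ t * (d1' * d3)) ^ 2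
      linear_combination (((d0 : ℤ) * d2) * (d1' * d3) ^ 2) * ht
  · -- i = 2
    intro p hp
    have hp0 : p.Prime := (Nat.mem_primeFactors.mp hp).1
    obtain ⟨d2', hd2'⟩ : p ∣ d2 := (Nat.mem_primeFactors.mp hp).2.1
    have hd2z : (d2 : ℤ) = p * d2' := by exact_mod_cast hd2'
    have hpd : p ∣ d2 := ⟨_, hd2'⟩
    have po := hpd.trans d2o
    have hp2 := hne2 p po
    have nd0 : ¬ (p : ℤ) ∣ d0 := fun hh =>
      sqo (x := d2) (y := d0) hp0 ⟨d1 * d3, by rw [hd0]; ring⟩ hpd (by exact_mod_cast hh)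
    have nd1 : ¬ (p : ℤ) ∣ d1 := fun hh =>
      sqo (x := d2) (y := d1) hp0 ⟨d0 * d3, by rw [hd0]; ring⟩ hpd (by exact_mod_cast hh)
    have nd3 : ¬ (p : ℤ) ∣ d3 := fun hh =>
      sqo (x := d2) (y := d3) hp0 ⟨d0 * d1, by rw [hd0]; ring⟩ hpd (by exact_mod_cast hh)
    have nd2' : ¬ (p : ℤ) ∣ d2' := fun hh =>
      sqo (x := p) (y := d2') hp0 (hd2' ▸ d2o) dvd_rfl (by exact_mod_cast hh)
    obtain ⟨j1, j2⟩ := (lc p hp0 hp2).2.2.2.2.2.2.2.1 (E * (d1 * d2' * d3 * d0))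
      (d2' * d3 * k1) (d1 * d2' * k3) (by rw [hDp, hd2z]; ring) (by rw [hk1, hd2z]; ring)
      (by rw [hk3, hd2z]; ring)
    refine ⟨?_, ?_, ?_⟩
    · obtain ⟨t, ht⟩ := LCb_n4 (LCb_Q_mul (LCb_Q_mul hQ2' hQ1) hQ3)
      refine LCb_tr hp0 (s := 1) (t := 2 ^ t * (E * (d1 * d2' * d3 * d0) * d2')) (jmul j1 j2) ?_
        (n1 hp0) (nmul hp0 (n2p t hp0 hp2) (nmul hp0 (nmul hp0 (nE hp0 hp2)
          (nmul hp0 (nmul hp0 (nmul hp0 nd1 nd2') nd3) nd0)) nd2'))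
      show _ = n4 (2 * k1 * k3) * ((d1 : ℤ) * d3) * (2 ^ t * (E * (d1 * d2' * d3 * d0) * d2')) ^ 2
      linear_combination (((d1 : ℤ) * d3) * (E * (d1 * d2' * d3 * d0) * d2') ^ 2) * ht
    · obtain ⟨t, ht⟩ := LCb_n4 (LCb_Q_mul (LCb_Q_mul hQ2' hE) hQ3)
      refine LCb_tr hp0 (s := 1) (t := 2 ^ t * (d1 * d2')) j2 ?_
        (n1 hp0) (nmul hp0 (n2p t hp0 hp2) (nmul hp0 nd1 nd2'))
      show _ = n4 (2 * E * k3) * ((d0 : ℤ) * d3) * (2 ^ t * (d1 * d2')) ^ 2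
      linear_combination (((d0 : ℤ) * d3) * (d1 * d2') ^ 2) * ht
    · obtain ⟨t, ht⟩ := LCb_n4 (LCb_Q_mul hE hQ1)
      refine LCb_tr hp0 (s := 1) (t := 2 ^ t * (d2' * d3)) j1 ?_
        (n1 hp0) (nmul hp0 (n2p t hp0 hp2) (nmul hp0 nd2' nd3))
      show _ = n4 (E * k1) * ((d0 : ℤ) * d1) * (2 ^ t * (d2' * d3)) ^ 2
      linear_combination (((d0 : ℤ) * d1) * (d2' * d3) ^ 2) * ht
  · -- i = 3
    intro p hp
    have hp0 : p.Prime := (Nat.mem_primeFactors.mp hp).1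
    obtain ⟨d3', hd3'⟩ : p ∣ d3 := (Nat.mem_primeFactors.mp hp).2.1
    have hd3z : (d3 : ℤ) = p * d3' := by exact_mod_cast hd3'
    have hpd : p ∣ d3 := ⟨_, hd3'⟩
    have po := hpd.trans d3o
    have hp2 := hne2 p po
    have nd0 : ¬ (p : ℤ) ∣ d0 := fun hh =>
      sqo (x := d3) (y := d0) hp0 ⟨d1 * d2, by rw [hd0]; ring⟩ hpd (by exact_mod_cast hh)
    have nd1 : ¬ (p : ℤ) ∣ d1 := fun hh =>
      sqo (x := d3) (y := d1) hp0 ⟨d0 * d2, by rw [hd0]; ring⟩ hpd (by exact_mod_cast hh)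
    have nd2 : ¬ (p : ℤ) ∣ d2 := fun hh =>
      sqo (x := d3) (y := d2) hp0 ⟨d0 * d1, by rw [hd0]; ring⟩ hpd (by exact_mod_cast hh)
    have nd3' : ¬ (p : ℤ) ∣ d3' := fun hh =>
      sqo (x := p) (y := d3') hp0 (hd3' ▸ d3o) dvd_rfl (by exact_mod_cast hh)
    obtain ⟨j1, j2⟩ := (lc p hp0 hp2).2.2.2.2.2.2.2.2 (E * (d1 * d2 * d3' * d0))
      (d2 * d3' * k1) (d1 * d3' * k2) (by rw [hDp, hd3z]; ring) (by rw [hk1, hd3z]; ring)
      (by rw [hk2, hd3z]; ring)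
    refine ⟨?_, ?_, ?_⟩
    · obtain ⟨t, ht⟩ := LCb_n4 (LCb_Q_mul (LCb_Q_mul hQ2' hQ1) hQ2)
      refine LCb_tr hp0 (s := 1) (t := 2 ^ t * (E * (d1 * d2 * d3' * d0) * d3')) (jmul j1 j2) ?_
        (n1 hp0) (nmul hp0 (n2p t hp0 hp2) (nmul hp0 (nmul hp0 (nE hp0 hp2)
          (nmul hp0 (nmul hp0 (nmul hp0 nd1 nd2) nd3') nd0)) nd3'))
      show _ = n4 (2 * k1 * k2) * ((d1 : ℤ) * d2) * (2 ^ t * (E * (d1 * d2 * d3' * d0) * d3')) ^ 2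
      linear_combination (((d1 : ℤ) * d2) * (E * (d1 * d2 * d3' * d0) * d3') ^ 2) * ht
    · obtain ⟨t, ht⟩ := LCb_n4 (LCb_Q_neg (LCb_Q_mul (LCb_Q_mul hQ2' hE) hQ2))
      refine LCb_tr hp0 (s := 1) (t := 2 ^ t * (d1 * d3')) j2 ?_
        (n1 hp0) (nmul hp0 (n2p t hp0 hp2) (nmul hp0 nd1 nd3'))
      show _ = n4 (-(2 * E * k2)) * ((d0 : ℤ) * d2) * (2 ^ t * (d1 * d3')) ^ 2
      linear_combination (((d0 : ℤ) * d2) * (d1 * d3') ^ 2) * ht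
    · obtain ⟨t, ht⟩ := LCb_n4 (LCb_Q_neg (LCb_Q_mul hE hQ1))
      refine LCb_tr hp0 (s := 1) (t := 2 ^ t * (d2 * d3')) j1 ?_
        (n1 hp0) (nmul hp0 (n2p t hp0 hp2) (nmul hp0 nd2 nd3'))
      show _ = n4 (-(E * k1)) * ((d0 : ℤ) * d1) * (2 ^ t * (d2 * d3')) ^ 2
      linear_combination (((d0 : ℤ) * d1) * (d2 * d3') ^ 2) * ht

end Pool.Agent.AV
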