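import Pool.Agent.Lib_helper21.AV.Defs2
import Pool.Agent.Lib_helper21.RB.Main2

/-! # RLa: finite generation -/

set_option autoImplicit false

namespace Pool.Agent.AV

open Finset WeierstrassCurve.Affine
open Pool.Agent.RB (W Pt)

/-- the coordinates of a point, the first one divided by `D` -/
noncomputable def RLa_co {D : ℚ} : Pt D → Option (ℚ × ℚ)
  | .zero => none
  | .some x y _ => some (x / D, y)

theorem RLa_co_inj {D : ℚ} (hD : D ≠ 0) : Function.Injective (RLa_co (D := D)) := by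
  rintro (_ | ⟨x, y, h⟩) (_ | ⟨x', y', h'⟩) hPQ
  · rfl
  · simp [RLa_co] at hPQ
  · simp [RLa_co] at hPQ
  · simp only [RLa_co, Option.some.injEq, Prod.mk.injEq] at hPQ
    obtain ⟨h1, h2⟩ := hPQ
    have h3 : x = x' := by
      rw [div_eq_div_iff hD hD] at h1
      exact mul_right_cancel₀ hD h1
    subst h3
    subst h2
    rfl

theorem RLa_sq_finite (c : ℚ) : {y : ℚ | y ^ 2 = c}.Finite := by
  by_cases h : ∃ y : ℚ, y ^ 2 = c
  · obtain ⟨y₀, hy₀⟩ := h
    refine (Set.toFinite {y₀, -y₀}).subset ?_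
    intro y hy
    change y ^ 2 = c at hy
    rw [← hy₀] at hy
    exact sq_eq_sq_iff_eq_or_eq_neg.1 hy
  · convert Set.finite_empty
    rw [Set.eq_empty_iff_forall_notMem]
    intro y hy
    exact h ⟨y, hy⟩

/-- the Northcott property -/
theorem RLa_northcott {D : ℚ} (hD : D ≠ 0) : Northcott (Pool.Agent.RB.hn (D := D)) := by
  constructor
  intro b
  have hS : {q : ℚ | Height.logHeight₁ q ≤ b}.Finite := Northcott.finite_le b
  have hT : (⋃ q ∈ {q : ℚ | Height.logHeight₁ q ≤ b},
      (fun y : ℚ => (some (q, y) : Option (ℚ × ℚ))) ''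
        {y : ℚ | y ^ 2 = (q * D) ^ 3 - D ^ 2 * (q * D)}).Finite :=
    hS.biUnion fun q _ => (RLa_sq_finite _).image _
  refine ((hT.insert none).preimage (RLa_co_inj hD).injOn).subset ?_
  rintro (_ | ⟨x, y, h⟩) hP
  · left
    rfl
  · right
    change Pool.Agent.RB.hn _ ≤ b at hP
    rw [Pool.Agent.RB.hn_some] at hP
    rw [Set.mem_iUnion₂]
    refine ⟨x / D, hP, y, ?_, rfl⟩
    change y ^ 2 = (x / D * D) ^ 3 - D ^ 2 * (x / D * D)
    rw [div_mul_cancel₀ x hD]
    exact (Pool.Agent.RB.nonsingular_iff' hD x y).1 h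

/-- If there are not arbitrarily large sets of points which are incongruent modulo the doubles,
then the group is finitely generated. -/
theorem fg_of_bdd {D : ℚ} (hD : D ≠ 0) (B : ℕ) (h : ∀ (n : ℕ) (Q : Fin n → Pt D),
    (∀ i j, i ≠ j → ¬ ∃ R : Pt D, Q i - Q j = R + R) → n ≤ B) : AddGroup.FG (Pt D) := by
  obtain ⟨C, hC⟩ := Pool.Agent.RB.parallelogram
  have hN : Northcott (Pool.Agent.RB.hn (D := D)) := RLa_northcott hD
  have hfin : Finite (Pt D ⧸ (nsmulAddMonoidHom (α := Pt D) 2).range) := by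
    by_contra hc
    rw [not_finite_iff_infinite] at hc
    let e := Infinite.natEmbedding (Pt D ⧸ (nsmulAddMonoidHom (α := Pt D) 2).range)
    have := h (B + 1) (fun i => Quotient.out (e (i : ℕ))) (by
      rintro i j hij ⟨R, hR⟩
      apply hij
      apply Fin.ext
      apply e.injective
      have h1 : (QuotientAddGroup.mk (Quotient.out (e (i : ℕ))) :
          Pt D ⧸ (nsmulAddMonoidHom (α := Pt D) 2).range) = e (i : ℕ) := Quotient.out_eq _
      have h2 : (QuotientAddGroup.mk (Quotient.out (e (j : ℕ))) :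
          Pt D ⧸ (nsmulAddMonoidHom (α := Pt D) 2).range) = e (j : ℕ) := Quotient.out_eq _
      rw [← h1, ← h2, QuotientAddGroup.eq]
      refine ⟨-R, ?_⟩
      change (2 : ℕ) • (-R) = _
      have h3 : -(Quotient.out (e (i : ℕ))) + Quotient.out (e (j : ℕ)) =
          -(Quotient.out (e (i : ℕ)) - Quotient.out (e (j : ℕ))) := by abel
      rw [h3, hR, two_nsmul, neg_add])
    omega
  refine AddCommGroup.fg_of_descent' (h := Pool.Agent.RB.hn (D := D)) (C := C)
    (AddSubgroup.finiteIndex_of_finite_quotient) (fun P => Pool.Agent.RB.hn_nonneg P) ?_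
  intro P Q
  have := hC D hD P Q
  rwa [show Pool.Agent.RB.hn (P + Q) + Pool.Agent.RB.hn (P - Q) -
    2 * (Pool.Agent.RB.hn P + Pool.Agent.RB.hn Q) = Pool.Agent.RB.hn (P + Q) +
      Pool.Agent.RB.hn (P - Q) - 2 * Pool.Agent.RB.hn P - 2 * Pool.Agent.RB.hn Q by ring]

end Pool.Agent.AV
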