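import Pool.Agent.Lib_helper21.AV.Defs2
import Pool.Agent.Lib_helper21.AV.W.RLa
import Pool.Agent.Lib_helper21.AV.W.GR

/-! # RLb: the rank is bounded by the number of labels (helper97) -/

set_option autoImplicit false

namespace Pool.Agent.AV

open Finset WeierstrassCurve.Affine
open Pool.Agent.RB (W Pt)

/-- the label of a point, with four more labels for the points of order at most two -/
noncomputable def RLb_f {D : ℚ} {α : Type} (lab : ℚ → ℚ → α) : Pt D → α ⊕ Fin 4
  | .zero => Sum.inr 0
  | .some x y _ => if y = 0 then (if x = 0 then Sum.inr 1 else if x = D then Sum.inr 2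
      else Sum.inr 3) else Sum.inl (lab x y)

theorem RLb_some {D : ℚ} {α : Type} (lab : ℚ → ℚ → α) (x y : ℚ)
    (h : (W D).toAffine.Nonsingular x y) : RLb_f lab (Point.some x y h : Pt D) =
      if y = 0 then (if x = 0 then Sum.inr 1 else if x = D then Sum.inr 2
      else Sum.inr 3) else Sum.inl (lab x y) := rfl

theorem RLb_zero {D : ℚ} {α : Type} (lab : ℚ → ℚ → α) :
    RLb_f lab (Point.zero : Pt D) = Sum.inr 0 := rfl

theorem RLb_x {D : ℚ} (hD : D ≠ 0) {x : ℚ} (h : (W D).toAffine.Nonsingular x 0) :
    x = 0 ∨ x = D ∨ x = -D := by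
  have E1 : (0 : ℚ) ^ 2 = x ^ 3 - D ^ 2 * x := (Pool.Agent.RB.nonsingular_iff' hD _ _).mp h
  have h1 : x * ((x - D) * (x + D)) = 0 := by linarith
  rcases mul_eq_zero.1 h1 with h2 | h2
  · exact Or.inl h2
  · rcases mul_eq_zero.1 h2 with h3 | h3
    · exact Or.inr (Or.inl (by linarith))
    · exact Or.inr (Or.inr (by linarith))

theorem RLb_inj {D : ℚ} (hD : D ≠ 0) {α : Type} (lab : ℚ → ℚ → α)
    (h2 : ∀ x1 y1 x2 y2 (g1 : (W D).toAffine.Nonsingular x1 y1)
      (g2 : (W D).toAffine.Nonsingular x2 y2), y1 ≠ 0 → y2 ≠ 0 → lab x1 y1 = lab x2 y2 →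
      ∃ R : Pt D, (Point.some x1 y1 g1 : Pt D) - Point.some x2 y2 g2 = R + R)
    (P Q : Pt D) (h : RLb_f lab P = RLb_f lab Q) : ∃ R : Pt D, P - Q = R + R := by
  rcases P with _ | ⟨x1, y1, g1⟩
  · rcases Q with _ | ⟨x2, y2, g2⟩
    · exact ⟨0, by rw [add_zero]; exact sub_self _⟩
    · exfalso
      rw [RLb_zero, RLb_some] at h
      split_ifs at h <;> simp at h
  · rcases Q with _ | ⟨x2, y2, g2⟩
    · exfalso
      rw [RLb_zero, RLb_some] at h
      split_ifs at h <;> simp at h
    · rw [RLb_some, RLb_some] at h
      by_cases c1 : y1 = 0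
      · by_cases c2 : y2 = 0
        · subst c1
          subst c2
          rw [if_pos rfl, if_pos rfl] at h
          have hx : x1 = x2 := by
            have d1 := RLb_x hD g1
            have d2 := RLb_x hD g2
            by_cases a1 : x1 = 0
            · by_cases a2 : x2 = 0
              · rw [a1, a2]
              · rw [if_pos a1, if_neg a2] at h
                split_ifs at h <;> simp at h
            · rw [if_neg a1] at h
              by_cases a2 : x2 = 0
              · rw [if_pos a2] at h
                split_ifs at h <;> simp at h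
              · rw [if_neg a2] at h
                by_cases b1 : x1 = D
                · by_cases b2 : x2 = D
                  · rw [b1, b2]
                  · rw [if_pos b1, if_neg b2] at h
                    simp at h
                · by_cases b2 : x2 = D
                  · rw [if_neg b1, if_pos b2] at h
                    simp at h
                  · have e1 : x1 = -D := by tauto
                    have e2 : x2 = -D := by tauto
                    rw [e1, e2]
          subst hx
          exact ⟨0, by rw [add_zero]; exact sub_self _⟩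
        · exfalso
          rw [if_pos c1, if_neg c2] at h
          split_ifs at h
      · by_cases c2 : y2 = 0
        · exfalso
          rw [if_neg c1, if_pos c2] at h
          split_ifs at h
        · rw [if_neg c1, if_neg c2] at h
          exact h2 _ _ _ _ g1 g2 c1 c2 (Sum.inl_injective h)

theorem rank_label {D : ℚ} (hD : D ≠ 0) {α : Type} (A : Finset α) (lab : ℚ → ℚ → α)
    (h1 : ∀ x y, (W D).toAffine.Nonsingular x y → y ≠ 0 → lab x y ∈ A)
    (h2 : ∀ x1 y1 x2 y2 (g1 : (W D).toAffine.Nonsingular x1 y1)
      (g2 : (W D).toAffine.Nonsingular x2 y2), y1 ≠ 0 → y2 ≠ 0 → lab x1 y1 = lab x2 y2 →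
      ∃ R : Pt D, (Point.some x1 y1 g1 : Pt D) - Point.some x2 y2 g2 = R + R)
    (n : ℕ) (P : Fin n → Pt D) (hP : LinearIndependent ℤ P) : 2 ^ n ≤ A.card + 4 := by
  classical
  have key : ∀ (N : ℕ) (Q : Fin N → Pt D),
      (∀ i j, i ≠ j → ¬ ∃ R : Pt D, Q i - Q j = R + R) → N ≤ A.card + 4 := by
    intro N Q hQ
    have h3 : (Finset.univ : Finset (Fin N)).card ≤
        (A.disjSum (Finset.univ : Finset (Fin 4))).card := by
      apply Finset.card_le_card_of_injOn (fun i => RLb_f lab (Q i))
      · intro i _
        simp only [Finset.mem_coe, Finset.mem_disjSum]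
        generalize Q i = P
        rcases P with _ | ⟨x, y, g⟩
        · right
          exact ⟨0, Finset.mem_univ _, rfl⟩
        · rw [RLb_some]
          by_cases hy : y = 0
          · right
            rw [if_pos hy]
            split_ifs
            · exact ⟨1, Finset.mem_univ _, rfl⟩
            · exact ⟨2, Finset.mem_univ _, rfl⟩
            · exact ⟨3, Finset.mem_univ _, rfl⟩
          · left
            rw [if_neg hy]
            exact ⟨_, h1 x y g hy, rfl⟩
      · intro i _ j _ hij
        by_contra hne
        exact hQ i j hne (RLb_inj hD lab h2 _ _ hij)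
    rw [Finset.card_disjSum, Finset.card_univ, Finset.card_univ, Fintype.card_fin,
      Fintype.card_fin] at h3
    exact h3
  have hfg : AddGroup.FG (Pt D) := fg_of_bdd hD (A.card + 4) key
  obtain ⟨Q, hQ⟩ := doubles n P hP
  exact key _ Q hQ

end Pool.Agent.AV
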