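import Pool.Agent.Lib_helper21.AV.Defs2
import Pool.Agent.Lib_helper21.AV.W.HA

/-! # SC: points of the same square classes (helper97) -/

set_option autoImplicit false

namespace Pool.Agent.AV

open Finset WeierstrassCurve.Affine
open Pool.Agent.RB (W Pt)

theorem SC_key {D x1 y1 x2 y2 : ℚ} (E1 : y1 ^ 2 = x1 ^ 3 - D ^ 2 * x1)
    (E2 : y2 ^ 2 = x2 ^ 3 - D ^ 2 * x2) (hx : x1 ≠ x2) (hy1 : y1 ≠ 0) (hy2 : y2 ≠ 0) (e : ℚ)
    (He : e ^ 3 = D ^ 2 * e) (h : ∃ t, (x1 - e) * (x2 - e) = t ^ 2) :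
    ∃ a : ℚ, ((y1 - y2) / (x1 - x2)) ^ 2 - x1 - x2 - e = a ^ 2 := by
  obtain ⟨t, ht⟩ := h
  have hs : x1 - x2 ≠ 0 := sub_ne_zero.2 hx
  have hu : x1 - e ≠ 0 := by
    intro h
    have h1 : x1 = e := by linarith
    apply hy1
    have : y1 ^ 2 = 0 := by rw [E1, h1, He]; ring
    exact pow_eq_zero_iff two_ne_zero |>.1 this
  have hv : x2 - e ≠ 0 := by
    intro h
    have h1 : x2 = e := by linarith
    apply hy2
    have : y2 ^ 2 = 0 := by rw [E2, h1, He]; ring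
    exact pow_eq_zero_iff two_ne_zero |>.1 this
  have ht0 : t ≠ 0 := by
    rintro rfl
    rcases mul_eq_zero.1 (ht.trans (by ring : (0 : ℚ) ^ 2 = 0)) with h | h
    · exact hu h
    · exact hv h
  refine ⟨(y2 * (x1 - e) - y1 * (x2 - e)) / (t * (x1 - x2)), ?_⟩
  have key : (x1 - e) * (x2 - e) * ((y1 - y2) ^ 2 - (x1 + x2 + e) * (x1 - x2) ^ 2) =
      (y2 * (x1 - e) - y1 * (x2 - e)) ^ 2 := by
    linear_combination (x1 - x2) * (x2 - e) * E1 - (x1 - x2) * (x1 - e) * E2 -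
      (x1 - x2) ^ 2 * He
  rw [div_pow _ (t * (x1 - x2)), mul_pow, ← key, ← ht]
  field_simp
  ring

theorem same_class {D : ℚ} (hD : D ≠ 0) (x1 y1 x2 y2 : ℚ)
    (h1 : (W D).toAffine.Nonsingular x1 y1) (h2 : (W D).toAffine.Nonsingular x2 y2)
    (hy1 : y1 ≠ 0) (hy2 : y2 ≠ 0) (ha : ∃ t, x1 * x2 = t ^ 2)
    (hb : ∃ t, (x1 - D) * (x2 - D) = t ^ 2) (hc : ∃ t, (x1 + D) * (x2 + D) = t ^ 2) :
    ∃ R : Pt D, (Point.some x1 y1 h1 : Pt D) - Point.some x2 y2 h2 = R + R := by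
  have E1 : y1 ^ 2 = x1 ^ 3 - D ^ 2 * x1 := (Pool.Agent.RB.nonsingular_iff' hD _ _).mp h1
  have E2 : y2 ^ 2 = x2 ^ 3 - D ^ 2 * x2 := (Pool.Agent.RB.nonsingular_iff' hD _ _).mp h2
  by_cases hx : x1 = x2
  · subst hx
    have hyy : y2 = y1 ∨ y2 = -y1 := by
      have : (y2 - y1) * (y2 + y1) = 0 := by linarith
      rcases mul_eq_zero.mp this with h | h
      · left; linarith
      · right; linarith
    rcases hyy with h | h
    · subst h
      exact ⟨0, by rw [add_zero]; exact sub_self _⟩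
    · subst h
      have hneg : (Point.some x1 (-y1) h2 : Pt D) = -Point.some x1 y1 h1 := by
        rw [Point.neg_some]
        congr 1
        simp [WeierstrassCurve.Affine.negY]
      exact ⟨Point.some x1 y1 h1, by rw [hneg, sub_neg_eq_add]⟩
  · obtain ⟨a, ha'⟩ := SC_key E1 E2 hx hy1 hy2 0 (by ring) (by simpa using ha)
    obtain ⟨b, hb'⟩ := SC_key E1 E2 hx hy1 hy2 D (by ring) hb
    obtain ⟨c, hc'⟩ := SC_key E1 E2 hx hy1 hy2 (-D) (by ring) (by
      obtain ⟨t, ht⟩ := hc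
      exact ⟨t, by rw [← ht]; ring⟩)
    have hsum : (Point.some x1 y1 h1 : Pt D) + Point.some x2 y2 h2 = _ := Point.add_of_X_ne hx
    have sl1 : (W D).toAffine.slope x1 x2 y1 y2 = (y1 - y2) / (x1 - x2) :=
      WeierstrassCurve.Affine.slope_of_X_ne hx
    have hX : (W D).toAffine.addX x1 x2 ((W D).toAffine.slope x1 x2 y1 y2) =
        ((y1 - y2) / (x1 - x2)) ^ 2 - x1 - x2 := by
      rw [sl1]
      simp [WeierstrassCurve.Affine.addX]
    obtain ⟨R, hR⟩ := halving hD a b c _ _ (nonsingular_add h1 h2 (fun h => hx h.1))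
      (by rw [hX, ← ha']; ring) (by rw [hX, ← hb']) (by rw [hX, ← hc']; ring)
    refine ⟨R - Point.some x2 y2 h2, ?_⟩
    have h3 : (Point.some x1 y1 h1 : Pt D) + Point.some x2 y2 h2 = R + R := by
      rw [hsum]
      exact hR
    have h4 : (Point.some x1 y1 h1 : Pt D) - Point.some x2 y2 h2 =
        (Point.some x1 y1 h1 + Point.some x2 y2 h2) - (Point.some x2 y2 h2 +
          Point.some x2 y2 h2) := by abel
    rw [h4, h3]
    abel

end Pool.Agent.AV
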