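import Pool.Agent.Lib_helper21.AV.Defs2
import Pool.Agent.Lib_helper21.AV.W.RLb
import Pool.Agent.Lib_helper21.AV.W.SC
import Pool.Agent.Lib_helper21.AV.W.LCb

/-! # RK: the rank bound -/

set_option autoImplicit false

namespace Pool.Agent.AV

open Finset WeierstrassCurve.Affine
open Pool.Agent.RB (W Pt)

/-- the labels `(k1, k2, k3, d)` of the points with abscissa `x` -/
def RK_lab (D : ℕ) (x : ℚ) (l : Σ _ : ℤ × ℤ × ℤ, Fin 4 → ℕ) : Prop :=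
  l.1 ∈ F4 ×ˢ F4 ×ˢ F4 ∧ l.2 ∈ NN (kap (ep D) l.1.1 l.1.2.1 l.1.2.2) (op D) ∧
    ∃ m e u v w : ℤ, Crd D x m e (l.1.1 * (l.2 2 * l.2 3)) (l.1.2.1 * (l.2 1 * l.2 3))
      (l.1.2.2 * (l.2 1 * l.2 2)) u v w

theorem RK_exists {D : ℕ} (hD : Squarefree D) (x y : ℚ)
    (h : (W (D : ℚ)).toAffine.Nonsingular x y) (hy : y ≠ 0) : ∃ l, RK_lab D x l := by
  obtain ⟨m, e, a, b, c, u, v, w, hC⟩ := exists_crd (Nat.pos_of_ne_zero hD.ne_zero) x y h hy
  obtain ⟨k1, k2, k3, d, h1, h2, h3, ha, hb, hc, hd⟩ := local_cond hD hC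
  refine ⟨⟨(k1, k2, k3), d⟩, ?_, hd, m, e, u, v, w, ?_⟩
  · exact Finset.mem_product.2 ⟨h1, Finset.mem_product.2 ⟨h2, h3⟩⟩
  · dsimp only
    rw [← ha, ← hb, ← hc]
    exact hC

theorem RK_sq {e e' a u u' p p' : ℤ} (he : e ≠ 0) (he' : e' ≠ 0) (hp : p = a * u ^ 2)
    (hp' : p' = a * u' ^ 2) :
    ∃ t : ℚ, ((p : ℚ) / (e : ℚ) ^ 2) * ((p' : ℚ) / (e' : ℚ) ^ 2) = t ^ 2 := by
  have h1 : (e : ℚ) ≠ 0 := by exact_mod_cast he
  have h2 : (e' : ℚ) ≠ 0 := by exact_mod_cast he'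
  refine ⟨(a * u * u' : ℚ) / (e * e'), ?_⟩
  rw [hp, hp']
  push_cast
  field_simp

theorem rank_bound {D : ℕ} (hD : Squarefree D) (n : ℕ) (P : Fin n → Pt (D : ℚ))
    (hP : LinearIndependent ℤ P) : (2 : ℝ) ^ n ≤ GG D := by
  classical
  have hD0 : (D : ℚ) ≠ 0 := by exact_mod_cast hD.ne_zero
  set A : Finset (Σ _ : ℤ × ℤ × ℤ, Fin 4 → ℕ) := (F4 ×ˢ F4 ×ˢ F4).sigma
    (fun k => NN (kap (ep D) k.1 k.2.1 k.2.2) (op D)) with hA
  set lab : ℚ → ℚ → (Σ _ : ℤ × ℤ × ℤ, Fin 4 → ℕ) := fun x _ =>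
    if h : ∃ l, RK_lab D x l then h.choose else ⟨(0, 0, 0), fun _ => 0⟩ with hlab
  have hspec : ∀ x y, (W (D : ℚ)).toAffine.Nonsingular x y → y ≠ 0 →
      RK_lab D x (lab x y) := by
    intro x y h hy
    have h1 := RK_exists hD x y h hy
    have h2 : lab x y = h1.choose := by
      simp only [hlab]
      rw [dif_pos h1]
    rw [h2]
    exact h1.choose_spec
  have key := rank_label hD0 A lab (fun x y h hy => by
      obtain ⟨h1, h2, -⟩ := hspec x y h hy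
      rw [hA]
      exact Finset.mem_sigma.2 ⟨h1, h2⟩) (fun x1 y1 x2 y2 g1 g2 hy1 hy2 heq => by
      obtain ⟨-, -, m, e, u, v, w, hC⟩ := hspec x1 y1 g1 hy1
      obtain ⟨-, -, m', e', u', v', w', hC'⟩ := hspec x2 y2 g2 hy2
      rw [← heq] at hC'
      have he : (e : ℚ) ≠ 0 := by exact_mod_cast hC.he
      have he' : (e' : ℚ) ≠ 0 := by exact_mod_cast hC'.he
      have ex1 : x1 - D = ((m - D * e ^ 2 : ℤ) : ℚ) / (e : ℚ) ^ 2 := by
        rw [hC.hx]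
        push_cast
        field_simp
      have ex2 : x2 - D = ((m' - D * e' ^ 2 : ℤ) : ℚ) / (e' : ℚ) ^ 2 := by
        rw [hC'.hx]
        push_cast
        field_simp
      have ex3 : x1 + D = ((m + D * e ^ 2 : ℤ) : ℚ) / (e : ℚ) ^ 2 := by
        rw [hC.hx]
        push_cast
        field_simp
      have ex4 : x2 + D = ((m' + D * e' ^ 2 : ℤ) : ℚ) / (e' : ℚ) ^ 2 := by
        rw [hC'.hx]
        push_cast
        field_simp
      refine same_class hD0 x1 y1 x2 y2 g1 g2 hy1 hy2 ?_ ?_ ?_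
      · have h1 := RK_sq hC.he hC'.he hC.ha hC'.ha
        rw [← hC.hx, ← hC'.hx] at h1
        exact h1
      · rw [ex1, ex2]
        exact RK_sq hC.he hC'.he hC.hb hC'.hb
      · rw [ex3, ex4]
        exact RK_sq hC.he hC'.he hC.hc hC'.hc) n P hP
  have hcard : (A.card : ℝ) = ∑ x ∈ F4, ∑ y ∈ F4, ∑ z ∈ F4,
      ((NN (kap (ep D) x y z) (op D)).card : ℝ) := by
    rw [hA, Finset.card_sigma]
    push_cast
    rw [Finset.sum_product]
    refine Finset.sum_congr rfl fun x _ => ?_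
    rw [Finset.sum_product]
  unfold GG
  rw [← hcard]
  have h3 : ((2 ^ n : ℕ) : ℝ) ≤ ((A.card + 4 : ℕ) : ℝ) := by exact_mod_cast key
  push_cast at h3
  linarith

end Pool.Agent.AV
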